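import Mathlib

set_option autoImplicit false

namespace Pool.Agent.SCD

open Filter Topology Set

/-- `SL(2,ℝ)` -/
abbrev SL := Matrix.SpecialLinearGroup (Fin 2) ℝ

/-- coordinates `(a,b,c)` of the symmetric matrix `[[a,b],[b,c]]` -/
abbrev V := ℝ × ℝ × ℝ

/-- the four entries of `g` -/
noncomputable def ea (g : SL) : ℝ := g.1 0 0
noncomputable def eb (g : SL) : ℝ := g.1 0 1
noncomputable def ec (g : SL) : ℝ := g.1 1 0
noncomputable def ed (g : SL) : ℝ := g.1 1 1

/-- `g X gᵀ` -/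
noncomputable def act (g : SL) (X : V) : V :=
  (ea g ^ 2 * X.1 + 2 * ea g * eb g * X.2.1 + eb g ^ 2 * X.2.2,
   ea g * ec g * X.1 + (ea g * ed g + eb g * ec g) * X.2.1 + eb g * ed g * X.2.2,
   ec g ^ 2 * X.1 + 2 * ec g * ed g * X.2.1 + ed g ^ 2 * X.2.2)

/-- polarisation of the determinant: `B X X = det X` -/
noncomputable def B (X Y : V) : ℝ := (X.1 * Y.2.2 + X.2.2 * Y.1) / 2 - X.2.1 * Y.2.1

/-- trace -/
noncomputable def tr (X : V) : ℝ := X.1 + X.2.2

/-- the 3x3 determinant of three vectors -/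
noncomputable def d3 (X Y Z : V) : ℝ :=
  X.1 * (Y.2.1 * Z.2.2 - Y.2.2 * Z.2.1) - X.2.1 * (Y.1 * Z.2.2 - Y.2.2 * Z.1)
    + X.2.2 * (Y.1 * Z.2.1 - Y.2.1 * Z.1)

/-- positive definite matrices -/
def Cone : Set V := {X | 0 < X.1 ∧ 0 < B X X}

/-- squared Frobenius norm -/
noncomputable def N (g : SL) : ℝ := ea g ^ 2 + eb g ^ 2 + ec g ^ 2 + ed g ^ 2

/-- the (spacelike) vector fixed by `g` -/
noncomputable def W (g : SL) : V := (- eb g, (ea g - ed g) / 2, ec g)

/-- `g gᵀ / tr (g gᵀ)` : the Klein model point of `g • i` -/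
noncomputable def u (g : SL) : V :=
  ((ea g ^ 2 + eb g ^ 2) / N g, (ea g * ec g + eb g * ed g) / N g, (ec g ^ 2 + ed g ^ 2) / N g)

/-- the boundary circle: rank one projections -/
def Bd : Type := {x : V // tr x = 1 ∧ B x x = 0}

noncomputable instance : MetricSpace Bd := by unfold Bd; infer_instance

instance : Coe Bd V := ⟨Subtype.val⟩

/-- the standard parametrisation of the boundary circle, of period `1` -/
noncomputable def bp (t : ℝ) : Bd :=
  ⟨(Real.cos (Real.pi * t) ^ 2, Real.cos (Real.pi * t) * Real.sin (Real.pi * t),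
    Real.sin (Real.pi * t) ^ 2), by
    unfold tr B
    constructor
    · simp only
      rw [add_comm]; exact Real.sin_sq_add_cos_sq _
    · simp only
      ring⟩

/-- cocompact discrete group all of whose nontrivial elements are hyperbolic -/
structure Good (Γ : Subgroup SL) : Prop where
  disc : ∀ R : ℝ, {g : SL | g ∈ Γ ∧ N g ≤ R}.Finite
  cocpt : ∃ C : ℝ, ∀ A : SL, ∃ γ ∈ Γ, N (γ⁻¹ * A) ≤ C
  hyp : ∀ g ∈ Γ, g ≠ 1 → 2 < |ea g + ed g|

end Pool.Agent.SCD
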