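import Mathlib
import Pool.Agent.SCD.Defs

set_option autoImplicit false

namespace Pool.Agent.SCD

open Filter Topology Set

theorem det_eq (g : SL) : ea g * ed g - eb g * ec g = 1 := by
  have h := g.2
  rw [Matrix.det_fin_two] at h
  exact h

theorem SL_ext {g h : SL} (h1 : ea g = ea h) (h2 : eb g = eb h) (h3 : ec g = ec h)
    (h4 : ed g = ed h) : g = h := by
  apply Subtype.ext
  ext i j
  fin_cases i <;> fin_cases j <;> assumption

@[simp] theorem ea_mul (g h : SL) : ea (g * h) = ea g * ea h + eb g * ec h := by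
  simp [ea, eb, ec, Matrix.mul_apply, Fin.sum_univ_two]
@[simp] theorem eb_mul (g h : SL) : eb (g * h) = ea g * eb h + eb g * ed h := by
  simp [ea, eb, ed, Matrix.mul_apply, Fin.sum_univ_two]
@[simp] theorem ec_mul (g h : SL) : ec (g * h) = ec g * ea h + ed g * ec h := by
  simp [ea, ec, ed, Matrix.mul_apply, Fin.sum_univ_two]
@[simp] theorem ed_mul (g h : SL) : ed (g * h) = ec g * eb h + ed g * ed h := by
  simp [eb, ec, ed, Matrix.mul_apply, Fin.sum_univ_two]

@[simp] theorem ea_one : ea 1 = 1 := by simp [ea]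
@[simp] theorem eb_one : eb 1 = 0 := by simp [eb]
@[simp] theorem ec_one : ec 1 = 0 := by simp [ec]
@[simp] theorem ed_one : ed 1 = 1 := by simp [ed]

@[simp] theorem ea_inv (g : SL) : ea g⁻¹ = ed g := by
  simp [ea, ed, Matrix.SpecialLinearGroup.coe_inv, Matrix.adjugate_fin_two]
@[simp] theorem eb_inv (g : SL) : eb g⁻¹ = - eb g := by
  simp [eb, Matrix.SpecialLinearGroup.coe_inv, Matrix.adjugate_fin_two]
@[simp] theorem ec_inv (g : SL) : ec g⁻¹ = - ec g := by
  simp [ec, Matrix.SpecialLinearGroup.coe_inv, Matrix.adjugate_fin_two]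
@[simp] theorem ed_inv (g : SL) : ed g⁻¹ = ea g := by
  simp [ea, ed, Matrix.SpecialLinearGroup.coe_inv, Matrix.adjugate_fin_two]

/-- the matrix with given entries -/
noncomputable def mk4 (a b c d : ℝ) (h : a * d - b * c = 1) : SL :=
  ⟨!![a, b; c, d], by rw [Matrix.det_fin_two]; simpa using h⟩

@[simp] theorem ea_mk4 (a b c d : ℝ) (h) : ea (mk4 a b c d h) = a := by simp [ea, mk4]
@[simp] theorem eb_mk4 (a b c d : ℝ) (h) : eb (mk4 a b c d h) = b := by simp [eb, mk4]
@[simp] theorem ec_mk4 (a b c d : ℝ) (h) : ec (mk4 a b c d h) = c := by simp [ec, mk4]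
@[simp] theorem ed_mk4 (a b c d : ℝ) (h) : ed (mk4 a b c d h) = d := by simp [ed, mk4]

theorem continuous_ea : Continuous ea := by unfold ea; fun_prop
theorem continuous_eb : Continuous eb := by unfold eb; fun_prop
theorem continuous_ec : Continuous ec := by unfold ec; fun_prop
theorem continuous_ed : Continuous ed := by unfold ed; fun_prop

theorem act_one (X : V) : act 1 X = X := by
  simp [act]

theorem act_mul (g h : SL) (X : V) : act (g * h) X = act g (act h X) := by
  unfold act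
  simp only [ea_mul, eb_mul, ec_mul, ed_mul, Prod.mk.injEq]
  refine ⟨?_, ?_, ?_⟩ <;> ring

theorem act_inv_act (g : SL) (X : V) : act g⁻¹ (act g X) = X := by
  rw [← act_mul, inv_mul_cancel, act_one]

theorem act_act_inv (g : SL) (X : V) : act g (act g⁻¹ X) = X := by
  rw [← act_mul, mul_inv_cancel, act_one]

theorem act_add (g : SL) (X Y : V) : act g (X + Y) = act g X + act g Y := by
  unfold act
  simp only [Prod.fst_add, Prod.snd_add, Prod.mk_add_mk, Prod.mk.injEq]
  refine ⟨?_, ?_, ?_⟩ <;> ring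

theorem act_smul (g : SL) (r : ℝ) (X : V) : act g (r • X) = r • act g X := by
  unfold act
  simp only [Prod.smul_fst, Prod.smul_snd, smul_eq_mul, Prod.smul_mk, Prod.mk.injEq]
  refine ⟨?_, ?_, ?_⟩ <;> ring

theorem act_sub (g : SL) (X Y : V) : act g (X - Y) = act g X - act g Y := by
  unfold act
  simp only [Prod.fst_sub, Prod.snd_sub, Prod.mk_sub_mk, Prod.mk.injEq]
  refine ⟨?_, ?_, ?_⟩ <;> ring

theorem continuous_act (g : SL) : Continuous (act g) := by unfold act; fun_prop

theorem B_act (g : SL) (X Y : V) : B (act g X) (act g Y) = B X Y := by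
  have h := det_eq g
  have : B (act g X) (act g Y) = (ea g * ed g - eb g * ec g) ^ 2 * B X Y := by
    unfold B act
    simp only
    ring
  rw [this, h]; ring

theorem B_comm (X Y : V) : B X Y = B Y X := by unfold B; ring

theorem B_add_left (X Y Z : V) : B (X + Y) Z = B X Z + B Y Z := by
  unfold B; simp only [Prod.fst_add, Prod.snd_add]; ring
theorem B_add_right (X Y Z : V) : B X (Y + Z) = B X Y + B X Z := by
  unfold B; simp only [Prod.fst_add, Prod.snd_add]; ring
theorem B_sub_left (X Y Z : V) : B (X - Y) Z = B X Z - B Y Z := by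
  unfold B; simp only [Prod.fst_sub, Prod.snd_sub]; ring
theorem B_sub_right (X Y Z : V) : B X (Y - Z) = B X Y - B X Z := by
  unfold B; simp only [Prod.fst_sub, Prod.snd_sub]; ring
theorem B_smul_left (r : ℝ) (X Y : V) : B (r • X) Y = r * B X Y := by
  unfold B; simp only [Prod.smul_fst, Prod.smul_snd, smul_eq_mul]; ring
theorem B_smul_right (r : ℝ) (X Y : V) : B X (r • Y) = r * B X Y := by
  unfold B; simp only [Prod.smul_fst, Prod.smul_snd, smul_eq_mul]; ring
theorem B_act_left (g : SL) (X Y : V) : B (act g X) Y = B X (act g⁻¹ Y) := by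
  rw [← B_act g X (act g⁻¹ Y), act_act_inv]

theorem continuous_B (Y : V) : Continuous (fun X => B X Y) := by unfold B; fun_prop
theorem continuous_BB : Continuous (fun X : V => B X X) := by unfold B; fun_prop
theorem continuous_B2 : Continuous (fun p : V × V => B p.1 p.2) := by unfold B; fun_prop

theorem d3_act (g : SL) (X Y Z : V) : d3 (act g X) (act g Y) (act g Z) = d3 X Y Z := by
  have h := det_eq g
  have : d3 (act g X) (act g Y) (act g Z) = (ea g * ed g - eb g * ec g) ^ 3 * d3 X Y Z := by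
    unfold d3 act
    simp only
    ring
  rw [this, h]; ring

theorem d3_swap12 (X Y Z : V) : d3 Y X Z = - d3 X Y Z := by unfold d3; ring
theorem d3_swap23 (X Y Z : V) : d3 X Z Y = - d3 X Y Z := by unfold d3; ring
theorem d3_rot (X Y Z : V) : d3 Y Z X = d3 X Y Z := by unfold d3; ring

theorem W_conj (g h : SL) : W (g * h * g⁻¹) = act g (W h) := by
  have hd := det_eq g
  unfold W act
  simp only [ea_mul, eb_mul, ec_mul, ed_mul, ea_inv, eb_inv, ec_inv, ed_inv, Prod.mk.injEq]
  refine ⟨?_, ?_, ?_⟩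
  · ring
  · linear_combination (-(ea h - ed h) / 2) * hd + (ea h - ed h) / 2 * (hd)
  · ring

theorem W_inv (g : SL) : W g⁻¹ = - W g := by
  unfold W
  simp only [ea_inv, eb_inv, ec_inv, ed_inv, Prod.neg_mk]
  congr 2
  ring

theorem act_W (g : SL) : act g (W g) = W g := by
  rw [← W_conj]; congr 1; group

theorem B_W (g : SL) : B (W g) (W g) = 1 - (ea g + ed g) ^ 2 / 4 := by
  have h := det_eq g
  unfold B W
  simp only
  linear_combination h

theorem B_self_act (g : SL) (x : V) :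
    B x (act g x) = ((ea g + ed g) ^ 2 / 2 - 1) * B x x + 2 * (B x (W g)) ^ 2 := by
  have h := det_eq g
  unfold B act W
  simp only
  linear_combination (-(x.1 * x.2.2) + x.2.1 ^ 2 + (x.1 * ec g + x.2.1 * (ea g - ed g) - x.2.2 * eb g) * 0) * h

theorem N_nonneg (g : SL) : 0 ≤ N g := by unfold N; positivity

theorem two_le_N (g : SL) : 2 ≤ N g := by
  have h := det_eq g
  unfold N
  nlinarith [sq_nonneg (ea g - ed g), sq_nonneg (eb g + ec g)]

theorem N_pos (g : SL) : 0 < N g := by linarith [two_le_N g]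

@[simp] theorem N_one : N 1 = 2 := by simp [N]; norm_num

@[simp] theorem N_inv (g : SL) : N g⁻¹ = N g := by simp [N]; ring

theorem N_mul_le (g h : SL) : N (g * h) ≤ N g * N h := by
  unfold N
  simp only [ea_mul, eb_mul, ec_mul, ed_mul]
  nlinarith [sq_nonneg (ea g * ec h - eb g * ea h), sq_nonneg (ea g * ed h - eb g * eb h),
    sq_nonneg (ec g * ec h - ed g * ea h), sq_nonneg (ec g * ed h - ed g * eb h)]

theorem N_le_mul_left (g h : SL) : N h ≤ N g * N (g * h) := by
  have := N_mul_le g⁻¹ (g * h)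
  rwa [N_inv, inv_mul_cancel_left] at this

theorem N_le_mul_right (g h : SL) : N g ≤ N (g * h) * N h := by
  have := N_mul_le (g * h) h⁻¹
  rwa [N_inv, mul_inv_cancel_right] at this

theorem continuous_N : Continuous N := by
  unfold N
  have := continuous_ea; have := continuous_eb; have := continuous_ec; have := continuous_ed
  fun_prop

theorem Cone_pos22 {X : V} (h : X ∈ Cone) : 0 < X.2.2 := by
  obtain ⟨h1, h2⟩ := h
  unfold B at h2
  by_contra h3
  push Not at h3
  nlinarith [sq_nonneg X.2.1, mul_nonneg h1.le (neg_nonneg.mpr h3)]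

theorem Cone_tr_pos {X : V} (h : X ∈ Cone) : 0 < tr X := add_pos h.1 (Cone_pos22 h)

theorem isOpen_Cone : IsOpen Cone := by
  apply IsOpen.inter
  · exact isOpen_lt continuous_const continuous_fst
  · exact isOpen_lt continuous_const continuous_BB

/-- the identity matrix -/
noncomputable def I0 : V := (1, 0, 1)

theorem I0_mem : I0 ∈ Cone := by constructor <;> simp [I0, B]

theorem B_I0 (X : V) : B X I0 = tr X / 2 := by simp [B, I0, tr]

theorem tr_act_I0 (g : SL) : tr (act g I0) = N g := by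
  simp [tr, act, I0, N]; ring

theorem u_eq (g : SL) : u g = (N g)⁻¹ • act g I0 := by
  unfold u act I0
  simp only [Prod.smul_mk, smul_eq_mul, Prod.mk.injEq]
  refine ⟨?_, ?_, ?_⟩ <;> ring

theorem tr_u (g : SL) : tr (u g) = 1 := by
  have h := (N_pos g).ne'
  unfold tr u
  simp only
  rw [← add_div, div_eq_one_iff_eq h]
  unfold N; ring

theorem B_u (g : SL) : B (u g) (u g) = 1 / (N g) ^ 2 := by
  rw [u_eq, B_smul_left, B_smul_right, B_act]
  have h := (N_pos g).ne'
  have : B I0 I0 = 1 := by simp [B, I0]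
  rw [this]; field_simp

/-! ### the boundary circle -/

theorem Bd.fst_nonneg (x : Bd) : 0 ≤ x.1.1 ∧ 0 ≤ x.1.2.2 := by
  obtain ⟨x, h1, h2⟩ := x
  unfold tr at h1; unfold B at h2
  simp only
  constructor <;> nlinarith [sq_nonneg x.2.1, sq_nonneg x.1, sq_nonneg x.2.2]

theorem Bd.ext {x y : Bd} (h : x.1 = y.1) : x = y := Subtype.ext h

theorem Bd.dist_def (x y : Bd) : dist x y = dist x.1 y.1 := rfl

theorem bp_val (t : ℝ) : (bp t).1 = (Real.cos (Real.pi * t) ^ 2,
    Real.cos (Real.pi * t) * Real.sin (Real.pi * t), Real.sin (Real.pi * t) ^ 2) := rfl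

theorem continuous_bp : Continuous bp := by
  apply Continuous.subtype_mk
  fun_prop

/-- closed half cone minus the origin contains the boundary points: positivity of the trace -/
theorem tr_act_pos (g : SL) {X : V} (h1 : 0 < tr X) (h2 : 0 ≤ B X X) : 0 < tr (act g X) := by
  have hd := det_eq g
  -- `tr (act g X) = 2 B (act g X) I0 = 2 B X (act g⁻¹ I0)`
  have h0 : 0 ≤ X.1 ∧ 0 ≤ X.2.2 := by
    unfold tr at h1; unfold B at h2
    constructor <;> nlinarith [sq_nonneg X.2.1, sq_nonneg X.1, sq_nonneg X.2.2]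
  have e : tr (act g X) = (ea g ^ 2 + ec g ^ 2) * X.1 + 2 * (ea g * eb g + ec g * ed g) * X.2.1 +
      (eb g ^ 2 + ed g ^ 2) * X.2.2 := by
    unfold tr act; simp only; ring
  have hP : 0 < ea g ^ 2 + ec g ^ 2 := by
    by_contra hc
    push Not at hc
    have : ea g = 0 := by nlinarith [sq_nonneg (ea g), sq_nonneg (ec g)]
    have : ec g = 0 := by nlinarith [sq_nonneg (ea g), sq_nonneg (ec g)]
    simp_all
  have hQ : 0 < eb g ^ 2 + ed g ^ 2 := by
    by_contra hc
    push Not at hc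
    have : eb g = 0 := by nlinarith [sq_nonneg (eb g), sq_nonneg (ed g)]
    have : ed g = 0 := by nlinarith [sq_nonneg (eb g), sq_nonneg (ed g)]
    simp_all
  have hR : (ea g * eb g + ec g * ed g) ^ 2 = (ea g ^ 2 + ec g ^ 2) * (eb g ^ 2 + ed g ^ 2) - 1 := by
    have : (ea g * ed g - eb g * ec g) ^ 2 = 1 := by rw [hd]; ring
    linear_combination -this
  rw [e]
  set P := ea g ^ 2 + ec g ^ 2
  set Q := eb g ^ 2 + ed g ^ 2
  set R := ea g * eb g + ec g * ed g
  have hX : X.2.1 ^ 2 ≤ X.1 * X.2.2 := by unfold B at h2; nlinarith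
  by_contra hc
  push Not at hc
  have h3 : P * X.1 + Q * X.2.2 ≤ -(2 * R * X.2.1) := by linarith
  have h4 : 0 ≤ P * X.1 + Q * X.2.2 := by
    have := mul_nonneg hP.le h0.1; have := mul_nonneg hQ.le h0.2; linarith
  have h5 : (P * X.1 + Q * X.2.2) ^ 2 ≤ (2 * R * X.2.1) ^ 2 := by nlinarith
  have h6 : (2 * R * X.2.1) ^ 2 = 4 * (P * Q - 1) * X.2.1 ^ 2 := by rw [mul_pow, mul_pow, hR]; ring
  have hPQ : 0 ≤ P * Q - 1 := by rw [← hR]; positivity
  have h7 : 4 * (P * Q - 1) * X.2.1 ^ 2 ≤ 4 * (P * Q - 1) * (X.1 * X.2.2) :=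
    mul_le_mul_of_nonneg_left hX (by linarith)
  have h8 : (P * X.1 - Q * X.2.2) ^ 2 + 4 * (X.1 * X.2.2) ≤ 0 := by nlinarith
  have h9 : 0 ≤ X.1 * X.2.2 := mul_nonneg h0.1 h0.2
  have h10 : P * X.1 = Q * X.2.2 := by nlinarith [sq_nonneg (P * X.1 - Q * X.2.2)]
  have h11 : X.1 * X.2.2 = 0 := by nlinarith [sq_nonneg (P * X.1 - Q * X.2.2)]
  have h12 : X.1 = 0 ∧ X.2.2 = 0 := by
    rcases mul_eq_zero.mp h11 with h | h
    · refine ⟨h, ?_⟩
      rw [h, mul_zero] at h10
      rcases mul_eq_zero.mp h10.symm with h' | h'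
      · exact absurd h' hQ.ne'
      · exact h'
    · refine ⟨?_, h⟩
      rw [h, mul_zero] at h10
      rcases mul_eq_zero.mp h10 with h' | h'
      · exact absurd h' hP.ne'
      · exact h'
  unfold tr at h1
  rw [h12.1, h12.2] at h1
  simp at h1

theorem act_mem_Cone (g : SL) {X : V} (h : X ∈ Cone) : act g X ∈ Cone := by
  have h1 := tr_act_pos g (Cone_tr_pos h) h.2.le
  have h2 : 0 < B (act g X) (act g X) := by rw [B_act]; exact h.2
  refine ⟨?_, h2⟩
  unfold tr at h1; unfold B at h2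
  by_contra hc
  push Not at hc
  nlinarith [sq_nonneg (act g X).2.1, sq_nonneg (act g X).1]

theorem Bd_tr_act_pos (g : SL) (x : Bd) : 0 < tr (act g x.1) :=
  tr_act_pos g (by rw [x.2.1]; norm_num) (by rw [x.2.2])

noncomputable instance : SMul SL Bd :=
  ⟨fun g x => ⟨(tr (act g x.1))⁻¹ • act g x.1, by
    have h := (Bd_tr_act_pos g x).ne'
    constructor
    · show (tr (act g x.1))⁻¹ • (act g x.1).1 + (tr (act g x.1))⁻¹ • (act g x.1).2.2 = 1
      rw [← smul_add, smul_eq_mul]
      exact inv_mul_cancel₀ h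
    · rw [B_smul_left, B_smul_right, B_act, x.2.2]; simp⟩⟩

theorem smul_val (g : SL) (x : Bd) : (g • x).1 = (tr (act g x.1))⁻¹ • act g x.1 := rfl

theorem tr_smul (r : ℝ) (X : V) : tr (r • X) = r * tr X := by
  unfold tr; simp only [Prod.smul_fst, Prod.smul_snd, smul_eq_mul]; ring

noncomputable instance : MulAction SL Bd where
  one_smul x := by
    apply Subtype.ext
    rw [smul_val, act_one, x.2.1]; simp
  mul_smul g h x := by
    apply Subtype.ext
    rw [smul_val, smul_val, smul_val, act_smul, tr_smul, act_mul, smul_smul]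
    congr 1
    have h1 := (Bd_tr_act_pos h x).ne'
    rw [mul_inv, inv_inv]
    field_simp

theorem continuous_tr : Continuous tr := by unfold tr; fun_prop

theorem continuous_smul' (g : SL) : Continuous (fun x : Bd => g • x) := by
  apply Continuous.subtype_mk
  have h1 : Continuous (fun x : Bd => act g x.1) := (continuous_act g).comp continuous_subtype_val
  exact ((continuous_tr.comp h1).inv₀ (fun x => (Bd_tr_act_pos g x).ne')).smul h1

instance : ContinuousConstSMul SL Bd := ⟨continuous_smul'⟩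

/-- the homeomorphism of the boundary given by `g` -/
noncomputable def sm (g : SL) : Bd ≃ₜ Bd := Homeomorph.smul g

@[simp] theorem sm_apply (g : SL) (x : Bd) : sm g x = g • x := rfl

theorem B_smul_sign (g : SL) (x : Bd) (w : V) :
    B (g • x).1 w = (tr (act g x.1))⁻¹ * B x.1 (act g⁻¹ w) := by
  rw [smul_val, B_smul_left, B_act_left]

instance : CompactSpace Bd := by
  have hK : IsCompact {x : V | tr x = 1 ∧ B x x = 0} := by
    apply Metric.isCompact_of_isClosed_isBounded
    · exact (isClosed_eq continuous_tr continuous_const).inter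
        (isClosed_eq continuous_BB continuous_const)
    · rw [isBounded_iff_forall_norm_le]
      refine ⟨1, fun x hx => ?_⟩
      obtain ⟨h1, h2⟩ := hx
      unfold tr at h1; unfold B at h2
      rw [Prod.norm_def, Prod.norm_def]
      simp only [Real.norm_eq_abs, sup_le_iff, abs_le]
      refine ⟨⟨?_, ?_⟩, ⟨?_, ?_⟩, ⟨?_, ?_⟩⟩ <;>
        nlinarith [sq_nonneg x.2.1, sq_nonneg x.1, sq_nonneg x.2.2, sq_nonneg (x.1 - 1/2),
          sq_nonneg (x.2.1 - 1), sq_nonneg (x.2.1 + 1)]
  exact isCompact_iff_compactSpace.mp hK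

/-- `h` is induced by an isomorphism between finite index subgroups of `Γ` -/
def IsComm (Γ : Subgroup SL) (h : Bd ≃ₜ Bd) : Prop :=
  ∃ H K : Subgroup SL, H ≤ Γ ∧ K ≤ Γ ∧ (H.subgroupOf Γ).index ≠ 0 ∧ (K.subgroupOf Γ).index ≠ 0 ∧
    ∃ φ : H ≃* K, ∀ (g : H) (x : Bd), h ((g : SL) • x) = ((φ g : K) : SL) • h x

/-- orientation preserving: there is an increasing lift -/
def OP (h : Bd ≃ₜ Bd) : Prop :=
  ∃ F : ℝ ≃o ℝ, (∀ t, F (t + 1) = F t + 1) ∧ ∀ t, h (bp t) = bp (F t)

/-- Voronoi (Dirichlet) cell of `act g P` in the cone -/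
def Cell (Γ : Subgroup SL) (P : V) (g : SL) : Set V :=
  {x | x ∈ Cone ∧ ∀ h ∈ Γ, B x (act g P) ≤ B x (act h P)}

/-- `P` is generic: no point of the cone is equidistant from four points of the orbit -/
def Gen (Γ : Subgroup SL) (P : V) : Prop :=
  P ∈ Cone ∧ ∀ a ∈ Γ, ∀ b ∈ Γ, ∀ c ∈ Γ, a ≠ 1 → b ≠ 1 → c ≠ 1 → a ≠ b → a ≠ c → b ≠ c →
    ∀ x ∈ Cone, ¬ (B x (act a P) = B x P ∧ B x (act b P) = B x P ∧ B x (act c P) = B x P)

/-- neighbours of the identity -/
def Nb (Γ : Subgroup SL) (P : V) : Set SL :=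
  {a | a ∈ Γ ∧ a ≠ 1 ∧ ∃ x, x ∈ Cell Γ P 1 ∧ x ∈ Cell Γ P a}

/-- `1, a, c` are three different cells with a common point -/
def Tri (Γ : Subgroup SL) (P : V) (a c : SL) : Prop :=
  a ∈ Γ ∧ c ∈ Γ ∧ a ≠ 1 ∧ c ≠ 1 ∧ a ≠ c ∧ ∃ x, x ∈ Cell Γ P 1 ∧ x ∈ Cell Γ P a ∧ x ∈ Cell Γ P c

/-- the conjugates of `γ` in `Γ` -/
def Cj (Γ : Subgroup SL) (γ : SL) : Set SL := {δ | ∃ g ∈ Γ, δ = g * γ * g⁻¹}

/-- the axes of different conjugates are disjoint -/
def Disj (Γ : Subgroup SL) (γ : SL) : Prop :=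
  ∀ δ ∈ Cj Γ γ, ∀ δ' ∈ Cj Γ γ, δ ≠ δ' → ∀ x ∈ Cone, B x (W δ) = 0 → B x (W δ') ≠ 0

/-- `z` lies on no wall -/
def Gn (Γ : Subgroup SL) (γ : SL) (z : V) : Prop := z ∈ Cone ∧ ∀ δ ∈ Cj Γ γ, B z (W δ) ≠ 0

/-- no wall separates `z` and `z'` -/
def Same (Γ : Subgroup SL) (γ : SL) (z z' : V) : Prop :=
  ∀ δ ∈ Cj Γ γ, 0 < B z (W δ) * B z' (W δ)

/-- `z` is in a region adjacent to the wall `δ` at its point `q` -/
def AdjAt (Γ : Subgroup SL) (γ : SL) (q : V) (δ : SL) (z : V) : Prop :=
  z ∈ Cone ∧ B z (W δ) ≠ 0 ∧ ∀ δ' ∈ Cj Γ γ, δ' ≠ δ → 0 < B q (W δ') * B z (W δ')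

/-- potential of the twisting cocycle -/
structure IsPot (Γ : Subgroup SL) (γ : SL) (e : ℤ) (s : V → SL) : Prop where
  mem : ∀ z, s z ∈ Γ
  same : ∀ z z', Gn Γ γ z → Gn Γ γ z' → Same Γ γ z z' → s z = s z'
  cross : ∀ q ∈ Cone, ∀ δ ∈ Cj Γ γ, B q (W δ) = 0 → ∀ z z', AdjAt Γ γ q δ z → AdjAt Γ γ q δ z' →
    0 < B z (W δ) → B z' (W δ) < 0 → s z' = s z * δ ^ e

/-- every point of the axis of `δ` (normalised by `B y y = 1`) has trace at least `R` -/
def Far (R : ℝ) (w : V) : Prop := ∀ y ∈ Cone, B y y = 1 → B y w = 0 → R ≤ tr y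

/-- the reflection `(a,b,c) ↦ (a,-b,c)` of the boundary -/
noncomputable def rfl0 : Bd ≃ₜ Bd where
  toFun x := ⟨(x.1.1, -x.1.2.1, x.1.2.2), by
    obtain ⟨x, h1, h2⟩ := x
    refine ⟨h1, ?_⟩
    unfold B at h2 ⊢
    simp only at h2 ⊢
    linarith⟩
  invFun x := ⟨(x.1.1, -x.1.2.1, x.1.2.2), by
    obtain ⟨x, h1, h2⟩ := x
    refine ⟨h1, ?_⟩
    unfold B at h2 ⊢
    simp only at h2 ⊢
    linarith⟩
  left_inv x := by apply Subtype.ext; simp
  right_inv x := by apply Subtype.ext; simp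
  continuous_toFun := by
    apply Continuous.subtype_mk
    have : Continuous (fun x : Bd => x.1) := continuous_subtype_val
    fun_prop
  continuous_invFun := by
    apply Continuous.subtype_mk
    have : Continuous (fun x : Bd => x.1) := continuous_subtype_val
    fun_prop

end Pool.Agent.SCD
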