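import Mathlib
import Pool.Agent.SCD.Basic

set_option autoImplicit false

namespace Pool.Agent.SCD

open Filter Topology Set


private theorem ent1 {Γ : Subgroup SL} (h1 : ∃ ε : ℝ, 0 < ε ∧ ∀ γ ∈ Γ,
        (∀ i j : Fin 2, |(γ : Matrix (Fin 2) (Fin 2) ℝ) i j
            - (1 : Matrix (Fin 2) (Fin 2) ℝ) i j| < ε) → γ = 1) :
    ∃ ε : ℝ, 0 < ε ∧ ∀ γ ∈ Γ, |ea γ - 1| < ε → |eb γ| < ε → |ec γ| < ε → |ed γ - 1| < ε →
      γ = 1 := by
  obtain ⟨ε, hε, h⟩ := h1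
  refine ⟨ε, hε, fun γ hγ a b c d => h γ hγ ?_⟩
  intro i j
  fin_cases i <;> fin_cases j
  · simpa [ea] using a
  · simpa [eb] using b
  · simpa [ec] using c
  · simpa [ed] using d

private theorem ent3 {Γ : Subgroup SL} (h3 : ∃ C : ℝ, ∀ A : SL, ∃ γ ∈ Γ, ∀ i j : Fin 2,
        |((γ⁻¹ * A : SL) : Matrix (Fin 2) (Fin 2) ℝ) i j| ≤ C) :
    ∃ C : ℝ, 0 ≤ C ∧ ∀ A : SL, ∃ γ ∈ Γ, |ea (γ⁻¹ * A)| ≤ C ∧ |eb (γ⁻¹ * A)| ≤ C ∧
      |ec (γ⁻¹ * A)| ≤ C ∧ |ed (γ⁻¹ * A)| ≤ C := by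
  obtain ⟨C, h⟩ := h3
  have hC : 0 ≤ C := by
    obtain ⟨γ, _, hγ⟩ := h 1
    exact (abs_nonneg _).trans (hγ 0 0)
  refine ⟨C, hC, fun A => ?_⟩
  obtain ⟨γ, hγ, hh⟩ := h A
  exact ⟨γ, hγ, hh 0 0, hh 0 1, hh 1 0, hh 1 1⟩

private theorem small_comb {K η x y a b : ℝ} (hK : 0 < K) (hx : |x| ≤ K) (hy : |y| ≤ K)
    (ha : |a| < η) (hb : |b| < η) : |x * a - y * b| < 2 * K * η := by
  have h1 : |x * a| ≤ K * |a| := by
    rw [abs_mul]; exact mul_le_mul_of_nonneg_right hx (abs_nonneg _)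
  have h2 : |y * b| ≤ K * |b| := by
    rw [abs_mul]; exact mul_le_mul_of_nonneg_right hy (abs_nonneg _)
  have h3 : K * |a| < K * η := mul_lt_mul_of_pos_left ha hK
  have h4 : K * |b| < K * η := mul_lt_mul_of_pos_left hb hK
  have h5 := abs_sub (x * a) (y * b)
  linarith

private theorem disc_of {Γ : Subgroup SL} (h1 : ∃ ε : ℝ, 0 < ε ∧ ∀ γ ∈ Γ,
      |ea γ - 1| < ε → |eb γ| < ε → |ec γ| < ε → |ed γ - 1| < ε → γ = 1) (R : ℝ) :
    {g : SL | g ∈ Γ ∧ N g ≤ R}.Finite := by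
  obtain ⟨ε, hε, h⟩ := h1
  set K : ℝ := |R| + 1 with hK
  have hK1 : 1 ≤ K := by rw [hK]; linarith [abs_nonneg R]
  have hK0 : 0 < K := by linarith
  have hRK : R ≤ K := by rw [hK]; linarith [le_abs_self R]
  have hKK : K ≤ K ^ 2 := by nlinarith
  have habs : ∀ x : ℝ, x ^ 2 ≤ R → |x| ≤ K := by
    intro x hx
    exact abs_le_of_sq_le_sq (by linarith) hK0.le
  have hent : ∀ g : SL, N g ≤ R → |ea g| ≤ K ∧ |eb g| ≤ K ∧ |ec g| ≤ K ∧ |ed g| ≤ K := by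
    intro g hg
    unfold N at hg
    have p1 := sq_nonneg (ea g)
    have p2 := sq_nonneg (eb g)
    have p3 := sq_nonneg (ec g)
    have p4 := sq_nonneg (ed g)
    exact ⟨habs _ (by linarith), habs _ (by linarith), habs _ (by linarith),
      habs _ (by linarith)⟩
  set η : ℝ := ε / (2 * K) with hη
  have hη0 : 0 < η := by positivity
  have hηK : 2 * K * η = ε := by rw [hη]; field_simp
  let f : SL → ℤ × ℤ × ℤ × ℤ :=
    fun g => (⌊ea g / η⌋, ⌊eb g / η⌋, ⌊ec g / η⌋, ⌊ed g / η⌋)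
  have hfin : (f '' {g | g ∈ Γ ∧ N g ≤ R}).Finite := by
    set L : ℤ := ⌈K / η⌉ + 1 with hL
    refine ((Set.finite_Icc (-L) L).prod ((Set.finite_Icc (-L) L).prod
      ((Set.finite_Icc (-L) L).prod (Set.finite_Icc (-L) L)))).subset ?_
    rintro _ ⟨g, ⟨_, hg⟩, rfl⟩
    obtain ⟨a, b, c, d⟩ := hent g hg
    have key : ∀ x : ℝ, |x| ≤ K → ⌊x / η⌋ ∈ Set.Icc (-L) L := by
      intro x hx
      obtain ⟨x1, x2⟩ := abs_le.1 hx
      have y1 : -(K / η) ≤ x / η := by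
        rw [← neg_div]; exact div_le_div_of_nonneg_right x1 hη0.le
      have y2 : x / η ≤ K / η := div_le_div_of_nonneg_right x2 hη0.le
      have y3 := Int.le_ceil (K / η)
      have y4 := Int.floor_le (x / η)
      have y5 := Int.lt_floor_add_one (x / η)
      constructor
      · have : (-(L : ℝ)) ≤ (⌊x / η⌋ : ℝ) := by rw [hL]; push_cast; linarith
        exact_mod_cast this
      · have : (⌊x / η⌋ : ℝ) ≤ (L : ℝ) := by rw [hL]; push_cast; linarith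
        exact_mod_cast this
    exact ⟨key _ a, key _ b, key _ c, key _ d⟩
  refine Set.Finite.of_finite_image hfin ?_
  rintro g ⟨hg, hgR⟩ g' ⟨hg', hgR'⟩ hfg
  simp only [f, Prod.mk.injEq] at hfg
  obtain ⟨q1, q2, q3, q4⟩ := hfg
  have hfl : ∀ x y : ℝ, ⌊x / η⌋ = ⌊y / η⌋ → |y - x| < η := by
    intro x y hxy
    have := Int.abs_sub_lt_one_of_floor_eq_floor hxy.symm
    rw [← sub_div, abs_div, abs_of_pos hη0, div_lt_one hη0] at this
    exact this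
  obtain ⟨a, b, c, d⟩ := hent g hgR
  have d1 := hfl _ _ q1
  have d2 := hfl _ _ q2
  have d3 := hfl _ _ q3
  have d4 := hfl _ _ q4
  have hdet := det_eq g
  have hone : g⁻¹ * g' = 1 := by
    apply h _ (Γ.mul_mem (Γ.inv_mem hg) hg')
    · have e : ea (g⁻¹ * g') - 1 = ed g * (ea g' - ea g) - eb g * (ec g' - ec g) := by
        simp only [ea_mul, ea_inv, eb_inv]; linear_combination hdet
      rw [e, ← hηK]
      exact small_comb hK0 d b d1 d3
    · have e : eb (g⁻¹ * g') = ed g * (eb g' - eb g) - eb g * (ed g' - ed g) := by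
        simp only [eb_mul, ea_inv, eb_inv]; ring
      rw [e, ← hηK]
      exact small_comb hK0 d b d2 d4
    · have e : ec (g⁻¹ * g') = ea g * (ec g' - ec g) - ec g * (ea g' - ea g) := by
        simp only [ec_mul, ec_inv, ed_inv]; ring
      rw [e, ← hηK]
      exact small_comb hK0 a c d3 d1
    · have e : ed (g⁻¹ * g') - 1 = ea g * (ed g' - ed g) - ec g * (eb g' - eb g) := by
        simp only [ed_mul, ec_inv, ed_inv]; linear_combination hdet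
      rw [e, ← hηK]
      exact small_comb hK0 a c d4 d2
  exact (inv_mul_eq_one.1 hone)

private theorem psd_pair {z1 z2 z3 p1 p2 p3 : ℝ} (a1 : 0 ≤ z1) (a3 : 0 ≤ z3) (a2 : z2 ^ 2 ≤ z1 * z3)
    (b1 : 0 ≤ p1) (b3 : 0 ≤ p3) (b2 : p2 ^ 2 ≤ p1 * p3) : 2 * (z2 * p2) ≤ z1 * p3 + z3 * p1 := by
  have h : (2 * (z2 * p2)) ^ 2 ≤ (z1 * p3 + z3 * p1) ^ 2 := by
    have h1 : z2 ^ 2 * p2 ^ 2 ≤ (z1 * z3) * (p1 * p3) :=
      mul_le_mul a2 b2 (sq_nonneg _) (mul_nonneg a1 a3)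
    nlinarith [sq_nonneg (z1 * p3 - z3 * p1)]
  exact (le_abs_self _).trans (abs_le_of_sq_le_sq h (by positivity))

private theorem N_le_of_fix (h : SL) (Y : V) (hY : Y ∈ Cone) (hf : act h Y = Y) :
    N h ≤ tr Y ^ 2 / B Y Y := by
  have hB : 0 < B Y Y := hY.2
  have hT : 0 < tr Y := Cone_tr_pos hY
  have y1 : 0 < Y.1 := hY.1
  have y3 : 0 < Y.2.2 := Cone_pos22 hY
  set Z := act h I0 with hZ
  have hZC : Z ∈ Cone := act_mem_Cone h I0_mem
  have e1 : B Z Y = tr Y / 2 := by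
    have : B Z Y = B (act h I0) (act h Y) := by rw [hf]
    rw [this, B_act, B_comm, B_I0]
  have eN : tr Z = N h := tr_act_I0 h
  set c : ℝ := B Y Y / tr Y with hc
  have hc0 : 0 < c := div_pos hB hT
  have hcT : c * tr Y = B Y Y := div_mul_cancel₀ _ hT.ne'
  have hBY : B Y Y = Y.1 * Y.2.2 - Y.2.1 ^ 2 := by unfold B; ring
  have hTY : tr Y = Y.1 + Y.2.2 := rfl
  have hp1 : 0 ≤ Y.1 - c := by
    have : 0 ≤ (Y.1 - c) * tr Y := by
      have : (Y.1 - c) * tr Y = Y.1 ^ 2 + Y.2.1 ^ 2 := by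
        rw [sub_mul, hcT, hBY, hTY]; ring
      rw [this]; positivity
    exact nonneg_of_mul_nonneg_left this hT
  have hp3 : 0 ≤ Y.2.2 - c := by
    have : 0 ≤ (Y.2.2 - c) * tr Y := by
      have : (Y.2.2 - c) * tr Y = Y.2.2 ^ 2 + Y.2.1 ^ 2 := by
        rw [sub_mul, hcT, hBY, hTY]; ring
      rw [this]; positivity
    exact nonneg_of_mul_nonneg_left this hT
  have hp2 : Y.2.1 ^ 2 ≤ (Y.1 - c) * (Y.2.2 - c) := by
    have : (Y.1 - c) * (Y.2.2 - c) = Y.2.1 ^ 2 + c ^ 2 := by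
      have : c * (Y.1 + Y.2.2) = Y.1 * Y.2.2 - Y.2.1 ^ 2 := by rw [← hTY, ← hBY]; exact hcT
      linear_combination -this
    rw [this]; linarith [sq_nonneg c]
  have hz3 := Cone_pos22 hZC
  have hz1 := hZC.1
  have hz2 : Z.2.1 ^ 2 ≤ Z.1 * Z.2.2 := by
    have := hZC.2
    unfold B at this
    nlinarith
  have hpair := psd_pair hz1.le hz3.le hz2 hp1 hp3 hp2
  have hBZ : B Z Y = (Z.1 * Y.2.2 + Z.2.2 * Y.1) / 2 - Z.2.1 * Y.2.1 := rfl
  have e2 : c * tr Z ≤ tr Y := by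
    have : tr Z = Z.1 + Z.2.2 := rfl
    rw [this]
    rw [e1] at hBZ
    nlinarith
  rw [eN] at e2
  have : tr Y ^ 2 / B Y Y = tr Y / c := by
    rw [hc]; field_simp
  rw [this, le_div_iff₀ hc0]
  linarith

private theorem fix_pow (g : SL) (Y : V) (hf : act g Y = Y) (n : ℕ) : act (g ^ n) Y = Y := by
  induction n with
  | zero => rw [pow_zero, act_one]
  | succ n ih => rw [pow_succ, act_mul, hf, ih]

private theorem elliptic {Γ : Subgroup SL} (hd : ∀ R : ℝ, {g : SL | g ∈ Γ ∧ N g ≤ R}.Finite)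
    (h2 : ∀ γ ∈ Γ, ∀ n : ℕ, 0 < n → γ ^ n = 1 → γ = 1) (g : SL) (hg : g ∈ Γ)
    (ht : |ea g + ed g| < 2) : g = 1 := by
  have hBW : 0 < B (W g) (W g) := by
    rw [B_W]
    have := abs_lt.1 ht
    nlinarith [this.1, this.2]
  obtain ⟨Y, hY, hf⟩ : ∃ Y ∈ Cone, act g Y = Y := by
    rcases lt_trichotomy (W g).1 0 with h | h | h
    · refine ⟨(-1 : ℝ) • W g, ⟨?_, ?_⟩, ?_⟩
      · show 0 < (-1 : ℝ) * (W g).1
        linarith
      · rw [B_smul_left, B_smul_right]; linarith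
      · rw [act_smul, act_W]
    · exfalso
      unfold B at hBW
      rw [h] at hBW
      nlinarith [sq_nonneg (W g).2.1]
    · exact ⟨W g, ⟨h, hBW⟩, act_W g⟩
  by_contra hne
  have hnf : ¬ IsOfFinOrder g := by
    rw [isOfFinOrder_iff_pow_eq_one]
    rintro ⟨n, hn, hgn⟩
    exact hne (h2 g hg n hn hgn)
  have hinj := injective_pow_iff_not_isOfFinOrder.2 hnf
  refine Set.infinite_of_injective_forall_mem hinj (s := {g : SL | g ∈ Γ ∧ N g ≤ tr Y ^ 2 / B Y Y})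
    (fun n => ⟨Γ.pow_mem hg n, N_le_of_fix _ Y hY (fix_pow g Y hf n)⟩) (hd _)

private theorem para_conj (u : SL) (hu : u ≠ 1) (ht : ea u + ed u = 2) (x₀ : ℝ) (hx₀ : 0 < x₀) :
    ∃ (A : SL) (x : ℝ), |x| < x₀ ∧ u * A = A * mk4 1 x 0 1 (by ring) := by
  have hd := det_eq u
  have hed : ed u = 2 - ea u := by linarith
  by_cases hr : ec u = 0
  · -- `u = [[1,q],[0,1]]`
    have hp : ea u = 1 := by
      rw [hr, hed] at hd
      nlinarith [sq_nonneg (ea u - 1)]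
    have hd1 : ed u = 1 := by rw [hed, hp]; norm_num
    -- scale
    obtain ⟨s, hs0, hs⟩ : ∃ s : ℝ, 0 < s ∧ |eb u / s ^ 2| < x₀ := by
      refine ⟨|eb u| / x₀ + 1, by positivity, ?_⟩
      set s : ℝ := |eb u| / x₀ + 1 with hs
      have h1 : 1 ≤ s := by
        have : 0 ≤ |eb u| / x₀ := by positivity
        linarith
      have h2 : |eb u| < x₀ * s := by
        have : x₀ * s = |eb u| + x₀ := by rw [hs]; field_simp
        rw [this]; linarith
      rw [abs_div, abs_of_nonneg (sq_nonneg s), div_lt_iff₀ (by positivity)]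
      refine h2.trans_le (mul_le_mul_of_nonneg_left ?_ hx₀.le)
      nlinarith
    refine ⟨mk4 s 0 0 (1 / s) (by field_simp; ring), eb u / s ^ 2, hs, ?_⟩
    apply SL_ext
    · simp [hp]
    · simp [hp]; field_simp
    · simp [hr]
    · simp [hr, hd1]
  · obtain ⟨s, hs0, hs⟩ : ∃ s : ℝ, 0 < s ∧ |-1 / (ec u * s ^ 2)| < x₀ := by
      refine ⟨1 / (|ec u| * x₀) + 1, by positivity, ?_⟩
      have hc0 : 0 < |ec u| := abs_pos.2 hr
      set s : ℝ := 1 / (|ec u| * x₀) + 1 with hs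
      have h1 : 1 ≤ s := by
        have : 0 ≤ 1 / (|ec u| * x₀) := by positivity
        linarith
      have h2 : 1 < (|ec u| * x₀) * s := by
        have : (|ec u| * x₀) * s = 1 + |ec u| * x₀ := by rw [hs]; field_simp
        rw [this]
        have : 0 < |ec u| * x₀ := by positivity
        linarith
      have h3 : (|ec u| * x₀) * s ≤ (|ec u| * x₀) * s ^ 2 :=
        mul_le_mul_of_nonneg_left (by nlinarith) (by positivity)
      rw [abs_div, abs_neg, abs_one, abs_mul, abs_of_nonneg (sq_nonneg s),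
        div_lt_iff₀ (by positivity)]
      linarith
    refine ⟨mk4 (s * (ea u - 1)) (-1 / (ec u * s)) (s * ec u) 0 (by field_simp; ring),
      -1 / (ec u * s ^ 2), hs, ?_⟩
    have hrel : (ea u - 1) ^ 2 + eb u * ec u = 0 := by
      rw [hed] at hd; linear_combination -hd
    apply SL_ext
    · simp only [ea_mul, ea_mk4, ec_mk4, eb_mk4]
      linear_combination s * hrel
    · simp only [eb_mul, ea_mk4, ed_mk4, eb_mk4]
      field_simp
      ring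
    · simp only [ec_mul, ea_mk4, ec_mk4, ed_mk4]
      rw [hed]; ring
    · simp only [ed_mul, eb_mk4, ec_mk4, ed_mk4]
      field_simp
      ring

private theorem parabolic {Γ : Subgroup SL} (h1 : ∃ ε : ℝ, 0 < ε ∧ ∀ γ ∈ Γ,
      |ea γ - 1| < ε → |eb γ| < ε → |ec γ| < ε → |ed γ - 1| < ε → γ = 1)
    (h3 : ∃ C : ℝ, 0 ≤ C ∧ ∀ A : SL, ∃ γ ∈ Γ, |ea (γ⁻¹ * A)| ≤ C ∧ |eb (γ⁻¹ * A)| ≤ C ∧
      |ec (γ⁻¹ * A)| ≤ C ∧ |ed (γ⁻¹ * A)| ≤ C) (u : SL) (hu : u ∈ Γ)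
    (ht : ea u + ed u = 2) : u = 1 := by
  by_contra hne
  obtain ⟨ε, hε, h⟩ := h1
  obtain ⟨C, hC, h3⟩ := h3
  obtain ⟨A, x, hx, hA⟩ := para_conj u hne ht (ε / (C ^ 2 + 1)) (by positivity)
  obtain ⟨γ, hγ, ka, kb, kc, kd⟩ := h3 A
  set κ := γ⁻¹ * A with hκ
  have hγA : γ = A * κ⁻¹ := by rw [hκ]; group
  have hconj : γ⁻¹ * u * γ = κ * mk4 1 x 0 1 (by ring) * κ⁻¹ := by
    calc γ⁻¹ * u * γ = γ⁻¹ * (u * A) * κ⁻¹ := by rw [hγA]; group
      _ = γ⁻¹ * (A * mk4 1 x 0 1 (by ring)) * κ⁻¹ := by rw [hA]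
      _ = _ := by rw [hκ]; group
  have hdet := det_eq κ
  have hxC : |x| * C ^ 2 < ε := by
    have h1 : |x| * (C ^ 2 + 1) < ε := by rwa [lt_div_iff₀ (by positivity)] at hx
    nlinarith [abs_nonneg x]
  have bd : ∀ y z : ℝ, |y| ≤ C → |z| ≤ C → |x * (y * z)| < ε := by
    intro y z hy hz
    rw [abs_mul, abs_mul]
    have : |y| * |z| ≤ C ^ 2 := by
      rw [sq]; exact mul_le_mul hy hz (abs_nonneg _) hC
    exact (mul_le_mul_of_nonneg_left this (abs_nonneg x)).trans_lt hxC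
  have hone : γ⁻¹ * u * γ = 1 := by
    apply h _ (Γ.mul_mem (Γ.mul_mem (Γ.inv_mem hγ) hu) hγ)
    · rw [hconj]
      have e : ea (κ * mk4 1 x 0 1 (by ring) * κ⁻¹) - 1 = -(x * (ea κ * ec κ)) := by
        simp only [ea_mul, eb_mul, ea_mk4, eb_mk4, ec_mk4, ed_mk4, ea_inv, ec_inv]
        linear_combination hdet
      rw [e, abs_neg]; exact bd _ _ ka kc
    · rw [hconj]
      have e : eb (κ * mk4 1 x 0 1 (by ring) * κ⁻¹) = x * (ea κ * ea κ) := by
        simp only [ea_mul, eb_mul, ea_mk4, eb_mk4, ec_mk4, ed_mk4, eb_inv, ed_inv]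
        ring
      rw [e]; exact bd _ _ ka ka
    · rw [hconj]
      have e : ec (κ * mk4 1 x 0 1 (by ring) * κ⁻¹) = -(x * (ec κ * ec κ)) := by
        simp only [ec_mul, ed_mul, ea_mk4, eb_mk4, ec_mk4, ed_mk4, ea_inv, ec_inv]
        ring
      rw [e, abs_neg]; exact bd _ _ kc kc
    · rw [hconj]
      have e : ed (κ * mk4 1 x 0 1 (by ring) * κ⁻¹) - 1 = x * (ea κ * ec κ) := by
        simp only [ec_mul, ed_mul, ea_mk4, eb_mk4, ec_mk4, ed_mk4, eb_inv, ed_inv]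
        linear_combination hdet
      rw [e]; exact bd _ _ ka kc
  apply hne
  have : u = γ * (γ⁻¹ * u * γ) * γ⁻¹ := by group
  rw [this, hone]; group

/-- the hypotheses of the frozen statement give a good group -/
theorem good_of {Γ : Subgroup SL}
    (h1 : ∃ ε : ℝ, 0 < ε ∧ ∀ γ ∈ Γ,
        (∀ i j : Fin 2, |(γ : Matrix (Fin 2) (Fin 2) ℝ) i j
            - (1 : Matrix (Fin 2) (Fin 2) ℝ) i j| < ε) → γ = 1)
    (h2 : ∀ γ ∈ Γ, ∀ n : ℕ, 0 < n → γ ^ n = 1 → γ = 1)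
    (h3 : ∃ C : ℝ, ∀ A : SL, ∃ γ ∈ Γ, ∀ i j : Fin 2,
        |((γ⁻¹ * A : SL) : Matrix (Fin 2) (Fin 2) ℝ) i j| ≤ C) : Good Γ := by
  have h1' := ent1 h1
  have h3' := ent3 h3
  have hd := disc_of h1'
  refine ⟨hd, ?_, ?_⟩
  · obtain ⟨C, hC, h⟩ := h3'
    refine ⟨4 * C ^ 2, fun A => ?_⟩
    obtain ⟨γ, hγ, ka, kb, kc, kd⟩ := h A
    refine ⟨γ, hγ, ?_⟩
    have sqb : ∀ y : ℝ, |y| ≤ C → y ^ 2 ≤ C ^ 2 := by
      intro y hy
      rw [← sq_abs]; exact pow_le_pow_left₀ (abs_nonneg _) hy 2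
    have a := sqb _ ka
    have b := sqb _ kb
    have c := sqb _ kc
    have d := sqb _ kd
    unfold N
    linarith
  · intro g hg hne
    by_contra hlt
    rw [not_lt] at hlt
    rcases hlt.lt_or_eq with hlt | heq
    · exact hne (elliptic hd h2 g hg hlt)
    · have hsq : (ea g + ed g) ^ 2 = 4 := by rw [← sq_abs, heq]; norm_num
      have hu : g * g = 1 := by
        apply parabolic h1' h3' (g * g) (Γ.mul_mem hg hg)
        have hdet := det_eq g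
        simp only [ea_mul, ed_mul]
        linear_combination hsq - 2 * hdet
      exact hne (h2 g hg 2 (by norm_num) (by rw [sq]; exact hu))



end Pool.Agent.SCD
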