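import Mathlib
import Pool.Agent.SCD.Basic

set_option autoImplicit false

namespace Pool.Agent.SCD

open Filter Topology Set


theorem IsComm_symm {Γ : Subgroup SL} {h : Bd ≃ₜ Bd} (a : IsComm Γ h) : IsComm Γ h.symm := by
  obtain ⟨H, K, hH, hK, iH, iK, φ, hφ⟩ := a
  refine ⟨K, H, hK, hH, iK, iH, φ.symm, fun k x => ?_⟩
  apply h.injective
  rw [h.apply_symm_apply, hφ, h.apply_symm_apply, φ.apply_symm_apply]



end Pool.Agent.SCD
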