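import Mathlib
import Pool.Agent.SCD.Basic

set_option autoImplicit false

namespace Pool.Agent.SCD

open Filter Topology Set


theorem IsComm_trans {Γ : Subgroup SL} {h1 h2 : Bd ≃ₜ Bd} (a : IsComm Γ h1) (b : IsComm Γ h2) :
    IsComm Γ (h1.trans h2) := by
  obtain ⟨H1, K1, hH1, hK1, iH1, iK1, φ1, e1⟩ := a
  obtain ⟨H2, K2, hH2, hK2, iH2, iK2, φ2, e2⟩ := b
  have iM : (K1 ⊓ H2).relIndex Γ ≠ 0 := Subgroup.relIndex_inf_ne_zero iK1 iH2
  have iMK : (K1 ⊓ H2).relIndex K1 ≠ 0 := by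
    have h := Subgroup.relIndex_mul_relIndex (K1 ⊓ H2) K1 Γ inf_le_left hK1
    intro h0
    rw [h0, zero_mul] at h
    exact iM h.symm
  have iMH : (K1 ⊓ H2).relIndex H2 ≠ 0 := by
    have h := Subgroup.relIndex_mul_relIndex (K1 ⊓ H2) H2 Γ inf_le_right hH2
    intro h0
    rw [h0, zero_mul] at h
    exact iM h.symm
  let X : Subgroup H1 := ((K1 ⊓ H2).subgroupOf K1).comap (φ1 : H1 →* K1)
  let Y : Subgroup K2 := ((K1 ⊓ H2).subgroupOf H2).comap (φ2.symm : K2 →* H2)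
  have hX : ∀ g : SL, g ∈ X.map H1.subtype ↔ ∃ h : g ∈ H1, ((φ1 ⟨g, h⟩ : K1) : SL) ∈ H2 := by
    intro g
    constructor
    · rintro ⟨⟨x, hx⟩, hxX, rfl⟩
      exact ⟨hx, (Subgroup.mem_inf.mp hxX).2⟩
    · rintro ⟨h, hg⟩
      exact ⟨⟨g, h⟩, Subgroup.mem_inf.mpr ⟨(φ1 ⟨g, h⟩).2, hg⟩, rfl⟩
  have hY : ∀ k : SL, k ∈ Y.map K2.subtype ↔
      ∃ h : k ∈ K2, ((φ2.symm ⟨k, h⟩ : H2) : SL) ∈ K1 := by
    intro k
    constructor
    · rintro ⟨⟨x, hx⟩, hxX, rfl⟩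
      exact ⟨hx, (Subgroup.mem_inf.mp hxX).1⟩
    · rintro ⟨h, hk⟩
      exact ⟨⟨k, h⟩, Subgroup.mem_inf.mpr ⟨hk, (φ2.symm ⟨k, h⟩).2⟩, rfl⟩
  have hXle : X.map H1.subtype ≤ H1 := fun g hg => ((hX g).mp hg).1
  have hYle : Y.map K2.subtype ≤ K2 := fun g hg => ((hY g).mp hg).1
  have iX : (X.map H1.subtype).relIndex H1 ≠ 0 := by
    have e : (X.map H1.subtype).subgroupOf H1 = X :=
      Subgroup.comap_map_eq_self_of_injective H1.subtype_injective X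
    unfold Subgroup.relIndex
    rw [e]
    rw [Subgroup.index_comap_of_surjective _ φ1.surjective]
    exact iMK
  have iY : (Y.map K2.subtype).relIndex K2 ≠ 0 := by
    have e : (Y.map K2.subtype).subgroupOf K2 = Y :=
      Subgroup.comap_map_eq_self_of_injective K2.subtype_injective Y
    unfold Subgroup.relIndex
    rw [e]
    rw [Subgroup.index_comap_of_surjective _ φ2.symm.surjective]
    exact iMH
  let toF : ↥(X.map H1.subtype) → ↥(Y.map K2.subtype) := fun g =>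
    ⟨(φ2 ⟨(φ1 ⟨g.1, ((hX g.1).mp g.2).1⟩ : K1), ((hX g.1).mp g.2).2⟩ : K2), by
      rw [hY]
      refine ⟨(φ2 _).2, ?_⟩
      rw [Subtype.coe_eta, MulEquiv.symm_apply_apply]
      exact (φ1 ⟨g.1, ((hX g.1).mp g.2).1⟩).2⟩
  let invF : ↥(Y.map K2.subtype) → ↥(X.map H1.subtype) := fun k =>
    ⟨(φ1.symm ⟨(φ2.symm ⟨k.1, ((hY k.1).mp k.2).1⟩ : H2), ((hY k.1).mp k.2).2⟩ : H1), by
      rw [hX]
      refine ⟨(φ1.symm _).2, ?_⟩
      rw [Subtype.coe_eta, MulEquiv.apply_symm_apply]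
      exact (φ2.symm ⟨k.1, ((hY k.1).mp k.2).1⟩).2⟩
  let φ : ↥(X.map H1.subtype) ≃* ↥(Y.map K2.subtype) :=
    { toFun := toF
      invFun := invF
      left_inv := by
        intro g
        apply Subtype.ext
        simp [toF, invF]
      right_inv := by
        intro k
        apply Subtype.ext
        simp [toF, invF]
      map_mul' := by
        intro g g'
        apply Subtype.ext
        have h3 : φ1 ⟨(g * g').1, ((hX (g * g').1).mp (g * g').2).1⟩ =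
            φ1 ⟨g.1, ((hX g.1).mp g.2).1⟩ * φ1 ⟨g'.1, ((hX g'.1).mp g'.2).1⟩ := by
          rw [← map_mul]; rfl
        have h4 : (⟨(φ1 ⟨(g * g').1, ((hX (g * g').1).mp (g * g').2).1⟩ : K1),
            ((hX (g * g').1).mp (g * g').2).2⟩ : H2) =
            (⟨(φ1 ⟨g.1, ((hX g.1).mp g.2).1⟩ : K1), ((hX g.1).mp g.2).2⟩ : H2) *
            (⟨(φ1 ⟨g'.1, ((hX g'.1).mp g'.2).1⟩ : K1), ((hX g'.1).mp g'.2).2⟩ : H2) := by
          apply Subtype.ext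
          show ((φ1 ⟨(g * g').1, ((hX (g * g').1).mp (g * g').2).1⟩ : K1) : SL) = _
          rw [h3]; rfl
        show ((φ2 _ : K2) : SL) = ((φ2 _ : K2) : SL) * ((φ2 _ : K2) : SL)
        rw [h4, map_mul]; rfl }
  refine ⟨X.map H1.subtype, Y.map K2.subtype, hXle.trans hH1, hYle.trans hK2,
    Subgroup.relIndex_ne_zero_trans iX iH1, Subgroup.relIndex_ne_zero_trans iY iK2, φ, ?_⟩
  intro g x
  show h2 (h1 ((g : SL) • x)) = _ • h2 (h1 x)
  have h5 := e1 ⟨g.1, ((hX g.1).mp g.2).1⟩ x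
  have h6 := e2 ⟨(φ1 ⟨g.1, ((hX g.1).mp g.2).1⟩ : K1), ((hX g.1).mp g.2).2⟩ (h1 x)
  simp only at h5 h6
  rw [h5, h6]
  rfl



end Pool.Agent.SCD
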