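import Mathlib
import Pool.Agent.SCD.Basic

set_option autoImplicit false

namespace Pool.Agent.SCD

open Filter Topology Set


private theorem bp_val2 (t : ℝ) : (bp t).1 = ((1 + Real.cos (2 * Real.pi * t)) / 2,
    Real.sin (2 * Real.pi * t) / 2, (1 - Real.cos (2 * Real.pi * t)) / 2) := by
  have h1 : 2 * Real.pi * t = 2 * (Real.pi * t) := by ring
  rw [h1, Real.cos_two_mul, Real.sin_two_mul]
  have h2 := Real.sin_sq_add_cos_sq (Real.pi * t)
  show ((Real.cos (Real.pi * t) ^ 2, Real.cos (Real.pi * t) * Real.sin (Real.pi * t),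
    Real.sin (Real.pi * t) ^ 2) : V) = _
  refine Prod.ext ?_ (Prod.ext ?_ ?_)
  · simp only
    ring
  · simp only
    ring
  · simp only
    linarith

private theorem bp_add_int (t : ℝ) (k : ℤ) : bp (t + k) = bp t := by
  apply Subtype.ext
  rw [bp_val2, bp_val2]
  have h1 : 2 * Real.pi * (t + k) = 2 * Real.pi * t + k * (2 * Real.pi) := by ring
  rw [h1, Real.cos_add_int_mul_two_pi, Real.sin_add_int_mul_two_pi]

theorem bp_surj (x : Bd) : ∃ t : ℝ, 0 ≤ t ∧ t < 1 ∧ bp t = x := by
  obtain ⟨⟨a, b, c⟩, htr, hB⟩ := x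
  unfold tr at htr
  unfold B at hB
  simp only at htr hB
  have hc : c = 1 - a := by linarith
  subst hc
  let z : ℂ := ⟨2 * a - 1, 2 * b⟩
  have hz : ‖z‖ = 1 := by
    have h1 : ‖z‖ ^ 2 = 1 := by
      rw [← Complex.normSq_eq_norm_sq, Complex.normSq_apply]
      show (2 * a - 1) * (2 * a - 1) + 2 * b * (2 * b) = 1
      nlinarith
    nlinarith [norm_nonneg z]
  have hz0 : z ≠ 0 := by
    intro h
    rw [h, norm_zero] at hz
    exact zero_ne_one hz
  have hcos : Real.cos (Complex.arg z) = 2 * a - 1 := by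
    rw [Complex.cos_arg hz0, hz, div_one]
  have hsin : Real.sin (Complex.arg z) = 2 * b := by
    rw [Complex.sin_arg, hz, div_one]
  have hpi := Real.pi_pos
  let t' : ℝ := Complex.arg z / (2 * Real.pi)
  have ht' : 2 * Real.pi * t' = Complex.arg z := by
    show 2 * Real.pi * (Complex.arg z / (2 * Real.pi)) = Complex.arg z
    field_simp
  refine ⟨Int.fract t', Int.fract_nonneg _, Int.fract_lt_one _, ?_⟩
  have h2 : bp (Int.fract t') = bp t' := by
    have := bp_add_int (Int.fract t') ⌊t'⌋
    rw [Int.fract_add_floor] at this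
    exact this.symm
  rw [h2]
  apply Subtype.ext
  rw [bp_val2, ht', hcos, hsin]
  refine Prod.ext ?_ (Prod.ext ?_ ?_)
  · simp only
    ring
  · simp only
    ring
  · simp only
    ring
theorem bp_add_one (t : ℝ) : bp (t + 1) = bp t := by
  have := bp_add_int t 1
  rwa [Int.cast_one] at this
theorem bp_eq_iff (s t : ℝ) : bp s = bp t ↔ ∃ k : ℤ, s = t + k := by
  constructor
  · intro h
    have h1 := congrArg Subtype.val h
    rw [bp_val2, bp_val2] at h1
    simp only [Prod.mk.injEq] at h1
    obtain ⟨h2, h3, -⟩ := h1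
    have hcos : Real.cos (2 * Real.pi * s) = Real.cos (2 * Real.pi * t) := by linarith
    have hsin : Real.sin (2 * Real.pi * s) = Real.sin (2 * Real.pi * t) := by linarith
    have h4 := Real.Angle.cos_sin_inj hcos hsin
    rw [Real.Angle.angle_eq_iff_two_pi_dvd_sub] at h4
    obtain ⟨k, hk⟩ := h4
    refine ⟨k, ?_⟩
    have hpi : 2 * Real.pi ≠ 0 := by positivity
    have h5 : 2 * Real.pi * (s - t - k) = 0 := by linarith
    rcases mul_eq_zero.mp h5 with h6 | h6
    · exact absurd h6 hpi
    · linarith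
  · rintro ⟨k, rfl⟩
    exact bp_add_int t k
theorem B_bp (t : ℝ) (w : V) : B (bp t).1 w = (Real.cos (Real.pi * t) ^ 2 * w.2.2 +
    Real.sin (Real.pi * t) ^ 2 * w.1) / 2 - Real.cos (Real.pi * t) * Real.sin (Real.pi * t) * w.2.1 :=
  rfl
theorem isOpenMap_bp : IsOpenMap bp := by
  have hper : Function.Periodic bp 1 := bp_add_one
  let g : AddCircle (1 : ℝ) → Bd := hper.lift
  have hg : ∀ t : ℝ, g (t : AddCircle (1 : ℝ)) = bp t := fun t => rfl
  have hgc : Continuous g := by
    have hq : Topology.IsQuotientMap (fun t : ℝ => (t : AddCircle (1 : ℝ))) :=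
      isQuotientMap_quotient_mk'
    rw [hq.continuous_iff]
    exact continuous_bp
  have hginj : Function.Injective g := by
    intro x y hxy
    induction x using QuotientAddGroup.induction_on with
    | H s =>
      induction y using QuotientAddGroup.induction_on with
      | H t =>
        have h1 : bp s = bp t := hxy
        obtain ⟨k, hk⟩ := (bp_eq_iff s t).mp h1
        rw [hk]
        show ((t + k : ℝ) : AddCircle (1 : ℝ)) = (t : AddCircle (1 : ℝ))
        rw [AddCircle.coe_add, (AddCircle.coe_eq_zero_iff (p := (1 : ℝ)) (x := (k : ℝ))).mpr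
          ⟨k, by simp⟩, add_zero]
  have hgsurj : Function.Surjective g := by
    intro x
    obtain ⟨t, -, -, ht⟩ := bp_surj x
    exact ⟨(t : AddCircle (1 : ℝ)), ht⟩
  have hfact : Fact ((0 : ℝ) < 1) := ⟨one_pos⟩
  let e : AddCircle (1 : ℝ) ≃ Bd := Equiv.ofBijective g ⟨hginj, hgsurj⟩
  have he : Continuous e := hgc
  have hopen : IsOpenMap g := he.homeoOfEquivCompactToT2.isOpenMap
  have h2 : bp = g ∘ (fun t : ℝ => (t : AddCircle (1 : ℝ))) := rfl
  rw [h2]
  exact hopen.comp QuotientAddGroup.isOpenMap_coe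



end Pool.Agent.SCD
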