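import Mathlib
import Pool.Agent.SCD.Basic
import Pool.Agent.SCD.L_bp_facts

set_option autoImplicit false

namespace Pool.Agent.SCD

open Filter Topology Set


private theorem OPx_rfl0_bp (t : ℝ) : rfl0 (bp t) = bp (-t) := by
  apply Subtype.ext
  show ((bp t).1.1, -(bp t).1.2.1, (bp t).1.2.2) = (bp (-t)).1
  rw [bp_val, bp_val]
  simp only [mul_neg, Real.cos_neg, Real.sin_neg, even_two, Even.neg_pow]

private theorem OPx_trans {h h' : Bd ≃ₜ Bd} (a : OP h) (b : OP h') : OP (h.trans h') := by
  obtain ⟨F, hF, hF'⟩ := a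
  obtain ⟨G, hG, hG'⟩ := b
  refine ⟨F.trans G, fun t => ?_, fun t => ?_⟩
  · simp only [OrderIso.trans_apply]
    rw [hF, hG]
  · simp only [Homeomorph.trans_apply, OrderIso.trans_apply]
    rw [hF', hG']

private theorem OPx_symm {h : Bd ≃ₜ Bd} (a : OP h) : OP h.symm := by
  obtain ⟨F, hF, hF'⟩ := a
  refine ⟨F.symm, fun t => ?_, fun t => ?_⟩
  · apply F.injective
    rw [hF, F.apply_symm_apply, F.apply_symm_apply]
  · apply h.injective
    rw [h.apply_symm_apply, hF', F.apply_symm_apply]

private theorem OPx_conj_rfl {h : Bd ≃ₜ Bd} (a : OP h) : OP ((rfl0.trans h).trans rfl0) := by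
  obtain ⟨F, hF, hF'⟩ := a
  let G : ℝ ≃o ℝ :=
    { toFun := fun t => -F (-t)
      invFun := fun t => -F.symm (-t)
      left_inv := by intro t; simp
      right_inv := by intro t; simp
      map_rel_iff' := by
        intro x y
        show -F (-x) ≤ -F (-y) ↔ x ≤ y
        rw [neg_le_neg_iff, F.le_iff_le, neg_le_neg_iff] }
  refine ⟨G, fun t => ?_, fun t => ?_⟩
  · show -F (-(t + 1)) = -F (-t) + 1
    have h1 := hF (-(t + 1))
    have h2 : -(t + 1) + 1 = -t := by ring
    rw [h2] at h1
    linarith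
  · simp only [Homeomorph.trans_apply]
    rw [OPx_rfl0_bp, hF', OPx_rfl0_bp]
    rfl

/-- a strictly increasing continuous lift gives `OP` -/
private theorem OPx_of_mono (h : Bd ≃ₜ Bd) (F : ℝ → ℝ) (hc : Continuous F) (hm : StrictMono F)
    (hF : ∀ t : ℝ, h (bp t) = bp (F t)) : OP h := by
  have hone : ∀ t : ℝ, F (t + 1) = F t + 1 := by
    intro t
    have h1 : bp (F (t + 1)) = bp (F t) := by rw [← hF, ← hF, bp_add_one]
    obtain ⟨n, hn⟩ := (bp_eq_iff _ _).1 h1
    have h2 : F t < F (t + 1) := hm (by linarith)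
    have h3 : (0 : ℝ) < n := by linarith
    have h3' : (0 : ℤ) < n := by exact_mod_cast h3
    by_cases h4 : n = 1
    · rw [h4] at hn
      push_cast at hn
      linarith
    · exfalso
      have h5 : (2 : ℤ) ≤ n := by omega
      have h6 : (2 : ℝ) ≤ n := by exact_mod_cast h5
      have h7 : F t + 1 ∈ F '' Icc t (t + 1) :=
        intermediate_value_Icc (by linarith) hc.continuousOn ⟨by linarith, by linarith⟩
      obtain ⟨u, hu, hFu⟩ := h7
      have h8 : bp (F u) = bp (F t) := by rw [hFu, bp_add_one]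
      rw [← hF, ← hF] at h8
      obtain ⟨k, hk⟩ := (bp_eq_iff _ _).1 (h.injective h8)
      have h9 : t < u := by
        rcases lt_or_eq_of_le hu.1 with h | h
        · exact h
        · rw [← h] at hFu
          linarith
      have h10 : u < t + 1 := by
        rcases lt_or_eq_of_le hu.2 with h | h
        · exact h
        · rw [h] at hFu
          linarith
      have h11 : (0 : ℝ) < k := by linarith
      have h12 : (k : ℝ) < 1 := by linarith
      have h11' : (0 : ℤ) < k := by exact_mod_cast h11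
      have h12' : k < (1 : ℤ) := by exact_mod_cast h12
      omega
  have hnat : ∀ (n : ℕ) (t : ℝ), F (t + n) = F t + n := by
    intro n
    induction n with
    | zero => intro t; simp
    | succ n ih =>
      intro t
      have e : t + ((n + 1 : ℕ) : ℝ) = (t + n) + 1 := by push_cast; ring
      rw [e, hone, ih]
      push_cast
      ring
  have hsurj : Function.Surjective F := by
    intro y
    obtain ⟨n, hn⟩ := exists_nat_gt (|y - F 0|)
    rw [abs_lt] at hn
    refine mem_range_of_exists_le_of_exists_ge hc ⟨-(n : ℝ), ?_⟩ ⟨(n : ℝ), ?_⟩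
    · have h1 := hnat n (-(n : ℝ))
      rw [neg_add_cancel] at h1
      linarith
    · have h1 := hnat n 0
      rw [zero_add] at h1
      linarith
  exact ⟨hm.orderIsoOfSurjective F hsurj, fun t => hone t, fun t => hF t⟩

private theorem OPx_periodic : Function.Periodic bp 1 := bp_add_one

private theorem OPx_cov : IsCoveringMap bp := by
  haveI : Fact ((0:ℝ) < 1) := ⟨one_pos⟩
  let φ : AddCircle (1 : ℝ) → Bd := OPx_periodic.lift
  have hφ : ∀ t : ℝ, φ (t : AddCircle (1 : ℝ)) = bp t := fun t => OPx_periodic.lift_coe t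
  have hc : Continuous φ := by
    have hq : Topology.IsQuotientMap ((↑) : ℝ → AddCircle (1 : ℝ)) := QuotientAddGroup.isQuotientMap_mk _
    rw [hq.continuous_iff]
    exact continuous_bp
  have hi : Function.Injective φ := by
    intro x y
    induction x using QuotientAddGroup.induction_on with
    | H x =>
      induction y using QuotientAddGroup.induction_on with
      | H y =>
        intro hxy
        have h1 : bp x = bp y := hxy
        obtain ⟨k, hk⟩ := (bp_eq_iff _ _).1 h1
        rw [hk]
        have h2 : (((y + k : ℝ)) : AddCircle (1 : ℝ)) = (y : AddCircle (1 : ℝ)) := by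
          rw [AddCircle.coe_add]
          have : ((k : ℝ) : AddCircle (1 : ℝ)) = 0 := by
            rw [AddCircle.coe_eq_zero_iff]
            exact ⟨k, by simp⟩
          rw [this, add_zero]
        exact h2
  have hs : Function.Surjective φ := by
    intro x
    obtain ⟨t, _, _, ht⟩ := bp_surj x
    exact ⟨(t : AddCircle (1 : ℝ)), (hφ t).trans ht⟩
  let e : AddCircle (1 : ℝ) ≃ₜ Bd :=
    Continuous.homeoOfEquivCompactToT2 (f := Equiv.ofBijective φ ⟨hi, hs⟩) hc
  have he : bp = e ∘ ((↑) : ℝ → AddCircle (1 : ℝ)) := by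
    funext t
    exact (hφ t).symm
  rw [he]
  exact (AddCircle.isCoveringMap_coe (1 : ℝ)).homeomorph_comp e

private theorem OPx_lift (f : ℝ → Bd) (hf : Continuous f) :
    ∃ F : ℝ → ℝ, Continuous F ∧ ∀ t, f t = bp (F t) := by
  obtain ⟨e0, _, _, he0⟩ := bp_surj (f 0)
  obtain ⟨F, ⟨_, hF⟩, _⟩ := OPx_cov.existsUnique_continuousMap_lifts (⟨f, hf⟩ : C(ℝ, Bd)) 0 e0 he0
  exact ⟨F, F.continuous, fun t => (congrFun hF t).symm⟩

private theorem OPx_homeo (h : Bd ≃ₜ Bd) : OP h ∨ OP (h.trans rfl0) := by
  obtain ⟨F, hc, hF⟩ := OPx_lift (fun t => h (bp t)) (h.continuous.comp continuous_bp)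
  have hint : ∀ s t, F s = F t → ∃ k : ℤ, s = t + k := by
    intro s t hst
    have h1 : h (bp s) = h (bp t) := by rw [hF, hF, hst]
    exact (bp_eq_iff _ _).1 (h.injective h1)
  -- the degree
  have hd : ∀ t, ∃ n : ℤ, F (t + 1) = F t + n := by
    intro t
    have h1 : bp (F (t + 1)) = bp (F t) := by
      rw [← hF, ← hF, bp_add_one]
    exact (bp_eq_iff _ _).1 h1
  have hdc : ∀ t, F (t + 1) - F t = F (0 + 1) - F 0 := by
    have hcd : Continuous fun t => F (t + 1) - F t :=
      (hc.comp (continuous_id.add continuous_const)).sub hc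
    intro t
    have hr : Set.MapsTo (fun t => F (t + 1) - F t) univ (Set.range ((↑) : ℤ → ℝ)) := by
      intro x _
      obtain ⟨n, hn⟩ := hd x
      exact ⟨n, by simp only; linarith⟩
    have hdisc : IsDiscrete (Set.range ((↑) : ℤ → ℝ)) := by
      exact Int.isClosedEmbedding_coe_real.isEmbedding.toHomeomorph.symm.isEmbedding.discreteTopology.isDiscrete
    exact isPreconnected_univ.constant_of_mapsTo hdisc hcd.continuousOn hr (mem_univ t) (mem_univ 0)
  obtain ⟨d, hd0⟩ := hd 0
  have hper : ∀ t, F (t + 1) = F t + d := by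
    intro t
    have := hdc t
    linarith
  have hdne : d ≠ 0 := by
    intro hz
    rw [hz] at hd0
    simp only [Int.cast_zero, add_zero, zero_add] at hd0
    -- F 1 = F 0
    have hne : F (1 / 2) ≠ F 0 := by
      intro he
      obtain ⟨k, hk⟩ := hint _ _ he
      have h1 : (k : ℝ) = 1 / 2 := by linarith
      have h2 : (2 * k : ℤ) = 1 := by
        have : (2 * (k : ℝ)) = 1 := by rw [h1]; norm_num
        exact_mod_cast this
      omega
    have hkey : ∀ m : ℝ, m ≠ F 0 → m ≠ F (1 / 2) → m ∈ F '' Icc 0 (1 / 2) →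
        m ∈ F '' Icc (1 / 2) 1 → False := by
      intro m hm0 hm1 ⟨x, hx, hxm⟩ ⟨y, hy, hym⟩
      have hx1 : x < 1 / 2 := by
        rcases lt_or_eq_of_le hx.2 with h | h
        · exact h
        · exact absurd (by rw [← hxm, h]) hm1
      have hx0 : 0 < x := by
        rcases lt_or_eq_of_le hx.1 with h | h
        · exact h
        · exact absurd (by rw [← hxm, ← h]) hm0
      have hy1 : y < 1 := by
        rcases lt_or_eq_of_le hy.2 with h | h
        · exact h
        · exact absurd (by rw [← hym, h, hd0]) hm0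
      obtain ⟨k, hk⟩ := hint y x (by rw [hxm, hym])
      have h1 : (0 : ℝ) < k := by linarith [hy.1]
      have h2 : (k : ℝ) < 1 := by linarith
      have h1' : (0 : ℤ) < k := by exact_mod_cast h1
      have h2' : k < (1 : ℤ) := by exact_mod_cast h2
      omega
    have hm0 : (F 0 + F (1 / 2)) / 2 ≠ F 0 := by
      intro he; apply hne; linarith
    have hm1 : (F 0 + F (1 / 2)) / 2 ≠ F (1 / 2) := by
      intro he; apply hne; linarith
    rcases lt_or_gt_of_ne hne with hlt | hlt
    · refine hkey _ hm0 hm1 ?_ ?_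
      · exact intermediate_value_Icc' (by norm_num) hc.continuousOn ⟨by linarith, by linarith⟩
      · exact intermediate_value_Icc (by norm_num) hc.continuousOn
          ⟨by linarith, by rw [hd0]; linarith⟩
    · refine hkey _ hm0 hm1 ?_ ?_
      · exact intermediate_value_Icc (by norm_num) hc.continuousOn ⟨by linarith, by linarith⟩
      · exact intermediate_value_Icc' (by norm_num) hc.continuousOn
          ⟨by rw [hd0]; linarith, by linarith⟩
  have hnat : ∀ (n : ℕ) (t : ℝ), F (t + n) = F t + n * d := by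
    intro n
    induction n with
    | zero => intro t; simp
    | succ n ih =>
      intro t
      have e : t + ((n + 1 : ℕ) : ℝ) = (t + n) + 1 := by push_cast; ring
      rw [e, hper, ih]
      push_cast
      ring
  have hinj : Function.Injective F := by
    have hdr : (d : ℝ) ≠ 0 := by exact_mod_cast hdne
    intro s t hst
    obtain ⟨k, hk⟩ := hint s t hst
    rcases Int.le_total 0 k with hk0 | hk0
    · obtain ⟨n, rfl⟩ := Int.eq_ofNat_of_zero_le hk0
      rw [hk] at hst
      have h1 := hnat n t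
      rw [Int.cast_natCast] at hst hk
      rw [h1] at hst
      have h2 : (n : ℝ) * d = 0 := by linarith
      rcases mul_eq_zero.1 h2 with h3 | h3
      · rw [h3, add_zero] at hk
        exact hk
      · exact absurd h3 hdr
    · obtain ⟨n, hn⟩ := Int.eq_ofNat_of_zero_le (Int.neg_nonneg_of_nonpos hk0)
      have hkn : (k : ℝ) = -(n : ℝ) := by
        have : k = -(n : ℤ) := by
          have h5 : (n : ℤ) = -k := hn.symm
          rw [h5, neg_neg]
        rw [this]
        push_cast
        ring
      have h0 : t = s + n := by rw [hk, hkn]; ring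
      have h1 := hnat n s
      rw [← h0, ← hst] at h1
      have h2 : (n : ℝ) * d = 0 := by linarith
      rcases mul_eq_zero.1 h2 with h3 | h3
      · rw [h3, add_zero] at h0
        exact h0.symm
      · exact absurd h3 hdr
  rcases hc.strictMono_of_inj hinj with hm | hm
  · left
    exact OPx_of_mono h F hc hm hF
  · right
    refine OPx_of_mono (h.trans rfl0) (fun t => -F t) hc.neg (fun x y hxy => ?_) (fun t => ?_)
    · exact neg_lt_neg (hm hxy)
    · rw [Homeomorph.trans_apply, hF, OPx_rfl0_bp]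

private theorem OPx_rfl_rfl (x : Bd) : rfl0 (rfl0 x) = x := by
  apply Subtype.ext
  show ((rfl0 x).1.1, -(rfl0 x).1.2.1, (rfl0 x).1.2.2) = x.1
  show (x.1.1, -(-x.1.2.1), x.1.2.2) = x.1
  rw [neg_neg]

private theorem OPx_sq (h : Bd ≃ₜ Bd) : OP (h.trans h) := by
  rcases OPx_homeo h with h1 | h1
  · exact OPx_trans h1 h1
  · have h2 := OPx_trans h1 (OPx_conj_rfl h1)
    have h3 : (h.trans rfl0).trans ((rfl0.trans (h.trans rfl0)).trans rfl0) = h.trans h := by
      ext x
      simp only [Homeomorph.trans_apply, OPx_rfl_rfl]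
    rw [h3] at h2
    exact h2

private theorem OPx_sm_mul {g g' : SL} (h : OP (sm g)) (h' : OP (sm g')) : OP (sm (g * g')) := by
  have : sm (g * g') = (sm g').trans (sm g) := by
    ext x
    simp only [Homeomorph.trans_apply, sm_apply, mul_smul]
  rw [this]
  exact OPx_trans h' h

private theorem OPx_sm_inv {g : SL} (h : OP (sm g)) : OP (sm g⁻¹) := by
  have : sm g⁻¹ = (sm g).symm := by
    ext x
    rfl
  rw [this]
  exact OPx_symm h

private theorem OPx_sm_sq (g : SL) : OP (sm (g * g)) := by
  have : sm (g * g) = (sm g).trans (sm g) := by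
    ext x
    simp only [Homeomorph.trans_apply, sm_apply, mul_smul]
  rw [this]
  exact OPx_sq _

private theorem OPx_U (x : ℝ) : OP (sm (mk4 1 x 0 1 (by ring))) := by
  have h : mk4 1 x 0 1 (by ring) = mk4 1 (x / 2) 0 1 (by ring) * mk4 1 (x / 2) 0 1 (by ring) := by
    apply SL_ext <;> simp
  rw [h]
  exact OPx_sm_sq _

private theorem OPx_L (x : ℝ) : OP (sm (mk4 1 0 x 1 (by ring))) := by
  have h : mk4 1 0 x 1 (by ring) = mk4 1 0 (x / 2) 1 (by ring) * mk4 1 0 (x / 2) 1 (by ring) := by
    apply SL_ext <;> simp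
  rw [h]
  exact OPx_sm_sq _

private theorem OPx_sm_ne (g : SL) (hc : ec g ≠ 0) : OP (sm g) := by
  have hd := det_eq g
  have h : g = mk4 1 ((ea g - 1) / ec g) 0 1 (by ring) * mk4 1 0 (ec g) 1 (by ring) *
      mk4 1 ((ed g - 1) / ec g) 0 1 (by ring) := by
    apply SL_ext
    · simp; field_simp; ring
    · simp; field_simp; linear_combination -hd
    · simp
    · simp; field_simp; ring
  rw [h]
  exact OPx_sm_mul (OPx_sm_mul (OPx_U _) (OPx_L _)) (OPx_U _)

private theorem OPx_sm (g : SL) : OP (sm g) := by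
  by_cases hc : ec g = 0
  · have hd := det_eq g
    rw [hc, mul_zero, sub_zero] at hd
    have ha : ea g ≠ 0 := by
      intro h
      rw [h, zero_mul] at hd
      exact zero_ne_one hd
    have h : g = (mk4 1 0 1 1 (by ring))⁻¹ * (mk4 1 0 1 1 (by ring) * g) := by
      rw [inv_mul_cancel_left]
    rw [h]
    refine OPx_sm_mul (OPx_sm_inv (OPx_L 1)) (OPx_sm_ne _ ?_)
    simp [hc, ha]
  · exact OPx_sm_ne g hc

theorem OP_sm (g : SL) : OP (sm g) := by
  exact OPx_sm g
theorem homeo_OP (h : Bd ≃ₜ Bd) : OP h ∨ OP (h.trans rfl0) := by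
  exact OPx_homeo h
theorem OP_trans {h h' : Bd ≃ₜ Bd} (a : OP h) (b : OP h') : OP (h.trans h') := by
  exact OPx_trans a b
theorem OP_symm {h : Bd ≃ₜ Bd} (a : OP h) : OP h.symm := by
  exact OPx_symm a
theorem OP_conj_rfl {h : Bd ≃ₜ Bd} (a : OP h) : OP ((rfl0.trans h).trans rfl0) := by
  exact OPx_conj_rfl a
theorem rfl0_bp (t : ℝ) : rfl0 (bp t) = bp (-t) := by
  exact OPx_rfl0_bp t



end Pool.Agent.SCD
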