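import Mathlib
import Pool.Agent.SCD.Basic

set_option autoImplicit false

namespace Pool.Agent.SCD

open Filter Topology Set


theorem IsComm_sm {Γ : Subgroup SL} {g : SL} (hg : g ∈ Γ) : IsComm Γ (sm g) := by
  refine ⟨Γ, Γ, le_rfl, le_rfl, ?_, ?_, MulAut.conj (⟨g, hg⟩ : Γ), ?_⟩
  · rw [Subgroup.subgroupOf_self]; simp
  · rw [Subgroup.subgroupOf_self]; simp
  · intro γ x
    have h1 : ((MulAut.conj (⟨g, hg⟩ : Γ) γ : Γ) : SL) = g * (γ : SL) * g⁻¹ := by
      simp [MulAut.conj_apply]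
    rw [h1, sm_apply, sm_apply, smul_smul, smul_smul]
    congr 1
    group



end Pool.Agent.SCD
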