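import Mathlib
import Pool.Agent.SCD.Basic

set_option autoImplicit false

namespace Pool.Agent.SCD

open Filter Topology Set


/-- commuting with `x ↦ x + 1` -/
def Per (g : ℝ ≃o ℝ) : Prop := ∀ x, g (x + 1) = g x + 1
/-- uniform closure of a group of lifts -/
def Cl (Γ : Subgroup (ℝ ≃o ℝ)) (f : ℝ ≃o ℝ) : Prop :=
  Per f ∧ ∀ ε > 0, ∃ g ∈ Γ, ∀ x, |g x - f x| < ε
private theorem aux_unif {f : ℝ ≃o ℝ} (hf : Per f) : UniformContinuous (fun x : ℝ => f x) := by
  have hc : Continuous (fun x : ℝ => f x) := f.continuous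
  have hp : Function.Periodic (fun x : ℝ => f x - x) 1 := by
    intro x
    simp only
    rw [hf x]; ring
  have h1 : UniformContinuous (fun x : ℝ => f x - x) := by
    have hK : UniformContinuousOn (fun x : ℝ => f x - x) (Icc (-1) 2) :=
      isCompact_Icc.uniformContinuousOn_of_continuous (hc.sub continuous_id).continuousOn
    rw [Metric.uniformContinuousOn_iff] at hK
    rw [Metric.uniformContinuous_iff]
    intro ε hε
    obtain ⟨δ, hδ, h⟩ := hK ε hε
    refine ⟨min δ 1, lt_min hδ one_pos, ?_⟩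
    intro a b hab
    have e1 := hp.sub_zsmul_eq (x := a) ⌊a⌋
    have e2 := hp.sub_zsmul_eq (x := b) ⌊a⌋
    rw [← e1, ← e2]
    have hd : |a - b| < δ := by
      rw [← Real.dist_eq]; exact lt_of_lt_of_le hab (min_le_left _ _)
    have hd1 : |a - b| < 1 := by
      rw [← Real.dist_eq]; exact lt_of_lt_of_le hab (min_le_right _ _)
    have hd2 := abs_lt.1 hd1
    have hf1 := Int.floor_le a
    have hf2 := Int.lt_floor_add_one a
    have hz : (⌊a⌋ : ℤ) • (1 : ℝ) = (⌊a⌋ : ℝ) := by simp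
    rw [hz]
    apply h
    · constructor <;> linarith
    · constructor <;> linarith
    · rw [Real.dist_eq]
      have : a - (⌊a⌋ : ℝ) - (b - (⌊a⌋ : ℝ)) = a - b := by ring
      rw [this]
      exact hd
  have h2 : (fun x : ℝ => f x) = fun x => (f x - x) + x := by funext x; ring
  rw [h2]
  exact h1.add uniformContinuous_id

theorem cl_mul {Γ : Subgroup (ℝ ≃o ℝ)} (hΓ : ∀ g ∈ Γ, Per g) {f g : ℝ ≃o ℝ} (hf : Cl Γ f)
    (hg : Cl Γ g) : Cl Γ (f * g) := by
  refine ⟨?_, ?_⟩
  · intro x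
    show f (g (x + 1)) = f (g x) + 1
    rw [hg.1 x, hf.1 (g x)]
  · intro ε hε
    obtain ⟨δ, hδ, hu⟩ := Metric.uniformContinuous_iff.1 (aux_unif hf.1) (ε / 2) (by linarith)
    obtain ⟨f', hf', hff⟩ := hf.2 (ε / 2) (by linarith)
    obtain ⟨g', hg', hgg⟩ := hg.2 δ hδ
    refine ⟨f' * g', Γ.mul_mem hf' hg', ?_⟩
    intro x
    show |f' (g' x) - f (g x)| < ε
    have h1 := hff (g' x)
    have h2 := hu (a := g' x) (b := g x) (by rw [Real.dist_eq]; exact hgg x)
    rw [Real.dist_eq] at h2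
    have h3 := abs_add_le (f' (g' x) - f (g' x)) (f (g' x) - f (g x))
    have h4 : f' (g' x) - f (g' x) + (f (g' x) - f (g x)) = f' (g' x) - f (g x) := by ring
    rw [h4] at h3
    linarith



end Pool.Agent.SCD
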