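import Mathlib
import Pool.Agent.SCD.Basic
import Pool.Agent.SCD.L_cl_mul

set_option autoImplicit false

namespace Pool.Agent.SCD

open Filter Topology Set


private theorem cl_inv_per_int {G : ℝ ≃o ℝ} (hG : Per G) (x : ℝ) (n : ℤ) : G (x + n) = G x + n := by
  have hp : Function.Periodic (fun x => G x - x) 1 := by
    intro y
    simp only [hG y]
    ring
  have h := (hp.int_mul n) x
  simp only [mul_one] at h
  linarith

private theorem cl_inv_uc {G : ℝ ≃o ℝ} (hG : Per G) (ε : ℝ) (hε : 0 < ε) :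
    ∃ δ > 0, ∀ x y : ℝ, |x - y| < δ → |G x - G y| < ε := by
  have hc : ContinuousOn G (Icc (-1) 2) := G.continuous.continuousOn
  have hu := isCompact_Icc.uniformContinuousOn_of_continuous hc
  rw [Metric.uniformContinuousOn_iff] at hu
  obtain ⟨δ, hδ, h⟩ := hu ε hε
  refine ⟨min δ 1, lt_min hδ one_pos, fun x y hxy => ?_⟩
  have h1 := hxy.trans_le (min_le_left _ _)
  have h2 := abs_lt.mp (hxy.trans_le (min_le_right _ _))
  have hx := cl_inv_per_int hG x (-⌊x⌋)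
  have hy := cl_inv_per_int hG y (-⌊x⌋)
  have hf1 := Int.floor_le x
  have hf2 := Int.lt_floor_add_one x
  push_cast at hx hy
  have h3 := h (x + -(⌊x⌋ : ℝ)) ⟨by linarith, by linarith⟩ (y + -(⌊x⌋ : ℝ))
    ⟨by linarith, by linarith⟩ (by
      rw [Real.dist_eq]
      rwa [add_sub_add_right_eq_sub])
  rw [Real.dist_eq, hx, hy, add_sub_add_right_eq_sub] at h3
  exact h3

theorem cl_inv {Γ : Subgroup (ℝ ≃o ℝ)} (hΓ : ∀ g ∈ Γ, Per g) {f : ℝ ≃o ℝ} (hf : Cl Γ f) :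
    Cl Γ f⁻¹ := by
  obtain ⟨hp, hap⟩ := hf
  have hff : ∀ x, f (f⁻¹ x) = x := fun x => f.apply_symm_apply x
  have hff' : ∀ x, f⁻¹ (f x) = x := fun x => f.symm_apply_apply x
  have hper : Per f⁻¹ := by
    intro x
    apply f.injective
    rw [hff, hp, hff]
  refine ⟨hper, fun ε hε => ?_⟩
  obtain ⟨δ, hδ, hd⟩ := cl_inv_uc hper ε hε
  obtain ⟨g, hg, hgf⟩ := hap δ hδ
  refine ⟨g⁻¹, Γ.inv_mem hg, fun x => ?_⟩
  have hgg : g (g⁻¹ x) = x := g.apply_symm_apply x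
  have h1 := hgf (g⁻¹ x)
  rw [abs_sub_comm] at h1
  have h2 := hd _ _ h1
  rw [hff', hgg] at h2
  exact h2



end Pool.Agent.SCD
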