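import Mathlib
import Pool.Agent.SCD.Basic
import Pool.Agent.SCD.L_cl_mul
import Pool.Agent.SCD.L_cl_inv

set_option autoImplicit false

namespace Pool.Agent.SCD

open Filter Topology Set


/-- small moves: every point is inside a small interval which is the exact support of an element of the closure -/
def SmallMoves (Γ : Subgroup (ℝ ≃o ℝ)) : Prop :=
  ∀ x ε : ℝ, 0 < ε → ∃ a b : ℝ, x - ε < a ∧ a < x ∧ x < b ∧ b < x + ε ∧ ∃ e : ℝ ≃o ℝ, Cl Γ e ∧
    (∀ y ∈ Icc b (a + 1), e y = y) ∧ ∀ y ∈ Ioo a b, e y ≠ y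
theorem move_up {Γ : Subgroup (ℝ ≃o ℝ)} (hΓ : ∀ g ∈ Γ, Per g) (hS : SmallMoves Γ) {α β x y : ℝ}
    (h1 : β ≤ α + 1) (h2 : α < x) (h3 : x ≤ y) (h4 : y < β) {δ : ℝ} (hδ : 0 < δ) :
    ∃ e : ℝ ≃o ℝ, Cl Γ e ∧ (∀ z ∈ Icc β (α + 1), e z = z) ∧ y - δ < e x ∧ e x ≤ y := by
  by_contra hcon
  push Not at hcon
  have hone : Cl Γ 1 := by
    refine ⟨fun z => rfl, fun ε hε => ⟨1, Γ.one_mem, fun z => ?_⟩⟩
    rw [sub_self, abs_zero]
    exact hε
  set O : Set ℝ := {o | ∃ e : ℝ ≃o ℝ, Cl Γ e ∧ (∀ z ∈ Icc β (α + 1), e z = z) ∧ e x = o ∧ o ≤ y}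
    with hO
  have hxO : x ∈ O := ⟨1, hone, fun z _ => rfl, rfl, h3⟩
  have hbdd : BddAbove O := ⟨y, by rintro o ⟨_, _, _, _, ho⟩; exact ho⟩
  have hxs : x ≤ sSup O := le_csSup hbdd hxO
  have hsy : sSup O ≤ y - δ := by
    by_contra hlt
    push Not at hlt
    obtain ⟨o, ⟨e, he1, he2, he3, he4⟩, ho⟩ := exists_lt_of_lt_csSup ⟨x, hxO⟩ hlt
    have := hcon e he1 he2 (by rw [he3]; exact ho)
    rw [he3] at this
    linarith
  set s := sSup O with hs
  have hε : 0 < min (s - α) (y - s) := lt_min (by linarith) (by linarith)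
  obtain ⟨a, b, hab1, hab2, hab3, hab4, e, heC, hefix, hemove⟩ := hS s _ hε
  have hε1 := min_le_left (s - α) (y - s)
  have hε2 := min_le_right (s - α) (y - s)
  have haα : α < a := by linarith
  have hby : b < y := by linarith
  have hne : e s ≠ s := hemove s ⟨hab2, hab3⟩
  -- choose the direction
  have hdir : ∃ e' : ℝ ≃o ℝ, Cl Γ e' ∧ (∀ z ∈ Icc b (a + 1), e' z = z) ∧ s < e' s := by
    rcases lt_or_gt_of_ne hne with h | h
    · refine ⟨e⁻¹, cl_inv hΓ heC, ?_, ?_⟩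
      · intro z hz
        have h5 := hefix z hz
        calc e⁻¹ z = e⁻¹ (e z) := by rw [h5]
          _ = z := RelIso.inv_apply_self e z
      · have h5 : e⁻¹ (e s) < e⁻¹ s := (e⁻¹).strictMono h
        rwa [RelIso.inv_apply_self] at h5
    · exact ⟨e, heC, hefix, h⟩
  obtain ⟨e', he'C, he'fix, he's⟩ := hdir
  have he'b : e' b = b := he'fix b ⟨le_rfl, by linarith⟩
  have he'sb : e' s < b := by
    have h5 : e' s < e' b := e'.strictMono hab3
    rwa [he'b] at h5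
  have hc : e'⁻¹ s < s := by
    have h5 : e'⁻¹ s < e'⁻¹ (e' s) := (e'⁻¹).strictMono he's
    rwa [RelIso.inv_apply_self] at h5
  obtain ⟨o, ⟨e'', h11, h12, h13, h14⟩, ho⟩ := exists_lt_of_lt_csSup ⟨x, hxO⟩ hc
  have hos : o ≤ s := le_csSup hbdd ⟨e'', h11, h12, h13, h14⟩
  have h15 : s < e' o := by
    have h5 : e' (e'⁻¹ s) < e' o := e'.strictMono ho
    rwa [RelIso.apply_inv_self] at h5
  have h16 : e' o ≤ e' s := e'.monotone hos
  have h17 : e' o ∈ O := by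
    refine ⟨e' * e'', cl_mul hΓ he'C h11, ?_, ?_, by linarith⟩
    · intro z hz
      rw [RelIso.mul_apply, h12 z hz]
      exact he'fix z ⟨by linarith [hz.1], by linarith [hz.2]⟩
    · rw [RelIso.mul_apply, h13]
  have h18 : e' o ≤ s := le_csSup hbdd h17
  linarith



end Pool.Agent.SCD
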