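import Mathlib
import Pool.Agent.SCD.Basic
import Pool.Agent.SCD.L_cl_mul
import Pool.Agent.SCD.L_cl_inv
import Pool.Agent.SCD.L_move_up

set_option autoImplicit false

namespace Pool.Agent.SCD

open Filter Topology Set


private theorem j18467_inv_fix {e : ℝ ≃o ℝ} {z : ℝ} (h : e z = z) : e⁻¹ z = z := by
  have h1 : e⁻¹ (e z) = z := RelIso.inv_apply_self e z
  rwa [h] at h1

theorem move_down {Γ : Subgroup (ℝ ≃o ℝ)} (hΓ : ∀ g ∈ Γ, Per g) (hS : SmallMoves Γ) {α β x y : ℝ}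
    (h1 : β ≤ α + 1) (h2 : α < y) (h3 : y ≤ x) (h4 : x < β) {δ : ℝ} (hδ : 0 < δ) :
    ∃ e : ℝ ≃o ℝ, Cl Γ e ∧ (∀ z ∈ Icc β (α + 1), e z = z) ∧ y ≤ e x ∧ e x < y + δ := by
  set S : Set ℝ := {o | y ≤ o ∧ ∃ e : ℝ ≃o ℝ, Cl Γ e ∧ (∀ z ∈ Icc β (α + 1), e z = z) ∧ e x = o}
    with hSdef
  have hone : Cl Γ 1 := by
    refine ⟨fun t => rfl, fun ε hε => ⟨1, Γ.one_mem, fun t => ?_⟩⟩
    simpa using hε
  have hxS : x ∈ S := ⟨h3, 1, hone, fun z _ => rfl, rfl⟩
  have hbdd : BddBelow S := ⟨y, fun o ho => ho.1⟩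
  have hys : y ≤ sInf S := le_csInf ⟨x, hxS⟩ fun o ho => ho.1
  have hsx : sInf S ≤ x := csInf_le hbdd hxS
  rcases eq_or_lt_of_le hys with hs | hs
  · obtain ⟨o, ho, hoδ⟩ := exists_lt_of_csInf_lt ⟨x, hxS⟩ (show sInf S < y + δ by linarith)
    obtain ⟨hyo, e, he1, he2, he3⟩ := ho
    exact ⟨e, he1, he2, by rw [he3]; exact hyo, by rw [he3]; exact hoδ⟩
  · exfalso
    obtain ⟨a, b, ha1, ha2, hb1, hb2, e, he1, he2, he3⟩ :=
      hS (sInf S) (min (sInf S - y) (β - sInf S)) (lt_min (by linarith) (by linarith))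
    have hay : y < a := by
      have := min_le_left (sInf S - y) (β - sInf S)
      linarith
    have hbβ : b < β := by
      have := min_le_right (sInf S - y) (β - sInf S)
      linarith
    -- an element moving `s` down
    have key : ∃ f : ℝ ≃o ℝ, Cl Γ f ∧ (∀ z ∈ Icc b (a + 1), f z = z) ∧ f (sInf S) < sInf S := by
      rcases lt_or_gt_of_ne (he3 (sInf S) ⟨ha2, hb1⟩) with h | h
      · exact ⟨e, he1, he2, h⟩
      · refine ⟨e⁻¹, cl_inv hΓ he1, fun z hz => j18467_inv_fix (he2 z hz), ?_⟩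
        have h5 : e⁻¹ (sInf S) < e⁻¹ (e (sInf S)) := (e⁻¹).lt_iff_lt.2 h
        rwa [RelIso.inv_apply_self] at h5
    obtain ⟨f, hf1, hf2, hf3⟩ := key
    have hfa : f a = a := by
      have h5 : f (a + 1) = a + 1 := hf2 (a + 1) ⟨by linarith, le_rfl⟩
      have h6 := hf1.1 a
      linarith
    have hlt : sInf S < f⁻¹ (sInf S) := by
      have h5 : f⁻¹ (f (sInf S)) < f⁻¹ (sInf S) := (f⁻¹).lt_iff_lt.2 hf3
      rwa [RelIso.inv_apply_self] at h5
    obtain ⟨o, ho, ho2⟩ := exists_lt_of_csInf_lt ⟨x, hxS⟩ hlt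
    have hso : sInf S ≤ o := csInf_le hbdd ho
    have h7 : f o < sInf S := by
      have h5 : f o < f (f⁻¹ (sInf S)) := f.lt_iff_lt.2 ho2
      rwa [RelIso.apply_inv_self] at h5
    have h8 : y < f o := by
      have h5 : f a < f o := f.lt_iff_lt.2 (by linarith)
      rw [hfa] at h5
      linarith
    obtain ⟨hyo, k, hk1, hk2, hk3⟩ := ho
    have h9 : f o ∈ S := by
      refine ⟨h8.le, f * k, cl_mul hΓ hf1 hk1, fun z hz => ?_, ?_⟩
      · rw [RelIso.mul_apply, hk2 z hz]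
        exact hf2 z ⟨by linarith [hz.1], by linarith [hz.2]⟩
      · rw [RelIso.mul_apply, hk3]
    have h10 := csInf_le hbdd h9
    linarith



end Pool.Agent.SCD
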