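import Mathlib
import Pool.Agent.SCD.Basic
import Pool.Agent.SCD.L_cl_mul
import Pool.Agent.SCD.L_cl_inv
import Pool.Agent.SCD.L_move_up
import Pool.Agent.SCD.L_move_down

set_option autoImplicit false

namespace Pool.Agent.SCD

open Filter Topology Set


private theorem npoint_one (Γ : Subgroup (ℝ ≃o ℝ)) : Cl Γ 1 := by
  refine ⟨fun x => rfl, fun ε hε => ⟨1, Γ.one_mem, fun x => ?_⟩⟩
  simpa using hε

private theorem npoint_fix {f : ℝ ≃o ℝ} (hf : Per f) {z : ℝ} (h : f (z + 1) = z + 1) : f z = z := by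
  have := hf z
  linarith

private theorem npoint_ind {Γ : Subgroup (ℝ ≃o ℝ)} (hΓ : ∀ g ∈ Γ, Per g) (hS : SmallMoves Γ) {α δ : ℝ}
    (hδ : 0 < δ) (n : ℕ) : ∀ (β : ℝ) (x y : ℕ → ℝ), β ≤ α + 1 →
    (∀ i j, i < j → j < n → x i < x j) → (∀ i j, i < j → j < n → y i < y j) →
    (∀ i < n, α < x i) → (∀ i < n, x i ≤ y i) → (∀ i < n, y i < β) →
    ∃ e : ℝ ≃o ℝ, Cl Γ e ∧ (∀ z ∈ Icc β (α + 1), e z = z) ∧ ∀ i < n, |e (x i) - y i| < δ := by
  induction n with
  | zero =>
    intro β x y _ _ _ _ _ _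
    exact ⟨1, npoint_one Γ, fun z _ => rfl, fun i hi => absurd hi (Nat.not_lt_zero i)⟩
  | succ n ih =>
    intro β x y h1 hx hy hxα hxy hyβ
    obtain ⟨α', hα1, hα2, hα3⟩ : ∃ α', α ≤ α' ∧ (∀ i < n, x i ≤ α') ∧ α' < x n := by
      cases n with
      | zero => exact ⟨α, le_rfl, fun i hi => absurd hi (Nat.not_lt_zero i), hxα 0 (by omega)⟩
      | succ m =>
        refine ⟨x m, (hxα m (by omega)).le, fun i hi => ?_, hx m (m + 1) (by omega) (by omega)⟩
        rcases (Nat.lt_succ_iff.1 hi).eq_or_lt with h | h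
        · rw [h]
        · exact (hx i m h (by omega)).le
    obtain ⟨δ', hδ0, hδ1, hδ2⟩ : ∃ δ', 0 < δ' ∧ δ' ≤ δ ∧ ∀ i < n, y i < y n - δ' := by
      cases n with
      | zero => exact ⟨δ, hδ, le_rfl, fun i hi => absurd hi (Nat.not_lt_zero i)⟩
      | succ m =>
        have h2 := hy m (m + 1) (by omega) (by omega)
        refine ⟨min δ ((y (m + 1) - y m) / 2), lt_min hδ (by linarith), min_le_left _ _,
          fun i hi => ?_⟩
        have h3 := min_le_right δ ((y (m + 1) - y m) / 2)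
        have h4 : y i ≤ y m := by
          rcases (Nat.lt_succ_iff.1 hi).eq_or_lt with h | h
          · rw [h]
          · exact (hy i m h (by omega)).le
        linarith
    obtain ⟨e1, hc1, hf1, hl1, hu1⟩ := move_up hΓ hS (α := α') (β := β) (x := x n) (y := y n)
      (by linarith) hα3 (hxy n (by omega)) (hyβ n (by omega)) hδ0
    have hfx : ∀ i < n, e1 (x i) = x i := by
      intro i hi
      have h2 := hxα i (by omega)
      have h3 := hα2 i hi
      exact npoint_fix hc1.1 (hf1 (x i + 1) ⟨by linarith, by linarith⟩)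
    have hyn := hyβ n (by omega)
    obtain ⟨e2, hc2, hf2, hl2⟩ := ih (e1 (x n)) x y (by linarith)
      (fun i j hij hj => hx i j hij (by omega)) (fun i j hij hj => hy i j hij (by omega))
      (fun i hi => hxα i (by omega)) (fun i hi => hxy i (by omega))
      (fun i hi => by linarith [hδ2 i hi])
    refine ⟨e2 * e1, cl_mul hΓ hc2 hc1, ?_, ?_⟩
    · intro z hz
      change e2 (e1 z) = z
      rw [hf1 z ⟨hz.1, by linarith [hz.2]⟩, hf2 z ⟨by linarith [hz.1], hz.2⟩]
    · intro i hi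
      change |e2 (e1 (x i)) - y i| < δ
      rcases (Nat.lt_succ_iff.1 hi).eq_or_lt with h | h
      · rw [h, hf2 (e1 (x n)) ⟨le_rfl, by linarith⟩, abs_lt]
        constructor <;> linarith
      · rw [hfx i h]
        exact hl2 i h

theorem npoint {Γ : Subgroup (ℝ ≃o ℝ)} (hΓ : ∀ g ∈ Γ, Per g) (hS : SmallMoves Γ) {α β : ℝ}
    (h1 : β ≤ α + 1) (n : ℕ) (x y : Fin n → ℝ) (hx : StrictMono x) (hy : StrictMono y)
    (hxα : ∀ i, α < x i) (hxβ : ∀ i, x i < β) (hyα : ∀ i, α < y i) (hyβ : ∀ i, y i < β) {δ : ℝ}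
    (hδ : 0 < δ) :
    ∃ e : ℝ ≃o ℝ, Cl Γ e ∧ (∀ z ∈ Icc β (α + 1), e z = z) ∧ ∀ i, |e (x i) - y i| < δ := by
  cases n with
  | zero => exact ⟨1, npoint_one Γ, fun z _ => rfl, fun i => i.elim0⟩
  | succ m =>
    have hαβ : α < β := (hxα 0).trans (hxβ 0)
    obtain ⟨c, hc⟩ : ∃ c : ℝ, c = min (x (Fin.last m) - α) (y 0 - α) / 2 := ⟨_, rfl⟩
    have hc0 : 0 < c := by
      rw [hc]
      have : 0 < min (x (Fin.last m) - α) (y 0 - α) :=
        lt_min (by linarith [hxα (Fin.last m)]) (by linarith [hyα 0])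
      linarith
    have hc1 : 2 * c ≤ x (Fin.last m) - α := by
      rw [hc]
      linarith [min_le_left (x (Fin.last m) - α) (y 0 - α)]
    have hc2 : 2 * c ≤ y 0 - α := by
      rw [hc]
      linarith [min_le_right (x (Fin.last m) - α) (y 0 - α)]
    obtain ⟨e0, hcl0, hf0, hl0, hu0⟩ := move_down hΓ hS (α := α) (β := β)
      (x := x (Fin.last m)) (y := α + c) h1 (by linarith) (by linarith) (hxβ _) hc0
    have hα0 : e0 α = α := npoint_fix hcl0.1 (hf0 (α + 1) ⟨h1, le_rfl⟩)
    have hup : ∀ i, e0 (x i) < y 0 := by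
      intro i
      have h2 : e0 (x i) ≤ e0 (x (Fin.last m)) := e0.monotone (hx.monotone (Fin.le_last i))
      linarith
    have hlo : ∀ i, α < e0 (x i) := by
      intro i
      have h2 : e0 α < e0 (x i) := e0.strictMono (hxα i)
      rwa [hα0] at h2
    obtain ⟨e, hce, hfe, hle⟩ := npoint_ind hΓ hS hδ (m + 1) β
      (fun i => if h : i < m + 1 then e0 (x ⟨i, h⟩) else 0)
      (fun i => if h : i < m + 1 then y ⟨i, h⟩ else 0) h1
      (by
        intro i j hij hj
        rw [dif_pos (hij.trans hj), dif_pos hj]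
        exact e0.strictMono (hx hij))
      (by
        intro i j hij hj
        rw [dif_pos (hij.trans hj), dif_pos hj]
        exact hy hij)
      (by
        intro i hi
        rw [dif_pos hi]
        exact hlo _)
      (by
        intro i hi
        rw [dif_pos hi, dif_pos hi]
        exact (hup _).le.trans (hy.monotone (Fin.zero_le _)))
      (by
        intro i hi
        rw [dif_pos hi]
        exact hyβ _)
    refine ⟨e * e0, cl_mul hΓ hce hcl0, ?_, ?_⟩
    · intro z hz
      change e (e0 z) = z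
      rw [hf0 z hz, hfe z hz]
    · intro i
      have h2 := hle i.1 i.2
      rw [dif_pos i.2, dif_pos i.2] at h2
      exact h2



end Pool.Agent.SCD
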