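import Mathlib
import Pool.Agent.SCD.Basic
import Pool.Agent.SCD.L_cl_mul
import Pool.Agent.SCD.L_cl_inv
import Pool.Agent.SCD.L_move_up
import Pool.Agent.SCD.L_move_down
import Pool.Agent.SCD.L_npoint

set_option autoImplicit false

namespace Pool.Agent.SCD

open Filter Topology Set


private theorem dl_per_int {g : ℝ ≃o ℝ} (h : Per g) (x : ℝ) (q : ℤ) : g (x + q) = g x + q := by
  induction q using Int.induction_on with
  | zero => simp
  | succ i ih =>
    have := h (x + ((i : ℤ) : ℝ))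
    push_cast at this ih ⊢
    rw [← add_assoc, this, ih]; ring
  | pred i ih =>
    have := h (x + ((-(i : ℤ) - 1 : ℤ) : ℝ))
    have e : x + ((-(i : ℤ) - 1 : ℤ) : ℝ) + 1 = x + ((-(i : ℤ) : ℤ) : ℝ) := by push_cast; ring
    rw [e, ih] at this
    have e2 : g (x + ((-(i : ℤ) - 1 : ℤ) : ℝ)) = g x + ((-(i : ℤ) : ℤ) : ℝ) - 1 := by linarith
    rw [e2]; push_cast; ring

private theorem dl_tpow {Γ : Subgroup (ℝ ≃o ℝ)} (hT : ∃ g ∈ Γ, ∀ x : ℝ, g x = x + 1) (k : ℤ) :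
    ∃ g ∈ Γ, ∀ x : ℝ, g x = x + k := by
  obtain ⟨T, hTΓ, hT⟩ := hT
  induction k using Int.induction_on with
  | zero => exact ⟨1, Γ.one_mem, fun x => by simp⟩
  | succ i ih =>
    obtain ⟨g, hg, hgx⟩ := ih
    refine ⟨T * g, Γ.mul_mem hTΓ hg, fun x => ?_⟩
    rw [RelIso.mul_apply, hT, hgx]; push_cast; ring
  | pred i ih =>
    obtain ⟨g, hg, hgx⟩ := ih
    refine ⟨T⁻¹ * g, Γ.mul_mem (Γ.inv_mem hTΓ) hg, fun x => ?_⟩
    rw [RelIso.mul_apply, hgx]
    have h1 : T (T⁻¹ (x + ((-(i : ℤ) : ℤ) : ℝ))) = x + ((-(i : ℤ) : ℤ) : ℝ) := by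
      rw [← RelIso.mul_apply, mul_inv_cancel]; rfl
    rw [hT] at h1
    have h2 : T⁻¹ (x + ((-(i : ℤ) : ℤ) : ℝ)) = x + ((-(i : ℤ) : ℤ) : ℝ) - 1 := by linarith
    rw [h2]; push_cast; ring

private theorem dl_cl_mem {Γ : Subgroup (ℝ ≃o ℝ)} (hΓ : ∀ g ∈ Γ, Per g) {t : ℝ ≃o ℝ} (ht : t ∈ Γ) :
    Cl Γ t := ⟨hΓ t ht, fun ε hε => ⟨t, ht, fun x => by simpa using hε⟩⟩

/-- uniform continuity -/
private theorem dl_unif (f : ℝ ≃o ℝ) (hf : Per f) {ε : ℝ} (hε : 0 < ε) :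
    ∃ n : ℕ, 0 < n ∧ ∀ x : ℝ, f (x + 1 / n) - f x < ε := by
  have hc : ContinuousOn f (Icc (0 : ℝ) 2) := f.continuous.continuousOn
  have hu := isCompact_Icc.uniformContinuousOn_of_continuous hc
  rw [Metric.uniformContinuousOn_iff] at hu
  obtain ⟨δ, hδ, hu⟩ := hu ε hε
  obtain ⟨n, hn⟩ := exists_nat_gt (1 / δ)
  have hn0 : (0 : ℝ) < n := lt_trans (by positivity) hn
  have hn0' : 0 < n := by exact_mod_cast hn0
  refine ⟨n, hn0', fun x => ?_⟩
  have h1n : 1 / (n : ℝ) < δ := by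
    rw [div_lt_iff₀ hn0]
    rw [div_lt_iff₀ hδ] at hn
    linarith
  have h1n' : 1 / (n : ℝ) ≤ 1 := by
    rw [div_le_one hn0]; exact_mod_cast hn0'
  have h1n0 : 0 < 1 / (n : ℝ) := by positivity
  have hx : x = Int.fract x + (⌊x⌋ : ℤ) := (Int.fract_add_floor x).symm
  have hf0 := Int.fract_nonneg x
  have hf1 := Int.fract_lt_one x
  have h2 : f (x + 1 / n) = f (Int.fract x + 1 / n) + (⌊x⌋ : ℤ) := by
    rw [← dl_per_int hf]
    congr 1
    linarith [Int.fract_add_floor x]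
  have h3 : f x = f (Int.fract x) + (⌊x⌋ : ℤ) := by
    rw [← dl_per_int hf, Int.fract_add_floor]
  have h4 := hu (Int.fract x + 1 / n) ⟨by linarith, by linarith⟩ (Int.fract x)
    ⟨by linarith, by linarith⟩ (by
      rw [Real.dist_eq]
      have : Int.fract x + 1 / (n : ℝ) - Int.fract x = 1 / n := by ring
      rw [this, abs_of_pos h1n0]; exact h1n)
  rw [Real.dist_eq] at h4
  have h5 := (abs_lt.1 h4).2
  linarith

theorem dense_line {Γ : Subgroup (ℝ ≃o ℝ)} (hΓ : ∀ g ∈ Γ, Per g) (hS : SmallMoves Γ)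
    (hT : ∃ g ∈ Γ, ∀ x : ℝ, g x = x + 1) (f : ℝ ≃o ℝ) (hf : Per f) : Cl Γ f := by
  refine ⟨hf, fun ε hε => ?_⟩
  obtain ⟨n, hn0, hn⟩ := dl_unif f hf (ε := ε / 4) (by positivity)
  have hnR : (0 : ℝ) < n := by exact_mod_cast hn0
  set w := f 0 with hw
  set top : ℝ := 1 - 1 / (2 * n) with htop
  have htop1 : top < 1 := by
    have : 0 < 1 / (2 * (n : ℝ)) := by positivity
    linarith
  have hf1 : f 1 = w + 1 := by have := hf 0; rwa [zero_add] at this
  set η : ℝ := w + 1 - f top with hη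
  have hη0 : 0 < η := by
    have : f top < f 1 := f.strictMono htop1
    linarith
  -- transitivity
  have htr : ∃ a : ℝ ≃o ℝ, Cl Γ a ∧ w - η < a 0 ∧ a 0 ≤ w := by
    obtain ⟨t, htΓ, ht⟩ := dl_tpow hT ⌊w⌋
    have h1 := Int.floor_le w
    have h2 := Int.lt_floor_add_one w
    obtain ⟨e, he, -, he1, he2⟩ := move_up hΓ hS (α := ((⌊w⌋ : ℝ) + w - 1) / 2)
      (β := ((⌊w⌋ : ℝ) + w - 1) / 2 + 1) (x := (⌊w⌋ : ℝ)) (y := w) le_rfl (by linarith) h1
      (by linarith) hη0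
    refine ⟨e * t, cl_mul hΓ he (dl_cl_mem hΓ htΓ), ?_, ?_⟩
    · rw [RelIso.mul_apply, ht, zero_add]; exact he1
    · rw [RelIso.mul_apply, ht, zero_add]; exact he2
  obtain ⟨a, ha, ha1, ha2⟩ := htr
  have ha3 : a 1 = a 0 + 1 := by have := ha.1 0; rwa [zero_add] at this
  set x' : ℝ → ℝ := fun i => (i + 1 / 2) / n with hx'
  have hx'm : StrictMono x' := by
    intro i j hij
    rw [hx']
    exact div_lt_div_of_pos_right (by linarith) hnR
  have hpos : ∀ i : Fin n, 0 < x' (i : ℕ) := by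
    intro i; rw [hx']; positivity
  have hle : ∀ i : Fin n, x' (i : ℕ) ≤ top := by
    intro i
    have h1 : ((i : ℕ) : ℝ) + 1 ≤ n := by exact_mod_cast i.2
    simp only [hx', htop]
    rw [div_le_iff₀ hnR]
    have : (1 - 1 / (2 * (n : ℝ))) * n = n - 1 / 2 := by field_simp
    rw [this]; linarith
  obtain ⟨e, he, -, he1⟩ := npoint hΓ hS (α := a 0) (β := a 0 + 1) le_rfl n
    (fun i => a (x' (i : ℕ))) (fun i => f (x' (i : ℕ)))
    (fun i j hij => a.strictMono (hx'm (by exact_mod_cast hij)))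
    (fun i j hij => f.strictMono (hx'm (by exact_mod_cast hij)))
    (fun i => a.strictMono (hpos i))
    (fun i => by
      rw [← ha3]
      exact a.strictMono (lt_of_le_of_lt (hle i) htop1))
    (fun i => lt_of_le_of_lt ha2 (f.strictMono (hpos i)))
    (fun i => by
      have : f (x' (i : ℕ)) ≤ f top := f.monotone (hle i)
      linarith)
    (δ := ε / 4) (by positivity)
  have hg : Cl Γ (e * a) := cl_mul hΓ he ha
  set g := e * a with hgdef
  have hz : ∀ m : ℤ, |g (x' m) - f (x' m)| < ε / 4 := by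
    intro m
    have hnz : (0 : ℤ) < n := by exact_mod_cast hn0
    have h1 : 0 ≤ m % n := Int.emod_nonneg m hnz.ne'
    have h2 : m % n < n := Int.emod_lt_of_pos m hnz
    obtain ⟨i, hi⟩ : ∃ i : Fin n, ((i : ℕ) : ℤ) = m % n :=
      ⟨⟨(m % n).toNat, by omega⟩, by simp [h1]⟩
    have h3 : x' m = x' (i : ℕ) + ((m / n : ℤ) : ℝ) := by
      have h4 : m = m % n + n * (m / n) := (Int.emod_add_mul_ediv m n).symm
      have h5 : (m : ℝ) = ((i : ℕ) : ℝ) + n * ((m / n : ℤ) : ℝ) := by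
        have : ((m : ℤ) : ℝ) = ((((i : ℕ) : ℤ) + n * (m / n) : ℤ) : ℝ) := by
          rw [hi]; exact_mod_cast h4
        rw [this]; push_cast; ring
      simp only [hx']
      rw [h5]
      field_simp
      ring
    rw [h3, dl_per_int hg.1, dl_per_int hf]
    have h6 := he1 i
    have h7 : g (x' (i : ℕ)) = e (a (x' (i : ℕ))) := by rw [hgdef, RelIso.mul_apply]
    rw [h7]
    have h8 : e (a (x' (i : ℕ))) + ((m / n : ℤ) : ℝ) - (f (x' (i : ℕ)) + ((m / n : ℤ) : ℝ)) =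
      e (a (x' (i : ℕ))) - f (x' (i : ℕ)) := by ring
    rw [h8]
    exact h6
  have hall : ∀ x, |g x - f x| < ε / 2 := by
    intro x
    set m : ℤ := ⌊n * x - 1 / 2⌋ with hm
    have h1 : (m : ℝ) ≤ n * x - 1 / 2 := Int.floor_le _
    have h2 : n * x - 1 / 2 < m + 1 := Int.lt_floor_add_one _
    have hz1 : x' m ≤ x := by
      simp only [hx']
      rw [div_le_iff₀ hnR]
      linarith
    have hz2 : x ≤ x' ((m + 1 : ℤ) : ℝ) := by
      simp only [hx']
      rw [le_div_iff₀ hnR]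
      push_cast
      linarith
    have hz3 : x' ((m + 1 : ℤ) : ℝ) = x' m + 1 / n := by
      simp only [hx']
      push_cast
      field_simp
      ring
    have h3 := hn (x' m)
    rw [← hz3] at h3
    have h4 := abs_lt.1 (hz m)
    have h5 := abs_lt.1 (hz (m + 1))
    have g1 : g (x' m) ≤ g x := g.monotone hz1
    have g2 : g x ≤ g (x' ((m + 1 : ℤ) : ℝ)) := g.monotone hz2
    have f1 : f (x' m) ≤ f x := f.monotone hz1
    have f2 : f x ≤ f (x' ((m + 1 : ℤ) : ℝ)) := f.monotone hz2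
    rw [abs_lt]
    constructor
    · linarith [h4.1]
    · linarith [h5.2]
  obtain ⟨g', hg', hgg⟩ := hg.2 (ε / 2) (by positivity)
  refine ⟨g', hg', fun x => ?_⟩
  have h1 := abs_lt.1 (hall x)
  have h2 := abs_lt.1 (hgg x)
  rw [abs_lt]
  constructor
  · linarith [h1.1, h2.1]
  · linarith [h1.2, h2.2]



end Pool.Agent.SCD
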