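import Mathlib
import Pool.Agent.SCD.Basic

set_option autoImplicit false

namespace Pool.Agent.SCD

open Filter Topology Set


/-- `diag (e^{t/2}, e^{-t/2})` -/
noncomputable def Dg (t : ℝ) : SL := mk4 (Real.exp (t / 2)) 0 0 (Real.exp (-t / 2))
  (by rw [mul_zero, sub_zero, ← Real.exp_add]; ring_nf; simp)
theorem kak (h : SL) : ∃ (k l : SL) (s : ℝ), N k = 2 ∧ N l = 2 ∧ 0 ≤ s ∧ h = k * Dg s * l := by
  have hC : act h I0 ∈ Cone := act_mem_Cone h I0_mem
  have hB : B (act h I0) (act h I0) = 1 := by rw [B_act]; simp [B, I0]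
  obtain ⟨a, b, c, hX⟩ : ∃ a b c : ℝ, act h I0 = (a, b, c) := ⟨_, _, _, rfl⟩
  rw [hX] at hC hB
  have ha : 0 < a := hC.1
  have hc : 0 < c := Cone_pos22 hC
  have hdet : a * c - b ^ 2 = 1 := by
    unfold B at hB
    simp only at hB
    linarith
  set m : ℝ := (a + c) / 2 with hm
  set z : ℂ := ⟨(a - c) / 2, b⟩ with hz
  set ρ : ℝ := ‖z‖ with hρ
  set φ : ℝ := Complex.arg z with hφ
  have h1 : ρ * Real.cos φ = (a - c) / 2 := Complex.norm_mul_cos_arg z
  have h2 : ρ * Real.sin φ = b := Complex.norm_mul_sin_arg z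
  have hρ0 : 0 ≤ ρ := norm_nonneg _
  have hρ2 : ρ ^ 2 = ((a - c) / 2) ^ 2 + b ^ 2 := by
    rw [← h1, ← h2]
    linear_combination (-(ρ ^ 2)) * Real.sin_sq_add_cos_sq φ
  have hmm : (m + ρ) * (m - ρ) = 1 := by
    have : (m + ρ) * (m - ρ) = m ^ 2 - ρ ^ 2 := by ring
    rw [this, hρ2, hm]
    linear_combination hdet
  have hm0 : 0 < m := by positivity
  have hmρ : 1 ≤ m + ρ := by
    by_contra hcon
    push Not at hcon
    have h3 : m - ρ < 1 := by linarith
    have h4 : 0 < m + ρ := by positivity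
    nlinarith
  have hpos : 0 < m + ρ := by linarith
  set s : ℝ := Real.log (m + ρ) with hs
  have hes : Real.exp s = m + ρ := Real.exp_log hpos
  have hes' : Real.exp (-s) = m - ρ := by
    rw [Real.exp_neg, hes]
    exact inv_eq_of_mul_eq_one_right hmm
  set θ : ℝ := φ / 2 with hθ
  have hφ2 : φ = 2 * θ := by rw [hθ]; ring
  have hcs := Real.sin_sq_add_cos_sq θ
  have h1' : ρ * (2 * Real.cos θ ^ 2 - 1) = (a - c) / 2 := by
    rw [← h1, hφ2, Real.cos_two_mul]
  have h2' : ρ * (2 * Real.sin θ * Real.cos θ) = b := by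
    rw [← h2, hφ2, Real.sin_two_mul]
  set k : SL := mk4 (Real.cos θ) (-Real.sin θ) (Real.sin θ) (Real.cos θ)
    (by linear_combination hcs) with hk
  have hD : act (Dg s) I0 = (Real.exp s, 0, Real.exp (-s)) := by
    have e1 : Real.exp (s / 2) ^ 2 = Real.exp s := by
      rw [← Real.exp_nat_mul]; congr 1; push_cast; ring
    have e2 : Real.exp (-s / 2) ^ 2 = Real.exp (-s) := by
      rw [← Real.exp_nat_mul]; congr 1; push_cast; ring
    unfold act I0 Dg
    simp only [ea_mk4, eb_mk4, ec_mk4, ed_mk4, Prod.mk.injEq]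
    refine ⟨?_, ?_, ?_⟩
    · rw [← e1]; ring
    · ring
    · rw [← e2]; ring
  have hkD : act (k * Dg s) I0 = (a, b, c) := by
    rw [act_mul, hD, hes, hes', hk]
    unfold act
    simp only [ea_mk4, eb_mk4, ec_mk4, ed_mk4, Prod.mk.injEq]
    refine ⟨?_, ?_, ?_⟩
    · linear_combination (m - ρ) * hcs + h1' + hm
    · linear_combination h2'
    · linear_combination (m + ρ) * hcs - h1' + hm
  refine ⟨k, (k * Dg s)⁻¹ * h, s, ?_, ?_, Real.log_nonneg hmρ, by group⟩
  · rw [hk]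
    unfold N
    simp only [ea_mk4, eb_mk4, ec_mk4, ed_mk4]
    linear_combination 2 * hcs
  · rw [← tr_act_I0, act_mul, hX, ← hkD, act_inv_act]
    simp [tr, I0]; norm_num



end Pool.Agent.SCD
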