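import Mathlib
import Pool.Agent.SCD.Basic
import Pool.Agent.SCD.L_kak

set_option autoImplicit false

namespace Pool.Agent.SCD

open Filter Topology Set


private theorem Dg_aux_ea (t : ℝ) : ea (Dg t) = Real.exp (t / 2) := by simp [Dg]
private theorem Dg_aux_eb (t : ℝ) : eb (Dg t) = 0 := by simp [Dg]
private theorem Dg_aux_ec (t : ℝ) : ec (Dg t) = 0 := by simp [Dg]
private theorem Dg_aux_ed (t : ℝ) : ed (Dg t) = Real.exp (-t / 2) := by simp [Dg]

private theorem Dg_aux_sq (t : ℝ) : Real.exp (t / 2) ^ 2 = Real.exp t := by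
  rw [pow_two, ← Real.exp_add]
  congr 1
  ring

private theorem Dg_aux_orth {k : SL} (hk : N k = 2) : ed k = ea k ∧ ec k = - eb k ∧
    ea k ^ 2 + eb k ^ 2 = 1 := by
  have hd := det_eq k
  unfold N at hk
  have h1 : (ea k - ed k) ^ 2 + (eb k + ec k) ^ 2 = 0 := by
    linear_combination hk - 2 * hd
  have h2 : ea k - ed k = 0 := by nlinarith [sq_nonneg (ea k - ed k), sq_nonneg (eb k + ec k)]
  have h3 : eb k + ec k = 0 := by nlinarith [sq_nonneg (ea k - ed k), sq_nonneg (eb k + ec k)]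
  have h4 : ed k = ea k := by linarith
  have h5 : ec k = - eb k := by linarith
  refine ⟨h4, h5, ?_⟩
  rw [h4, h5] at hd
  linarith

theorem Dg_add (s t : ℝ) : Dg s * Dg t = Dg (s + t) := by
  apply SL_ext
  · rw [ea_mul]
    simp only [Dg_aux_ea, Dg_aux_eb, Dg_aux_ec, mul_zero, add_zero]
    rw [← Real.exp_add]
    congr 1
    ring
  · rw [eb_mul]
    simp only [Dg_aux_ea, Dg_aux_eb, mul_zero, zero_mul, add_zero]
  · rw [ec_mul]
    simp only [Dg_aux_ec, mul_zero, zero_mul, add_zero]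
  · rw [ed_mul]
    simp only [Dg_aux_ed, Dg_aux_ec, zero_mul, zero_add]
    rw [← Real.exp_add]
    congr 1
    ring
theorem N_Dg (t : ℝ) : N (Dg t) = Real.exp t + Real.exp (-t) := by
  unfold N
  rw [Dg_aux_ea, Dg_aux_eb, Dg_aux_ec, Dg_aux_ed, Dg_aux_sq, Dg_aux_sq]
  ring
theorem N_orth_left {k : SL} (hk : N k = 2) (g : SL) : N (k * g) = N g := by
  obtain ⟨h1, h2, h3⟩ := Dg_aux_orth hk
  unfold N
  rw [ea_mul, eb_mul, ec_mul, ed_mul, h1, h2]
  linear_combination (ea g ^ 2 + eb g ^ 2 + ec g ^ 2 + ed g ^ 2) * h3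
theorem N_orth_right {k : SL} (hk : N k = 2) (g : SL) : N (g * k) = N g := by
  obtain ⟨h1, h2, h3⟩ := Dg_aux_orth hk
  unfold N
  rw [ea_mul, eb_mul, ec_mul, ed_mul, h1, h2]
  linear_combination (ea g ^ 2 + eb g ^ 2 + ec g ^ 2 + ed g ^ 2) * h3
theorem N_mul_Dg (g : SL) (t : ℝ) : N (g * Dg t) =
    (ea g ^ 2 + ec g ^ 2) * Real.exp t + (eb g ^ 2 + ed g ^ 2) * Real.exp (-t) := by
  unfold N
  rw [ea_mul, eb_mul, ec_mul, ed_mul, Dg_aux_ea, Dg_aux_eb, Dg_aux_ec, Dg_aux_ed]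
  linear_combination (ea g ^ 2 + ec g ^ 2) * Dg_aux_sq t
    + (eb g ^ 2 + ed g ^ 2) * Dg_aux_sq (-t)
theorem ab_ge_one (g : SL) : 1 ≤ (ea g ^ 2 + ec g ^ 2) * (eb g ^ 2 + ed g ^ 2) := by
  have h := det_eq g
  nlinarith [sq_nonneg (ea g * eb g + ec g * ed g),
    show (ea g ^ 2 + ec g ^ 2) * (eb g ^ 2 + ed g ^ 2)
      = (ea g * ed g - eb g * ec g) ^ 2 + (ea g * eb g + ec g * ed g) ^ 2 by ring,
    show (ea g * ed g - eb g * ec g) ^ 2 = 1 by rw [h]; norm_num]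



end Pool.Agent.SCD
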