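import Mathlib
import Pool.Agent.SCD.Basic

set_option autoImplicit false

namespace Pool.Agent.SCD

open Filter Topology Set


/-- basic distance identity in the Klein model: if `tr X = tr Y = 1` then
`dist X Y ^ 2 ≤ 2 B X Y - B X X - B Y Y` -/
theorem dist_u {X Y : V} (hX : tr X = 1) (hY : tr Y = 1) :
    dist X Y ^ 2 ≤ 2 * B X Y - B X X - B Y Y ∧ 2 * B X Y - B X X - B Y Y ≤ 2 * dist X Y ^ 2 := by
  obtain ⟨x1, x2, x3⟩ := X
  obtain ⟨y1, y2, y3⟩ := Y
  unfold tr at hX hY
  simp only at hX hY
  have e : 2 * B (x1, x2, x3) (y1, y2, y3) - B (x1, x2, x3) (x1, x2, x3) -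
      B (y1, y2, y3) (y1, y2, y3) = |x1 - y1| ^ 2 + |x2 - y2| ^ 2 := by
    rw [sq_abs, sq_abs]
    unfold B
    simp only
    have h1 : x3 = 1 - x1 := by linarith
    have h2 : y3 = 1 - y1 := by linarith
    subst h1
    subst h2
    ring
  have h3 : |x3 - y3| = |x1 - y1| := by
    have : x3 - y3 = -(x1 - y1) := by linarith
    rw [this, abs_neg]
  rw [e, Prod.dist_eq, Prod.dist_eq, Real.dist_eq, Real.dist_eq, Real.dist_eq]
  simp only
  rw [h3]
  have ha := abs_nonneg (x1 - y1)
  have hb := abs_nonneg (x2 - y2)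
  set a := |x1 - y1|
  set b := |x2 - y2|
  have hm : max a (max b a) = a ∨ max a (max b a) = b := by
    rcases le_total a b with h | h
    · right; rw [max_eq_left h, max_eq_right h]
    · left; rw [max_eq_right h, max_self]
  have hma : a ≤ max a (max b a) := le_max_left _ _
  have hmb : b ≤ max a (max b a) := (le_max_left _ _).trans (le_max_right _ _)
  constructor
  · rcases hm with h | h <;> rw [h] <;> nlinarith
  · have := pow_le_pow_left₀ ha hma 2
    have := pow_le_pow_left₀ hb hmb 2
    linarith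




end Pool.Agent.SCD
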