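import Mathlib
import Pool.Agent.SCD.Basic
import Pool.Agent.SCD.L_dist_u

set_option autoImplicit false

namespace Pool.Agent.SCD

open Filter Topology Set


theorem step_u (g s : SL) : dist (u (g * s)) (u g) ≤ N s / N g := by
  have h1 := (dist_u (tr_u (g * s)) (tr_u g)).1
  have hN1 := N_pos (g * s)
  have hN2 := N_pos g
  have hN3 := N_pos s
  have hB1 : 0 ≤ B (u (g * s)) (u (g * s)) := by rw [B_u]; positivity
  have hB2 : 0 ≤ B (u g) (u g) := by rw [B_u]; positivity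
  have hB : B (u (g * s)) (u g) = (N (g * s))⁻¹ * ((N g)⁻¹ * (N s / 2)) := by
    rw [u_eq, u_eq, B_smul_left, B_smul_right, act_mul, B_act, B_I0, tr_act_I0]
  have h2 : dist (u (g * s)) (u g) ^ 2 ≤ (N (g * s))⁻¹ * ((N g)⁻¹ * N s) := by
    rw [hB] at h1
    have : 2 * ((N (g * s))⁻¹ * ((N g)⁻¹ * (N s / 2))) = (N (g * s))⁻¹ * ((N g)⁻¹ * N s) := by ring
    linarith
  have h3 : (N (g * s))⁻¹ ≤ N s / N g := by
    have := N_le_mul_right g s
    rw [inv_le_comm₀ hN1 (by positivity), inv_div, div_le_iff₀ hN3]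
    exact this
  have h4 : dist (u (g * s)) (u g) ^ 2 ≤ (N s / N g) ^ 2 := by
    calc dist (u (g * s)) (u g) ^ 2 ≤ (N (g * s))⁻¹ * ((N g)⁻¹ * N s) := h2
      _ ≤ (N s / N g) * ((N g)⁻¹ * N s) := mul_le_mul_of_nonneg_right h3 (by positivity)
      _ = (N s / N g) ^ 2 := by rw [div_eq_mul_inv]; ring
  exact (pow_le_pow_iff_left₀ dist_nonneg (by positivity) two_ne_zero).mp h4



end Pool.Agent.SCD
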