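import Mathlib
import Pool.Agent.SCD.Basic
import Pool.Agent.SCD.L_dist_u
import Pool.Agent.SCD.L_step_u
import Pool.Agent.SCD.L_kak
import Pool.Agent.SCD.L_Dg_facts

set_option autoImplicit false

namespace Pool.Agent.SCD

open Filter Topology Set

private theorem du_vec (x : Bd) : ∃ p q : ℝ, p ^ 2 = x.1.1 ∧ p * q = x.1.2.1 ∧ q ^ 2 = x.1.2.2 := by
  have hx := Bd.fst_nonneg x
  obtain ⟨h1, h2⟩ := x.2
  unfold tr at h1
  unfold B at h2
  rcases eq_or_lt_of_le hx.1 with h | h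
  · refine ⟨0, 1, by rw [← h]; ring, ?_, ?_⟩
    · have h3 : x.1.2.1 ^ 2 = 0 := by
        rw [← h] at h2
        nlinarith
      have h4 := pow_eq_zero_iff (two_ne_zero) |>.1 h3
      rw [h4]; ring
    · rw [← h] at h1
      linarith
  · have hs : Real.sqrt x.1.1 ≠ 0 := (Real.sqrt_pos.2 h).ne'
    have hsq : Real.sqrt x.1.1 ^ 2 = x.1.1 := Real.sq_sqrt hx.1
    refine ⟨Real.sqrt x.1.1, x.1.2.1 / Real.sqrt x.1.1, hsq, ?_, ?_⟩
    · field_simp
    · rw [div_pow, hsq, div_eq_iff h.ne']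
      nlinarith

private theorem du_near (x : Bd) (T : ℝ) (hT : 0 ≤ T) : ∃ A : SL, N A = Real.exp T + Real.exp (-T) ∧
    dist (u A) x.1 ≤ 1 / N A := by
  obtain ⟨p, q, h1, h2, h3⟩ := du_vec x
  have hpq : p ^ 2 + q ^ 2 = 1 := by
    rw [h1, h3]
    exact x.2.1
  have hdet : p * p - (-q) * q = 1 := by nlinarith
  obtain ⟨k, hk⟩ : ∃ k : SL, k = mk4 p (-q) q p hdet := ⟨_, rfl⟩
  have hNA : N (k * Dg T) = Real.exp T + Real.exp (-T) := by
    rw [N_mul_Dg, hk]
    simp only [ea_mk4, eb_mk4, ec_mk4, ed_mk4]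
    have e1 : (-q) ^ 2 + p ^ 2 = 1 := by linarith [neg_sq q]
    rw [hpq, e1]; ring
  refine ⟨k * Dg T, hNA, ?_⟩
  have ha : ea (k * Dg T) = p * Real.exp (T / 2) := by rw [ea_mul, hk]; unfold Dg; simp
  have hb : eb (k * Dg T) = -q * Real.exp (-T / 2) := by rw [eb_mul, hk]; unfold Dg; simp
  have hc : ec (k * Dg T) = q * Real.exp (T / 2) := by rw [ec_mul, hk]; unfold Dg; simp
  have hd : ed (k * Dg T) = p * Real.exp (-T / 2) := by rw [ed_mul, hk]; unfold Dg; simp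
  have hE : Real.exp (T / 2) * Real.exp (T / 2) = Real.exp T := by
    rw [← Real.exp_add]; ring_nf
  have hF : Real.exp (-T / 2) * Real.exp (-T / 2) = Real.exp (-T) := by
    rw [← Real.exp_add]; ring_nf
  have hEp : 0 < Real.exp T := Real.exp_pos T
  have hFp : 0 < Real.exp (-T) := Real.exp_pos _
  have hF1 : Real.exp (-T) ≤ 1 := Real.exp_le_one_iff.2 (by linarith)
  have hNp : 0 < Real.exp T + Real.exp (-T) := by linarith
  have hc1 : (u (k * Dg T)).1 - x.1.1 =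
      (q ^ 2 - p ^ 2) * Real.exp (-T) / (Real.exp T + Real.exp (-T)) := by
    unfold u
    simp only
    rw [hNA, ha, hb, ← h1, eq_div_iff hNp.ne', sub_mul, div_mul_cancel₀ _ hNp.ne']
    linear_combination p ^ 2 * hE + q ^ 2 * hF
  have hc2 : (u (k * Dg T)).2.1 - x.1.2.1 =
      (-(2 * (p * q))) * Real.exp (-T) / (Real.exp T + Real.exp (-T)) := by
    unfold u
    simp only
    rw [hNA, ha, hb, hc, hd, ← h2, eq_div_iff hNp.ne', sub_mul, div_mul_cancel₀ _ hNp.ne']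
    linear_combination p * q * hE - p * q * hF
  have hc3 : (u (k * Dg T)).2.2 - x.1.2.2 =
      (p ^ 2 - q ^ 2) * Real.exp (-T) / (Real.exp T + Real.exp (-T)) := by
    unfold u
    simp only
    rw [hNA, hc, hd, ← h3, eq_div_iff hNp.ne', sub_mul, div_mul_cancel₀ _ hNp.ne']
    linear_combination q ^ 2 * hE + p ^ 2 * hF
  have hgen : ∀ r : ℝ, |r| ≤ 1 → |r * Real.exp (-T) / (Real.exp T + Real.exp (-T))| ≤
      1 / (Real.exp T + Real.exp (-T)) := by
    intro r hr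
    rw [abs_div, abs_mul, abs_of_pos hFp, abs_of_pos hNp]
    apply div_le_div_of_nonneg_right _ hNp.le
    calc |r| * Real.exp (-T) ≤ 1 * 1 := mul_le_mul hr hF1 hFp.le zero_le_one
      _ = 1 := one_mul 1
  rw [hNA, Prod.dist_eq, Prod.dist_eq, Real.dist_eq, Real.dist_eq, Real.dist_eq, hc1, hc2, hc3]
  have hp2 := sq_nonneg p
  have hq2 := sq_nonneg q
  refine max_le (hgen _ ?_) (max_le (hgen _ ?_) (hgen _ ?_))
  · rw [abs_le]; constructor <;> linarith
  · rw [abs_le]; constructor <;> nlinarith [sq_nonneg (p - q), sq_nonneg (p + q)]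
  · rw [abs_le]; constructor <;> linarith



theorem dense_u {H : Subgroup SL} (hH : Good H) (x : Bd) {δ : ℝ} (hδ : 0 < δ) :
    ∃ g ∈ H, 1 / N g ≤ δ ∧ dist (u g) x.1 ≤ δ := by
  obtain ⟨C, hC⟩ := hH.cocpt
  have hC2 : 2 ≤ C := by
    obtain ⟨γ, _, h⟩ := hC 1
    exact (two_le_N _).trans h
  obtain ⟨T, hTd⟩ : ∃ T : ℝ, T = (C ^ 2 + 1) / δ := ⟨_, rfl⟩
  have hT : 0 ≤ T := by rw [hTd]; positivity
  obtain ⟨A, hA, hAx⟩ := du_near x T hT
  obtain ⟨γ, hγ, hγA⟩ := hC A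
  have hNA : T ≤ N A := by
    rw [hA]
    have h1 := Real.add_one_le_exp T
    have h2 := Real.exp_pos (-T)
    linarith
  have hNAp := N_pos A
  have hNγp := N_pos γ
  have h1 : N A ≤ N γ * C := by
    have h2 := N_mul_le γ (γ⁻¹ * A)
    rw [mul_inv_cancel_left] at h2
    exact h2.trans (mul_le_mul_of_nonneg_left hγA hNγp.le)
  have h2 : 1 / N γ ≤ C / N A := by
    rw [div_le_div_iff₀ hNγp hNAp]
    linarith
  have h3 : dist (u γ) (u A) ≤ C / N γ := by
    have h4 := step_u γ (γ⁻¹ * A)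
    rw [mul_inv_cancel_left, dist_comm] at h4
    exact h4.trans (div_le_div_of_nonneg_right hγA hNγp.le)
  have h4 : C / N γ ≤ C ^ 2 / N A := by
    have : C / N γ = C * (1 / N γ) := by ring
    rw [this]
    calc C * (1 / N γ) ≤ C * (C / N A) := mul_le_mul_of_nonneg_left h2 (by linarith)
      _ = C ^ 2 / N A := by ring
  have h5 : (C ^ 2 + 1) / N A ≤ δ := by
    rw [div_le_iff₀ hNAp]
    have : C ^ 2 + 1 = δ * T := by rw [hTd]; field_simp
    rw [this]
    exact mul_le_mul_of_nonneg_left hNA hδ.le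
  refine ⟨γ, hγ, ?_, ?_⟩
  · refine h2.trans (le_trans ?_ h5)
    apply div_le_div_of_nonneg_right _ hNAp.le
    nlinarith
  · calc dist (u γ) x.1 ≤ dist (u γ) (u A) + dist (u A) x.1 := dist_triangle _ _ _
      _ ≤ C ^ 2 / N A + 1 / N A := add_le_add (h3.trans h4) hAx
      _ = (C ^ 2 + 1) / N A := by ring
      _ ≤ δ := h5



end Pool.Agent.SCD
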