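import Mathlib
import Pool.Agent.SCD.Basic

set_option autoImplicit false

namespace Pool.Agent.SCD

open Filter Topology Set


private theorem fix_tri (g : SL) (x : Bd) (hgx : g • x = x) (v1 v2 : ℝ) (h1 : v1 ^ 2 = x.1.1)
    (h2 : v2 ^ 2 = x.1.2.2) (h12 : v1 * v2 = x.1.2.1) :
    v1 * (ec g * v1 + ed g * v2) - v2 * (ea g * v1 + eb g * v2) = 0 := by
  have hr := (Bd_tr_act_pos g x).ne'
  have hv : (tr (act g x.1))⁻¹ • act g x.1 = x.1 := by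
    rw [← smul_val, hgx]
  have hv' : act g x.1 = tr (act g x.1) • x.1 := by
    conv_rhs => rw [← hv, smul_smul]
    rw [hv, mul_inv_cancel₀ hr, one_smul]
  set r := tr (act g x.1)
  have E1 := congrArg (fun p : V => p.1) hv'
  have E2 := congrArg (fun p : V => p.2.1) hv'
  have E3 := congrArg (fun p : V => p.2.2) hv'
  simp only [act, Prod.smul_fst, Prod.smul_snd, smul_eq_mul, ← h1, ← h2, ← h12] at E1 E2 E3
  have h : (v1 * (ec g * v1 + ed g * v2) - v2 * (ea g * v1 + eb g * v2)) ^ 2 = 0 := by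
    linear_combination v1 ^ 2 * E3 - 2 * v1 * v2 * E2 + v2 ^ 2 * E1
  exact pow_eq_zero_iff (two_ne_zero) |>.mp h

private theorem tr_tri (g h : SL) (hg : ec g = 0) (hh : ec h = 0) :
    ea (g * h * g⁻¹ * h⁻¹) + ed (g * h * g⁻¹ * h⁻¹) = 2 := by
  have d1 := det_eq g
  have d2 := det_eq h
  simp only [ea_mul, eb_mul, ec_mul, ed_mul, ea_inv, eb_inv, ec_inv, ed_inv, hg, hh]
  rw [hg] at d1
  rw [hh] at d2
  linear_combination (2 * ea h * ed h) * d1 + 2 * d2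

private theorem tr_conj (k c : SL) : ea (k⁻¹ * c * k) + ed (k⁻¹ * c * k) = ea c + ed c := by
  have d := det_eq k
  simp only [ea_mul, eb_mul, ec_mul, ed_mul, ea_inv, eb_inv, ec_inv, ed_inv]
  linear_combination (ea c + ed c) * d

/-- elements with a common fixed point commute -/
theorem comm_of_fix {Γ : Subgroup SL} (hΓ : Good Γ) {g h : SL} (hg : g ∈ Γ) (hh : h ∈ Γ)
    (hg1 : g ≠ 1) (x : Bd) (hgx : g • x = x) (hhx : h • x = x) : g * h = h * g := by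
  obtain ⟨v1, v2, h1, h2, h12⟩ : ∃ v1 v2 : ℝ, v1 ^ 2 = x.1.1 ∧ v2 ^ 2 = x.1.2.2 ∧
      v1 * v2 = x.1.2.1 := by
    obtain ⟨p1, p3⟩ := Bd.fst_nonneg x
    have hB : B x.1 x.1 = 0 := x.2.2
    unfold B at hB
    have hB' : x.1.2.1 ^ 2 = x.1.1 * x.1.2.2 := by linarith
    have hs : Real.sqrt x.1.1 * Real.sqrt x.1.2.2 = |x.1.2.1| := by
      rw [← Real.sqrt_mul p1, ← hB', Real.sqrt_sq_eq_abs]
    by_cases hc : 0 ≤ x.1.2.1
    · refine ⟨Real.sqrt x.1.1, Real.sqrt x.1.2.2, Real.sq_sqrt p1, Real.sq_sqrt p3, ?_⟩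
      rw [hs, abs_of_nonneg hc]
    · push Not at hc
      refine ⟨Real.sqrt x.1.1, -Real.sqrt x.1.2.2, Real.sq_sqrt p1, ?_, ?_⟩
      · rw [neg_sq, Real.sq_sqrt p3]
      · rw [mul_neg, hs, abs_of_neg hc, neg_neg]
  have htr : x.1.1 + x.1.2.2 = 1 := x.2.1
  have e1 := fix_tri g x hgx v1 v2 h1 h2 h12
  have e2 := fix_tri h x hhx v1 v2 h1 h2 h12
  obtain ⟨k, ka, kb, kc, kd⟩ : ∃ k : SL, ea k = v1 ∧ eb k = -v2 ∧ ec k = v2 ∧ ed k = v1 :=
    ⟨mk4 v1 (-v2) v2 v1 (by nlinarith), by simp, by simp, by simp, by simp⟩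
  have hg' : ec (k⁻¹ * g * k) = 0 := by
    simp only [ea_mul, eb_mul, ec_mul, ed_mul, ea_inv, eb_inv, ec_inv, ed_inv, ka, kb, kc, kd]
    linear_combination e1
  have hh' : ec (k⁻¹ * h * k) = 0 := by
    simp only [ea_mul, eb_mul, ec_mul, ed_mul, ea_inv, eb_inv, ec_inv, ed_inv, ka, kb, kc, kd]
    linear_combination e2
  have h3 := tr_tri _ _ hg' hh'
  have h4 : (k⁻¹ * g * k) * (k⁻¹ * h * k) * (k⁻¹ * g * k)⁻¹ * (k⁻¹ * h * k)⁻¹
      = k⁻¹ * (g * h * g⁻¹ * h⁻¹) * k := by group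
  rw [h4, tr_conj] at h3
  have hmem : g * h * g⁻¹ * h⁻¹ ∈ Γ :=
    Γ.mul_mem (Γ.mul_mem (Γ.mul_mem hg hh) (Γ.inv_mem hg)) (Γ.inv_mem hh)
  by_contra hne
  have hc1 : g * h * g⁻¹ * h⁻¹ ≠ 1 := by
    intro h5
    apply hne
    rw [mul_inv_eq_one, mul_inv_eq_iff_eq_mul] at h5
    exact h5
  have h6 := hΓ.hyp _ hmem hc1
  rw [h3] at h6
  norm_num at h6




end Pool.Agent.SCD
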