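import Mathlib
import Pool.Agent.SCD.Basic
import Pool.Agent.SCD.L_comm_of_fix
import Pool.Agent.SCD.L_dense_u

set_option autoImplicit false

namespace Pool.Agent.SCD

open Filter Topology Set


/-- no point of the boundary is fixed by the whole group; nontrivial elements exist -/
theorem no_common_fix {Γ : Subgroup SL} (hΓ : Good Γ) (x : Bd) : ∃ g ∈ Γ, g • x ≠ x := by
  by_contra hcon
  push Not at hcon
  -- a nontrivial element
  obtain ⟨g, hg, hgN, -⟩ := dense_u hΓ x (δ := 1 / 4) (by norm_num)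
  have hg1 : g ≠ 1 := by
    rintro rfl
    rw [N_one] at hgN
    norm_num at hgN
  have hyp := hΓ.hyp g hg hg1
  have hBW : B (W g) (W g) < 0 := by
    rw [B_W]
    have h4 : (4 : ℝ) < (ea g + ed g) ^ 2 := by
      rw [← sq_abs]
      nlinarith
    linarith
  have hfix : ∀ h ∈ Γ, act h (W g) = W g := by
    intro h hh
    have hc := comm_of_fix hΓ hg hh hg1 x (hcon g hg) (hcon h hh)
    rw [← W_conj, ← hc, mul_inv_cancel_right]
  have hBu : ∀ h ∈ Γ, B (u h) (W g) = (N h)⁻¹ * (tr (W g) / 2) := by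
    intro h hh
    rw [u_eq, B_smul_left]
    congr 1
    calc B (act h I0) (W g) = B (act h I0) (act h (W g)) := by rw [hfix h hh]
      _ = B I0 (W g) := B_act h _ _
      _ = tr (W g) / 2 := by rw [B_comm, B_I0]
  -- a boundary point off the axis
  have hy : ∃ y : Bd, B y.1 (W g) ≠ 0 := by
    by_contra hall
    push Not at hall
    have h1 := hall ⟨(1, 0, 0), by simp [tr, B]⟩
    have h2 := hall ⟨(0, 0, 1), by simp [tr, B]⟩
    have h3 := hall ⟨(1 / 2, 1 / 2, 1 / 2), by constructor <;> norm_num [tr, B]⟩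
    have e1 : (W g).2.2 = 0 := by
      simp only [B] at h1
      linarith
    have e2 : (W g).1 = 0 := by
      simp only [B] at h2
      linarith
    have e3 : (W g).2.1 = 0 := by
      simp only [B] at h3
      rw [e1, e2] at h3
      linarith
    have : B (W g) (W g) = 0 := by
      unfold B
      rw [e1, e2, e3]
      ring
    linarith
  obtain ⟨y, hy⟩ := hy
  have hε : 0 < |B y.1 (W g)| / 2 := by
    have := abs_pos.mpr hy
    linarith
  have hcont : Continuous (fun X => B X (W g)) := continuous_B (W g)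
  obtain ⟨δ1, hδ1, hδ1'⟩ := Metric.continuous_iff.mp hcont y.1 _ hε
  have hT : 0 < |tr (W g) / 2| + 1 := by positivity
  have hδ : 0 < min (δ1 / 2) (|B y.1 (W g)| / 2 / (|tr (W g) / 2| + 1)) := by
    apply lt_min
    · linarith
    · positivity
  obtain ⟨h, hh, hN, hd⟩ := dense_u hΓ y hδ
  have hd1 : dist (u h) y.1 < δ1 := by
    have := hd.trans (min_le_left _ _)
    linarith
  have h1 := hδ1' (u h) hd1
  rw [Real.dist_eq, hBu h hh] at h1
  have hN' : (N h)⁻¹ ≤ |B y.1 (W g)| / 2 / (|tr (W g) / 2| + 1) := by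
    rw [← one_div]
    exact hN.trans (min_le_right _ _)
  have hNp : 0 < (N h)⁻¹ := inv_pos.mpr (N_pos h)
  have h2 : |(N h)⁻¹ * (tr (W g) / 2)| ≤ |B y.1 (W g)| / 2 := by
    rw [abs_mul, abs_of_pos hNp]
    calc (N h)⁻¹ * |tr (W g) / 2| ≤ (N h)⁻¹ * (|tr (W g) / 2| + 1) := by
          apply mul_le_mul_of_nonneg_left _ hNp.le
          linarith
      _ ≤ |B y.1 (W g)| / 2 / (|tr (W g) / 2| + 1) * (|tr (W g) / 2| + 1) :=
          mul_le_mul_of_nonneg_right hN' hT.le
      _ = |B y.1 (W g)| / 2 := by field_simp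
  have h3 : |B y.1 (W g)| ≤ |(N h)⁻¹ * (tr (W g) / 2)| + |(N h)⁻¹ * (tr (W g) / 2) - B y.1 (W g)| := by
    have := abs_sub_abs_le_abs_sub (B y.1 (W g)) ((N h)⁻¹ * (tr (W g) / 2))
    rw [abs_sub_comm] at this
    linarith
  linarith



end Pool.Agent.SCD
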