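import Mathlib
import Pool.Agent.SCD.Basic
import Pool.Agent.SCD.L_bp_facts
import Pool.Agent.SCD.L_no_common_fix
import Pool.Agent.SCD.L_dense_u

set_option autoImplicit false

namespace Pool.Agent.SCD

open Filter Topology Set


private noncomputable def DWn (g : SL) : ℝ × ℝ × ℝ × ℝ :=
  (ea g / √(N g), eb g / √(N g), ec g / √(N g), ed g / √(N g))

private noncomputable def DWU (x : ℝ × ℝ × ℝ × ℝ) : V :=
  (x.1 ^ 2 + x.2.1 ^ 2, x.1 * x.2.2.1 + x.2.1 * x.2.2.2, x.2.2.1 ^ 2 + x.2.2.2 ^ 2)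

private theorem DW_u (g : SL) : u g = DWU (DWn g) := by
  have h := N_pos g
  have h2 : √(N g) ^ 2 = N g := Real.sq_sqrt h.le
  unfold u DWU DWn
  simp only [Prod.mk.injEq, div_pow, h2]
  refine ⟨by rw [add_div], ?_, by rw [add_div]⟩
  rw [div_mul_div_comm, div_mul_div_comm, ← pow_two, h2, add_div]

private theorem DW_norm (g : SL) : DWn g ∈ Metric.closedBall (0 : ℝ × ℝ × ℝ × ℝ) 1 := by
  have h := N_pos g
  have hs : 0 < √(N g) := Real.sqrt_pos.2 h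
  have key : ∀ e : ℝ, e ^ 2 ≤ N g → ‖e / √(N g)‖ ≤ 1 := by
    intro e he
    rw [Real.norm_eq_abs, abs_div, abs_of_pos hs, div_le_one hs]
    exact Real.abs_le_sqrt he
  have k1 : ea g ^ 2 ≤ N g := by
    unfold N; linarith [sq_nonneg (ea g), sq_nonneg (eb g), sq_nonneg (ec g), sq_nonneg (ed g)]
  have k2 : eb g ^ 2 ≤ N g := by
    unfold N; linarith [sq_nonneg (ea g), sq_nonneg (eb g), sq_nonneg (ec g), sq_nonneg (ed g)]
  have k3 : ec g ^ 2 ≤ N g := by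
    unfold N; linarith [sq_nonneg (ea g), sq_nonneg (eb g), sq_nonneg (ec g), sq_nonneg (ed g)]
  have k4 : ed g ^ 2 ≤ N g := by
    unfold N; linarith [sq_nonneg (ea g), sq_nonneg (eb g), sq_nonneg (ec g), sq_nonneg (ed g)]
  rw [mem_closedBall_zero_iff]
  unfold DWn
  rw [Prod.norm_def, Prod.norm_def, Prod.norm_def]
  exact max_le (key _ k1) (max_le (key _ k2) (max_le (key _ k3) (key _ k4)))

private theorem DW_rank {A B' C D p q : ℝ} (hpq : p ^ 2 + q ^ 2 = 1) (h1 : A ^ 2 + B' ^ 2 = p ^ 2)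
    (h2 : A * C + B' * D = p * q) (h3 : C ^ 2 + D ^ 2 = q ^ 2) :
    ∃ α β : ℝ, α ^ 2 + β ^ 2 = 1 ∧ A = p * α ∧ B' = p * β ∧ C = q * α ∧ D = q * β := by
  have h4 : (q * A - p * C) ^ 2 + (q * B' - p * D) ^ 2 = 0 := by
    linear_combination q ^ 2 * h1 - 2 * p * q * h2 + p ^ 2 * h3
  have h5 : q * A - p * C = 0 := by
    have : (q * A - p * C) ^ 2 = 0 := by
      linarith [sq_nonneg (q * A - p * C), sq_nonneg (q * B' - p * D)]
    exact pow_eq_zero_iff two_ne_zero |>.1 this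
  have h6 : q * B' - p * D = 0 := by
    have : (q * B' - p * D) ^ 2 = 0 := by
      linarith [sq_nonneg (q * A - p * C), sq_nonneg (q * B' - p * D)]
    exact pow_eq_zero_iff two_ne_zero |>.1 this
  have e1 : A = p * (p * A + q * C) := by linear_combination (-A) * hpq + q * h5
  have e2 : B' = p * (p * B' + q * D) := by linear_combination (-B') * hpq + q * h6
  have e3 : C = q * (p * A + q * C) := by linear_combination (-C) * hpq - p * h5
  have e4 : D = q * (p * B' + q * D) := by linear_combination (-D) * hpq - p * h6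
  refine ⟨p * A + q * C, p * B' + q * D, ?_, e1, e2, e3, e4⟩
  have : (p * A + q * C) ^ 2 + (p * B' + q * D) ^ 2 =
      (p ^ 2) * (A ^ 2 + B' ^ 2) + 2 * p * q * (A * C + B' * D) + q ^ 2 * (C ^ 2 + D ^ 2) := by ring
  rw [this, h1, h2, h3]
  linear_combination (p ^ 2 + q ^ 2 + 1) * hpq

private theorem DW_lim {Γ : Subgroup SL} (hΓ : Good Γ) (s : ℝ) :
    ∃ (g : ℕ → SL) (α β : ℝ), (∀ n, g n ∈ Γ) ∧ α ^ 2 + β ^ 2 = 1 ∧
      Tendsto (fun n => DWn (g n)) atTop (𝓝 (Real.cos (Real.pi * s) * α,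
        Real.cos (Real.pi * s) * β, Real.sin (Real.pi * s) * α, Real.sin (Real.pi * s) * β)) := by
  have hex : ∀ n : ℕ, ∃ g ∈ Γ, dist (u g) (bp s).1 ≤ 1 / ((n : ℝ) + 1) := by
    intro n
    obtain ⟨g, hg, _, h2⟩ := dense_u hΓ (bp s) (δ := 1 / ((n : ℝ) + 1)) (by positivity)
    exact ⟨g, hg, h2⟩
  choose g0 hg0 hd0 using hex
  have hu : Tendsto (fun n => u (g0 n)) atTop (𝓝 (bp s).1) := by
    rw [tendsto_iff_dist_tendsto_zero]
    exact squeeze_zero (fun _ => dist_nonneg) hd0 tendsto_one_div_add_atTop_nhds_zero_nat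
  obtain ⟨z, _, φ, hφ, hlim⟩ := (isCompact_closedBall (0 : ℝ × ℝ × ℝ × ℝ) 1).tendsto_subseq
    (fun n => DW_norm (g0 n))
  have hUc : Continuous DWU := by unfold DWU; fun_prop
  have h1 : Tendsto (fun n => DWU (DWn (g0 (φ n)))) atTop (𝓝 (DWU z)) :=
    (hUc.tendsto z).comp hlim
  have h2 : Tendsto (fun n => DWU (DWn (g0 (φ n)))) atTop (𝓝 (bp s).1) := by
    have := hu.comp hφ.tendsto_atTop
    refine this.congr fun n => ?_
    exact DW_u _
  have h3 : DWU z = (bp s).1 := tendsto_nhds_unique h1 h2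
  obtain ⟨A, B', C, D⟩ := z
  rw [bp_val] at h3
  unfold DWU at h3
  simp only [Prod.mk.injEq] at h3
  obtain ⟨α, β, hab, eA, eB, eC, eD⟩ := DW_rank (Real.cos_sq_add_sin_sq (Real.pi * s))
    h3.1 h3.2.1 h3.2.2
  refine ⟨fun n => g0 (φ n), α, β, fun n => hg0 _, hab, ?_⟩
  rw [← eA, ← eB, ← eC, ← eD]
  exact hlim

private theorem DW_f {Γ : Subgroup SL} (hΓ : Good Γ) {α1 β1 α2 β2 : ℝ} (h1 : α1 ^ 2 + β1 ^ 2 = 1)
    (h2 : α2 ^ 2 + β2 ^ 2 = 1) : ∃ f ∈ Γ,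
      (α1 * ea f + β1 * ec f) * β2 - (α1 * eb f + β1 * ed f) * α2 ≠ 0 := by
  by_contra hcon
  push Not at hcon
  have h0 := hcon 1 (one_mem Γ)
  simp only [ea_one, eb_one, ec_one, ed_one, mul_one, mul_zero, add_zero, zero_add] at h0
  obtain ⟨z, hz⟩ : ∃ z : Bd, z.1 = (β2 ^ 2, -(α2 * β2), α2 ^ 2) :=
    ⟨⟨(β2 ^ 2, -(α2 * β2), α2 ^ 2), by
      constructor
      · simp only [tr]; linarith
      · simp only [B]; ring⟩, rfl⟩
  obtain ⟨f, hf, hne⟩ := no_common_fix hΓ z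
  apply hne
  have hf0 := hcon f hf
  obtain ⟨m1, hm1⟩ : ∃ m1, m1 = ea f * β2 - eb f * α2 := ⟨_, rfl⟩
  obtain ⟨m2, hm2⟩ : ∃ m2, m2 = ec f * β2 - ed f * α2 := ⟨_, rfl⟩
  have e1 : α1 * m1 + β1 * m2 = 0 := by
    rw [hm1, hm2]; linear_combination hf0
  have e2 : α1 * β2 - β1 * α2 = 0 := h0
  have e3 : m1 * α2 + m2 * β2 = 0 := by
    have k1 : α1 * (m1 * α2 + m2 * β2) = 0 := by linear_combination α2 * e1 + m2 * e2
    have k2 : β1 * (m1 * α2 + m2 * β2) = 0 := by linear_combination β2 * e1 - m1 * e2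
    have : (α1 ^ 2 + β1 ^ 2) * (m1 * α2 + m2 * β2) = 0 := by
      linear_combination α1 * k1 + β1 * k2
    rwa [h1, one_mul] at this
  obtain ⟨μ, hμ⟩ : ∃ μ, μ = m1 * β2 - m2 * α2 := ⟨_, rfl⟩
  have e4 : m1 = μ * β2 := by rw [hμ]; linear_combination (-m1) * h2 + α2 * e3
  have e5 : m2 = - (μ * α2) := by rw [hμ]; linear_combination (-m2) * h2 + β2 * e3
  have e6 : act f z.1 = (μ ^ 2) • z.1 := by
    rw [hz]
    unfold act
    simp only [Prod.smul_mk, smul_eq_mul, Prod.mk.injEq]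
    have t1 : ea f ^ 2 * β2 ^ 2 + 2 * ea f * eb f * -(α2 * β2) + eb f ^ 2 * α2 ^ 2 = m1 ^ 2 := by
      rw [hm1]; ring
    have t2 : ea f * ec f * β2 ^ 2 + (ea f * ed f + eb f * ec f) * -(α2 * β2) +
        eb f * ed f * α2 ^ 2 = m1 * m2 := by
      rw [hm1, hm2]; ring
    have t3 : ec f ^ 2 * β2 ^ 2 + 2 * ec f * ed f * -(α2 * β2) + ed f ^ 2 * α2 ^ 2 = m2 ^ 2 := by
      rw [hm2]; ring
    rw [t1, t2, t3, e4, e5]
    refine ⟨?_, ?_, ?_⟩ <;> ring
  apply Subtype.ext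
  have hpos := Bd_tr_act_pos f z
  rw [smul_val]
  rw [e6, tr_smul, z.2.1, mul_one] at hpos ⊢
  rw [smul_smul, inv_mul_cancel₀ hpos.ne', one_smul]

private theorem DW_B (t η : ℝ) (s c : ℝ) : B (bp s).1 (c • (Real.cos (Real.pi * (t - η)) *
      Real.cos (Real.pi * (t + η)), (Real.cos (Real.pi * (t - η)) * Real.sin (Real.pi * (t + η)) +
      Real.sin (Real.pi * (t - η)) * Real.cos (Real.pi * (t + η))) / 2,
      Real.sin (Real.pi * (t - η)) * Real.sin (Real.pi * (t + η)))) =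
    (c / 2) * (Real.sin (Real.pi * (s - t)) ^ 2 - Real.sin (Real.pi * η) ^ 2) := by
  rw [B_bp]
  simp only [Prod.smul_mk, smul_eq_mul]
  have e1 : Real.sin (Real.pi * (s - t)) ^ 2 - Real.sin (Real.pi * η) ^ 2 =
      Real.sin (Real.pi * s - Real.pi * (t - η)) * Real.sin (Real.pi * s - Real.pi * (t + η)) := by
    have a1 : Real.pi * s - Real.pi * (t - η) = Real.pi * (s - t) + Real.pi * η := by ring
    have a2 : Real.pi * s - Real.pi * (t + η) = Real.pi * (s - t) - Real.pi * η := by ring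
    rw [a1, a2, Real.sin_add, Real.sin_sub]
    have b1 := Real.sin_sq_add_cos_sq (Real.pi * (s - t))
    have b2 := Real.sin_sq_add_cos_sq (Real.pi * η)
    linear_combination (-Real.sin (Real.pi * (s - t)) ^ 2) * b2 +
      (Real.sin (Real.pi * η) ^ 2) * b1
  rw [e1, Real.sin_sub, Real.sin_sub]
  ring

/-- there are elements of the group with axis around any given small arc -/
theorem DW {Γ : Subgroup SL} (hΓ : Good Γ) (x : Bd) {ε : ℝ} (hε : 0 < ε) :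
    ∃ γ ∈ Γ, γ ≠ 1 ∧ 0 < B x.1 (W γ) ∧ ∀ y : Bd, 0 ≤ B y.1 (W γ) → dist y x < ε := by
  obtain ⟨t, -, -, rfl⟩ := bp_surj x
  -- choice of η
  obtain ⟨η, hη0, hη1, hη2⟩ : ∃ η : ℝ, 0 < η ∧ η < 1 / 4 ∧
      ∀ s, |s - t| ≤ η → dist (bp s) (bp t) < ε := by
    obtain ⟨δ, hδ, h⟩ := Metric.continuousAt_iff.1 (continuous_bp.continuousAt (x := t)) ε hε
    refine ⟨min (δ / 2) (1 / 8), by positivity, lt_of_le_of_lt (min_le_right _ _) (by norm_num),
      fun s hs => h ?_⟩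
    rw [Real.dist_eq]
    have := min_le_left (δ / 2) (1 / 8)
    linarith
  have hpi := Real.pi_pos
  have hsη : 0 < Real.sin (Real.pi * η) :=
    Real.sin_pos_of_pos_of_lt_pi (by positivity) (by nlinarith)
  obtain ⟨Q, hQ⟩ : ∃ Q : V, Q = (Real.cos (Real.pi * (t - η)) *
      Real.cos (Real.pi * (t + η)), (Real.cos (Real.pi * (t - η)) * Real.sin (Real.pi * (t + η)) +
      Real.sin (Real.pi * (t - η)) * Real.cos (Real.pi * (t + η))) / 2,
      Real.sin (Real.pi * (t - η)) * Real.sin (Real.pi * (t + η))) := ⟨_, rfl⟩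
  have hBQ : ∀ s c : ℝ, B (bp s).1 (c • Q) =
      (c / 2) * (Real.sin (Real.pi * (s - t)) ^ 2 - Real.sin (Real.pi * η) ^ 2) := by
    intro s c
    rw [hQ]
    exact DW_B t η s c
  have hc1 : 0 < B (bp t).1 ((-1 : ℝ) • Q) := by
    rw [hBQ, sub_self, mul_zero, Real.sin_zero]
    have := pow_pos hsη 2
    linarith
  have hc2 : ∀ y : Bd, 0 ≤ B y.1 ((-1 : ℝ) • Q) → dist y (bp t) < ε := by
    intro y hy
    obtain ⟨s, -, -, rfl⟩ := bp_surj y
    obtain ⟨k, hk⟩ : ∃ k : ℤ, |s - t - k| ≤ 1 / 2 := ⟨round (s - t), abs_sub_round (s - t)⟩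
    have hbs : bp s = bp (s - k) := (bp_eq_iff _ _).2 ⟨k, by ring⟩
    rw [hbs] at hy ⊢
    apply hη2
    rw [hBQ] at hy
    obtain ⟨r, hr⟩ : ∃ r, r = s - k - t := ⟨_, rfl⟩
    have hr2 : |r| ≤ 1 / 2 := by rw [hr]; convert hk using 2; ring
    rw [← hr] at hy ⊢
    by_contra hcon
    push Not at hcon
    have h3 : Real.sin (Real.pi * η) < Real.sin (Real.pi * |r|) := by
      apply Real.sin_lt_sin_of_lt_of_le_pi_div_two
      · nlinarith
      · nlinarith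
      · exact mul_lt_mul_of_pos_left hcon hpi
    have h4 : Real.sin (Real.pi * |r|) ^ 2 = Real.sin (Real.pi * r) ^ 2 := by
      rcases abs_choice r with h | h
      · rw [h]
      · rw [h, mul_neg, Real.sin_neg, neg_sq]
    have h5 : Real.sin (Real.pi * η) ^ 2 < Real.sin (Real.pi * |r|) ^ 2 :=
      pow_lt_pow_left₀ h3 hsη.le two_ne_zero
    rw [h4] at h5
    linarith
  -- tube lemma
  have hK : IsCompact {y : Bd | ε ≤ dist y (bp t)} :=
    (isClosed_le continuous_const (continuous_id.dist continuous_const)).isCompact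
  have hev : ∀ᶠ Z in 𝓝 ((-1 : ℝ) • Q), ∀ y ∈ {y : Bd | ε ≤ dist y (bp t)}, B y.1 Z < 0 := by
    refine hK.eventually_forall_of_forall_eventually fun y hy => ?_
    have h1 : B y.1 ((-1 : ℝ) • Q) < 0 := by
      by_contra hcon
      push Not at hcon
      exact absurd (hc2 y hcon) (not_lt.2 hy)
    have h2 : Continuous fun p : V × Bd => B p.2.1 p.1 :=
      continuous_B2.comp ((continuous_subtype_val.comp continuous_snd).prodMk continuous_fst)
    have h3 := h2.continuousAt (x := ((-1 : ℝ) • Q, y))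
    exact h3.eventually (gt_mem_nhds h1)
  have hev2 : ∀ᶠ Z in 𝓝 ((-1 : ℝ) • Q), 0 < B (bp t).1 Z := by
    have h2 : Continuous fun Z : V => B (bp t).1 Z :=
      continuous_B2.comp (continuous_const.prodMk continuous_id)
    exact h2.continuousAt.eventually (lt_mem_nhds hc1)
  -- sequences
  obtain ⟨g, α1, β1, hgΓ, hab1, hg⟩ := DW_lim hΓ (t - η)
  obtain ⟨h, α2, β2, hhΓ, hab2, hh⟩ := DW_lim hΓ (t + η)
  obtain ⟨f, hf, hfne⟩ := DW_f hΓ hab1 hab2
  obtain ⟨c, hc⟩ : ∃ c, c = (α1 * ea f + β1 * ec f) * β2 - (α1 * eb f + β1 * ed f) * α2 := ⟨_, rfl⟩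
  rw [← hc] at hfne
  obtain ⟨Φ, hΦ⟩ : ∃ Φ : (ℝ × ℝ × ℝ × ℝ) × (ℝ × ℝ × ℝ × ℝ) → V, ∀ z, Φ z =
      (-((z.1.1 * ea f + z.1.2.1 * ec f) * (-z.2.2.1) + (z.1.1 * eb f + z.1.2.1 * ed f) * z.2.1),
       (((z.1.1 * ea f + z.1.2.1 * ec f) * z.2.2.2.2 + (z.1.1 * eb f + z.1.2.1 * ed f) *
          (-z.2.2.2.1)) -
        ((z.1.2.2.1 * ea f + z.1.2.2.2 * ec f) * (-z.2.2.1) +
          (z.1.2.2.1 * eb f + z.1.2.2.2 * ed f) * z.2.1)) / 2,
       (z.1.2.2.1 * ea f + z.1.2.2.2 * ec f) * z.2.2.2.2 +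
          (z.1.2.2.1 * eb f + z.1.2.2.2 * ed f) * (-z.2.2.2.1)) := ⟨_, fun _ => rfl⟩
  have hΦc : Continuous Φ := by
    have : Φ = fun z => _ := funext hΦ
    rw [this]
    fun_prop
  have hlim : Tendsto (fun n => Φ (DWn (g n), DWn (h n))) atTop (𝓝 (c • Q)) := by
    have h1 := (hΦc.tendsto _).comp (hg.prodMk_nhds hh)
    have h2 : Φ ((Real.cos (Real.pi * (t - η)) * α1, Real.cos (Real.pi * (t - η)) * β1,
        Real.sin (Real.pi * (t - η)) * α1, Real.sin (Real.pi * (t - η)) * β1),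
        (Real.cos (Real.pi * (t + η)) * α2, Real.cos (Real.pi * (t + η)) * β2,
        Real.sin (Real.pi * (t + η)) * α2, Real.sin (Real.pi * (t + η)) * β2)) = c • Q := by
      rw [hΦ, hQ, hc]
      simp only [Prod.smul_mk, smul_eq_mul, Prod.mk.injEq]
      refine ⟨?_, ?_, ?_⟩ <;> ring
    rw [h2] at h1
    exact h1
  have hΦW : ∀ n, Φ (DWn (g n), DWn (h n)) =
      ((√(N (g n)))⁻¹ * (√(N (h n)))⁻¹) • W (g n * f * (h n)⁻¹) := by
    intro n
    rw [hΦ]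
    unfold DWn W
    simp only [ea_mul, eb_mul, ec_mul, ed_mul, ea_inv, eb_inv, ec_inv, ed_inv, Prod.smul_mk,
      smul_eq_mul, Prod.mk.injEq, div_eq_mul_inv]
    refine ⟨?_, ?_, ?_⟩ <;> ring
  have hrpos : ∀ n, 0 < (√(N (g n)))⁻¹ * (√(N (h n)))⁻¹ := fun n =>
    mul_pos (inv_pos.2 (Real.sqrt_pos.2 (N_pos _))) (inv_pos.2 (Real.sqrt_pos.2 (N_pos _)))
  -- final choice
  have hfin : ∃ γ ∈ Γ, ∃ r : ℝ, 0 < r ∧ 0 < B (bp t).1 (r • W γ) ∧
      ∀ y ∈ {y : Bd | ε ≤ dist y (bp t)}, B y.1 (r • W γ) < 0 := by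
    rcases lt_or_gt_of_ne hfne with hneg | hpos
    · have h1 : Tendsto (fun n => (-c)⁻¹ • Φ (DWn (g n), DWn (h n))) atTop
          (𝓝 ((-1 : ℝ) • Q)) := by
        have := hlim.const_smul (-c)⁻¹
        rw [smul_smul] at this
        have e : (-c)⁻¹ * c = -1 := by field_simp
        rwa [e] at this
      obtain ⟨n, hn1, hn2⟩ := ((h1.eventually hev2).and (h1.eventually hev)).exists
      refine ⟨g n * f * (h n)⁻¹, mul_mem (mul_mem (hgΓ n) hf) (inv_mem (hhΓ n)),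
        (-c)⁻¹ * ((√(N (g n)))⁻¹ * (√(N (h n)))⁻¹), mul_pos (inv_pos.2 (by linarith)) (hrpos n),
        ?_, ?_⟩
      · rw [hΦW, smul_smul] at hn1
        exact hn1
      · rw [hΦW, smul_smul] at hn2
        exact hn2
    · have h1 : Tendsto (fun n => (-(c⁻¹)) • Φ (DWn (g n), DWn (h n))) atTop
          (𝓝 ((-1 : ℝ) • Q)) := by
        have := hlim.const_smul (-(c⁻¹))
        rw [smul_smul] at this
        have e : -(c⁻¹) * c = -1 := by field_simp
        rwa [e] at this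
      obtain ⟨n, hn1, hn2⟩ := ((h1.eventually hev2).and (h1.eventually hev)).exists
      have e2 : (-(c⁻¹)) • Φ (DWn (g n), DWn (h n)) =
          (c⁻¹ * ((√(N (g n)))⁻¹ * (√(N (h n)))⁻¹)) • W (g n * f * (h n)⁻¹)⁻¹ := by
        rw [hΦW, W_inv, smul_smul, smul_neg, ← neg_smul]
        congr 1
        ring
      rw [e2] at hn1 hn2
      exact ⟨(g n * f * (h n)⁻¹)⁻¹, inv_mem (mul_mem (mul_mem (hgΓ n) hf) (inv_mem (hhΓ n))),
        c⁻¹ * ((√(N (g n)))⁻¹ * (√(N (h n)))⁻¹), mul_pos (inv_pos.2 hpos) (hrpos n), hn1, hn2⟩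
  obtain ⟨γ, hγ, r, hr, hr1, hr2⟩ := hfin
  rw [B_smul_right] at hr1
  have hr3 : 0 < B (bp t).1 (W γ) := (mul_pos_iff_of_pos_left hr).1 hr1
  refine ⟨γ, hγ, ?_, hr3, ?_⟩
  · rintro rfl
    have : W (1 : SL) = 0 := by
      unfold W
      simp
    rw [this] at hr3
    simp [B] at hr3
  · intro y hy
    by_contra hcon
    push Not at hcon
    have h1 := hr2 y hcon
    rw [B_smul_right] at h1
    have h2 := mul_nonneg hr.le hy
    linarith



end Pool.Agent.SCD
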