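import Mathlib
import Pool.Agent.SCD.Basic

set_option autoImplicit false

namespace Pool.Agent.SCD

open Filter Topology Set


private theorem B_pos_iden (X Y : V) : X.1 ^ 2 * (B X Y ^ 2 - B X X * B Y Y) =
    (Y.1 * B X X - X.1 * B X Y) ^ 2 + B X X * (Y.1 * X.2.1 - X.1 * Y.2.1) ^ 2 := by
  unfold B
  ring

theorem B_pos {X Y : V} (hX : X ∈ Cone) (h1 : 0 < tr Y) (h2 : 0 ≤ B Y Y) : 0 < B X Y := by
  obtain ⟨ha, hd⟩ := hX
  obtain ⟨a, b, c⟩ := X
  obtain ⟨p, q, r⟩ := Y
  simp only [B, tr] at *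
  have hp : 0 ≤ p := by
    by_contra hcon
    push Not at hcon
    have hr : 0 < r := by linarith
    nlinarith [mul_neg_of_neg_of_pos hcon hr, sq_nonneg q]
  have key : 0 < a * (2 * ((a * r + c * p) / 2 - b * q)) := by
    have e : a * (2 * ((a * r + c * p) / 2 - b * q)) =
        ((a * c + c * a) / 2 - b * b) * p + (b ^ 2 * p - 2 * a * b * q + a ^ 2 * r) := by ring
    rw [e]
    rcases hp.lt_or_eq with hp' | hp'
    · have h3 : 0 < ((a * c + c * a) / 2 - b * b) * p := mul_pos hd hp'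
      have h4 : 0 ≤ p * (b ^ 2 * p - 2 * a * b * q + a ^ 2 * r) := by
        have e2 : p * (b ^ 2 * p - 2 * a * b * q + a ^ 2 * r) =
            (p * b - q * a) ^ 2 + ((p * r + r * p) / 2 - q * q) * a ^ 2 := by ring
        rw [e2]
        have := mul_nonneg h2 (sq_nonneg a)
        nlinarith [sq_nonneg (p * b - q * a)]
      have h5 : 0 ≤ b ^ 2 * p - 2 * a * b * q + a ^ 2 * r := nonneg_of_mul_nonneg_right h4 hp'
      linarith
    · have hq : q = 0 := by
        rw [← hp'] at h2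
        have : q * q ≤ 0 := by linarith
        nlinarith [sq_nonneg q, mul_self_nonneg q]
      rw [← hp', hq]
      have hr : 0 < r := by linarith
      have := mul_pos (pow_pos ha 2) hr
      linarith
  have h6 : 0 < 2 * ((a * r + c * p) / 2 - b * q) := by
    by_contra hcon
    push Not at hcon
    have := mul_nonpos_of_nonneg_of_nonpos ha.le hcon
    linarith
  linarith
/-- reverse Cauchy–Schwarz -/
theorem B_rcs {X Y : V} (hX : X ∈ Cone) (h1 : 0 < tr Y) (h2 : 0 ≤ B Y Y) :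
    B X X * B Y Y ≤ B X Y ^ 2 := by
  have h := B_pos_iden X Y
  have ha : 0 < X.1 ^ 2 := pow_pos hX.1 2
  have h3 : 0 ≤ X.1 ^ 2 * (B X Y ^ 2 - B X X * B Y Y) := by
    rw [h]
    have := mul_nonneg hX.2.le (sq_nonneg (Y.1 * X.2.1 - X.1 * Y.2.1))
    positivity
  have h4 := nonneg_of_mul_nonneg_right h3 ha
  linarith
theorem B_rcs_eq {X Y : V} (hX : X ∈ Cone) (hY : Y ∈ Cone) (hd : B X X = B Y Y)
    (h : B X Y = B X X) : X = Y := by
  have h0 := B_pos_iden X Y
  rw [← hd, h] at h0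
  have hD := hX.2
  have e1 : (Y.1 * B X X - X.1 * B X X) ^ 2 + B X X * (Y.1 * X.2.1 - X.1 * Y.2.1) ^ 2 = 0 := by
    rw [← h0]; ring
  have n1 : 0 ≤ B X X * (Y.1 * X.2.1 - X.1 * Y.2.1) ^ 2 := mul_nonneg hD.le (sq_nonneg _)
  have n2 := sq_nonneg (Y.1 * B X X - X.1 * B X X)
  have e2 : (Y.1 * B X X - X.1 * B X X) ^ 2 = 0 := by linarith
  have e3 : B X X * (Y.1 * X.2.1 - X.1 * Y.2.1) ^ 2 = 0 := by linarith
  have e4 : Y.1 * B X X - X.1 * B X X = 0 := pow_eq_zero_iff (two_ne_zero) |>.1 e2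
  have e5 : Y.1 * X.2.1 - X.1 * Y.2.1 = 0 :=
    pow_eq_zero_iff (two_ne_zero) |>.1 ((mul_eq_zero.1 e3).resolve_left hD.ne')
  have f1 : Y.1 = X.1 := by
    have : (Y.1 - X.1) * B X X = 0 := by linarith
    have := (mul_eq_zero.1 this).resolve_right hD.ne'
    linarith
  have f2 : Y.2.1 = X.2.1 := by
    rw [f1] at e5
    have : X.1 * (X.2.1 - Y.2.1) = 0 := by linarith
    have := (mul_eq_zero.1 this).resolve_left hX.1.ne'
    linarith
  have f3 : Y.2.2 = X.2.2 := by
    unfold B at hd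
    rw [f1, f2] at hd
    have : X.1 * (X.2.2 - Y.2.2) = 0 := by linarith
    have := (mul_eq_zero.1 this).resolve_left hX.1.ne'
    linarith
  exact Prod.ext f1.symm (Prod.ext f2.symm f3.symm)
theorem convex_Cone : Convex ℝ Cone := by
  intro X hX Y hY s t hs ht hst
  have hXY := B_pos hX (Cone_tr_pos hY) hY.2.le
  have e : B (s • X + t • Y) (s • X + t • Y) = s ^ 2 * B X X + 2 * s * t * B X Y + t ^ 2 * B Y Y := by
    unfold B
    simp only [Prod.fst_add, Prod.snd_add, Prod.smul_fst, Prod.smul_snd, smul_eq_mul]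
    ring
  have hXX := hX.2
  have hYY := hY.2
  have hX1 := hX.1
  have hY1 := hY.1
  refine ⟨?_, ?_⟩
  · show 0 < s * X.1 + t * Y.1
    rcases hs.lt_or_eq with h | h
    · have := mul_pos h hX1
      have := mul_nonneg ht hY1.le
      linarith
    · have : t = 1 := by linarith
      rw [← h, this]; linarith
  · rw [e]
    have a1 : 0 ≤ 2 * s * t * B X Y := by positivity
    have a2 : 0 ≤ t ^ 2 * B Y Y := by positivity
    rcases hs.lt_or_eq with h | h
    · have : 0 < s ^ 2 * B X X := by positivity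
      linarith
    · have ht1 : t = 1 := by linarith
      rw [← h, ht1]; simp; exact hYY



end Pool.Agent.SCD
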