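import Mathlib
import Pool.Agent.SCD.Basic
import Pool.Agent.SCD.L_kak
import Pool.Agent.SCD.L_Dg_facts

set_option autoImplicit false

namespace Pool.Agent.SCD

open Filter Topology Set


/-- a discrete geodesic in `H` from `g` to `g'` -/
theorem chain {H : Subgroup SL} (hH : Good H) : ∃ C : ℝ, 2 ≤ C ∧ ∀ g ∈ H, ∀ g' ∈ H,
    ∃ (k l : SL) (s : ℝ), N k = 2 ∧ N l = 2 ∧ 0 ≤ s ∧ g' = g * (k * Dg s * l) ∧
    ∃ (m : ℕ) (p : ℕ → SL), (m : ℝ) ≤ s + 1 ∧ p 0 = g ∧ p m = g' ∧ (∀ i, p i ∈ H) ∧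
      (∀ i < m, N ((p i)⁻¹ * p (i + 1)) ≤ C) ∧
      ∀ i ≤ m, N ((p i)⁻¹ * (g * k * Dg (min i s))) ≤ C := by
  obtain ⟨C0, hC0⟩ := hH.cocpt
  choose q hqH hqN using hC0
  set C1 : ℝ := max C0 2 with hC1
  have hC1a : C0 ≤ C1 := le_max_left _ _
  have hC1b : 2 ≤ C1 := le_max_right _ _
  refine ⟨4 * C1 ^ 2, by nlinarith, fun g hg g' hg' => ?_⟩
  obtain ⟨k, l, s, hk, hl, hs, hkl⟩ := kak (g⁻¹ * g')
  have hg'eq : g' = g * (k * Dg s * l) := by rw [← hkl]; group
  refine ⟨k, l, s, hk, hl, hs, hg'eq, ?_⟩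
  set m : ℕ := ⌊s⌋₊ + 1 with hm
  set Q : ℕ → SL := fun i => g * k * Dg (min (i : ℝ) s) with hQ
  set p : ℕ → SL := fun i => if i = 0 then g else if i < m then q (Q i) else g' with hp
  have hm1 : (m : ℝ) ≤ s + 1 := by
    rw [hm]; push_cast
    linarith [Nat.floor_le hs]
  have hm2 : s ≤ (m : ℝ) := by
    rw [hm]; push_cast
    exact (Nat.lt_floor_add_one s).le
  have hDg0 : Dg 0 = 1 := by
    unfold Dg
    apply SL_ext <;> simp
  have hp0 : p 0 = g := by simp [hp]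
  have hmpos : m ≠ 0 := by omega
  have hpm : p m = g' := by simp [hp, hmpos]
  have hpH : ∀ i, p i ∈ H := by
    intro i
    simp only [hp]
    split_ifs with h1 h2
    · exact hg
    · exact hqH _
    · exact hg'
  have key : ∀ i ≤ m, N ((p i)⁻¹ * Q i) ≤ C1 := by
    intro i hi
    by_cases h0 : i = 0
    · subst h0
      rw [hp0]
      have : g⁻¹ * Q 0 = k := by
        simp only [hQ, Nat.cast_zero, min_eq_left hs, hDg0]
        group
      rw [this, hk]; exact hC1b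
    · by_cases h1 : i < m
      · have : p i = q (Q i) := by simp [hp, h0, h1]
        rw [this]
        exact (hqN (Q i)).trans hC1a
      · have him : i = m := by omega
        subst him
        rw [hpm]
        have : g'⁻¹ * Q m = l⁻¹ := by
          simp only [hQ, min_eq_right hm2]
          rw [hg'eq]
          group
        rw [this, N_inv, hl]; exact hC1b
  refine ⟨m, p, hm1, hp0, hpm, hpH, ?_, ?_⟩
  · intro i hi
    have k1 := key i (by omega)
    have k2 := key (i + 1) (by omega)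
    have e : (p i)⁻¹ * p (i + 1) =
        ((p i)⁻¹ * Q i) * ((Q i)⁻¹ * Q (i + 1)) * ((p (i + 1))⁻¹ * Q (i + 1))⁻¹ := by group
    set r : ℝ := min ((i + 1 : ℕ) : ℝ) s - min (i : ℝ) s with hr
    have hr0 : 0 ≤ r := by
      rw [hr]
      have : min (i : ℝ) s ≤ min ((i + 1 : ℕ) : ℝ) s :=
        min_le_min_right _ (by push_cast; linarith)
      linarith
    have hr1 : r ≤ 1 := by
      rw [hr]
      push_cast
      rcases le_total (i : ℝ) s with h | h
      · rw [min_eq_left h]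
        have := min_le_left ((i : ℝ) + 1) s
        linarith
      · rw [min_eq_right h]
        have := min_le_right ((i : ℝ) + 1) s
        linarith
    have e2 : (Q i)⁻¹ * Q (i + 1) = Dg r := by
      have : Dg (min ((i + 1 : ℕ) : ℝ) s) = Dg (min (i : ℝ) s) * Dg r := by
        rw [Dg_add, hr]; congr 1; ring
      simp only [hQ]
      rw [this]
      group
    have h3 : N ((Q i)⁻¹ * Q (i + 1)) ≤ 4 := by
      rw [e2, N_Dg]
      have h4 : Real.exp r ≤ Real.exp 1 := Real.exp_le_exp.mpr hr1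
      have h5 : Real.exp (-r) ≤ 1 := by
        rw [Real.exp_le_one_iff]; linarith
      have h6 := Real.exp_one_lt_d9
      linarith
    rw [e]
    have a1 := N_mul_le (((p i)⁻¹ * Q i) * ((Q i)⁻¹ * Q (i + 1))) (((p (i + 1))⁻¹ * Q (i + 1))⁻¹)
    have a2 := N_mul_le ((p i)⁻¹ * Q i) ((Q i)⁻¹ * Q (i + 1))
    rw [N_inv] at a1
    have b1 : N ((p i)⁻¹ * Q i) * N ((Q i)⁻¹ * Q (i + 1)) ≤ C1 * 4 :=
      mul_le_mul k1 h3 (N_nonneg _) (by linarith)
    have b2 : N (((p i)⁻¹ * Q i) * ((Q i)⁻¹ * Q (i + 1))) * N ((p (i + 1))⁻¹ * Q (i + 1)) ≤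
        (C1 * 4) * C1 :=
      mul_le_mul (a2.trans b1) k2 (N_nonneg _) (by linarith)
    calc _ ≤ _ := a1
      _ ≤ _ := b2
      _ = 4 * C1 ^ 2 := by ring
  · intro i hi
    have k1 := key i hi
    have : N ((p i)⁻¹ * (g * k * Dg (min (i : ℝ) s))) ≤ C1 := k1
    refine this.trans ?_
    nlinarith




end Pool.Agent.SCD
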