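import Mathlib
import Pool.Agent.SCD.Basic
import Pool.Agent.SCD.L_kak
import Pool.Agent.SCD.L_Dg_facts
import Pool.Agent.SCD.L_chain

set_option autoImplicit false

namespace Pool.Agent.SCD

open Filter Topology Set


theorem growth {H K : Subgroup SL} (hH : Good H) (hK : Good K) (φ : H ≃* K) :
    ∃ κ c : ℝ, 0 < κ ∧ κ ≤ 1 ∧ 0 < c ∧ ∀ g : H, c * N (g : SL) ^ κ ≤ N ((φ g : K) : SL) := by
  classical
  obtain ⟨C, hC2, hch⟩ := chain hK
  let f : SL → ℝ := fun σ => if h : σ ∈ K then N ((φ.symm ⟨σ, h⟩ : H) : SL) else 0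
  obtain ⟨M, hM⟩ := ((hK.disc C).image f).bddAbove
  set D := max 2 M with hDdef
  have hD : ∀ (σ : SL) (h : σ ∈ K), N σ ≤ C → N ((φ.symm ⟨σ, h⟩ : H) : SL) ≤ D := by
    intro σ h hσ
    have h1 : f σ ≤ M := hM ⟨σ, ⟨h, hσ⟩, rfl⟩
    have h2 : f σ = N ((φ.symm ⟨σ, h⟩ : H) : SL) := dif_pos h
    rw [← h2]
    exact h1.trans (le_max_right _ _)
  have hD2 : 2 ≤ D := le_max_left _ _
  have hD0 : 0 < D := by linarith
  have hlog : 0 < Real.log D := Real.log_pos (by linarith)
  set κ := 1 / (1 + Real.log D) with hκ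
  have hκ0 : 0 < κ := by positivity
  have hκ1 : κ ≤ 1 := by
    rw [hκ, div_le_one (by positivity)]
    linarith
  have hκl : κ * Real.log D ≤ 1 := by
    rw [hκ, one_div, inv_mul_le_iff₀ (by positivity)]
    linarith
  refine ⟨κ, ((2 * D) ^ κ)⁻¹, hκ0, hκ1, by positivity, ?_⟩
  intro g
  obtain ⟨k, l, s, hk, hl, hs, hg', m, p, hm, hp0, hpm, hpK, hpC, -⟩ :=
    hch 1 K.one_mem (φ g : SL) (φ g).2
  have hN : N ((φ g : K) : SL) = Real.exp s + Real.exp (-s) := by
    rw [hg', one_mul, N_orth_right hl, N_orth_left hk, N_Dg]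
  set n := N ((φ g : K) : SL) with hn
  have hns : Real.exp s ≤ n := by
    rw [hN]
    linarith [Real.exp_pos (-s)]
  have hn0 : 0 < n := (Real.exp_pos s).trans_le hns
  have hn1 : 1 ≤ n := (Real.one_le_exp hs).trans hns
  have hind : ∀ i ≤ m, N ((φ.symm ⟨p i, hpK i⟩ : H) : SL) ≤ 2 * D ^ i := by
    intro i
    induction i with
    | zero =>
      intro _
      have h1 : (⟨p 0, hpK 0⟩ : K) = 1 := Subtype.ext hp0
      rw [h1, map_one]
      simp
    | succ i ih =>
      intro hi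
      have h1 := ih (by omega)
      have hmem : (p i)⁻¹ * p (i + 1) ∈ K := K.mul_mem (K.inv_mem (hpK i)) (hpK (i + 1))
      have h2 : (⟨p (i + 1), hpK (i + 1)⟩ : K) = ⟨p i, hpK i⟩ * ⟨(p i)⁻¹ * p (i + 1), hmem⟩ := by
        apply Subtype.ext
        show p (i + 1) = p i * ((p i)⁻¹ * p (i + 1))
        group
      rw [h2, map_mul, Subgroup.coe_mul]
      refine (N_mul_le _ _).trans ?_
      have h3 := hD _ hmem (hpC i (by omega))
      calc _ ≤ (2 * D ^ i) * D := mul_le_mul h1 h3 (N_nonneg _) (by positivity)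
        _ = 2 * D ^ (i + 1) := by ring
  have hNg : N (g : SL) ≤ 2 * D ^ m := by
    have h1 := hind m le_rfl
    have h2 : (⟨p m, hpK m⟩ : K) = φ g := Subtype.ext hpm
    rwa [h2, MulEquiv.symm_apply_apply] at h1
  have hpow : D ^ m ≤ D * n ^ (Real.log D) := by
    have h1 : (D : ℝ) ^ m = D ^ (m : ℝ) := (Real.rpow_natCast D m).symm
    have h2 : D ^ (m : ℝ) ≤ D ^ (s + 1) := Real.rpow_le_rpow_of_exponent_le (by linarith) hm
    have h3 : D ^ (s + 1) = D * D ^ s := by rw [Real.rpow_add hD0, Real.rpow_one]; ring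
    have h4 : D ^ s ≤ n ^ (Real.log D) := by
      rw [Real.rpow_def_of_pos hD0, Real.rpow_def_of_pos hn0]
      apply Real.exp_le_exp.2
      have h5 : s ≤ Real.log n := by
        rw [Real.le_log_iff_exp_le hn0]
        exact hns
      nlinarith
    rw [h1]
    refine h2.trans ?_
    rw [h3]
    exact mul_le_mul_of_nonneg_left h4 hD0.le
  have hfin : N (g : SL) ≤ (2 * D) * n ^ (Real.log D) := by
    refine hNg.trans ?_
    linarith
  have hk1 : N (g : SL) ^ κ ≤ (2 * D) ^ κ * n := by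
    calc N (g : SL) ^ κ ≤ ((2 * D) * n ^ (Real.log D)) ^ κ :=
          Real.rpow_le_rpow (N_nonneg _) hfin hκ0.le
      _ = (2 * D) ^ κ * n ^ (Real.log D * κ) := by
          rw [Real.mul_rpow (by positivity) (by positivity), ← Real.rpow_mul hn0.le]
      _ ≤ (2 * D) ^ κ * n ^ (1 : ℝ) := by
          apply mul_le_mul_of_nonneg_left _ (by positivity)
          apply Real.rpow_le_rpow_of_exponent_le hn1
          linarith [mul_comm κ (Real.log D)]
      _ = (2 * D) ^ κ * n := by rw [Real.rpow_one]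
  rw [inv_mul_le_iff₀ (by positivity)]
  exact hk1



end Pool.Agent.SCD
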