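import Mathlib
import Pool.Agent.SCD.Basic
import Pool.Agent.SCD.L_dist_u
import Pool.Agent.SCD.L_kak
import Pool.Agent.SCD.L_Dg_facts

set_option autoImplicit false

namespace Pool.Agent.SCD

open Filter Topology Set


/-- points on the geodesic between two points close to the same boundary point are far away -/
private theorem act_I0_of_N2 {k : SL} (hk : N k = 2) : act k I0 = I0 := by
  have hd := det_eq k
  unfold N at hk
  have h1 : (ea k - ed k) ^ 2 + (eb k + ec k) ^ 2 = 0 := by nlinarith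
  have h2 : ea k - ed k = 0 := by
    have : (ea k - ed k) ^ 2 = 0 := by nlinarith [sq_nonneg (ea k - ed k), sq_nonneg (eb k + ec k)]
    exact pow_eq_zero_iff (two_ne_zero) |>.mp this
  have h3 : eb k + ec k = 0 := by
    have : (eb k + ec k) ^ 2 = 0 := by nlinarith [sq_nonneg (ea k - ed k), sq_nonneg (eb k + ec k)]
    exact pow_eq_zero_iff (two_ne_zero) |>.mp this
  have h4 : ed k = ea k := by linarith
  have h5 : ec k = - eb k := by linarith
  rw [h4, h5] at hd
  unfold act I0
  simp only [Prod.mk.injEq]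
  rw [h4, h5]
  refine ⟨?_, ?_, ?_⟩ <;> nlinarith

private theorem act_Dg_I0 (t : ℝ) : act (Dg t) I0 = (Real.exp t, 0, Real.exp (-t)) := by
  unfold act I0 Dg
  simp only [ea_mk4, eb_mk4, ec_mk4, ed_mk4, Prod.mk.injEq]
  refine ⟨?_, ?_, ?_⟩
  · have : Real.exp (t / 2) ^ 2 = Real.exp t := by
      rw [← Real.exp_nat_mul]; congr 1; push_cast; ring
    rw [this]; ring
  · ring
  · have : Real.exp (-t / 2) ^ 2 = Real.exp (-t) := by
      rw [← Real.exp_nat_mul]; congr 1; push_cast; ring
    rw [this]; ring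

private theorem exp_comb {s t : ℝ} (h0 : 0 ≤ t) (hs : t ≤ s) : ∃ a b : ℝ, 0 ≤ a ∧ 0 ≤ b ∧
    Real.exp t = a + b * Real.exp s ∧ Real.exp (-t) = a + b * Real.exp (-s) := by
  rcases eq_or_lt_of_le (h0.trans hs) with h | h
  · have ht : t = 0 := by linarith
    refine ⟨1, 0, zero_le_one, le_refl _, ?_, ?_⟩ <;> simp [ht]
  · have hsp : 0 < Real.sinh s := Real.sinh_pos_iff.mpr h
    refine ⟨Real.sinh (s - t) / Real.sinh s, Real.sinh t / Real.sinh s,
      div_nonneg (Real.sinh_nonneg_iff.mpr (by linarith)) hsp.le,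
      div_nonneg (Real.sinh_nonneg_iff.mpr h0) hsp.le, ?_, ?_⟩
    · have : Real.exp t * Real.sinh s = Real.sinh (s - t) + Real.sinh t * Real.exp s := by
        rw [Real.sinh_eq, Real.sinh_eq, Real.sinh_eq]
        have e1 : Real.exp (s - t) = Real.exp s * Real.exp (-t) := by rw [← Real.exp_add]; ring_nf
        have e2 : Real.exp (-(s - t)) = Real.exp (-s) * Real.exp t := by rw [← Real.exp_add]; ring_nf
        rw [e1, e2]; ring
      field_simp
      linarith
    · have : Real.exp (-t) * Real.sinh s = Real.sinh (s - t) + Real.sinh t * Real.exp (-s) := by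
        rw [Real.sinh_eq, Real.sinh_eq, Real.sinh_eq]
        have e1 : Real.exp (s - t) = Real.exp s * Real.exp (-t) := by rw [← Real.exp_add]; ring_nf
        have e2 : Real.exp (-(s - t)) = Real.exp (-s) * Real.exp t := by rw [← Real.exp_add]; ring_nf
        rw [e1, e2]; ring
      field_simp
      linarith

private theorem tr_add' (X Y : V) : tr (X + Y) = tr X + tr Y := by
  unfold tr; simp only [Prod.fst_add, Prod.snd_add]; ring

/-- points on the geodesic between two points close to the same boundary point are far away -/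
theorem low_N {g k l : SL} {s t δ : ℝ} (hk : N k = 2) (hl : N l = 2) (h0 : 0 ≤ t) (hs : t ≤ s)
    (h1 : 1 / N g ≤ δ) (h2 : 1 / N (g * (k * Dg s * l)) ≤ δ)
    (h3 : dist (u g) (u (g * (k * Dg s * l))) ≤ δ) : 1 / (2 * δ) ≤ N (g * k * Dg t) := by
  set g' := g * (k * Dg s * l) with hg'
  obtain ⟨a, b, ha, hb, e1, e2⟩ := exp_comb h0 hs
  have hN := N_pos g
  have hN' := N_pos g'
  have hδ : 0 < δ := lt_of_lt_of_le (by positivity) h1
  have hZ : act (g * k * Dg t) I0 = a • act g I0 + b • act g' I0 := by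
    have hY : act g' I0 = act g (act k (Real.exp s, 0, Real.exp (-s))) := by
      rw [hg', act_mul, act_mul, act_mul, act_I0_of_N2 hl, act_Dg_I0]
    have hX : act g I0 = act g (act k I0) := by rw [act_I0_of_N2 hk]
    rw [hX, hY, act_mul, act_mul, act_Dg_I0, ← act_smul, ← act_smul, ← act_smul, ← act_smul,
      ← act_add, ← act_add]
    congr 2
    unfold I0
    simp only [Prod.smul_mk, smul_eq_mul, Prod.mk_add_mk, Prod.mk.injEq]
    refine ⟨?_, ?_, ?_⟩
    · rw [e1]; ring
    · ring
    · rw [e2]; ring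
  have hNt : N (g * k * Dg t) = a * N g + b * N g' := by
    rw [← tr_act_I0, hZ, tr_add', tr_smul, tr_smul, tr_act_I0, tr_act_I0]
  have hII : B I0 I0 = 1 := by simp [B, I0]
  have hB : a ^ 2 + b ^ 2 + 2 * (a * b) * B (act g I0) (act g' I0) = 1 := by
    have h := B_act (g * k * Dg t) I0 I0
    rw [hII, hZ, B_add_left, B_add_right, B_add_right, B_smul_left, B_smul_left, B_smul_left,
      B_smul_left, B_smul_right, B_smul_right, B_smul_right, B_smul_right, B_act, B_act, hII,
      B_comm (act g' I0) (act g I0)] at h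
    linarith
  have hBu : B (act g I0) (act g' I0) = N g * N g' * B (u g) (u g') := by
    rw [u_eq, u_eq, B_smul_left, B_smul_right]
    field_simp
  have hd := (dist_u (tr_u g) (tr_u g')).2
  have hdd : dist (u g) (u g') ^ 2 ≤ δ ^ 2 := by
    have := dist_nonneg (x := u g) (y := u g')
    exact pow_le_pow_left₀ this h3 2
  have q1 : (1 / N g) ^ 2 ≤ δ ^ 2 := pow_le_pow_left₀ (by positivity) h1 2
  have q2 : (1 / N g') ^ 2 ≤ δ ^ 2 := pow_le_pow_left₀ (by positivity) h2 2
  have hb1 := B_u g
  have hb2 := B_u g'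
  rw [one_div_pow] at q1 q2
  have hBuu : B (u g) (u g') ≤ 2 * δ ^ 2 := by
    rw [hb1, hb2] at hd
    linarith
  have r1 : 1 ≤ N g * δ := by
    rw [div_le_iff₀ hN] at h1; linarith
  have r2 : 1 ≤ N g' * δ := by
    rw [div_le_iff₀ hN'] at h2; linarith
  rw [hNt]
  rw [div_le_iff₀ (by positivity)]
  by_contra hc
  push Not at hc
  have hpos : 0 ≤ (a * N g + b * N g') * (2 * δ) := by positivity
  have hlt : ((a * N g + b * N g') * (2 * δ)) ^ 2 < 1 := by nlinarith
  have k1 : a ^ 2 ≤ (a * (N g * δ)) ^ 2 := by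
    apply pow_le_pow_left₀ ha
    nlinarith
  have k2 : b ^ 2 ≤ (b * (N g' * δ)) ^ 2 := by
    apply pow_le_pow_left₀ hb
    nlinarith
  have k3 : 2 * (a * b) * B (act g I0) (act g' I0) ≤ 4 * (a * (N g * δ)) * (b * (N g' * δ)) := by
    rw [hBu]
    have : 0 ≤ 2 * (a * b) * (N g * N g') := by positivity
    nlinarith [mul_le_mul_of_nonneg_left hBuu this]
  have k4 : 0 ≤ (a * (N g * δ)) * (b * (N g' * δ)) := by positivity
  nlinarith [sq_nonneg (a * (N g * δ)), sq_nonneg (b * (N g' * δ))]




end Pool.Agent.SCD
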