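import Mathlib
import Pool.Agent.SCD.Basic

set_option autoImplicit false

namespace Pool.Agent.SCD

open Filter Topology Set


private theorem sg_min {α β s M : ℝ} (hα : 0 ≤ α) (hβ : 0 ≤ β) (hs : 0 ≤ s) (hM : 0 < M)
    (h : ∀ t, 0 ≤ t → t ≤ s → M ≤ α * Real.exp t + β * Real.exp (-t)) :
    ∃ t0, 0 ≤ t0 ∧ t0 ≤ s ∧ ∀ t, 0 ≤ t → t ≤ s →
      M / 2 * Real.exp |t - t0| ≤ α * Real.exp t + β * Real.exp (-t) := by
  by_cases h1 : β ≤ α
  · refine ⟨0, le_rfl, hs, fun t ht0 hts => ?_⟩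
    have h2 := h 0 le_rfl hs
    simp only [Real.exp_zero, neg_zero, mul_one] at h2
    rw [sub_zero, abs_of_nonneg ht0]
    have h3 : M / 2 ≤ α := by linarith
    have h4 : M / 2 * Real.exp t ≤ α * Real.exp t :=
      mul_le_mul_of_nonneg_right h3 (Real.exp_pos _).le
    have h5 : 0 ≤ β * Real.exp (-t) := mul_nonneg hβ (Real.exp_pos _).le
    linarith
  push Not at h1
  by_cases h2 : α * Real.exp s ≤ β * Real.exp (-s)
  · refine ⟨s, hs, le_rfl, fun t ht0 hts => ?_⟩
    have h3 := h s hs le_rfl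
    rw [abs_of_nonpos (by linarith)]
    have h4 : M / 2 ≤ β * Real.exp (-s) := by linarith
    have h5 : β * Real.exp (-t) = β * Real.exp (-s) * Real.exp (-(t - s)) := by
      rw [mul_assoc, ← Real.exp_add]
      congr 2
      ring
    have h6 : M / 2 * Real.exp (-(t - s)) ≤ β * Real.exp (-s) * Real.exp (-(t - s)) :=
      mul_le_mul_of_nonneg_right h4 (Real.exp_pos _).le
    have h7 : 0 ≤ α * Real.exp t := mul_nonneg hα (Real.exp_pos _).le
    rw [h5]
    linarith
  push Not at h2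
  have hβ0 : 0 < β := lt_of_le_of_lt hα h1
  have hα0 : 0 < α := by
    by_contra hc
    have : α = 0 := le_antisymm (not_lt.1 hc) hα
    rw [this, zero_mul] at h2
    have := mul_pos hβ0 (Real.exp_pos (-s))
    linarith
  set t0 := Real.log (β / α) / 2 with ht0
  have hr : 1 < β / α := (one_lt_div hα0).2 h1
  have e1 : Real.exp (2 * t0) = β / α := by
    rw [ht0, mul_div_cancel₀ _ (two_ne_zero), Real.exp_log (by positivity)]
  have hv : α * Real.exp t0 = β * Real.exp (-t0) := by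
    have h3 : Real.exp (2 * t0) = Real.exp t0 * Real.exp t0 := by
      rw [← Real.exp_add]; congr 1; ring
    rw [h3] at e1
    rw [Real.exp_neg]
    have h4 := Real.exp_pos t0
    field_simp
    field_simp at e1
    nlinarith
  have ht00 : 0 ≤ t0 := by
    have := Real.log_pos hr
    rw [ht0]; linarith
  have ht0s : t0 ≤ s := by
    have h3 : β / α < Real.exp (2 * s) := by
      rw [div_lt_iff₀ hα0]
      have h4 : Real.exp (2 * s) * Real.exp (-s) = Real.exp s := by
        rw [← Real.exp_add]; congr 1; ring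
      have h5 := Real.exp_pos (-s)
      have h6 : β * Real.exp (-s) < (Real.exp (2 * s) * α) * Real.exp (-s) := by
        calc β * Real.exp (-s) < α * Real.exp s := h2
          _ = _ := by rw [← h4]; ring
      exact lt_of_mul_lt_mul_right h6 h5.le
    rw [← e1, Real.exp_lt_exp] at h3
    linarith
  refine ⟨t0, ht00, ht0s, fun t ht htS => ?_⟩
  have h3 := h t0 ht00 ht0s
  have h4 : M / 2 ≤ α * Real.exp t0 := by linarith
  have h4' : M / 2 ≤ β * Real.exp (-t0) := by linarith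
  rcases le_total t t0 with h5 | h5
  · rw [abs_of_nonpos (by linarith)]
    have h6 : β * Real.exp (-t) = β * Real.exp (-t0) * Real.exp (-(t - t0)) := by
      rw [mul_assoc, ← Real.exp_add]
      congr 2
      ring
    have h7 : M / 2 * Real.exp (-(t - t0)) ≤ β * Real.exp (-t0) * Real.exp (-(t - t0)) :=
      mul_le_mul_of_nonneg_right h4' (Real.exp_pos _).le
    have h8 : 0 ≤ α * Real.exp t := mul_nonneg hα (Real.exp_pos _).le
    rw [h6]
    linarith
  · rw [abs_of_nonneg (by linarith)]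
    have h6 : α * Real.exp t = α * Real.exp t0 * Real.exp (t - t0) := by
      rw [mul_assoc, ← Real.exp_add]
      congr 2
      ring
    have h7 : M / 2 * Real.exp (t - t0) ≤ α * Real.exp t0 * Real.exp (t - t0) :=
      mul_le_mul_of_nonneg_right h4 (Real.exp_pos _).le
    have h8 : 0 ≤ β * Real.exp (-t) := mul_nonneg hβ (Real.exp_pos _).le
    rw [h6]
    linarith

private theorem sg_sum {κ : ℝ} (hκ : 0 < κ) (k n : ℕ) :
    ∑ i ∈ Finset.range n, Real.exp (-κ * |(i : ℝ) - k|) ≤ 2 / (1 - Real.exp (-κ)) := by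
  set r := Real.exp (-κ) with hr
  have hr0 : 0 < r := Real.exp_pos _
  have hr1 : r < 1 := by
    rw [hr, Real.exp_lt_one_iff]; linarith
  have hgeo : ∀ n : ℕ, ∑ i ∈ Finset.range n, r ^ i ≤ 1 / (1 - r) := by
    intro n
    rw [le_div_iff₀ (by linarith)]
    have h1 := mul_neg_geom_sum r n
    have h2 : 0 ≤ r ^ n := by positivity
    linarith
  have hpow : ∀ i : ℕ, r ^ i = Real.exp (-κ * i) := by
    intro i
    rw [hr, ← Real.exp_nat_mul]
    congr 1
    ring
  calc ∑ i ∈ Finset.range n, Real.exp (-κ * |(i : ℝ) - k|)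
      ≤ ∑ i ∈ Finset.range (k + n), Real.exp (-κ * |(i : ℝ) - k|) := by
        refine Finset.sum_le_sum_of_subset_of_nonneg ?_ fun _ _ _ => (Real.exp_pos _).le
        exact Finset.range_mono (by omega)
    _ = ∑ i ∈ Finset.range k, Real.exp (-κ * |(i : ℝ) - k|) +
        ∑ i ∈ Finset.range n, Real.exp (-κ * |((k + i : ℕ) : ℝ) - k|) :=
        Finset.sum_range_add _ _ _
    _ ≤ 1 / (1 - r) + 1 / (1 - r) := by
        refine add_le_add ?_ ?_
        · rw [← Finset.sum_range_reflect]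
          refine le_trans (Finset.sum_le_sum fun i hi => ?_) (hgeo k)
          rw [Finset.mem_range] at hi
          rw [hpow, Real.exp_le_exp]
          have h1 : ((k - 1 - i : ℕ) : ℝ) = (k : ℝ) - 1 - i := by
            rw [Nat.cast_sub (by omega), Nat.cast_sub (by omega)]
            simp
          rw [h1, abs_of_nonpos (by have : (0:ℝ) ≤ i := Nat.cast_nonneg i; linarith)]
          nlinarith
        · refine le_trans (Finset.sum_le_sum fun i hi => ?_) (hgeo n)
          rw [hpow, Real.exp_le_exp]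
          have h1 : |((k + i : ℕ) : ℝ) - k| = i := by
            push_cast
            rw [add_sub_cancel_left]
            exact abs_of_nonneg (Nat.cast_nonneg i)
          rw [h1]
    _ = 2 / (1 - r) := by ring

/-- sum over a geodesic of negative powers of `α e^t + β e^{-t}` -/
theorem sum_geo {κ : ℝ} (hκ : 0 < κ) : ∃ C : ℝ, 0 < C ∧ ∀ (α β s M : ℝ) (m : ℕ), 0 ≤ α → 0 ≤ β →
    0 ≤ s → (m : ℝ) ≤ s + 1 → 0 < M → (∀ t, 0 ≤ t → t ≤ s → M ≤ α * Real.exp t + β * Real.exp (-t)) →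
    ∑ i ∈ Finset.range (m + 1),
      (α * Real.exp (min (i : ℝ) s) + β * Real.exp (-(min (i : ℝ) s))) ^ (-κ) ≤ C * M ^ (-κ) := by
  have hr1 : Real.exp (-κ) < 1 := by
    rw [Real.exp_lt_one_iff]; linarith
  have hpos : 0 < 2 / (1 - Real.exp (-κ)) := div_pos two_pos (by linarith)
  refine ⟨(1 / 2 : ℝ) ^ (-κ) * Real.exp (2 * κ) * (2 / (1 - Real.exp (-κ))), by positivity, ?_⟩
  intro α β s M m hα hβ hs hm hM h
  obtain ⟨t0, ht0, ht0s, hf⟩ := sg_min hα hβ hs hM h
  have hterm : ∀ i ∈ Finset.range (m + 1),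
      (α * Real.exp (min (i : ℝ) s) + β * Real.exp (-(min (i : ℝ) s))) ^ (-κ) ≤
      M ^ (-κ) * ((1 / 2 : ℝ) ^ (-κ) * Real.exp (2 * κ)) *
        Real.exp (-κ * |(i : ℝ) - (⌊t0⌋₊ : ℕ)|) := by
    intro i hi
    rw [Finset.mem_range] at hi
    have hi' : (i : ℝ) ≤ s + 1 := by
      have : (i : ℝ) ≤ m := by exact_mod_cast Nat.lt_succ_iff.1 hi
      linarith
    have hi0 : (0 : ℝ) ≤ i := Nat.cast_nonneg i
    have h1 := hf (min (i : ℝ) s) (le_min hi0 hs) (min_le_right _ _)
    have h2 : 0 < M / 2 * Real.exp |min (i : ℝ) s - t0| := by positivity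
    refine le_trans (Real.rpow_le_rpow_of_nonpos h2 h1 (by linarith)) ?_
    rw [Real.mul_rpow (by positivity) (Real.exp_pos _).le, ← Real.exp_mul,
      div_eq_mul_one_div M 2, Real.mul_rpow hM.le (by norm_num), mul_assoc, mul_assoc, mul_assoc]
    refine mul_le_mul_of_nonneg_left ?_ (by positivity)
    refine mul_le_mul_of_nonneg_left ?_ (by positivity)
    rw [← Real.exp_add, Real.exp_le_exp]
    have h3 : |(i : ℝ) - (⌊t0⌋₊ : ℕ)| ≤ |min (i : ℝ) s - t0| + 2 := by
      have a1 : |(i : ℝ) - min (i : ℝ) s| ≤ 1 := by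
        rcases le_total (i : ℝ) s with h4 | h4
        · rw [min_eq_left h4]; simp
        · rw [min_eq_right h4, abs_of_nonneg (by linarith)]; linarith
      have a2 : |t0 - (⌊t0⌋₊ : ℕ)| ≤ 1 := by
        have b1 := Nat.floor_le ht0
        have b2 := Nat.lt_floor_add_one t0
        rw [abs_of_nonneg (by linarith)]
        linarith
      have a3 : (i : ℝ) - (⌊t0⌋₊ : ℕ) = ((i : ℝ) - min (i : ℝ) s) + (min (i : ℝ) s - t0) +
          (t0 - (⌊t0⌋₊ : ℕ)) := by ring
      rw [a3]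
      have a4 := abs_add_le (((i : ℝ) - min (i : ℝ) s) + (min (i : ℝ) s - t0)) (t0 - (⌊t0⌋₊ : ℕ))
      have a5 := abs_add_le ((i : ℝ) - min (i : ℝ) s) (min (i : ℝ) s - t0)
      linarith
    nlinarith
  refine le_trans (Finset.sum_le_sum hterm) ?_
  rw [← Finset.mul_sum]
  have h5 := sg_sum hκ ⌊t0⌋₊ (m + 1)
  have h6 : 0 ≤ M ^ (-κ) * ((1 / 2 : ℝ) ^ (-κ) * Real.exp (2 * κ)) := by positivity
  calc M ^ (-κ) * ((1 / 2 : ℝ) ^ (-κ) * Real.exp (2 * κ)) *
        ∑ i ∈ Finset.range (m + 1), Real.exp (-κ * |(i : ℝ) - (⌊t0⌋₊ : ℕ)|)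
      ≤ M ^ (-κ) * ((1 / 2 : ℝ) ^ (-κ) * Real.exp (2 * κ)) * (2 / (1 - Real.exp (-κ))) :=
        mul_le_mul_of_nonneg_left h5 h6
    _ = _ := by ring



end Pool.Agent.SCD
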