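import Mathlib
import Pool.Agent.SCD.Basic
import Pool.Agent.SCD.L_dist_u
import Pool.Agent.SCD.L_kak
import Pool.Agent.SCD.L_Dg_facts
import Pool.Agent.SCD.L_low_N
import Pool.Agent.SCD.L_chain
import Pool.Agent.SCD.L_sum_geo

set_option autoImplicit false

namespace Pool.Agent.SCD

open Filter Topology Set


/-- chains between elements which are close to the same boundary point have small sums -/
theorem sumN {H : Subgroup SL} (hH : Good H) {κ : ℝ} (hκ : 0 < κ) : ∃ C D : ℝ, 0 < C ∧ 0 < D ∧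
    ∀ δ > 0, ∀ g ∈ H, ∀ g' ∈ H, 1 / N g ≤ δ → 1 / N g' ≤ δ → dist (u g) (u g') ≤ δ →
    ∃ (m : ℕ) (p : ℕ → SL), p 0 = g ∧ p m = g' ∧ (∀ i, p i ∈ H) ∧
      (∀ i < m, N ((p i)⁻¹ * p (i + 1)) ≤ C) ∧
      ∑ i ∈ Finset.range (m + 1), N (p i) ^ (-κ) ≤ D * δ ^ κ := by
  obtain ⟨C, hC2, hchain⟩ := chain hH
  obtain ⟨C', hC', hgeo⟩ := sum_geo hκ
  have hC : 0 < C := by linarith
  have hCκ : 0 < C ^ κ := Real.rpow_pos_of_pos hC κ
  have h2κ : 0 < (2 : ℝ) ^ κ := Real.rpow_pos_of_pos (by norm_num) κ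
  refine ⟨C, C ^ κ * (C' * 2 ^ κ), hC, by positivity, ?_⟩
  intro δ hδ g hg g' hg' hN hN' hdist
  obtain ⟨k, l, s, hk, hl, hs, hgk, m, p, hm, hp0, hpm, hpH, hstep, hclose⟩ := hchain g hg g' hg'
  refine ⟨m, p, hp0, hpm, hpH, hstep, ?_⟩
  have hlow : ∀ t, 0 ≤ t → t ≤ s → 1 / (2 * δ) ≤
      (ea (g * k) ^ 2 + ec (g * k) ^ 2) * Real.exp t +
        (eb (g * k) ^ 2 + ed (g * k) ^ 2) * Real.exp (-t) := by
    intro t ht0 hts
    rw [← N_mul_Dg]
    exact low_N hk hl ht0 hts hN (by rw [← hgk]; exact hN') (by rw [← hgk]; exact hdist)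
  have hM : 0 < 1 / (2 * δ) := by positivity
  have hsum := hgeo (ea (g * k) ^ 2 + ec (g * k) ^ 2) (eb (g * k) ^ 2 + ed (g * k) ^ 2) s
    (1 / (2 * δ)) m (by positivity) (by positivity) hs hm hM hlow
  have hterm : ∀ i ∈ Finset.range (m + 1), N (p i) ^ (-κ) ≤
      C ^ κ * ((ea (g * k) ^ 2 + ec (g * k) ^ 2) * Real.exp (min (i : ℝ) s) +
        (eb (g * k) ^ 2 + ed (g * k) ^ 2) * Real.exp (-(min (i : ℝ) s))) ^ (-κ) := by
    intro i hi
    have him : i ≤ m := by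
      have := Finset.mem_range.mp hi
      omega
    have h1 := hclose i him
    rw [← N_mul_Dg]
    have hq0 : 0 < N (g * k * Dg (min (i : ℝ) s)) := N_pos _
    have h2 : N (g * k * Dg (min (i : ℝ) s)) ≤ N (p i) * C := by
      have h3 := N_mul_le (p i) ((p i)⁻¹ * (g * k * Dg (min (i : ℝ) s)))
      rw [mul_inv_cancel_left] at h3
      exact h3.trans (mul_le_mul_of_nonneg_left h1 (N_nonneg _))
    have h4 : N (g * k * Dg (min (i : ℝ) s)) / C ≤ N (p i) := by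
      rw [div_le_iff₀ hC]
      exact h2
    have h5 : N (p i) ^ (-κ) ≤ (N (g * k * Dg (min (i : ℝ) s)) / C) ^ (-κ) :=
      Real.rpow_le_rpow_of_nonpos (div_pos hq0 hC) h4 (by linarith)
    refine h5.trans (le_of_eq ?_)
    rw [Real.div_rpow hq0.le hC.le, Real.rpow_neg hC.le, div_inv_eq_mul, mul_comm]
  calc ∑ i ∈ Finset.range (m + 1), N (p i) ^ (-κ)
      ≤ ∑ i ∈ Finset.range (m + 1), C ^ κ *
        ((ea (g * k) ^ 2 + ec (g * k) ^ 2) * Real.exp (min (i : ℝ) s) +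
        (eb (g * k) ^ 2 + ed (g * k) ^ 2) * Real.exp (-(min (i : ℝ) s))) ^ (-κ) :=
        Finset.sum_le_sum hterm
    _ = C ^ κ * ∑ i ∈ Finset.range (m + 1),
        ((ea (g * k) ^ 2 + ec (g * k) ^ 2) * Real.exp (min (i : ℝ) s) +
        (eb (g * k) ^ 2 + ed (g * k) ^ 2) * Real.exp (-(min (i : ℝ) s))) ^ (-κ) := by
        rw [Finset.mul_sum]
    _ ≤ C ^ κ * (C' * (1 / (2 * δ)) ^ (-κ)) := mul_le_mul_of_nonneg_left hsum hCκ.le
    _ = C ^ κ * (C' * 2 ^ κ) * δ ^ κ := by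
        have e : (1 / (2 * δ)) ^ (-κ) = 2 ^ κ * δ ^ κ := by
          rw [one_div, Real.inv_rpow (by positivity), Real.rpow_neg (by positivity), inv_inv,
            Real.mul_rpow (by norm_num) hδ.le]
        rw [e]
        ring



end Pool.Agent.SCD
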