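import Mathlib
import Pool.Agent.SCD.Basic
import Pool.Agent.SCD.L_dist_u
import Pool.Agent.SCD.L_step_u
import Pool.Agent.SCD.L_kak
import Pool.Agent.SCD.L_chain
import Pool.Agent.SCD.L_growth
import Pool.Agent.SCD.L_sumN

set_option autoImplicit false

namespace Pool.Agent.SCD

open Filter Topology Set


theorem uc_ext {H K : Subgroup SL} (hH : Good H) (hK : Good K) (φ : H ≃* K) {ε : ℝ} (hε : 0 < ε) :
    ∃ δ > 0, ∀ g g' : H, 1 / N (g : SL) ≤ δ → 1 / N (g' : SL) ≤ δ →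
      dist (u (g : SL)) (u (g' : SL)) ≤ δ →
      dist (u ((φ g : K) : SL)) (u ((φ g' : K) : SL)) < ε := by
  obtain ⟨κ, c, hκ, hκ1, hc, hgr⟩ := growth hH hK φ
  obtain ⟨C, D, hC, hD, hsum⟩ := sumN hH hκ
  obtain ⟨E, hE, hEb⟩ : ∃ E : ℝ, 0 < E ∧ ∀ σ : H, N (σ : SL) ≤ C → N ((φ σ : K) : SL) ≤ E := by
    have hfin : {σ : H | N (σ : SL) ≤ C}.Finite := by
      have h1 := (hH.disc C).preimage (f := fun σ : H => (σ : SL)) (Subtype.val_injective.injOn)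
      apply h1.subset
      intro σ hσ
      exact ⟨σ.2, hσ⟩
    obtain ⟨b, hb⟩ := (hfin.image (fun σ : H => N ((φ σ : K) : SL))).bddAbove
    exact ⟨max b 1, lt_of_lt_of_le one_pos (le_max_right _ _),
      fun σ hσ => (hb ⟨σ, hσ, rfl⟩).trans (le_max_left _ _)⟩
  have hδ0 : 0 < ε * c / (2 * E * D) := by positivity
  refine ⟨(ε * c / (2 * E * D)) ^ (1 / κ), Real.rpow_pos_of_pos hδ0 _, ?_⟩
  intro g g' h1 h2 h3
  obtain ⟨m, p, hp0, hpm, hpH, hpC, hpD⟩ := hsum _ (Real.rpow_pos_of_pos hδ0 (1 / κ)) g g.2 g' g'.2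
    h1 h2 h3
  have hδκ : ((ε * c / (2 * E * D)) ^ (1 / κ)) ^ κ = ε * c / (2 * E * D) := by
    rw [← Real.rpow_mul hδ0.le, one_div, inv_mul_cancel₀ hκ.ne', Real.rpow_one]
  rw [hδκ] at hpD
  have hg : g = ⟨p 0, hpH 0⟩ := Subtype.ext hp0.symm
  have hg' : g' = ⟨p m, hpH m⟩ := Subtype.ext hpm.symm
  have hst : ∀ i < m, dist (u ((φ ⟨p i, hpH i⟩ : K) : SL)) (u ((φ ⟨p (i + 1), hpH (i + 1)⟩ : K) : SL))
      ≤ (E / c) * N (p i) ^ (-κ) := by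
    intro i hi
    have e1 : (⟨p (i + 1), hpH (i + 1)⟩ : H) = ⟨p i, hpH i⟩ *
        ((⟨p i, hpH i⟩ : H)⁻¹ * ⟨p (i + 1), hpH (i + 1)⟩) := by group
    have e2 : ((φ ⟨p (i + 1), hpH (i + 1)⟩ : K) : SL) = ((φ ⟨p i, hpH i⟩ : K) : SL) *
        ((φ ((⟨p i, hpH i⟩ : H)⁻¹ * ⟨p (i + 1), hpH (i + 1)⟩) : K) : SL) := by
      conv_lhs => rw [e1, map_mul]
      rfl
    rw [e2, dist_comm]
    refine (step_u _ _).trans ?_
    have h4 : N ((φ ((⟨p i, hpH i⟩ : H)⁻¹ * ⟨p (i + 1), hpH (i + 1)⟩) : K) : SL) ≤ E :=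
      hEb _ (hpC i hi)
    have h5 := hgr ⟨p i, hpH i⟩
    have h6 : 0 < N (p i) ^ κ := Real.rpow_pos_of_pos (N_pos _) _
    have h7 : N (p i) ^ (-κ) = (N (p i) ^ κ)⁻¹ := Real.rpow_neg (N_pos _).le _
    calc N ((φ ((⟨p i, hpH i⟩ : H)⁻¹ * ⟨p (i + 1), hpH (i + 1)⟩) : K) : SL) /
          N ((φ ⟨p i, hpH i⟩ : K) : SL)
        ≤ E / (c * N (p i) ^ κ) := div_le_div₀ hE.le h4 (by positivity) h5
      _ = (E / c) * N (p i) ^ (-κ) := by
          rw [h7]; field_simp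
  have hd := dist_le_range_sum_dist (fun i => u ((φ ⟨p i, hpH i⟩ : K) : SL)) m
  rw [hg, hg']
  refine lt_of_le_of_lt hd ?_
  calc ∑ i ∈ Finset.range m, dist (u ((φ ⟨p i, hpH i⟩ : K) : SL))
        (u ((φ ⟨p (i + 1), hpH (i + 1)⟩ : K) : SL))
      ≤ ∑ i ∈ Finset.range m, (E / c) * N (p i) ^ (-κ) :=
        Finset.sum_le_sum (fun i hi => hst i (Finset.mem_range.1 hi))
    _ ≤ ∑ i ∈ Finset.range (m + 1), (E / c) * N (p i) ^ (-κ) := by
        apply Finset.sum_le_sum_of_subset_of_nonneg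
        · exact Finset.range_subset_range.2 (Nat.le_succ m)
        · intro i _ _
          have := Real.rpow_pos_of_pos (N_pos (p i)) (-κ)
          positivity
    _ = (E / c) * ∑ i ∈ Finset.range (m + 1), N (p i) ^ (-κ) := by rw [Finset.mul_sum]
    _ ≤ (E / c) * (D * (ε * c / (2 * E * D))) :=
        mul_le_mul_of_nonneg_left hpD (by positivity)
    _ = ε / 2 := by field_simp
    _ < ε := by linarith



end Pool.Agent.SCD
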