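import Mathlib
import Pool.Agent.SCD.Basic
import Pool.Agent.SCD.L_uc_ext
import Pool.Agent.SCD.L_dense_u

set_option autoImplicit false

namespace Pool.Agent.SCD

open Filter Topology Set


/-- boundary map: `φ g → h x` when `g → x` -/
theorem ext_map {H K : Subgroup SL} (hH : Good H) (hK : Good K) (φ : H ≃* K)
    (hg : ∀ R : ℝ, ∃ δ > 0, ∀ g : H, 1 / N (g : SL) ≤ δ → R ≤ N ((φ g : K) : SL)) :
    ∃ h : Bd → Bd, Continuous h ∧ ∀ ε > 0, ∃ δ > 0, ∀ (x : Bd) (g : H), 1 / N (g : SL) ≤ δ →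
      dist (u (g : SL)) x.1 ≤ δ → dist (u ((φ g : K) : SL)) (h x).1 ≤ ε := by
  have hseq : ∀ (x : Bd) (n : ℕ), ∃ g : H, 1 / N (g : SL) ≤ 1 / ((n : ℝ) + 1) ∧
      dist (u (g : SL)) x.1 ≤ 1 / ((n : ℝ) + 1) := by
    intro x n
    obtain ⟨g, hgH, h1, h2⟩ := dense_u hH x (show (0 : ℝ) < 1 / ((n : ℝ) + 1) by positivity)
    exact ⟨⟨g, hgH⟩, h1, h2⟩
  choose s hs1 hs2 using hseq
  have hlarge : ∀ δ : ℝ, 0 < δ → ∀ᶠ n : ℕ in atTop, 1 / ((n : ℝ) + 1) ≤ δ := by
    intro δ hδ
    have := (tendsto_one_div_add_atTop_nhds_zero_nat (𝕜 := ℝ)).eventually (gt_mem_nhds hδ)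
    filter_upwards [this] with n hn using le_of_lt hn
  have hlim : ∀ x : Bd, ∃ y : Bd,
      Tendsto (fun n => u ((φ (s x n) : K) : SL)) atTop (𝓝 y.1) := by
    intro x
    have hc : CauchySeq (fun n => u ((φ (s x n) : K) : SL)) := by
      rw [Metric.cauchySeq_iff]
      intro ε hε
      obtain ⟨δ, hδ, h⟩ := uc_ext hH hK φ hε
      obtain ⟨M, hM⟩ := eventually_atTop.1 (hlarge (δ / 2) (by positivity))
      refine ⟨M, fun m hm n hn => ?_⟩
      have e1 := hM m hm
      have e2 := hM n hn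
      have h1 := hs1 x m
      have h2 := hs1 x n
      have h3 := hs2 x m
      have h4 := hs2 x n
      refine h (s x m) (s x n) (by linarith) (by linarith) ?_
      have h5 := dist_triangle_right (u (s x m : SL)) (u (s x n : SL)) x.1
      linarith
    obtain ⟨y, hy⟩ := cauchySeq_tendsto_of_complete hc
    have htop : Tendsto (fun n => N ((φ (s x n) : K) : SL)) atTop atTop := by
      rw [tendsto_atTop]
      intro R
      obtain ⟨δ, hδ, h⟩ := hg R
      filter_upwards [hlarge δ hδ] with n hn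
      exact h (s x n) ((hs1 x n).trans hn)
    refine ⟨⟨y, ?_, ?_⟩, hy⟩
    · have h1 := (continuous_tr.tendsto y).comp hy
      refine tendsto_nhds_unique h1 ?_
      refine tendsto_const_nhds.congr fun n => ?_
      exact (tr_u _).symm
    · have h1 := (continuous_BB.tendsto y).comp hy
      refine tendsto_nhds_unique h1 ?_
      have h2 : Tendsto (fun n => (N ((φ (s x n) : K) : SL) ^ 2)⁻¹) atTop (𝓝 0) :=
        tendsto_inv_atTop_zero.comp ((tendsto_pow_atTop (by norm_num)).comp htop)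
      refine h2.congr fun n => ?_
      show _ = B (u ((φ (s x n) : K) : SL)) (u ((φ (s x n) : K) : SL))
      rw [B_u, one_div]
  choose h hh using hlim
  have hP : ∀ ε > 0, ∃ δ > 0, ∀ (x : Bd) (g : H), 1 / N (g : SL) ≤ δ →
      dist (u (g : SL)) x.1 ≤ δ → dist (u ((φ g : K) : SL)) (h x).1 ≤ ε := by
    intro ε hε
    obtain ⟨δ, hδ, hu⟩ := uc_ext hH hK φ hε
    refine ⟨δ / 2, by positivity, fun x g hg1 hg2 => ?_⟩
    have ht : Tendsto (fun n => dist (u ((φ g : K) : SL)) (u ((φ (s x n) : K) : SL))) atTop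
        (𝓝 (dist (u ((φ g : K) : SL)) (h x).1)) := tendsto_const_nhds.dist (hh x)
    refine le_of_tendsto ht ?_
    filter_upwards [hlarge (δ / 2) (by positivity)] with n hn
    have h1 := hs1 x n
    have h3 := hs2 x n
    refine (hu g (s x n) (by linarith) (by linarith) ?_).le
    have h5 := dist_triangle_right (u (g : SL)) (u (s x n : SL)) x.1
    linarith
  refine ⟨h, ?_, hP⟩
  rw [Metric.continuous_iff]
  intro x ε hε
  obtain ⟨δ, hδ, hd⟩ := hP (ε / 3) (by positivity)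
  refine ⟨δ / 2, by positivity, fun x' hx' => ?_⟩
  obtain ⟨g, hgH, h1, h2⟩ := dense_u hH x (show (0 : ℝ) < δ / 2 by positivity)
  have h3 := hd x ⟨g, hgH⟩ (by show 1 / N g ≤ δ; linarith) (by show dist (u g) x.1 ≤ δ; linarith)
  have h4 := hd x' ⟨g, hgH⟩ (by show 1 / N g ≤ δ; linarith) (by
    show dist (u g) x'.1 ≤ δ
    have h5 := dist_triangle_right (u g) x'.1 x.1
    rw [Bd.dist_def] at hx'
    linarith)
  rw [Bd.dist_def]
  have h5 := dist_triangle_left (h x').1 (h x).1 (u ((φ ⟨g, hgH⟩ : K) : SL))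
  linarith



end Pool.Agent.SCD
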