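import Mathlib
import Pool.Agent.SCD.Basic
import Pool.Agent.SCD.L_ext_map
import Pool.Agent.SCD.L_growth
import Pool.Agent.SCD.L_dense_u
import Pool.Agent.SCD.L_kak
import Pool.Agent.SCD.L_uc_ext

set_option autoImplicit false

namespace Pool.Agent.SCD

open Filter Topology Set


private theorem bext_seqlim {H K : Subgroup SL} (φ : H ≃* K) (h : Bd → Bd)
    (hlim : ∀ ε > 0, ∃ δ > 0, ∀ (x : Bd) (g : H), 1 / N (g : SL) ≤ δ →
      dist (u (g : SL)) x.1 ≤ δ → dist (u ((φ g : K) : SL)) (h x).1 ≤ ε)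
    (x : Bd) (g : ℕ → H) (hN : Tendsto (fun n => 1 / N (g n : SL)) atTop (𝓝 0))
    (hu : Tendsto (fun n => u (g n : SL)) atTop (𝓝 x.1)) :
    Tendsto (fun n => u ((φ (g n) : K) : SL)) atTop (𝓝 (h x).1) := by
  rw [Metric.tendsto_nhds]
  intro ε hε
  obtain ⟨δ, hδ, hd⟩ := hlim (ε / 2) (by positivity)
  have h1 : ∀ᶠ n in atTop, 1 / N (g n : SL) < δ := hN.eventually (gt_mem_nhds hδ)
  have h2 : ∀ᶠ n in atTop, dist (u (g n : SL)) x.1 < δ := (Metric.tendsto_nhds.1 hu) δ hδ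
  filter_upwards [h1, h2] with n h1 h2
  have := hd x (g n) h1.le h2.le
  linarith

private theorem bext_Nlim {H K : Subgroup SL} (φ : H ≃* K)
    (hg : ∀ R : ℝ, ∃ δ > 0, ∀ g : H, 1 / N (g : SL) ≤ δ → R ≤ N ((φ g : K) : SL))
    (g : ℕ → H) (hN : Tendsto (fun n => 1 / N (g n : SL)) atTop (𝓝 0)) :
    Tendsto (fun n => 1 / N ((φ (g n) : K) : SL)) atTop (𝓝 0) := by
  rw [Metric.tendsto_nhds]
  intro ε hε
  obtain ⟨δ, hδ, hd⟩ := hg (2 / ε)
  have h1 : ∀ᶠ n in atTop, 1 / N (g n : SL) < δ := hN.eventually (gt_mem_nhds hδ)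
  filter_upwards [h1] with n h1
  have h2 := hd (g n) h1.le
  have hp := N_pos ((φ (g n) : K) : SL)
  rw [Real.dist_eq, sub_zero, abs_of_pos (by positivity), div_lt_iff₀ hp]
  rw [div_le_iff₀ hε] at h2
  linarith

private theorem bext_seq {H : Subgroup SL} (hH : Good H) (x : Bd) :
    ∃ g : ℕ → H, Tendsto (fun n => 1 / N (g n : SL)) atTop (𝓝 0) ∧
      Tendsto (fun n => u (g n : SL)) atTop (𝓝 x.1) := by
  have h1 : ∀ n : ℕ, ∃ g ∈ H, 1 / N g ≤ 1 / ((n : ℝ) + 1) ∧ dist (u g) x.1 ≤ 1 / ((n : ℝ) + 1) :=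
    fun n => dense_u hH x (by positivity)
  choose g hgH hgN hgu using h1
  refine ⟨fun n => ⟨g n, hgH n⟩, ?_, ?_⟩
  · refine squeeze_zero (fun n => ?_) hgN tendsto_one_div_add_atTop_nhds_zero_nat
    have := N_pos (g n)
    positivity
  · rw [tendsto_iff_dist_tendsto_zero]
    exact squeeze_zero (fun n => dist_nonneg) hgu tendsto_one_div_add_atTop_nhds_zero_nat

private theorem bext_u_mul (a g : SL) : u (a * g) = (tr (act a (u g)))⁻¹ • act a (u g) := by
  rw [u_eq g, act_smul, tr_smul, ← act_mul, tr_act_I0, u_eq, smul_smul]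
  congr 1
  have h1 := (N_pos g).ne'
  have h2 := (N_pos (a * g)).ne'
  field_simp

private theorem bext_mul_lim (a : SL) (x : Bd) (g : ℕ → SL)
    (hu : Tendsto (fun n => u (g n)) atTop (𝓝 x.1)) :
    Tendsto (fun n => u (a * g n)) atTop (𝓝 (a • x).1) := by
  have h1 : Tendsto (fun n => act a (u (g n))) atTop (𝓝 (act a x.1)) :=
    ((continuous_act a).tendsto x.1).comp hu
  have h2 : Tendsto (fun n => tr (act a (u (g n)))) atTop (𝓝 (tr (act a x.1))) :=
    (continuous_tr.tendsto _).comp h1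
  have h3 := (h2.inv₀ (Bd_tr_act_pos a x).ne').smul h1
  rw [smul_val]
  refine h3.congr fun n => ?_
  rw [bext_u_mul]

private theorem bext_mul_N (a : SL) (g : ℕ → SL) (hN : Tendsto (fun n => 1 / N (g n)) atTop (𝓝 0)) :
    Tendsto (fun n => 1 / N (a * g n)) atTop (𝓝 0) := by
  have h1 := hN.const_mul (N a)
  rw [mul_zero] at h1
  refine squeeze_zero (fun n => ?_) (fun n => ?_) h1
  · have := N_pos (a * g n)
    positivity
  · have h2 := N_le_mul_left a (g n)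
    have h3 := N_pos (a * g n)
    have h4 := N_pos (g n)
    rw [mul_one_div, div_le_div_iff₀ h3 h4]
    linarith

private theorem bext_hg {H K : Subgroup SL} (hH : Good H) (hK : Good K) (φ : H ≃* K) :
    ∀ R : ℝ, ∃ δ > 0, ∀ g : H, 1 / N (g : SL) ≤ δ → R ≤ N ((φ g : K) : SL) := by
  intro R
  obtain ⟨κ, c, hκ, _, hc, hgr⟩ := growth hH hK φ
  set M : ℝ := max R 1 with hM
  have hM0 : 0 < M := lt_of_lt_of_le one_pos (le_max_right _ _)
  have hMc : 0 < M / c := div_pos hM0 hc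
  refine ⟨((M / c) ^ (1 / κ))⁻¹, inv_pos.2 (Real.rpow_pos_of_pos hMc _), fun g hg => ?_⟩
  have hN := N_pos (g : SL)
  have h1 : (M / c) ^ (1 / κ) ≤ N (g : SL) := by
    rw [one_div] at hg
    exact (inv_le_inv₀ hN (Real.rpow_pos_of_pos hMc _)).1 hg
  have h2 : M / c ≤ N (g : SL) ^ κ := by
    have h3 := Real.rpow_le_rpow (Real.rpow_nonneg hMc.le _) h1 hκ.le
    rwa [← Real.rpow_mul hMc.le, one_div, inv_mul_cancel₀ hκ.ne', Real.rpow_one] at h3
  have h3 := hgr g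
  have h4 : M ≤ c * N (g : SL) ^ κ := by
    rw [div_le_iff₀ hc] at h2
    linarith
  have h5 : R ≤ M := le_max_left _ _
  linarith

private theorem bext_inv {H K : Subgroup SL} (hH : Good H) (hK : Good K) (φ : H ≃* K) (h h' : Bd → Bd)
    (hlim : ∀ ε > 0, ∃ δ > 0, ∀ (x : Bd) (g : H), 1 / N (g : SL) ≤ δ →
      dist (u (g : SL)) x.1 ≤ δ → dist (u ((φ g : K) : SL)) (h x).1 ≤ ε)
    (hlim' : ∀ ε > 0, ∃ δ > 0, ∀ (x : Bd) (g : K), 1 / N (g : SL) ≤ δ →
      dist (u (g : SL)) x.1 ≤ δ → dist (u ((φ.symm g : H) : SL)) (h' x).1 ≤ ε) (x : Bd) :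
    h' (h x) = x := by
  obtain ⟨g, hN, hu⟩ := bext_seq hH x
  have h1 := bext_seqlim φ h hlim x g hN hu
  have h2 := bext_Nlim φ (bext_hg hH hK φ) g hN
  have h3 := bext_seqlim φ.symm h' hlim' (h x) (fun n => φ (g n)) h2 h1
  simp only [MulEquiv.symm_apply_apply] at h3
  exact Bd.ext (tendsto_nhds_unique h3 hu)

/-- BOUNDARY EXTENSION of isomorphisms -/
theorem bext {H K : Subgroup SL} (hH : Good H) (hK : Good K) (φ : H ≃* K) :
    ∃ h : Bd ≃ₜ Bd, ∀ (g : H) (x : Bd), h ((g : SL) • x) = ((φ g : K) : SL) • h x := by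
  obtain ⟨h, hc, hlim⟩ := ext_map hH hK φ (bext_hg hH hK φ)
  obtain ⟨h', hc', hlim'⟩ := ext_map hK hH φ.symm (bext_hg hK hH φ.symm)
  refine ⟨{ toFun := h, invFun := h'
            left_inv := fun x => bext_inv hH hK φ h h' hlim hlim' x
            right_inv := fun x => bext_inv hK hH φ.symm h' h hlim' hlim x
            continuous_toFun := hc
            continuous_invFun := hc' }, ?_⟩
  intro a x
  show h ((a : SL) • x) = ((φ a : K) : SL) • h x
  obtain ⟨g, hN, hu⟩ := bext_seq hH x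
  have h1 := bext_seqlim φ h hlim x g hN hu
  have h2 := bext_mul_lim ((φ a : K) : SL) (h x) (fun n => ((φ (g n) : K) : SL)) h1
  have h3 : Tendsto (fun n => u ((a * g n : H) : SL)) atTop (𝓝 ((a : SL) • x).1) :=
    bext_mul_lim (a : SL) x (fun n => (g n : SL)) hu
  have h4 : Tendsto (fun n => 1 / N ((a * g n : H) : SL)) atTop (𝓝 0) :=
    bext_mul_N (a : SL) (fun n => (g n : SL)) hN
  have h5 := bext_seqlim φ h hlim ((a : SL) • x) (fun n => a * g n) h4 h3
  simp only [map_mul, Subgroup.coe_mul] at h5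
  exact Bd.ext (tendsto_nhds_unique h5 h2)



end Pool.Agent.SCD
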