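import Mathlib
import Pool.Agent.SCD.Basic

set_option autoImplicit false

namespace Pool.Agent.SCD

open Filter Topology Set


/-- finite index subgroups of good groups are good -/
theorem good_sub {Γ H : Subgroup SL} (hΓ : Good Γ) (hH : H ≤ Γ) (hi : (H.subgroupOf Γ).index ≠ 0) :
    Good H := by
  refine ⟨fun R => ?_, ?_, fun g hg h1 => hΓ.hyp g (hH hg) h1⟩
  · exact (hΓ.disc R).subset (fun g hg => ⟨hH hg.1, hg.2⟩)
  · obtain ⟨C, hC⟩ := hΓ.cocpt
    haveI : (H.subgroupOf Γ).FiniteIndex := ⟨hi⟩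
    haveI : Finite (Γ ⧸ H.subgroupOf Γ) := inferInstance
    haveI : Fintype (Γ ⧸ H.subgroupOf Γ) := Fintype.ofFinite _
    refine ⟨(∑ q : Γ ⧸ H.subgroupOf Γ, N ((Quotient.out q : Γ) : SL)) * C, fun A => ?_⟩
    obtain ⟨γ, hγ, hN⟩ := hC A
    let γ' : Γ := ⟨γ, hγ⟩
    let q : Γ ⧸ H.subgroupOf Γ := QuotientGroup.mk γ'⁻¹
    have hq : (Quotient.out q : Γ)⁻¹ * γ'⁻¹ ∈ H.subgroupOf Γ := by
      rw [← QuotientGroup.eq]
      exact QuotientGroup.out_eq' q
    have hq' : (((Quotient.out q : Γ) : SL))⁻¹ * γ⁻¹ ∈ H := by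
      have := Subgroup.mem_subgroupOf.mp hq
      simpa [γ'] using this
    refine ⟨γ * ((Quotient.out q : Γ) : SL), ?_, ?_⟩
    · have := H.inv_mem hq'
      simpa [mul_inv_rev] using this
    · have e : (γ * ((Quotient.out q : Γ) : SL))⁻¹ * A = ((Quotient.out q : Γ) : SL)⁻¹ * (γ⁻¹ * A) := by
        group
      rw [e]
      refine (N_mul_le _ _).trans ?_
      rw [N_inv]
      refine mul_le_mul ?_ hN (N_nonneg _) (Finset.sum_nonneg (fun i _ => N_nonneg _))
      exact Finset.single_le_sum (f := fun q : Γ ⧸ H.subgroupOf Γ => N ((Quotient.out q : Γ) : SL))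
        (fun i _ => N_nonneg _) (Finset.mem_univ q)



end Pool.Agent.SCD
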