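import Mathlib
import Pool.Agent.SCD.Basic
import Pool.Agent.SCD.L_good_sub
import Pool.Agent.SCD.L_bext

set_option autoImplicit false

namespace Pool.Agent.SCD

open Filter Topology Set


theorem IsComm_of_iso {Γ : Subgroup SL} (hΓ : Good Γ) {H K : Subgroup SL} (hH : H ≤ Γ) (hK : K ≤ Γ)
    (iH : (H.subgroupOf Γ).index ≠ 0) (iK : (K.subgroupOf Γ).index ≠ 0) (φ : H ≃* K) :
    ∃ h : Bd ≃ₜ Bd, IsComm Γ h ∧ ∀ (g : H) (x : Bd), h ((g : SL) • x) = ((φ g : K) : SL) • h x := by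
  obtain ⟨h, hh⟩ := bext (good_sub hΓ hH iH) (good_sub hΓ hK iK) φ
  exact ⟨h, ⟨H, K, hH, hK, iH, iK, φ, hh⟩, hh⟩



end Pool.Agent.SCD
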