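import Mathlib
import Pool.Agent.SCD.Basic
import Pool.Agent.SCD.L_bp_facts

set_option autoImplicit false

namespace Pool.Agent.SCD

open Filter Topology Set


/-- attracting point of a diagonal matrix -/
private noncomputable def xp0 : Bd := ⟨((1:ℝ), (0:ℝ), (0:ℝ)), by constructor <;> simp [tr, B]⟩

/-- repelling point of a diagonal matrix -/
private noncomputable def xm0 : Bd := ⟨((0:ℝ), (0:ℝ), (1:ℝ)), by constructor <;> simp [tr, B]⟩

private theorem Bd_eqs (x : Bd) : x.1.1 + x.1.2.2 = 1 ∧ x.1.1 * x.1.2.2 = x.1.2.1 ^ 2 := by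
  have h1 := x.2.1
  have h2 := x.2.2
  unfold tr at h1
  unfold B at h2
  exact ⟨h1, by linarith⟩

private theorem eq_xm0 {x : Bd} (h : x.1.1 = 0) : x = xm0 := by
  obtain ⟨h1, h2⟩ := Bd_eqs x
  rw [h, zero_mul] at h2
  have h3 : x.1.2.1 = 0 := by
    have := h2.symm
    exact pow_eq_zero_iff (two_ne_zero) |>.mp this
  have h4 : x.1.2.2 = 1 := by linarith
  apply Bd.ext
  exact Prod.ext h (Prod.ext h3 h4)

private theorem eq_xp0 {x : Bd} (h : x.1.2.2 = 0) : x = xp0 := by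
  obtain ⟨h1, h2⟩ := Bd_eqs x
  rw [h, mul_zero] at h2
  have h3 : x.1.2.1 = 0 := by
    have := h2.symm
    exact pow_eq_zero_iff (two_ne_zero) |>.mp this
  have h4 : x.1.1 = 1 := by linarith
  apply Bd.ext
  exact Prod.ext h4 (Prod.ext h3 h)

/-- diagonal matrix -/
private noncomputable def dg (l m : ℝ) (h : l * m = 1) : SL := mk4 l 0 0 m (by linarith)

private theorem act_dg (l m : ℝ) (h : l * m = 1) (X : V) :
    act (dg l m h) X = (l ^ 2 * X.1, X.2.1, m ^ 2 * X.2.2) := by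
  unfold act dg
  simp only [ea_mk4, eb_mk4, ec_mk4, ed_mk4, Prod.mk.injEq]
  refine ⟨by ring, ?_, by ring⟩
  linear_combination X.2.1 * h

private theorem act_dg_pow (l m : ℝ) (h : l * m = 1) (n : ℕ) (X : V) :
    act (dg l m h ^ n) X = ((l ^ 2) ^ n * X.1, X.2.1, (m ^ 2) ^ n * X.2.2) := by
  induction n with
  | zero => rw [pow_zero, act_one]; simp
  | succ n ih =>
    rw [pow_succ', act_mul, ih, act_dg]
    simp only [Prod.mk.injEq]
    exact ⟨by ring, trivial, by ring⟩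

private theorem dg_inv (l m : ℝ) (h : l * m = 1) (h' : m * l = 1) : (dg l m h)⁻¹ = dg m l h' := by
  apply SL_ext <;> simp [dg]

private theorem scale_inv (c : ℝ) (hc : c ≠ 0) (Y : V) : (tr (c • Y))⁻¹ • (c • Y) = (tr Y)⁻¹ • Y := by
  rw [tr_smul, smul_smul, mul_inv, mul_comm c⁻¹, mul_assoc, inv_mul_cancel₀ hc, mul_one]

private theorem sq_lt_one_of {l m : ℝ} (h : l * m = 1) (hl : 1 < l ^ 2) : m ^ 2 < 1 := by
  have h1 : l ^ 2 * m ^ 2 = 1 := by rw [← mul_pow, h, one_pow]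
  have h2 : 0 ≤ m ^ 2 := sq_nonneg m
  nlinarith

private theorem pow_pair {l m : ℝ} (h : l * m = 1) (n : ℕ) : (l ^ 2) ^ n * (m ^ 2) ^ n = 1 := by
  rw [← mul_pow, ← mul_pow, h, one_pow, one_pow]

private theorem conv_p {l m : ℝ} (h : l * m = 1) (hl : 1 < l ^ 2) (x : Bd) (hx : x.1.1 ≠ 0) :
    Tendsto (fun n : ℕ => dg l m h ^ n • x) atTop (𝓝 xp0) := by
  have hm := sq_lt_one_of h hl
  have key : ∀ n : ℕ, (dg l m h ^ n • x).1 =
      (tr ((x.1.1, (m ^ 2) ^ n * x.1.2.1, ((m ^ 2) ^ n) ^ 2 * x.1.2.2) : V))⁻¹ •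
        ((x.1.1, (m ^ 2) ^ n * x.1.2.1, ((m ^ 2) ^ n) ^ 2 * x.1.2.2) : V) := by
    intro n
    have hp := pow_pair h n
    have hL : (l ^ 2) ^ n ≠ 0 := left_ne_zero_of_mul_eq_one hp
    have e : (((l ^ 2) ^ n * x.1.1, x.1.2.1, (m ^ 2) ^ n * x.1.2.2) : V) =
        (l ^ 2) ^ n • ((x.1.1, (m ^ 2) ^ n * x.1.2.1, ((m ^ 2) ^ n) ^ 2 * x.1.2.2) : V) := by
      simp only [Prod.smul_mk, smul_eq_mul, Prod.mk.injEq]
      refine ⟨trivial, ?_, ?_⟩
      · linear_combination (-x.1.2.1) * hp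
      · linear_combination (-(m ^ 2) ^ n * x.1.2.2) * hp
    rw [smul_val, act_dg_pow, e, scale_inv _ hL]
  have hF : ContinuousAt (fun ρ : ℝ => (tr ((x.1.1, ρ * x.1.2.1, ρ ^ 2 * x.1.2.2) : V))⁻¹ •
      ((x.1.1, ρ * x.1.2.1, ρ ^ 2 * x.1.2.2) : V)) 0 := by
    have h1 : Continuous (fun ρ : ℝ => ((x.1.1, ρ * x.1.2.1, ρ ^ 2 * x.1.2.2) : V)) := by
      fun_prop
    have hA := (continuous_tr.comp h1).continuousAt (x := 0)
    exact (hA.inv₀ (by simp [tr, hx])).smul h1.continuousAt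
  have hlim : Tendsto (fun n : ℕ => (m ^ 2) ^ n) atTop (𝓝 0) :=
    tendsto_pow_atTop_nhds_zero_of_lt_one (sq_nonneg m) hm
  have h2 := hF.tendsto.comp hlim
  have h3 : (tr ((x.1.1, 0 * x.1.2.1, 0 ^ 2 * x.1.2.2) : V))⁻¹ •
      ((x.1.1, 0 * x.1.2.1, 0 ^ 2 * x.1.2.2) : V) = xp0.1 := by
    have : xp0.1 = ((1:ℝ), (0:ℝ), (0:ℝ)) := rfl
    rw [this]
    simp [tr, hx]
  rw [h3] at h2
  have h4 : Tendsto (fun n : ℕ => (dg l m h ^ n • x).1) atTop (𝓝 xp0.1) := by
    refine h2.congr ?_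
    intro n
    exact (key n).symm
  exact tendsto_subtype_rng.mpr h4

private theorem conv_m {l m : ℝ} (h : l * m = 1) (hl : 1 < l ^ 2) (x : Bd) (hx : x.1.2.2 ≠ 0) :
    Tendsto (fun n : ℕ => (dg l m h)⁻¹ ^ n • x) atTop (𝓝 xm0) := by
  have hm := sq_lt_one_of h hl
  have h' : m * l = 1 := by rw [mul_comm]; exact h
  rw [dg_inv l m h h']
  have key : ∀ n : ℕ, (dg m l h' ^ n • x).1 =
      (tr ((((m ^ 2) ^ n) ^ 2 * x.1.1, (m ^ 2) ^ n * x.1.2.1, x.1.2.2) : V))⁻¹ •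
        ((((m ^ 2) ^ n) ^ 2 * x.1.1, (m ^ 2) ^ n * x.1.2.1, x.1.2.2) : V) := by
    intro n
    have hp := pow_pair h n
    have hL : (l ^ 2) ^ n ≠ 0 := left_ne_zero_of_mul_eq_one hp
    have e : (((m ^ 2) ^ n * x.1.1, x.1.2.1, (l ^ 2) ^ n * x.1.2.2) : V) =
        (l ^ 2) ^ n • ((((m ^ 2) ^ n) ^ 2 * x.1.1, (m ^ 2) ^ n * x.1.2.1, x.1.2.2) : V) := by
      simp only [Prod.smul_mk, smul_eq_mul, Prod.mk.injEq]
      refine ⟨?_, ?_, trivial⟩
      · linear_combination (-(m ^ 2) ^ n * x.1.1) * hp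
      · linear_combination (-x.1.2.1) * hp
    rw [smul_val, act_dg_pow, e, scale_inv _ hL]
  have hF : ContinuousAt (fun ρ : ℝ => (tr ((ρ ^ 2 * x.1.1, ρ * x.1.2.1, x.1.2.2) : V))⁻¹ •
      ((ρ ^ 2 * x.1.1, ρ * x.1.2.1, x.1.2.2) : V)) 0 := by
    have h1 : Continuous (fun ρ : ℝ => ((ρ ^ 2 * x.1.1, ρ * x.1.2.1, x.1.2.2) : V)) := by
      fun_prop
    have hA := (continuous_tr.comp h1).continuousAt (x := 0)
    exact (hA.inv₀ (by simp [tr, hx])).smul h1.continuousAt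
  have hlim : Tendsto (fun n : ℕ => (m ^ 2) ^ n) atTop (𝓝 0) :=
    tendsto_pow_atTop_nhds_zero_of_lt_one (sq_nonneg m) hm
  have h2 := hF.tendsto.comp hlim
  have h3 : (tr ((0 ^ 2 * x.1.1, 0 * x.1.2.1, x.1.2.2) : V))⁻¹ •
      ((0 ^ 2 * x.1.1, 0 * x.1.2.1, x.1.2.2) : V) = xm0.1 := by
    have : xm0.1 = ((0:ℝ), (0:ℝ), (1:ℝ)) := rfl
    rw [this]
    simp [tr, hx]
  rw [h3] at h2
  have h4 : Tendsto (fun n : ℕ => (dg m l h' ^ n • x).1) atTop (𝓝 xm0.1) := by
    refine h2.congr ?_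
    intro n
    exact (key n).symm
  exact tendsto_subtype_rng.mpr h4

private theorem dg_fix {l m : ℝ} (h : l * m = 1) (hl : 1 < l ^ 2) (x : Bd) :
    dg l m h • x = x ↔ x = xp0 ∨ x = xm0 := by
  have hm := sq_lt_one_of h hl
  have hl0 : l ≠ 0 := left_ne_zero_of_mul_eq_one h
  have hm0 : m ≠ 0 := right_ne_zero_of_mul_eq_one h
  constructor
  · intro hx
    have h1 := congrArg Subtype.val hx
    rw [smul_val] at h1
    have hT := Bd_tr_act_pos (dg l m h) x
    obtain ⟨T, hTd⟩ : ∃ T, T = tr (act (dg l m h) x.1) := ⟨_, rfl⟩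
    rw [← hTd] at h1 hT
    have h2 : act (dg l m h) x.1 = T • x.1 := by
      conv_rhs => rw [← h1]
      rw [smul_smul, mul_inv_cancel₀ hT.ne', one_smul]
    rw [act_dg] at h2
    have h3 : l ^ 2 * x.1.1 = T * x.1.1 := congrArg (fun v : V => v.1) h2
    have h4 : m ^ 2 * x.1.2.2 = T * x.1.2.2 := congrArg (fun v : V => v.2.2) h2
    by_cases h5 : x.1.1 = 0
    · exact Or.inr (eq_xm0 h5)
    · by_cases h6 : x.1.2.2 = 0
      · exact Or.inl (eq_xp0 h6)
      · have h7 := mul_right_cancel₀ h5 h3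
        have h8 := mul_right_cancel₀ h6 h4
        rw [← h7] at h8
        linarith
  · rintro (rfl | rfl)
    · apply Bd.ext
      rw [smul_val, act_dg]
      have : xp0.1 = ((1:ℝ), (0:ℝ), (0:ℝ)) := rfl
      rw [this]
      simp [tr, hl0]
    · apply Bd.ext
      rw [smul_val, act_dg]
      have : xm0.1 = ((0:ℝ), (0:ℝ), (1:ℝ)) := rfl
      rw [this]
      simp [tr, hm0]

private theorem dg_W {l m : ℝ} (h : l * m = 1) (hl : 1 < l ^ 2) (x : Bd) :
    B x.1 (W (dg l m h)) = 0 ↔ x = xp0 ∨ x = xm0 := by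
  have hne : l - m ≠ 0 := by
    intro h0
    have : l = m := by linarith
    rw [← this, ← pow_two] at h
    linarith
  have e : B x.1 (W (dg l m h)) = -(x.1.2.1 * ((l - m) / 2)) := by
    unfold B W dg
    simp only [ea_mk4, eb_mk4, ec_mk4, ed_mk4]
    ring
  obtain ⟨h1, h2⟩ := Bd_eqs x
  rw [e]
  constructor
  · intro h3
    have h4 : x.1.2.1 = 0 := by
      have h5 : x.1.2.1 * ((l - m) / 2) = 0 := by linarith
      rcases mul_eq_zero.mp h5 with h6 | h6
      · exact h6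
      · exfalso
        apply hne
        linarith
    rw [h4] at h2
    have h5 : x.1.1 * x.1.2.2 = 0 := by rw [h2]; ring
    rcases mul_eq_zero.mp h5 with h6 | h6
    · exact Or.inr (eq_xm0 h6)
    · exact Or.inl (eq_xp0 h6)
  · rintro (rfl | rfl)
    · have : xp0.1 = ((1:ℝ), (0:ℝ), (0:ℝ)) := rfl
      rw [this]
      simp
    · have : xm0.1 = ((0:ℝ), (0:ℝ), (1:ℝ)) := rfl
      rw [this]
      simp

private theorem xp0_ne_xm0 : xp0 ≠ xm0 := by
  intro h
  have h1 : xp0.1.1 = xm0.1.1 := by rw [h]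
  have h2 : xp0.1.1 = 1 := rfl
  have h3 : xm0.1.1 = 0 := rfl
  rw [h2, h3] at h1
  exact one_ne_zero h1

private theorem exists_roots {t : ℝ} (ht : 2 < |t|) : ∃ l m : ℝ, l + m = t ∧ l * m = 1 ∧ 1 < l ^ 2 := by
  have h4 : 4 < t ^ 2 := by
    have : (2 : ℝ) ^ 2 < |t| ^ 2 := by
      apply pow_lt_pow_left₀ ht (by norm_num) (by norm_num)
    rw [sq_abs] at this
    linarith
  obtain ⟨s, hs⟩ : ∃ s, s = Real.sqrt (t ^ 2 - 4) := ⟨_, rfl⟩
  have hs0 : 0 < s := by rw [hs]; exact Real.sqrt_pos.mpr (by linarith)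
  have hs2 : s ^ 2 = t ^ 2 - 4 := by rw [hs]; exact Real.sq_sqrt (by linarith)
  rcases lt_abs.mp ht with h | h
  · exact ⟨(t + s) / 2, (t - s) / 2, by ring, by nlinarith, by nlinarith⟩
  · exact ⟨(t - s) / 2, (t + s) / 2, by ring, by nlinarith, by nlinarith⟩

/-- eigenvector of a root of the characteristic polynomial -/
private theorem exists_eig (g : SL) {l m : ℝ} (h1 : l + m = ea g + ed g) (h2 : l * m = 1) :
    ∃ x y : ℝ, ¬ (x = 0 ∧ y = 0) ∧ ea g * x + eb g * y = l * x ∧ ec g * x + ed g * y = l * y := by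
  have hd := det_eq g
  have hl : (ea g - l) * (ed g - l) = eb g * ec g := by
    have : l ^ 2 - (ea g + ed g) * l + 1 = 0 := by
      rw [← h1]
      linear_combination -h2
    linear_combination this + hd
  by_cases hb : eb g = 0
  · by_cases hc : ec g = 0
    · rw [hb, zero_mul] at hl
      rcases mul_eq_zero.mp hl with h | h
      · refine ⟨1, 0, by simp, ?_, ?_⟩
        · rw [hb]; linarith
        · rw [hc]; ring
      · refine ⟨0, 1, by simp, ?_, ?_⟩
        · rw [hb]; ring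
        · rw [hc]; linarith
    · refine ⟨l - ed g, ec g, fun h => hc h.2, ?_, ?_⟩
      · linear_combination -hl
      · ring
  · refine ⟨eb g, l - ea g, fun h => hb h.1, ?_, ?_⟩
    · ring
    · linear_combination -hl

/-- diagonalisation -/
private theorem exists_diag (g : SL) {l m : ℝ} (h1 : l + m = ea g + ed g) (h2 : l * m = 1) (hne : l ≠ m) :
    ∃ p : SL, g = p * dg l m h2 * p⁻¹ := by
  obtain ⟨x, y, hxy, e1, e2⟩ := exists_eig g h1 h2
  obtain ⟨z, w, hzw, e3, e4⟩ := exists_eig g (l := m) (m := l) (by rw [add_comm]; exact h1)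
    (by rw [mul_comm]; exact h2)
  have hlm : l - m ≠ 0 := sub_ne_zero.mpr hne
  have hD : x * w - y * z ≠ 0 := by
    intro h0
    have a1 : x * z = 0 := by
      have : (l - m) * (x * z) = 0 := by
        linear_combination (-z) * e1 + x * e3 - eb g * h0
      rcases mul_eq_zero.mp this with h | h
      · exact absurd h hlm
      · exact h
    have a2 : y * w = 0 := by
      have : (l - m) * (y * w) = 0 := by
        linear_combination (-w) * e2 + y * e4 + ec g * h0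
      rcases mul_eq_zero.mp this with h | h
      · exact absurd h hlm
      · exact h
    have b1 : (l - m - ea g + ed g) * (x * w) = 0 := by
      linear_combination (-w) * e1 + x * e4 + eb g * a2 - ec g * a1
    have b2 : (l - m + ea g - ed g) * (y * z) = 0 := by
      linear_combination (-z) * e2 + y * e3 + ec g * a1 - eb g * a2
    have a3 : x * w = 0 := by
      have : (l - m) * (x * w) = 0 := by
        have h3 : y * z = x * w := by linarith
        rw [h3] at b2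
        linarith
      rcases mul_eq_zero.mp this with h | h
      · exact absurd h hlm
      · exact h
    have a4 : y * z = 0 := by linarith
    rcases mul_eq_zero.mp a1 with h | h
    · rcases mul_eq_zero.mp a2 with h' | h'
      · exact hxy ⟨h, h'⟩
      · rcases mul_eq_zero.mp a4 with h'' | h''
        · exact hxy ⟨h, h''⟩
        · exact hzw ⟨h'', h'⟩
    · rcases mul_eq_zero.mp a2 with h' | h'
      · rcases mul_eq_zero.mp a3 with h'' | h''
        · exact hxy ⟨h'', h'⟩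
        · exact hzw ⟨h, h''⟩
      · exact hzw ⟨h, h'⟩
  obtain ⟨Δ, hΔ⟩ : ∃ Δ, Δ = x * w - y * z := ⟨_, rfl⟩
  rw [← hΔ] at hD
  have hdet : (x / Δ) * w - z * (y / Δ) = 1 := by
    have : (x / Δ) * w - z * (y / Δ) = (x * w - y * z) / Δ := by ring
    rw [this, ← hΔ, div_self hD]
  refine ⟨mk4 (x / Δ) z (y / Δ) w hdet, ?_⟩
  rw [eq_mul_inv_iff_mul_eq]
  apply SL_ext
  · simp only [ea_mul, ea_mk4, ec_mk4, dg, eb_mk4]
    linear_combination e1 / Δ
  · simp only [eb_mul, eb_mk4, ed_mk4, dg, ea_mk4]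
    linear_combination e3
  · simp only [ec_mul, ea_mk4, ec_mk4, dg, ed_mk4]
    linear_combination e2 / Δ
  · simp only [ed_mul, eb_mk4, ed_mk4, dg, ec_mk4]
    linear_combination e4

/-- north-south dynamics of a hyperbolic element on the boundary -/
theorem hyp_fix {g : SL} (hg : 2 < |ea g + ed g|) : ∃ xp xm : Bd, xp ≠ xm ∧
    (∀ x : Bd, g • x = x ↔ x = xp ∨ x = xm) ∧ (∀ x : Bd, B x.1 (W g) = 0 ↔ x = xp ∨ x = xm) ∧
    (∀ x : Bd, x ≠ xm → Tendsto (fun n : ℕ => g ^ n • x) atTop (𝓝 xp)) ∧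
    (∀ x : Bd, x ≠ xp → Tendsto (fun n : ℕ => (g⁻¹) ^ n • x) atTop (𝓝 xm)) := by
  obtain ⟨l, m, h1, h2, hl⟩ := exists_roots hg
  have hne : l ≠ m := by
    rintro rfl
    rw [← pow_two] at h2
    linarith
  obtain ⟨p, rfl⟩ := exists_diag g h1 h2 hne
  have hpx : ∀ x y : Bd, p⁻¹ • x = y ↔ x = p • y := by
    intro x y
    rw [inv_smul_eq_iff]
  refine ⟨p • xp0, p • xm0, ?_, ?_, ?_, ?_, ?_⟩
  · intro h
    exact xp0_ne_xm0 (MulAction.injective p h)
  · intro x
    rw [← hpx, ← hpx, ← dg_fix h2 hl, mul_smul, mul_smul, eq_comm, ← inv_smul_eq_iff, eq_comm]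
  · intro x
    rw [← hpx, ← hpx, ← dg_W h2 hl, W_conj, B_smul_sign, inv_inv]
    have h3 := (Bd_tr_act_pos p⁻¹ x).ne'
    constructor
    · intro h
      rw [h, mul_zero]
    · intro h
      rcases mul_eq_zero.mp h with h' | h'
      · exact absurd h' (inv_ne_zero h3)
      · exact h'
  · intro x hx
    have h3 : (p⁻¹ • x).1.1 ≠ 0 := by
      intro h0
      exact hx ((hpx x xm0).mp (eq_xm0 h0))
    have h4 := conv_p h2 hl (p⁻¹ • x) h3
    have h5 := ((continuous_smul' p).tendsto xp0).comp h4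
    refine h5.congr ?_
    intro n
    show p • (dg l m h2 ^ n • (p⁻¹ • x)) = (p * dg l m h2 * p⁻¹) ^ n • x
    rw [conj_pow, mul_smul, mul_smul]
  · intro x hx
    have h3 : (p⁻¹ • x).1.2.2 ≠ 0 := by
      intro h0
      exact hx ((hpx x xp0).mp (eq_xp0 h0))
    have h4 := conv_m h2 hl (p⁻¹ • x) h3
    have h5 := ((continuous_smul' p).tendsto xm0).comp h4
    refine h5.congr ?_
    intro n
    show p • ((dg l m h2)⁻¹ ^ n • (p⁻¹ • x)) = ((p * dg l m h2 * p⁻¹)⁻¹) ^ n • x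
    have h6 : (p * dg l m h2 * p⁻¹)⁻¹ = p * (dg l m h2)⁻¹ * p⁻¹ := by group
    rw [h6, conj_pow, mul_smul, mul_smul]



end Pool.Agent.SCD
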