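import Mathlib
import Pool.Agent.SCD.Basic
import Pool.Agent.SCD.L_comm_of_fix
import Pool.Agent.SCD.L_hyp_fix

set_option autoImplicit false

namespace Pool.Agent.SCD

open Filter Topology Set


private theorem par_aux (p q r s p' q' r' s' : ℝ) (d : p * s - q * r = 1) (d' : p' * s' - q' * r' = 1)
    (T : p + s = p' + s') (ht : 4 < (p + s) ^ 2) (c1 : q * r' = q' * r)
    (c2 : p * q' + q * s' = p' * q + q' * s) (c3 : r * p' + s * r' = r' * p + s' * r) :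
    (p = p' ∧ q = q' ∧ r = r' ∧ s = s') ∨ (p' = s ∧ q' = -q ∧ r' = -r ∧ s' = p) := by
  have e2 : q * (p' - s') = q' * (p - s) := by linear_combination -c2
  have e3 : r * (p' - s') = r' * (p - s) := by linear_combination c3
  have hk : (p - s) ^ 2 + 4 * q * r = (p + s) ^ 2 - 4 := by linear_combination -4 * d
  have hk' : (p' - s') ^ 2 + 4 * q' * r' = (p' + s') ^ 2 - 4 := by linear_combination -4 * d'
  obtain ⟨κ, hκ⟩ : ∃ κ, κ = (p - s) ^ 2 + 4 * q * r := ⟨_, rfl⟩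
  obtain ⟨S, hS⟩ : ∃ S, S = (p - s) * (p' - s') + 4 * q * r' := ⟨_, rfl⟩
  have hκ' : κ = (p' - s') ^ 2 + 4 * q' * r' := by rw [hκ, hk, hk', T]
  have hκ0 : 0 < κ := by rw [hκ, hk]; linarith
  have hq : κ * q' = q * S := by
    rw [hκ, hS]; linear_combination (-(p - s)) * e2 - 4 * q * c1
  have hr : κ * r' = r * S := by
    rw [hκ, hS]; linear_combination (-(p - s)) * e3
  have hD : κ * (p' - s') = (p - s) * S := by
    rw [hκ, hS]; linear_combination 4 * q * e3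
  have hSS : S ^ 2 = κ * κ := by
    nth_rewrite 2 [hκ']
    rw [hκ, hS]
    linear_combination 4 * (p - s) * r' * e2 - 4 * q * (p' - s') * e3 + 16 * q * r' * c1
  have h0 : (S - κ) * (S + κ) = 0 := by linear_combination hSS
  rcases mul_eq_zero.1 h0 with h | h
  · have hSk : S = κ := by linarith
    rw [hSk] at hq hr hD
    have e1 : q' = q := mul_left_cancel₀ hκ0.ne' (by rw [hq]; ring)
    have e2 : r' = r := mul_left_cancel₀ hκ0.ne' (by rw [hr]; ring)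
    have e3 : p' - s' = p - s := mul_left_cancel₀ hκ0.ne' (by rw [hD]; ring)
    left
    exact ⟨by linarith, e1.symm, e2.symm, by linarith⟩
  · have hSk : S = -κ := by linarith
    rw [hSk] at hq hr hD
    have e1 : q' = -q := mul_left_cancel₀ hκ0.ne' (by rw [hq]; ring)
    have e2 : r' = -r := mul_left_cancel₀ hκ0.ne' (by rw [hr]; ring)
    have e3 : p' - s' = -(p - s) := mul_left_cancel₀ hκ0.ne' (by rw [hD]; ring)
    right
    exact ⟨by linarith, e1, e2, by linarith⟩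

private theorem sq_gt_of_abs {t : ℝ} (h : 2 < |t|) : 4 < t ^ 2 := by
  rw [← sq_abs]; nlinarith

theorem cj_mem {Γ : Subgroup SL} {γ : SL} (hγ : γ ∈ Γ) {δ : SL} (h : δ ∈ Cj Γ γ) : δ ∈ Γ := by
  obtain ⟨g, hg, rfl⟩ := h
  exact Γ.mul_mem (Γ.mul_mem hg hγ) (Γ.inv_mem hg)
theorem cj_self (Γ : Subgroup SL) (γ : SL) : γ ∈ Cj Γ γ := by
  exact ⟨1, Γ.one_mem, by group⟩
theorem cj_conj {Γ : Subgroup SL} {γ δ g : SL} (hg : g ∈ Γ) (h : δ ∈ Cj Γ γ) :
    g * δ * g⁻¹ ∈ Cj Γ γ := by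
  obtain ⟨g', hg', rfl⟩ := h
  exact ⟨g * g', Γ.mul_mem hg hg', by group⟩
theorem cj_tr {Γ : Subgroup SL} {γ δ : SL} (h : δ ∈ Cj Γ γ) : ea δ + ed δ = ea γ + ed γ := by
  obtain ⟨g, hg, rfl⟩ := h
  have hd := det_eq g
  simp only [ea_mul, eb_mul, ec_mul, ed_mul, ea_inv, eb_inv, ec_inv, ed_inv]
  linear_combination (ea γ + ed γ) * hd
theorem cj_BW {Γ : Subgroup SL} (hΓ : Good Γ) {γ : SL} (hγ : γ ∈ Γ) (h1 : γ ≠ 1) {δ : SL}
    (h : δ ∈ Cj Γ γ) : B (W δ) (W δ) < 0 := by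
  rw [B_W, cj_tr h]
  have := sq_gt_of_abs (hΓ.hyp γ hγ h1)
  linarith
theorem cj_ne_inv {Γ : Subgroup SL} (hΓ : Good Γ) {γ : SL} (hγ : γ ∈ Γ) (h1 : γ ≠ 1) {δ δ' : SL}
    (h : δ ∈ Cj Γ γ) (h' : δ' ∈ Cj Γ γ) : δ' ≠ δ⁻¹ := by
  intro he
  have hyp := sq_gt_of_abs (hΓ.hyp γ hγ h1)
  rw [← cj_tr h] at hyp
  obtain ⟨g, hg, hgδ⟩ := h
  obtain ⟨g', hg', hgδ'⟩ := h'
  have hh : (g' * g⁻¹) * δ = δ⁻¹ * (g' * g⁻¹) := by
    rw [← he, hgδ, hgδ']; group
  have hhΓ : g' * g⁻¹ ∈ Γ := Γ.mul_mem hg' (Γ.inv_mem hg)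
  generalize g' * g⁻¹ = k at hh hhΓ
  have c1 := congrArg ea hh
  have c2 := congrArg eb hh
  have c3 := congrArg ec hh
  have c4 := congrArg ed hh
  simp only [ea_mul, eb_mul, ec_mul, ed_mul, ea_inv, eb_inv, ec_inv, ed_inv] at c1 c2 c3 c4
  have hdδ := det_eq δ
  have k2 : (ea k + ed k) * eb δ = 0 := by linear_combination c2
  have k3 : (ea k + ed k) * ec δ = 0 := by linear_combination c3
  have k1 : (ea k + ed k) * (ea δ - ed δ) = 0 := by linear_combination c1 - c4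
  have htk : ea k + ed k = 0 := by
    by_contra hne
    have q0 : eb δ = 0 := (mul_eq_zero.1 k2).resolve_left hne
    have r0 : ec δ = 0 := (mul_eq_zero.1 k3).resolve_left hne
    have d0 : ea δ - ed δ = 0 := (mul_eq_zero.1 k1).resolve_left hne
    rw [q0] at hdδ
    have e1 : ea δ = ed δ := by linarith
    rw [e1] at hdδ hyp
    nlinarith
  have hk1 : k ≠ 1 := by
    rintro rfl
    rw [ea_one, ed_one] at htk
    norm_num at htk
  have := hΓ.hyp k hhΓ hk1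
  rw [htk, abs_zero] at this
  linarith
/-- conjugates with proportional walls are equal -/
theorem cj_wall {Γ : Subgroup SL} (hΓ : Good Γ) {γ : SL} (hγ : γ ∈ Γ) (h1 : γ ≠ 1) {δ δ' : SL}
    (h : δ ∈ Cj Γ γ) (h' : δ' ∈ Cj Γ γ) (x : Bd) (hx : B x.1 (W δ) = 0) (hx' : B x.1 (W δ') = 0) :
    δ = δ' := by
  have hyp := hΓ.hyp γ hγ h1
  have hδ : 2 < |ea δ + ed δ| := by rw [cj_tr h]; exact hyp
  have hδ' : 2 < |ea δ' + ed δ'| := by rw [cj_tr h']; exact hyp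
  obtain ⟨xp, xm, -, hf, hB, -, -⟩ := hyp_fix hδ
  obtain ⟨yp, ym, -, hf', hB', -, -⟩ := hyp_fix hδ'
  have hfix : δ • x = x := (hf x).2 ((hB x).1 hx)
  have hfix' : δ' • x = x := (hf' x).2 ((hB' x).1 hx')
  have hδ1 : δ ≠ 1 := by
    rintro rfl
    rw [ea_one, ed_one] at hδ
    norm_num at hδ
  have hc := comm_of_fix hΓ (cj_mem hγ h) (cj_mem hγ h') hδ1 x hfix hfix'
  have c1 := congrArg ea hc
  have c2 := congrArg eb hc
  have c3 := congrArg ec hc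
  simp only [ea_mul, eb_mul, ec_mul, ed_mul] at c1 c2 c3
  have T : ea δ + ed δ = ea δ' + ed δ' := by rw [cj_tr h, cj_tr h']
  rcases par_aux (ea δ) (eb δ) (ec δ) (ed δ) (ea δ') (eb δ') (ec δ') (ed δ') (det_eq δ)
    (det_eq δ') T (sq_gt_of_abs hδ) (by linear_combination c1) (by linear_combination c2)
    (by linear_combination c3) with ⟨e1, e2, e3, e4⟩ | ⟨e1, e2, e3, e4⟩
  · exact SL_ext e1 e2 e3 e4
  · exfalso
    refine cj_ne_inv hΓ hγ h1 h h' ?_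
    apply SL_ext
    · rw [ea_inv]; exact e1
    · rw [eb_inv]; exact e2
    · rw [ec_inv]; exact e3
    · rw [ed_inv]; exact e4



end Pool.Agent.SCD
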