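import Mathlib
import Pool.Agent.SCD.Basic
import Pool.Agent.SCD.L_B_pos

set_option autoImplicit false

namespace Pool.Agent.SCD

open Filter Topology Set


private theorem exists_sub_I0 {X : V} (hX : X ∈ Cone) : ∃ c : ℝ, 0 < c ∧ X - c • I0 ∈ Cone := by
  have hc : Continuous (fun c : ℝ => X - c • I0) := by fun_prop
  have h0 : (fun c : ℝ => X - c • I0) ⁻¹' Cone ∈ 𝓝 (0 : ℝ) := by
    apply (isOpen_Cone.preimage hc).mem_nhds
    simpa using hX
  obtain ⟨ε, hε, hb⟩ := Metric.mem_nhds_iff.mp h0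
  have hε2 : 0 < ε / 2 := by linarith
  refine ⟨ε / 2, hε2, hb ?_⟩
  rw [Metric.mem_ball, Real.dist_eq, sub_zero, abs_of_pos hε2]
  linarith

theorem B_lower {q P : V} (hq : q ∈ Cone) (hP : P ∈ Cone) : ∃ c > 0, ∃ r > 0,
    Metric.ball q r ⊆ Cone ∧ ∀ y ∈ Metric.ball q r, ∀ g : SL, c * N g ≤ B y (act g P) := by
  obtain ⟨c1, hc1, h1⟩ := exists_sub_I0 hP
  obtain ⟨c2, hc2, h2⟩ := exists_sub_I0 hq
  have hc : Continuous (fun y : V => y - c2 • I0) := by fun_prop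
  have hn : Cone ∩ (fun y : V => y - c2 • I0) ⁻¹' Cone ∈ 𝓝 q :=
    (isOpen_Cone.inter (isOpen_Cone.preimage hc)).mem_nhds ⟨hq, h2⟩
  obtain ⟨r, hr, hb⟩ := Metric.mem_nhds_iff.mp hn
  refine ⟨c1 * c2 / 2, by positivity, r, hr, fun y hy => (hb hy).1, fun y hy g => ?_⟩
  have hy1 : y ∈ Cone := (hb hy).1
  have hy2 : y - c2 • I0 ∈ Cone := (hb hy).2
  have k1 : act g (P - c1 • I0) ∈ Cone := act_mem_Cone g h1
  have k2 : 0 < B y (act g (P - c1 • I0)) := B_pos hy1 (Cone_tr_pos k1) k1.2.le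
  have k3 : act g I0 ∈ Cone := act_mem_Cone g I0_mem
  have k4 : 0 < B (y - c2 • I0) (act g I0) := B_pos hy2 (Cone_tr_pos k3) k3.2.le
  have k5 : B I0 (act g I0) = N g / 2 := by
    rw [B_comm, B_I0, tr_act_I0]
  rw [act_sub, act_smul, B_sub_right, B_smul_right] at k2
  rw [B_sub_left, B_smul_left, k5] at k4
  have k6 : c1 * (c2 * (N g / 2)) ≤ c1 * B y (act g I0) :=
    mul_le_mul_of_nonneg_left (by linarith) hc1.le
  nlinarith



end Pool.Agent.SCD
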