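import Mathlib
import Pool.Agent.SCD.Basic
import Pool.Agent.SCD.L_B_pos
import Pool.Agent.SCD.L_B_lower
import Pool.Agent.SCD.L_cj_basic

set_option autoImplicit false

namespace Pool.Agent.SCD

open Filter Topology Set


private theorem wall_aux_pos {X Y : V} (hX : X ∈ Cone) (hY : Y ∈ Cone) : 0 < B X Y :=
  B_pos hX (Cone_tr_pos hY) hY.2.le

private theorem wall_aux_smul {X : V} (hX : X ∈ Cone) {r : ℝ} (hr : 0 < r) : r • X ∈ Cone := by
  refine ⟨?_, ?_⟩
  · show 0 < r * X.1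
    exact mul_pos hr hX.1
  · rw [B_smul_left, B_smul_right]
    exact mul_pos hr (mul_pos hr hX.2)

theorem wall_locfin {Γ : Subgroup SL} (hΓ : Good Γ) {γ : SL} (hγ : γ ∈ Γ) (h1 : γ ≠ 1) {q : V}
    (hq : q ∈ Cone) : ∃ r > 0, Metric.ball q r ⊆ Cone ∧ ∀ δ ∈ Cj Γ γ, B q (W δ) ≠ 0 →
      ∀ y ∈ Metric.ball q r, 0 < B q (W δ) * B y (W δ) := by
  have hq2 : (1 / 2 : ℝ) • q ∈ Cone := wall_aux_smul hq (by norm_num)
  obtain ⟨c, hc, r1, hr1, hb1, hlow⟩ := B_lower hq hq2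
  have ho : ∀ᶠ y in 𝓝 q, y - (1 / 2 : ℝ) • q ∈ Cone := by
    have hcont : Continuous (fun y : V => y - (1 / 2 : ℝ) • q) := by fun_prop
    refine hcont.continuousAt.eventually (isOpen_Cone.mem_nhds ?_)
    have : q - (1 / 2 : ℝ) • q = (1 / 2 : ℝ) • q := by
      nth_rewrite 1 [← one_smul ℝ q]
      rw [← sub_smul]
      norm_num
    show q - (1 / 2 : ℝ) • q ∈ Cone
    rw [this]
    exact hq2
  have hB : ∀ᶠ y in 𝓝 q, B y y < B q q + 1 :=
    (continuous_BB.tendsto q).eventually_lt_const (by linarith)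
  obtain ⟨t, ht⟩ : ∃ t, t = ea γ + ed γ := ⟨_, rfl⟩
  have ht4 : 4 < t ^ 2 := by
    have h2 := hΓ.hyp γ hγ h1
    rw [← ht] at h2
    rw [← sq_abs]
    nlinarith
  obtain ⟨K, hK⟩ : ∃ K, K = (t ^ 2 / 2 - 1) * (B q q + 1) / c := ⟨_, rfl⟩
  have hF := hΓ.disc K
  have hfin : ∀ᶠ y in 𝓝 q, ∀ δ ∈ {g : SL | g ∈ Γ ∧ N g ≤ K},
      B q (W δ) ≠ 0 → 0 < B q (W δ) * B y (W δ) := by
    rw [Filter.eventually_all_finite hF]
    intro δ hδ
    by_cases h : B q (W δ) = 0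
    · exact Filter.Eventually.of_forall fun y h' => absurd h h'
    · have hcont : Continuous (fun y => B q (W δ) * B y (W δ)) :=
        continuous_const.mul (continuous_B (W δ))
      filter_upwards [(hcont.tendsto q).eventually_const_lt
        (show 0 < B q (W δ) * B q (W δ) from mul_self_pos.2 h)] with y hy _ using hy
  obtain ⟨r2, hr2, hr2'⟩ := Metric.eventually_nhds_iff_ball.1 (ho.and (hB.and hfin))
  refine ⟨min r1 r2, lt_min hr1 hr2, (Metric.ball_subset_ball (min_le_left _ _)).trans hb1, ?_⟩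
  intro δ hδ hne y hy
  have hy2 : y ∈ Metric.ball q r2 := Metric.ball_subset_ball (min_le_right _ _) hy
  by_cases hN : N δ ≤ K
  · exact (hr2' y hy2).2.2 δ ⟨cj_mem hγ hδ, hN⟩ hne
  · by_contra hcon
    push Not at hcon
    obtain ⟨z, hz, hz0⟩ : ∃ z ∈ Metric.ball q (min r1 r2), B q (W δ) * B z (W δ) = 0 := by
      have hpre := (convex_ball q (min r1 r2)).isPreconnected
      have hcont : Continuous (fun y => B q (W δ) * B y (W δ)) :=
        continuous_const.mul (continuous_B (W δ))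
      have hiv := hpre.intermediate_value hy (Metric.mem_ball_self (lt_min hr1 hr2))
        (f := fun y => B q (W δ) * B y (W δ)) hcont.continuousOn
      have h3 := hiv (a := (0 : ℝ)) ⟨hcon, (mul_self_pos.2 hne).le⟩
      obtain ⟨z, hz, hz'⟩ := h3
      exact ⟨z, hz, hz'⟩
    have hzW : B z (W δ) = 0 := by
      rcases mul_eq_zero.1 hz0 with h | h
      · exact absurd h hne
      · exact h
    have hz1 : z ∈ Metric.ball q r1 := Metric.ball_subset_ball (min_le_left _ _) hz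
    have hz2 : z ∈ Metric.ball q r2 := Metric.ball_subset_ball (min_le_right _ _) hz
    have hzC := (hr2' z hz2).1
    have hzB := (hr2' z hz2).2.1
    have e1 := B_self_act δ z
    rw [cj_tr hδ, hzW, ← ht] at e1
    have e2 : act δ z = act δ ((1 / 2 : ℝ) • q) + act δ (z - (1 / 2 : ℝ) • q) := by
      rw [← act_add, add_sub_cancel]
    have e3 := hlow z hz1 δ
    have e4 := wall_aux_pos (hb1 hz1) (act_mem_Cone δ hzC)
    rw [e2, B_add_right] at e1
    apply hN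
    rw [hK, le_div_iff₀ hc]
    have e5 : (t ^ 2 / 2 - 1) * B z z ≤ (t ^ 2 / 2 - 1) * (B q q + 1) :=
      mul_le_mul_of_nonneg_left hzB.le (by linarith)
    have e6 : N δ * c = c * N δ := mul_comm _ _
    have e7 : 2 * (0 : ℝ) ^ 2 = 0 := by norm_num
    rw [e7, add_zero] at e1
    linarith

/-- finitely many walls meet a set of bounded trace -/
theorem wall_fin {Γ : Subgroup SL} (hΓ : Good Γ) {γ : SL} (hγ : γ ∈ Γ) (h1 : γ ≠ 1) (R : ℝ) :
    {δ | δ ∈ Γ ∧ ea δ + ed δ = ea γ + ed γ ∧ ∃ y ∈ Cone, B y y = 1 ∧ B y (W δ) = 0 ∧ tr y ≤ R}.Finite := by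
  obtain ⟨t, ht⟩ : ∃ t, t = ea γ + ed γ := ⟨_, rfl⟩
  refine (hΓ.disc (2 * R ^ 2 * (t ^ 2 / 2 - 1))).subset ?_
  rintro δ ⟨hδ, htr, y, hy, hyy, hyW, hyR⟩
  refine ⟨hδ, ?_⟩
  have htr2 : 2 ≤ tr y := by
    have h2 := Cone_tr_pos hy
    unfold B at hyy
    unfold tr at h2 ⊢
    nlinarith [sq_nonneg (y.1 - y.2.2), sq_nonneg y.2.1]
  have hR2 : 2 ≤ R := htr2.trans hyR
  have hR0 : 0 < R := by linarith
  obtain ⟨z, hz⟩ : ∃ z, z = y - R⁻¹ • I0 := ⟨_, rfl⟩
  have hI0 : B I0 I0 = 1 := by simp [B, I0]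
  have hRi : 0 < R⁻¹ := inv_pos.2 hR0
  have hRi2 : R⁻¹ ≤ 1 / 2 := by
    rw [inv_le_comm₀ hR0 (by norm_num)]
    norm_num
    exact hR2
  have hzB : 0 < B z z := by
    have e1 : B z z = B y y - R⁻¹ * tr y + R⁻¹ ^ 2 := by
      rw [hz, B_sub_left, B_sub_right, B_sub_right, B_smul_left, B_smul_left, B_smul_right,
        B_smul_right, B_comm I0 y, B_I0, hI0]
      ring
    rw [e1, hyy]
    have e2 : R⁻¹ * tr y ≤ R⁻¹ * R := mul_le_mul_of_nonneg_left hyR hRi.le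
    rw [inv_mul_cancel₀ hR0.ne'] at e2
    have e3 : 0 < R⁻¹ ^ 2 := by positivity
    linarith
  have hztr : 0 < tr z := by
    have e1 : tr z = tr y - 2 * R⁻¹ := by
      rw [hz]
      unfold tr I0
      simp only [Prod.fst_sub, Prod.snd_sub, Prod.smul_fst, Prod.smul_snd, smul_eq_mul]
      ring
    rw [e1]
    linarith
  have hzC : z ∈ Cone := by
    refine ⟨?_, hzB⟩
    unfold tr at hztr
    unfold B at hzB
    by_contra hc
    push Not at hc
    nlinarith [sq_nonneg z.2.1, sq_nonneg z.1]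
  have hyz : y = z + R⁻¹ • I0 := by rw [hz, sub_add_cancel]
  have e1 := B_self_act δ y
  rw [htr, hyW, hyy, ← ht] at e1
  have e2 : B y (act δ y) = B z (act δ y) + R⁻¹ * (B I0 (act δ z) + R⁻¹ * (N δ / 2)) := by
    have e3 : B y (act δ y) = B z (act δ y) + R⁻¹ * B I0 (act δ y) := by
      conv_lhs => rw [hyz]
      rw [B_add_left, B_smul_left, ← hyz]
    have e4 : B I0 (act δ y) = B I0 (act δ z) + R⁻¹ * (N δ / 2) := by
      conv_lhs => rw [hyz]
      rw [act_add, act_smul, B_add_right, B_smul_right, B_comm I0 (act δ I0), B_I0, tr_act_I0]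
    rw [e3, e4]
  have e5 : 0 < B z (act δ y) := wall_aux_pos hzC (act_mem_Cone δ hy)
  have e6 : 0 < B I0 (act δ z) := wall_aux_pos I0_mem (act_mem_Cone δ hzC)
  have e7 : R⁻¹ * (R⁻¹ * (N δ / 2)) ≤ t ^ 2 / 2 - 1 := by
    have e8 : 0 < R⁻¹ * B I0 (act δ z) := mul_pos hRi e6
    have e9 : B y (act δ y) = t ^ 2 / 2 - 1 := by
      rw [e1]
      ring
    rw [e9, mul_add] at e2
    linarith
  have e10 : N δ = 2 * R ^ 2 * (R⁻¹ * (R⁻¹ * (N δ / 2))) := by
    field_simp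
  rw [e10]
  exact mul_le_mul_of_nonneg_left e7 (by positivity)



end Pool.Agent.SCD
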