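import Mathlib
import Pool.Agent.SCD.Basic
import Pool.Agent.SCD.L_cj_basic
import Pool.Agent.SCD.L_wall_locfin

set_option autoImplicit false

namespace Pool.Agent.SCD

open Filter Topology Set


private theorem BW_act (g δ : SL) (z : V) : B (act g z) (W δ) = B z (W (g⁻¹ * δ * g)) := by
  have h := W_conj g⁻¹ δ
  rw [inv_inv] at h
  rw [B_act_left, h]

private theorem cj_conj' {Γ : Subgroup SL} {γ δ g : SL} (hg : g ∈ Γ) (h : δ ∈ Cj Γ γ) :
    g⁻¹ * δ * g ∈ Cj Γ γ := by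
  have := cj_conj (Γ.inv_mem hg) h
  rwa [inv_inv] at this

private theorem Cone_B_pos {X Y : V} (hX : X ∈ Cone) (hY : Y ∈ Cone) : 0 < B X Y := by
  have hX3 := Cone_pos22 hX
  have hY3 := Cone_pos22 hY
  obtain ⟨hX1, hX2⟩ := hX
  obtain ⟨hY1, hY2⟩ := hY
  unfold B at *
  have h1 : X.2.1 ^ 2 < X.1 * X.2.2 := by nlinarith
  have h2 : Y.2.1 ^ 2 < Y.1 * Y.2.2 := by nlinarith
  have h3 : (X.2.1 * Y.2.1) ^ 2 < ((X.1 * Y.2.2 + X.2.2 * Y.1) / 2) ^ 2 := by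
    have h4 : (X.2.1 * Y.2.1) ^ 2 < (X.1 * X.2.2) * (Y.1 * Y.2.2) := by
      rw [mul_pow]
      exact mul_lt_mul'' h1 h2 (sq_nonneg _) (sq_nonneg _)
    nlinarith [sq_nonneg (X.1 * Y.2.2 - X.2.2 * Y.1)]
  have h5 : 0 ≤ (X.1 * Y.2.2 + X.2.2 * Y.1) / 2 := by positivity
  have h6 := abs_lt_of_sq_lt_sq h3 h5
  have h7 := le_abs_self (X.2.1 * Y.2.1)
  linarith

private theorem Cone_comb {X Y : V} (hX : X ∈ Cone) (hY : Y ∈ Cone) {a b : ℝ} (ha : 0 < a) (hb : 0 < b) :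
    a • X + b • Y ∈ Cone := by
  have hXY := Cone_B_pos hX hY
  refine ⟨?_, ?_⟩
  · change 0 < a * X.1 + b * Y.1
    have := mul_pos ha hX.1
    have := mul_pos hb hY.1
    linarith
  · rw [B_add_left, B_add_right, B_add_right, B_smul_left, B_smul_right, B_smul_left,
      B_smul_right, B_smul_left, B_smul_right, B_smul_left, B_smul_right, B_comm Y X]
    have h1 := mul_pos (mul_pos ha ha) hX.2
    have h2 := mul_pos (mul_pos hb hb) hY.2
    have h3 := mul_pos (mul_pos ha hb) hXY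
    nlinarith

theorem adj_gn {Γ : Subgroup SL} {γ : SL} {q z : V} {δ : SL} (h : AdjAt Γ γ q δ z) : Gn Γ γ z := by
  refine ⟨h.1, fun δ' hδ' => ?_⟩
  by_cases he : δ' = δ
  · rw [he]
    exact h.2.1
  · intro h0
    have := h.2.2 δ' hδ' he
    rw [h0, mul_zero] at this
    exact lt_irrefl _ this

theorem gn_act {Γ : Subgroup SL} {γ g : SL} (hg : g ∈ Γ) {z : V} (h : Gn Γ γ z) :
    Gn Γ γ (act g z) := by
  refine ⟨act_mem_Cone g h.1, fun δ hδ => ?_⟩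
  rw [BW_act]
  exact h.2 _ (cj_conj' hg hδ)

theorem same_act {Γ : Subgroup SL} {γ g : SL} (hg : g ∈ Γ) {z z' : V} (h : Same Γ γ z z') :
    Same Γ γ (act g z) (act g z') := by
  intro δ hδ
  rw [BW_act, BW_act]
  exact h _ (cj_conj' hg hδ)

theorem adj_act {Γ : Subgroup SL} {γ g : SL} (hg : g ∈ Γ) {q z : V} {δ : SL} (hδ : δ ∈ Cj Γ γ)
    (h : AdjAt Γ γ q δ z) : AdjAt Γ γ (act g q) (g * δ * g⁻¹) (act g z) := by
  refine ⟨act_mem_Cone g h.1, ?_, ?_⟩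
  · rw [BW_act]
    have : g⁻¹ * (g * δ * g⁻¹) * g = δ := by group
    rw [this]
    exact h.2.1
  · intro δ' hδ' hne
    rw [BW_act, BW_act]
    refine h.2.2 _ (cj_conj' hg hδ') ?_
    intro he
    apply hne
    rw [← he]
    group

/-- two points of the same wall are on the same side of every other wall -/
theorem wall_side {Γ : Subgroup SL} {γ : SL} (hD : Disj Γ γ) {δ δ' : SL} (hδ : δ ∈ Cj Γ γ)
    (hδ' : δ' ∈ Cj Γ γ) (hne : δ ≠ δ') {q q' : V} (hq : q ∈ Cone) (hq' : q' ∈ Cone)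
    (h0 : B q (W δ) = 0) (h0' : B q' (W δ) = 0) : 0 < B q (W δ') * B q' (W δ') := by
  by_contra hc
  push Not at hc
  have h1 : B q (W δ') ≠ 0 := hD δ hδ δ' hδ' hne q hq h0
  have h2 : B q' (W δ') ≠ 0 := hD δ hδ δ' hδ' hne q' hq' h0'
  have h3 : B q (W δ') * B q' (W δ') < 0 := lt_of_le_of_ne hc (mul_ne_zero h1 h2)
  have h4 : 0 < B q' (W δ') ^ 2 := by positivity
  have h5 : 0 < -(B q (W δ') * B q' (W δ')) := by linarith
  have h6 := Cone_comb hq hq' h4 h5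
  refine hD δ hδ δ' hδ' hne _ h6 ?_ ?_
  · rw [B_add_left, B_smul_left, B_smul_left, h0, h0']
    ring
  · rw [B_add_left, B_smul_left, B_smul_left]
    ring

/-- the power of `δ` moves an adjacent point inside its region -/
theorem same_pow {Γ : Subgroup SL} {γ : SL} (hγ : γ ∈ Γ) (hD : Disj Γ γ) {δ : SL}
    (hδ : δ ∈ Cj Γ γ) {q z : V} (hq : q ∈ Cone) (h0 : B q (W δ) = 0) (h : AdjAt Γ γ q δ z) (k : ℤ) :
    Same Γ γ z (act (δ ^ k) z) := by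
  have hk : δ ^ k ∈ Γ := Γ.zpow_mem (cj_mem hγ hδ) k
  have hcomm : (δ ^ k)⁻¹ * δ * δ ^ k = δ := by
    have h1 : δ * δ ^ k = δ ^ k * δ := (Commute.refl δ).zpow_right k
    rw [mul_assoc, h1, inv_mul_cancel_left]
  intro δ' hδ'
  by_cases he : δ' = δ
  · rw [he, BW_act, hcomm]
    exact mul_self_pos.2 h.2.1
  · have hδ'' := cj_conj' hk hδ'
    have hne : (δ ^ k)⁻¹ * δ' * δ ^ k ≠ δ := by
      intro h1
      apply he
      have h2 : δ' = δ ^ k * ((δ ^ k)⁻¹ * δ' * δ ^ k) * (δ ^ k)⁻¹ := by group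
      rw [h2, h1]
      have h3 : δ ^ k * δ = δ * δ ^ k := ((Commute.refl δ).zpow_right k).symm
      rw [h3, mul_inv_cancel_right]
    have h4 := h.2.2 _ hδ'' hne
    have h5 := h.2.2 _ hδ' he
    have h6 : B (act (δ ^ k) q) (W δ) = 0 := by rw [BW_act, hcomm, h0]
    have h7 := wall_side hD hδ hδ' (Ne.symm he) hq (act_mem_Cone (δ ^ k) hq) h0 h6
    rw [BW_act] at h7
    rw [BW_act]
    obtain ⟨a, ha⟩ : ∃ a, a = B q (W δ') := ⟨_, rfl⟩
    obtain ⟨b, hb⟩ : ∃ b, b = B z (W δ') := ⟨_, rfl⟩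
    obtain ⟨c, hc⟩ : ∃ c, c = B q (W ((δ ^ k)⁻¹ * δ' * δ ^ k)) := ⟨_, rfl⟩
    obtain ⟨e, he'⟩ : ∃ e, e = B z (W ((δ ^ k)⁻¹ * δ' * δ ^ k)) := ⟨_, rfl⟩
    rw [← ha, ← hb] at h5
    rw [← hc, ← he'] at h4
    rw [← ha, ← hc] at h7
    rw [← hb, ← he']
    have h8 : 0 < (a * c) ^ 2 * (b * e) := by
      have := mul_pos (mul_pos h5 h7) h4
      nlinarith
    exact (pos_iff_pos_of_mul_pos h8).1 (pow_pos h7 2)


end Pool.Agent.SCD
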