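import Mathlib
import Pool.Agent.SCD.Basic
import Pool.Agent.SCD.L_B_pos

set_option autoImplicit false

namespace Pool.Agent.SCD

open Filter Topology Set


theorem far_side {w : V} {R : ℝ} (hR : 0 < R) (hF : Far R w) {z z' : V} (hz : z ∈ Cone)
    (hz' : z' ∈ Cone) (h : tr z < R * √(B z z)) (h' : tr z' < R * √(B z' z')) :
    0 < B z w * B z' w := by
  by_contra hc
  push Not at hc
  obtain ⟨α, β, hα, hβ, hab, hw⟩ : ∃ α β : ℝ, 0 ≤ α ∧ 0 ≤ β ∧ 0 < α + β ∧
      α * B z w + β * B z' w = 0 := by
    by_cases hp : B z w = 0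
    · exact ⟨1, 0, by norm_num, le_refl _, by norm_num, by rw [hp]; ring⟩
    · refine ⟨|B z' w|, |B z w|, abs_nonneg _, abs_nonneg _, ?_, ?_⟩
      · have := abs_pos.mpr hp
        have := abs_nonneg (B z' w)
        linarith
      · rcases lt_or_gt_of_ne hp with h1 | h1
        · have h2 : 0 ≤ B z' w := by
            by_contra h3
            push Not at h3
            nlinarith [mul_pos_of_neg_of_neg h1 h3]
          rw [abs_of_nonneg h2, abs_of_neg h1]; ring
        · have h2 : B z' w ≤ 0 := by
            by_contra h3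
            push Not at h3
            nlinarith [mul_pos h1 h3]
          rw [abs_of_nonpos h2, abs_of_pos h1]; ring
  have hzz' : 0 < B z z' := B_pos hz (Cone_tr_pos hz') hz'.2.le
  have hrc : B z z * B z' z' ≤ B z z' ^ 2 := B_rcs hz (Cone_tr_pos hz') hz'.2.le
  set a := √(B z z) with ha
  set b := √(B z' z') with hb
  have ha0 : 0 < a := Real.sqrt_pos.mpr hz.2
  have hb0 : 0 < b := Real.sqrt_pos.mpr hz'.2
  have ha2 : a ^ 2 = B z z := Real.sq_sqrt hz.2.le
  have hb2 : b ^ 2 = B z' z' := Real.sq_sqrt hz'.2.le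
  have hab2 : a * b ≤ B z z' := by
    apply abs_le_of_sq_le_sq' _ hzz'.le |>.2
    rw [mul_pow, ha2, hb2]; exact hrc
  set y : V := α • z + β • z' with hy
  have hByy : B y y = α ^ 2 * B z z + 2 * (α * β) * B z z' + β ^ 2 * B z' z' := by
    rw [hy]
    simp only [B_add_left, B_add_right, B_smul_left, B_smul_right]
    rw [B_comm z' z]; ring
  have hy1 : y.1 = α * z.1 + β * z'.1 := by
    simp [hy]
  have hαβ : 0 < α ∨ 0 < β := by
    rcases hα.lt_or_eq with h1 | h1
    · exact Or.inl h1
    · right; linarith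
  have hsq : (α * a + β * b) ^ 2 ≤ B y y := by
    rw [hByy, ← ha2, ← hb2]
    nlinarith [mul_nonneg hα hβ]
  have hpos : 0 < α * a + β * b := by
    rcases hαβ with h1 | h1
    · have := mul_pos h1 ha0; have := mul_nonneg hβ hb0.le; linarith
    · have := mul_pos h1 hb0; have := mul_nonneg hα ha0.le; linarith
  have hByy0 : 0 < B y y := lt_of_lt_of_le (by positivity) hsq
  have hsr : α * a + β * b ≤ √(B y y) := Real.le_sqrt_of_sq_le hsq
  have hs0 : 0 < √(B y y) := Real.sqrt_pos.mpr hByy0
  have hyC1 : 0 < y.1 := by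
    rw [hy1]
    rcases hαβ with h1 | h1
    · have := mul_pos h1 hz.1; have := mul_nonneg hβ hz'.1.le; linarith
    · have := mul_pos h1 hz'.1; have := mul_nonneg hα hz.1.le; linarith
  have htr : tr y < R * √(B y y) := by
    have e : tr y = α * tr z + β * tr z' := by
      simp [hy, tr]; ring
    rw [e]
    have h1 : α * tr z + β * tr z' < R * (α * a + β * b) := by
      rcases hαβ with h1 | h1
      · have h2 := mul_lt_mul_of_pos_left h h1
        have h3 := mul_le_mul_of_nonneg_left h'.le hβ
        nlinarith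
      · have h2 := mul_lt_mul_of_pos_left h' h1
        have h3 := mul_le_mul_of_nonneg_left h.le hα
        nlinarith
    exact lt_of_lt_of_le h1 (mul_le_mul_of_nonneg_left hsr hR.le)
  have hBw : B y w = 0 := by
    rw [hy, B_add_left, B_smul_left, B_smul_left]; exact hw
  set s := √(B y y) with hs
  have hs2 : s ^ 2 = B y y := Real.sq_sqrt hByy0.le
  have hF' := hF (s⁻¹ • y) ⟨by
      show 0 < s⁻¹ * y.1
      positivity, by
      rw [B_smul_left, B_smul_right]; positivity⟩ (by
      rw [B_smul_left, B_smul_right, ← hs2]; field_simp) (by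
      rw [B_smul_left, hBw, mul_zero])
  rw [tr_smul] at hF'
  have : s⁻¹ * tr y < R := by
    rw [inv_mul_lt_iff₀ hs0]; linarith
  linarith



end Pool.Agent.SCD
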