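import Mathlib
import Pool.Agent.SCD.Basic
import Pool.Agent.SCD.L_bp_facts

set_option autoImplicit false

namespace Pool.Agent.SCD

open Filter Topology Set


/-- sinusoidal form of `B (bp t) w` -/
private theorem arc_conn_sin {w : V} (hw : B w w < 0) : ∃ m ρ t₀ : ℝ, 0 < ρ ∧ |m| < ρ ∧
    ∀ t, B (bp t).1 w = m + ρ * Real.cos (2 * Real.pi * (t - t₀)) := by
  obtain ⟨a, b, c⟩ := w
  have hw' : a * c - b ^ 2 < 0 := by
    unfold B at hw
    simp only at hw
    nlinarith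
  set z : ℂ := ⟨(c - a) / 4, -b / 2⟩ with hz
  have h1 : ‖z‖ * Real.cos z.arg = (c - a) / 4 := Complex.norm_mul_cos_arg z
  have h2 : ‖z‖ * Real.sin z.arg = -b / 2 := Complex.norm_mul_sin_arg z
  have h3 : ‖z‖ ^ 2 = ((c - a) / 4) ^ 2 + (-b / 2) ^ 2 := by
    rw [← h1, ← h2]
    have := Real.sin_sq_add_cos_sq z.arg
    linear_combination (-‖z‖ ^ 2) * this
  have h4 : ((a + c) / 4) ^ 2 < ‖z‖ ^ 2 := by
    rw [h3]; nlinarith
  have h5 : |(a + c) / 4| < ‖z‖ := by
    have := sq_lt_sq.1 h4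
    rwa [abs_of_nonneg (norm_nonneg z)] at this
  have h6 : 0 < ‖z‖ := lt_of_le_of_lt (abs_nonneg _) h5
  refine ⟨(a + c) / 4, ‖z‖, z.arg / (2 * Real.pi), h6, h5, fun t => ?_⟩
  rw [B_bp]
  have h7 : 2 * Real.pi * (t - z.arg / (2 * Real.pi)) = 2 * (Real.pi * t) - z.arg := by
    have := Real.pi_ne_zero
    field_simp
  rw [h7, Real.cos_sub, Real.cos_two_mul, Real.sin_two_mul]
  have h8 := Real.sin_sq_add_cos_sq (Real.pi * t)
  simp only
  linear_combination (a / 2) * h8 - (2 * Real.cos (Real.pi * t) ^ 2 - 1) * h1 -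
    (2 * Real.sin (Real.pi * t) * Real.cos (Real.pi * t)) * h2

private theorem arc_conn_round (t₀ : ℝ) (x : Bd) : ∃ t : ℝ, |t - t₀| ≤ 1 / 2 ∧ bp t = x := by
  obtain ⟨t, _, _, h⟩ := bp_surj x
  refine ⟨t - round (t - t₀), ?_, ?_⟩
  · have := abs_sub_round (t - t₀)
    have e : t - (round (t - t₀) : ℝ) - t₀ = t - t₀ - (round (t - t₀) : ℝ) := by ring
    rw [e]; exact this
  · rw [← h, bp_eq_iff]
    refine ⟨-round (t - t₀), ?_⟩
    push_cast; ring

theorem arc_conn {w : V} (hw : B w w < 0) : IsPreconnected {x : Bd | 0 < B x.1 w} ∧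
    (∃ x : Bd, 0 < B x.1 w) ∧ (∀ x : Bd, 0 ≤ B x.1 w → x ∈ closure {x : Bd | 0 < B x.1 w}) := by
  obtain ⟨m, ρ, t₀, hρ, hm, hB⟩ := arc_conn_sin hw
  have hpi := Real.pi_pos
  have hm' := abs_lt.1 hm
  have hlo : -1 < -m / ρ := by rw [lt_div_iff₀ hρ]; linarith
  have hhi : -m / ρ < 1 := by rw [div_lt_iff₀ hρ]; linarith
  set β := Real.arccos (-m / ρ) with hβ
  have hβ0 : 0 < β := Real.arccos_pos.2 hhi
  have hβπ : β < Real.pi := by
    have h1 : β ≤ Real.pi := Real.arccos_le_pi _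
    refine lt_of_le_of_ne h1 fun h => ?_
    have h2 := Real.arccos_eq_pi.1 (hβ ▸ h)
    linarith
  have hcosβ : Real.cos β = -m / ρ := Real.cos_arccos hlo.le hhi.le
  set r := β / (2 * Real.pi) with hr
  have hr0 : 0 < r := by positivity
  have hrh : r < 1 / 2 := by
    rw [hr, div_lt_iff₀ (by positivity)]; linarith
  have hβr : β = 2 * Real.pi * r := by rw [hr]; field_simp
  have hform : ∀ t, B (bp t).1 w = ρ * (Real.cos (2 * Real.pi * |t - t₀|) - Real.cos (2 * Real.pi * r)) := by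
    intro t
    have e : Real.cos (2 * Real.pi * |t - t₀|) = Real.cos (2 * Real.pi * (t - t₀)) := by
      rw [← Real.cos_abs (2 * Real.pi * (t - t₀)), abs_mul, abs_of_pos (by positivity : 0 < 2 * Real.pi)]
    rw [hB, e, ← hβr, hcosβ]
    field_simp
    ring
  have hmem : ∀ t, |t - t₀| ≤ 1 / 2 → 2 * Real.pi * |t - t₀| ∈ Set.Icc 0 Real.pi := by
    intro t ht
    constructor
    · positivity
    · nlinarith
  have hmemr : 2 * Real.pi * r ∈ Set.Icc 0 Real.pi := by
    constructor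
    · positivity
    · nlinarith
  have hpos : ∀ t, |t - t₀| ≤ 1 / 2 → (0 < B (bp t).1 w ↔ |t - t₀| < r) := by
    intro t ht
    rw [hform, mul_pos_iff_of_pos_left hρ, sub_pos,
      Real.strictAntiOn_cos.lt_iff_gt hmemr (hmem t ht), mul_lt_mul_iff_right₀ (by positivity)]
  have hnn : ∀ t, |t - t₀| ≤ 1 / 2 → (0 ≤ B (bp t).1 w ↔ |t - t₀| ≤ r) := by
    intro t ht
    rw [hform, mul_nonneg_iff_of_pos_left hρ, sub_nonneg,
      Real.strictAntiOn_cos.le_iff_ge hmemr (hmem t ht), mul_le_mul_iff_right₀ (by positivity)]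
  have hset : {x : Bd | 0 < B x.1 w} = bp '' Set.Ioo (t₀ - r) (t₀ + r) := by
    ext x
    constructor
    · intro hx
      obtain ⟨t, ht, rfl⟩ := arc_conn_round t₀ x
      have h1 := (hpos t ht).1 hx
      rw [abs_lt] at h1
      exact ⟨t, ⟨by linarith, by linarith⟩, rfl⟩
    · rintro ⟨t, ⟨h1, h2⟩, rfl⟩
      have h3 : |t - t₀| < r := by rw [abs_lt]; constructor <;> linarith
      exact (hpos t (by linarith)).2 h3
  refine ⟨?_, ?_, ?_⟩
  · rw [hset]
    exact isPreconnected_Ioo.image bp continuous_bp.continuousOn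
  · refine ⟨bp t₀, (hpos t₀ ?_).2 ?_⟩
    · rw [sub_self, abs_zero]; norm_num
    · rw [sub_self, abs_zero]; exact hr0
  · intro x hx
    obtain ⟨t, ht, rfl⟩ := arc_conn_round t₀ x
    have h1 := (hnn t ht).1 hx
    rw [abs_le] at h1
    rw [hset]
    apply image_closure_subset_closure_image continuous_bp
    refine ⟨t, ?_, rfl⟩
    rw [closure_Ioo (by linarith)]
    exact ⟨by linarith, by linarith⟩



end Pool.Agent.SCD
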