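import Mathlib
import Pool.Agent.SCD.Basic
import Pool.Agent.SCD.L_dist_u

set_option autoImplicit false

namespace Pool.Agent.SCD

open Filter Topology Set


private theorem cap_aux {x1 x2 x3 y1 y2 y3 w1 w2 w3 : ℝ} (hx1 : x1 + x3 = 1) (hx2 : x1 * x3 = x2 ^ 2)
    (hy1 : y1 + y3 = 1) (hy2 : y1 * y3 = y2 ^ 2) (hT : 0 < w1 + w3)
    (hx : (x1 * w3 + x3 * w1) / 2 - x2 * w2 ≤ 0) (hy : (y1 * w3 + y3 * w1) / 2 - y2 * w2 ≤ 0) :
    ((x1 * y3 + x3 * y1) / 2 - x2 * y2) * (4 * (w2 ^ 2 - w1 * w3) + (w1 + w3) ^ 2) ≤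
      2 * (w2 ^ 2 - w1 * w3) := by
  have e1 : x3 = 1 - x1 := by linarith
  have e2 : y3 = 1 - y1 := by linarith
  subst e1 e2
  have key : 2 * (w2 ^ 2 - w1 * w3) - ((x1 * (1 - y1) + (1 - x1) * y1) / 2 - x2 * y2) *
      (4 * (w2 ^ 2 - w1 * w3) + (w1 + w3) ^ 2) =
      2 * ((x1 - 1 / 2) * ((w1 - w3) / 2) + x2 * w2 + ((y1 - 1 / 2) * ((w1 - w3) / 2) + y2 * w2)) ^ 2
      + 2 * ((x1 - 1 / 2) * w2 - x2 * ((w1 - w3) / 2) + ((y1 - 1 / 2) * w2 - y2 * ((w1 - w3) / 2))) ^ 2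
      - (w1 + w3) ^ 2 / 2 := by
    linear_combination (2 * (((w1 - w3) / 2) ^ 2 + w2 ^ 2)) * hx2 +
      (2 * (((w1 - w3) / 2) ^ 2 + w2 ^ 2)) * hy2
  have s1 : (w1 + w3) / 4 ≤ (x1 - 1 / 2) * ((w1 - w3) / 2) + x2 * w2 := by
    have : (x1 * w3 + (1 - x1) * w1) / 2 - x2 * w2 =
      (w1 + w3) / 4 - ((x1 - 1 / 2) * ((w1 - w3) / 2) + x2 * w2) := by ring
    linarith
  have s2 : (w1 + w3) / 4 ≤ (y1 - 1 / 2) * ((w1 - w3) / 2) + y2 * w2 := by
    have : (y1 * w3 + (1 - y1) * w1) / 2 - y2 * w2 =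
      (w1 + w3) / 4 - ((y1 - 1 / 2) * ((w1 - w3) / 2) + y2 * w2) := by ring
    linarith
  have s3 : ((w1 + w3) / 2) ^ 2 ≤ ((x1 - 1 / 2) * ((w1 - w3) / 2) + x2 * w2 +
      ((y1 - 1 / 2) * ((w1 - w3) / 2) + y2 * w2)) ^ 2 :=
    pow_le_pow_left₀ (by linarith) (by linarith) 2
  have s4 := sq_nonneg ((x1 - 1 / 2) * w2 - x2 * ((w1 - w3) / 2) +
    ((y1 - 1 / 2) * w2 - y2 * ((w1 - w3) / 2)))
  have s5 : ((w1 + w3) / 2) ^ 2 = (w1 + w3) ^ 2 / 4 := by ring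
  linarith

/-- the far side of a far wall is small -/
theorem cap {w : V} (hw : B w w < 0) (h0 : 0 < B I0 w) {R : ℝ} (hR : 0 < R) (hF : Far R w) (x y : Bd)
    (hx : B x.1 w ≤ 0) (hy : B y.1 w ≤ 0) : dist x y ≤ 2 / R := by
  obtain ⟨w1, w2, w3⟩ := w
  have hT : 0 < w1 + w3 := by
    unfold B I0 at h0; simp only at h0; linarith
  have hD : 0 < w2 ^ 2 - w1 * w3 := by
    unfold B at hw; simp only at hw; nlinarith
  obtain ⟨D, hDd⟩ : ∃ D, D = w2 ^ 2 - w1 * w3 := ⟨_, rfl⟩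
  obtain ⟨T, hTd⟩ : ∃ T, T = w1 + w3 := ⟨_, rfl⟩
  rw [← hTd] at hT
  rw [← hDd] at hD
  have hQ : 0 < 4 * D + T ^ 2 := by positivity
  have hDQ : 0 < D * (4 * D + T ^ 2) := by positivity
  -- the nearest point
  obtain ⟨s, hs0, hs⟩ : ∃ s : ℝ, 0 < s ∧ s ^ 2 * (D * (4 * D + T ^ 2)) = 1 := by
    refine ⟨(Real.sqrt (D * (4 * D + T ^ 2)))⁻¹, by positivity, ?_⟩
    rw [inv_pow, Real.sq_sqrt hDQ.le]
    exact inv_mul_cancel₀ hDQ.ne'
  have hRle : R ^ 2 * D ≤ 4 * D + T ^ 2 := by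
    have hBB : B ((s * (2 * D + T * w1), s * (T * w2), s * (2 * D + T * w3)) : V)
        (s * (2 * D + T * w1), s * (T * w2), s * (2 * D + T * w3)) = 1 := by
      unfold B
      simp only
      rw [← hs]
      have : w2 ^ 2 = D + w1 * w3 := by rw [hDd]; ring
      linear_combination (-(s ^ 2 * T ^ 2)) * this + (- 2 * s ^ 2 * D * T) * hTd
    have htr : tr ((s * (2 * D + T * w1), s * (T * w2), s * (2 * D + T * w3)) : V) =
        s * (4 * D + T ^ 2) := by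
      unfold tr
      simp only
      linear_combination (- s * T) * hTd
    have hBw : B ((s * (2 * D + T * w1), s * (T * w2), s * (2 * D + T * w3)) : V)
        (w1, w2, w3) = 0 := by
      unfold B
      simp only
      linear_combination (- s * D) * hTd + (s * T) * hDd
    have hC : ((s * (2 * D + T * w1), s * (T * w2), s * (2 * D + T * w3)) : V) ∈ Cone := by
      refine ⟨?_, by rw [hBB]; norm_num⟩
      have htp : 0 < tr ((s * (2 * D + T * w1), s * (T * w2), s * (2 * D + T * w3)) : V) := by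
        rw [htr]; positivity
      unfold tr at htp
      unfold B at hBB
      simp only at htp hBB ⊢
      by_contra hc
      push Not at hc
      nlinarith [sq_nonneg (s * (T * w2)), sq_nonneg (s * (2 * D + T * w1))]
    have h1 := hF _ hC hBB hBw
    rw [htr] at h1
    have h2 := pow_le_pow_left₀ hR.le h1 2
    have h3 : R ^ 2 * D ≤ (s * (4 * D + T ^ 2)) ^ 2 * D :=
      mul_le_mul_of_nonneg_right h2 hD.le
    have h4 : (s * (4 * D + T ^ 2)) ^ 2 * D = 4 * D + T ^ 2 := by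
      have : (s * (4 * D + T ^ 2)) ^ 2 * D = (s ^ 2 * (D * (4 * D + T ^ 2))) * (4 * D + T ^ 2) := by
        ring
      rw [this, hs, one_mul]
    linarith
  -- points
  rw [Bd.dist_def]
  have hx1 : tr x.1 = 1 := x.2.1
  have hx2 : B x.1 x.1 = 0 := x.2.2
  have hy1 : tr y.1 = 1 := y.2.1
  have hy2 : B y.1 y.1 = 0 := y.2.2
  generalize x.1 = X at *
  generalize y.1 = Y at *
  obtain ⟨x1, x2, x3⟩ := X
  obtain ⟨y1, y2, y3⟩ := Y
  have hd := (dist_u hx1 hy1).1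
  rw [hx2, hy2, sub_zero, sub_zero] at hd
  have ha : B (x1, x2, x3) (y1, y2, y3) * (4 * D + T ^ 2) ≤ 2 * D := by
    have := cap_aux (x1 := x1) (x2 := x2) (x3 := x3) (y1 := y1) (y2 := y2) (y3 := y3)
      (w1 := w1) (w2 := w2) (w3 := w3) (by simpa [tr] using hx1)
      (by unfold B at hx2; simp only at hx2; linarith) (by simpa [tr] using hy1)
      (by unfold B at hy2; simp only at hy2; linarith) (by rw [← hTd]; exact hT)
      (by simpa [B] using hx) (by simpa [B] using hy)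
    rw [hDd, hTd]
    exact this
  have hb0 : 0 ≤ B (x1, x2, x3) (y1, y2, y3) := by
    have := sq_nonneg (dist ((x1, x2, x3) : V) (y1, y2, y3))
    linarith
  generalize B (x1, x2, x3) (y1, y2, y3) = b at hd ha hb0
  have hc : 2 * b ≤ (2 / R) ^ 2 := by
    rw [div_pow, le_div_iff₀ (by positivity)]
    have h5 : D * (2 * b * R ^ 2) ≤ D * 2 ^ 2 := by
      calc D * (2 * b * R ^ 2) = 2 * b * (R ^ 2 * D) := by ring
        _ ≤ 2 * b * (4 * D + T ^ 2) := mul_le_mul_of_nonneg_left hRle (by linarith)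
        _ ≤ D * 2 ^ 2 := by linarith
    exact le_of_mul_le_mul_left h5 hD
  exact le_of_sq_le_sq (hd.trans hc) (by positivity)



end Pool.Agent.SCD
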