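import Mathlib
import Pool.Agent.SCD.Basic
import Pool.Agent.SCD.L_hyp_fix

set_option autoImplicit false

namespace Pool.Agent.SCD

open Filter Topology Set


theorem commute_fix {g : SL} (hg : 2 < |ea g + ed g|) (T : Bd ≃ₜ Bd)
    (hT : ∀ x, T (g • x) = g • T x) : ∀ x : Bd, g • x = x → T x = x := by
  obtain ⟨xp, xm, hne, hfix, -, hp, hm⟩ := hyp_fix hg
  have hTn : ∀ (n : ℕ) (x : Bd), T (g ^ n • x) = g ^ n • T x := by
    intro n
    induction n with
    | zero => intro x; simp
    | succ n ih =>
      intro x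
      rw [pow_succ, mul_smul, ih, hT, ← mul_smul]
  have hTf : ∀ x : Bd, g • x = x → T x = xp ∨ T x = xm := by
    intro x hx
    rw [← hfix, ← hT, hx]
  have hgp : g • xp = xp := (hfix xp).2 (Or.inl rfl)
  have hgm : g • xm = xm := (hfix xm).2 (Or.inr rfl)
  -- three points of the boundary
  obtain ⟨x, hx1, hx2⟩ : ∃ x : Bd, x ≠ xp ∧ x ≠ xm := by
    let p1 : Bd := ⟨(1, 0, 0), by unfold tr; simp, by unfold B; simp⟩
    let p2 : Bd := ⟨(0, 0, 1), by unfold tr; simp, by unfold B; simp⟩
    let p3 : Bd := ⟨(1/2, 1/2, 1/2), by unfold tr; norm_num, by unfold B; norm_num⟩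
    have h12 : p1 ≠ p2 := by
      intro h
      have := congrArg (fun z : Bd => z.1.1) h
      simp [p1, p2] at this
    have h13 : p1 ≠ p3 := by
      intro h
      have := congrArg (fun z : Bd => z.1.2.1) h
      norm_num [p1, p3] at this
    have h23 : p2 ≠ p3 := by
      intro h
      have := congrArg (fun z : Bd => z.1.2.1) h
      norm_num [p2, p3] at this
    by_cases a1 : p1 ≠ xp ∧ p1 ≠ xm
    · exact ⟨p1, a1⟩
    by_cases a2 : p2 ≠ xp ∧ p2 ≠ xm
    · exact ⟨p2, a2⟩
    refine ⟨p3, fun h3 => ?_, fun h3 => ?_⟩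
    · subst h3
      have b1 : p1 = xm := by
        by_contra hc
        exact a1 ⟨h13, hc⟩
      have b2 : p2 = xm := by
        by_contra hc
        exact a2 ⟨h23, hc⟩
      exact h12 (b1.trans b2.symm)
    · subst h3
      have b1 : p1 = xp := by
        by_contra hc
        exact a1 ⟨hc, h13⟩
      have b2 : p2 = xp := by
        by_contra hc
        exact a2 ⟨hc, h23⟩
      exact h12 (b1.trans b2.symm)
  have hTp : T xp = xp := by
    rcases hTf xp hgp with h | h
    · exact h
    · exfalso
      have l1 : Tendsto (fun n : ℕ => T (g ^ n • x)) atTop (𝓝 (T xp)) :=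
        (T.continuous.tendsto xp).comp (hp x hx2)
      rw [h] at l1
      have hTx : T x ≠ xm := by
        intro h'
        apply hx1
        apply T.injective
        rw [h', h]
      have l2 := hp (T x) hTx
      simp only [hTn] at l1
      exact hne (tendsto_nhds_unique l2 l1)
  have hTm : T xm = xm := by
    rcases hTf xm hgm with h | h
    · exfalso
      apply hne
      apply T.injective
      rw [hTp, h]
    · exact h
  intro y hy
  rcases (hfix y).1 hy with rfl | rfl
  · exact hTp
  · exact hTm



end Pool.Agent.SCD
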