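import Mathlib
import Pool.Agent.SCD.Basic
import Pool.Agent.SCD.L_DW
import Pool.Agent.SCD.L_hyp_fix
import Pool.Agent.SCD.L_cj_basic
import Pool.Agent.SCD.L_wall_locfin
import Pool.Agent.SCD.L_cap
import Pool.Agent.SCD.L_dist_u
import Pool.Agent.SCD.L_B_pos

set_option autoImplicit false

namespace Pool.Agent.SCD

open Filter Topology Set


private theorem dense_walls_key {Γ : Subgroup SL} (hΓ : Good Γ) {δ' : SL} (hδ' : δ' ∈ Γ) (h1 : δ' ≠ 1)
    (a b : ℕ → Bd) (y : Bd) (ha : Tendsto a atTop (𝓝 y)) (hb : Tendsto b atTop (𝓝 y))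
    (hab : ∀ k, a k ≠ b k) (δ : ℕ → SL) (hka : ∀ k, B (a k).1 (W (δ k)) = 0)
    (hkb : ∀ k, B (b k).1 (W (δ k)) = 0) : ∀ᶠ k in atTop, δ k ≠ δ' := by
  obtain ⟨zp, zm, hne, -, hW, -, -⟩ := hyp_fix (hΓ.hyp δ' hδ' h1)
  have h2 : Tendsto (fun k => dist (a k) (b k)) atTop (𝓝 0) := by
    have := ha.dist hb
    rwa [dist_self] at this
  have h3 : ∀ᶠ k in atTop, dist (a k) (b k) < dist zp zm :=
    h2.eventually (gt_mem_nhds (dist_pos.2 hne))
  filter_upwards [h3] with k hk e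
  have e1 := (hW (a k)).1 (by rw [← e]; exact hka k)
  have e2 := (hW (b k)).1 (by rw [← e]; exact hkb k)
  rcases e1 with e1 | e1 <;> rcases e2 with e2 | e2
  · exact hab k (by rw [e1, e2])
  · rw [e1, e2] at hk; exact lt_irrefl _ hk
  · rw [e1, e2, dist_comm] at hk; exact lt_irrefl _ hk
  · exact hab k (by rw [e1, e2])

theorem dense_walls {Γ : Subgroup SL} (hΓ : Good Γ) {γ : SL} (hγ : γ ∈ Γ) (h1 : γ ≠ 1) (x : Bd)
    (hx : B x.1 (W γ) ≠ 0) {ε : ℝ} (hε : 0 < ε) :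
    ∃ δ ∈ Cj Γ γ, δ ≠ γ ∧ ∀ y : Bd, B y.1 (W δ) * B I0 (W δ) ≤ 0 → dist y x < ε := by
  obtain ⟨xp, xm, hne, -, hW, -, -⟩ := hyp_fix (hΓ.hyp γ hγ h1)
  have hxp : x ≠ xp := fun e => hx ((hW x).2 (Or.inl e))
  have hxm : x ≠ xm := fun e => hx ((hW x).2 (Or.inr e))
  have hd1 : 0 < dist x xp := dist_pos.2 hxp
  have hd2 : 0 < dist x xm := dist_pos.2 hxm
  have hε' : 0 < min (ε / 4) (min (dist x xp) (dist x xm)) :=
    lt_min (by positivity) (lt_min hd1 hd2)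
  obtain ⟨η, hη, hη1, -, hηd⟩ := DW hΓ x hε'
  obtain ⟨yp, ym, hyne, -, hyW, hyp, -⟩ := hyp_fix (hΓ.hyp η hη hη1)
  have hypd := hηd yp (((hyW yp).2 (Or.inl rfl)).ge)
  have hymd := hηd ym (((hyW ym).2 (Or.inr rfl)).ge)
  have n1 : xp ≠ ym := by
    intro e
    rw [← e, dist_comm] at hymd
    exact absurd (lt_of_lt_of_le hymd ((min_le_right _ _).trans (min_le_left _ _)))
      (lt_irrefl _)
  have n2 : xm ≠ ym := by
    intro e
    rw [← e, dist_comm] at hymd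
    exact absurd (lt_of_lt_of_le hymd ((min_le_right _ _).trans (min_le_right _ _)))
      (lt_irrefl _)
  have ta := hyp xp n1
  have tb := hyp xm n2
  have hab : ∀ k : ℕ, η ^ k • xp ≠ η ^ k • xm := fun k e => hne (smul_left_cancel _ e)
  have hwall : ∀ (k : ℕ) (z : Bd), B z.1 (W γ) = 0 →
      B (η ^ k • z).1 (W (η ^ k * γ * (η ^ k)⁻¹)) = 0 := by
    intro k z hz
    rw [B_smul_sign, W_conj, act_inv_act, hz, mul_zero]
  have hka : ∀ k : ℕ, B (η ^ k • xp).1 (W (η ^ k * γ * (η ^ k)⁻¹)) = 0 :=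
    fun k => hwall k xp ((hW xp).2 (Or.inl rfl))
  have hkb : ∀ k : ℕ, B (η ^ k • xm).1 (W (η ^ k * γ * (η ^ k)⁻¹)) = 0 :=
    fun k => hwall k xm ((hW xm).2 (Or.inr rfl))
  have hcj : ∀ k : ℕ, η ^ k * γ * (η ^ k)⁻¹ ∈ Cj Γ γ := fun k => ⟨η ^ k, Γ.pow_mem hη k, rfl⟩
  have key : ∀ δ' ∈ Γ, δ' ≠ 1 → ∀ᶠ k : ℕ in atTop, η ^ k * γ * (η ^ k)⁻¹ ≠ δ' :=
    fun δ' hδ' h1' => dense_walls_key hΓ hδ' h1' _ _ yp ta tb hab _ hka hkb
  set R : ℝ := 3 + 8 / ε with hR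
  have hR0 : 0 < R := by positivity
  have hR3 : 3 < R := by
    have : 0 < 8 / ε := by positivity
    linarith
  have h2R : 2 / R < ε / 4 := by
    rw [div_lt_div_iff₀ hR0 (by norm_num)]
    have : ε * R = 3 * ε + 8 := by
      rw [hR]
      field_simp
    rw [this]
    linarith
  have hF := wall_fin hΓ hγ h1 R
  have ev1 : ∀ᶠ k : ℕ in atTop, ∀ δ' ∈ {δ | δ ∈ Γ ∧ ea δ + ed δ = ea γ + ed γ ∧
      ∃ y ∈ Cone, B y y = 1 ∧ B y (W δ) = 0 ∧ tr y ≤ R}, η ^ k * γ * (η ^ k)⁻¹ ≠ δ' := by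
    rw [Filter.eventually_all_finite hF]
    rintro δ' ⟨hδ', htr, -⟩
    apply key δ' hδ'
    intro e
    rw [e, ea_one, ed_one] at htr
    have := hΓ.hyp γ hγ h1
    rw [← htr] at this
    norm_num at this
  have ev2 := key γ hγ h1
  have ev3 : ∀ᶠ k : ℕ in atTop, dist (η ^ k • xp) yp < ε / 4 :=
    (Metric.tendsto_nhds.1 ta) (ε / 4) (by positivity)
  obtain ⟨k, hk1, hk2, hk3⟩ := (ev1.and (ev2.and ev3)).exists
  refine ⟨η ^ k * γ * (η ^ k)⁻¹, hcj k, hk2, ?_⟩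
  have hka' := hka k
  have hBW := cj_BW hΓ hγ h1 (hcj k)
  have hFar : Far R (W (η ^ k * γ * (η ^ k)⁻¹)) := by
    intro y hy hyy hyW'
    by_contra hc
    push Not at hc
    exact hk1 _ ⟨cj_mem hγ (hcj k), cj_tr (hcj k), y, hy, hyy, hyW', hc.le⟩ rfl
  generalize W (η ^ k * γ * (η ^ k)⁻¹) = w0 at hka' hBW hFar ⊢
  have hI : B I0 w0 ≠ 0 := by
    intro e
    have h5 := hFar I0 I0_mem (by simp [B, I0]) e
    have h6 : tr I0 = 2 := by simp [tr, I0]; norm_num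
    rw [h6] at h5
    linarith
  have hc : ∃ c : ℝ, c * c = 1 ∧ 0 < c * B I0 w0 := by
    rcases lt_or_gt_of_ne hI with h | h
    · exact ⟨-1, by norm_num, by linarith⟩
    · exact ⟨1, by norm_num, by linarith⟩
  obtain ⟨c, hcc, hcI⟩ := hc
  have hc0 : c ≠ 0 := by
    intro e
    rw [e] at hcc
    norm_num at hcc
  intro y hy
  have g1 : B (c • w0) (c • w0) < 0 := by
    rw [B_smul_left, B_smul_right, ← mul_assoc, hcc, one_mul]
    exact hBW
  have g2 : 0 < B I0 (c • w0) := by rw [B_smul_right]; exact hcI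
  have g3 : Far R (c • w0) := by
    intro z hz hzz hzw
    rw [B_smul_right] at hzw
    rcases mul_eq_zero.1 hzw with h | h
    · exact absurd h hc0
    · exact hFar z hz hzz h
  have g4 : B y.1 (c • w0) ≤ 0 := by
    rw [B_smul_right]
    by_contra hcon
    push Not at hcon
    have h7 := mul_pos hcon hcI
    have h8 : c * B y.1 w0 * (c * B I0 w0) = (c * c) * (B y.1 w0 * B I0 w0) := by ring
    rw [h8, hcc, one_mul] at h7
    linarith
  have g5 : B (η ^ k • xp).1 (c • w0) ≤ 0 := by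
    rw [B_smul_right, hka', mul_zero]
  have g6 := cap g1 g2 hR0 g3 y (η ^ k • xp) g4 g5
  have g7 : dist yp x < ε / 4 := lt_of_lt_of_le hypd (min_le_left _ _)
  have g8 : dist y x ≤ dist y (η ^ k • xp) + dist (η ^ k • xp) yp + dist yp x :=
    dist_triangle4 _ _ _ _
  linarith



end Pool.Agent.SCD
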