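import Mathlib
import Pool.Agent.SCD.Basic

set_option autoImplicit false

namespace Pool.Agent.SCD

open Filter Topology Set


/-- a locally constant function over a convex set is constant -/
theorem mono_const {E Y Z : Type*} [NormedAddCommGroup E] [NormedSpace ℝ E] {X : Set E}
    (hX : Convex ℝ X) (p : Y → E) (hp : ∀ y, p y ∈ X) (hsurj : ∀ x ∈ X, ∃ y, p y = x) (c : Y → Z)
    (hloc : ∀ q ∈ X, ∃ r > 0, ∀ y1 y2, p y1 ∈ Metric.ball q r → p y2 ∈ Metric.ball q r →
      c y1 = c y2) : ∀ y1 y2, c y1 = c y2 := by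
  choose sec hsec using hsurj
  have hX' : PreconnectedSpace X := isPreconnected_iff_preconnectedSpace.mp hX.isPreconnected
  have hlc : IsLocallyConstant (fun x : X => c (sec x.1 x.2)) := by
    rw [IsLocallyConstant.iff_eventually_eq]
    intro x
    obtain ⟨r, hr, h⟩ := hloc x.1 x.2
    filter_upwards [Metric.ball_mem_nhds x hr] with y hy
    apply h
    · rw [hsec]; exact hy
    · rw [hsec]; exact Metric.mem_ball_self hr
  have hcf : ∀ y, c y = c (sec (p y) (hp y)) := by
    intro y
    obtain ⟨r, hr, h⟩ := hloc (p y) (hp y)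
    apply h
    · exact Metric.mem_ball_self hr
    · rw [hsec]; exact Metric.mem_ball_self hr
  intro y1 y2
  rw [hcf y1, hcf y2]
  exact hlc.apply_eq_of_preconnectedSpace ⟨p y1, hp y1⟩ ⟨p y2, hp y2⟩



end Pool.Agent.SCD
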