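import Mathlib
import Pool.Agent.SCD.Basic
import Pool.Agent.SCD.L_mono_const
import Pool.Agent.SCD.L_B_pos
import Pool.Agent.SCD.L_cj_basic
import Pool.Agent.SCD.L_wall_locfin

set_option autoImplicit false

namespace Pool.Agent.SCD

open Filter Topology Set


theorem wall_const {Γ : Subgroup SL} (hΓ : Good Γ) {γ : SL} (hγ : γ ∈ Γ) (h1 : γ ≠ 1)
    (hD : Disj Γ γ) {Z : Type*} (c : V → Z)
    (hs : ∀ z z', Gn Γ γ z → Gn Γ γ z' → Same Γ γ z z' → c z = c z')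
    (hc : ∀ q ∈ Cone, ∀ δ ∈ Cj Γ γ, B q (W δ) = 0 → ∀ z z', AdjAt Γ γ q δ z → AdjAt Γ γ q δ z' →
      0 < B z (W δ) → B z' (W δ) < 0 → c z = c z') :
    ∀ z z', Gn Γ γ z → Gn Γ γ z' → c z = c z' := by
  have main := mono_const (E := V)
    (Y := {p : V × V // p.1 ∈ Cone ∧ Gn Γ γ p.2 ∧
      ∀ δ ∈ Cj Γ γ, 0 ≤ B p.1 (W δ) * B p.2 (W δ)}) (Z := Z) (X := Cone)
    convex_Cone (fun y => y.1.1) (fun y => y.2.1) ?_ (fun y => c y.1.2) ?_
  · intro z z' hz hz'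
    have := main ⟨(z, z), hz.1, hz, fun δ _ => mul_self_nonneg _⟩
      ⟨(z', z'), hz'.1, hz', fun δ _ => mul_self_nonneg _⟩
    exact this
  · intro x hx
    by_cases hw : ∀ δ ∈ Cj Γ γ, B x (W δ) ≠ 0
    · exact ⟨⟨(x, x), hx, ⟨hx, hw⟩, fun δ _ => mul_self_nonneg _⟩, rfl⟩
    · push Not at hw
      obtain ⟨δ, hδ, hδ0⟩ := hw
      obtain ⟨r, hr, hball, hloc⟩ := wall_locfin hΓ hγ h1 hx
      obtain ⟨η, hη, hηr⟩ : ∃ η : ℝ, 0 < η ∧ η * ‖W δ‖ < r := by
        refine ⟨r / (2 * (‖W δ‖ + 1)), by positivity, ?_⟩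
        have h0 : 0 ≤ ‖W δ‖ := norm_nonneg _
        rw [div_mul_eq_mul_div, div_lt_iff₀ (by positivity)]
        nlinarith
      have hzb : x + η • W δ ∈ Metric.ball x r := by
        rw [Metric.mem_ball, dist_eq_norm, add_sub_cancel_left, norm_smul, Real.norm_eq_abs,
          abs_of_pos hη]
        exact hηr
      have hBW := cj_BW hΓ hγ h1 hδ
      have hzδ : B (x + η • W δ) (W δ) ≠ 0 := by
        rw [B_add_left, B_smul_left, hδ0, zero_add]
        exact mul_ne_zero hη.ne' hBW.ne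
      have hother : ∀ δ' ∈ Cj Γ γ, δ' ≠ δ → 0 < B x (W δ') * B (x + η • W δ) (W δ') := by
        intro δ' hδ' hne
        exact hloc δ' hδ' (hD δ hδ δ' hδ' (Ne.symm hne) x hx hδ0) _ hzb
      refine ⟨⟨(x, x + η • W δ), hx, ⟨hball hzb, ?_⟩, ?_⟩, rfl⟩
      · intro δ' hδ'
        by_cases he : δ' = δ
        · rw [he]; exact hzδ
        · intro h0
          have := hother δ' hδ' he
          rw [h0, mul_zero] at this
          exact lt_irrefl _ this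
      · intro δ' hδ'
        show 0 ≤ B x (W δ') * B (x + η • W δ) (W δ')
        by_cases he : δ' = δ
        · rw [he, hδ0, zero_mul]
        · exact (hother δ' hδ' he).le
  · intro q hq
    obtain ⟨r, hr, hball, hloc⟩ := wall_locfin hΓ hγ h1 hq
    refine ⟨r, hr, ?_⟩
    rintro ⟨⟨x1, z1⟩, hx1, hz1, hp1⟩ ⟨⟨x2, z2⟩, hx2, hz2, hp2⟩ hb1 hb2
    simp only at hx1 hz1 hp1 hx2 hz2 hp2 hb1 hb2
    show c z1 = c z2
    have key : ∀ x z : V, x ∈ Metric.ball q r → Gn Γ γ z →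
        (∀ δ ∈ Cj Γ γ, 0 ≤ B x (W δ) * B z (W δ)) →
        ∀ δ ∈ Cj Γ γ, B q (W δ) ≠ 0 → 0 < B q (W δ) * B z (W δ) := by
      intro x z hx hz hp δ hδ hne
      have a1 := hloc δ hδ hne x hx
      have a2 := hp δ hδ
      have a3 := hz.2 δ hδ
      have a4 : B x (W δ) ≠ 0 := by
        intro h0; rw [h0, mul_zero] at a1; exact lt_irrefl _ a1
      have a5 : 0 < B x (W δ) * B z (W δ) := lt_of_le_of_ne a2 (mul_ne_zero a4 a3).symm
      have a6 : 0 < (B q (W δ) * B z (W δ)) * (B x (W δ)) ^ 2 := by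
        have := mul_pos a1 a5
        nlinarith
      by_contra hneg
      push Not at hneg
      exact absurd a6 (not_lt.2 (mul_nonpos_of_nonpos_of_nonneg hneg (sq_nonneg _)))
    have k1 := key x1 z1 hb1 hz1 hp1
    have k2 := key x2 z2 hb2 hz2 hp2
    have prod : ∀ a b e : ℝ, 0 < a * b → 0 < a * e → 0 < b * e := by
      intro a b e hab hae
      have h3 : 0 < (b * e) * a ^ 2 := by
        have := mul_pos hab hae
        nlinarith
      by_contra hneg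
      push Not at hneg
      exact absurd h3 (not_lt.2 (mul_nonpos_of_nonpos_of_nonneg hneg (sq_nonneg _)))
    by_cases hw : ∀ δ ∈ Cj Γ γ, B q (W δ) ≠ 0
    · apply hs z1 z2 hz1 hz2
      intro δ hδ
      exact prod _ _ _ (k1 δ hδ (hw δ hδ)) (k2 δ hδ (hw δ hδ))
    · push Not at hw
      obtain ⟨δ, hδ, hδ0⟩ := hw
      have hoth : ∀ δ' ∈ Cj Γ γ, δ' ≠ δ → B q (W δ') ≠ 0 := fun δ' hδ' hne =>
        hD δ hδ δ' hδ' (Ne.symm hne) q hq hδ0
      have ad1 : AdjAt Γ γ q δ z1 := ⟨hz1.1, hz1.2 δ hδ, fun δ' hδ' hne =>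
        k1 δ' hδ' (hoth δ' hδ' hne)⟩
      have ad2 : AdjAt Γ γ q δ z2 := ⟨hz2.1, hz2.2 δ hδ, fun δ' hδ' hne =>
        k2 δ' hδ' (hoth δ' hδ' hne)⟩
      have same : 0 < B z1 (W δ) * B z2 (W δ) → c z1 = c z2 := by
        intro hpos
        apply hs z1 z2 hz1 hz2
        intro δ' hδ'
        by_cases he : δ' = δ
        · rw [he]; exact hpos
        · exact prod _ _ _ (k1 δ' hδ' (hoth δ' hδ' he)) (k2 δ' hδ' (hoth δ' hδ' he))
      rcases lt_or_gt_of_ne (hz1.2 δ hδ) with g1 | g1 <;>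
        rcases lt_or_gt_of_ne (hz2.2 δ hδ) with g2 | g2
      · exact same (mul_pos_of_neg_of_neg g1 g2)
      · exact (hc q hq δ hδ hδ0 z2 z1 ad2 ad1 g2 g1).symm
      · exact hc q hq δ hδ hδ0 z1 z2 ad1 ad2 g1 g2
      · exact same (mul_pos g1 g2)



end Pool.Agent.SCD
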