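import Mathlib
import Pool.Agent.SCD.Basic
import Pool.Agent.SCD.L_B_pos
import Pool.Agent.SCD.L_cj_basic
import Pool.Agent.SCD.L_wall_locfin
import Pool.Agent.SCD.L_wall_const
import Pool.Agent.SCD.L_adj_facts

set_option autoImplicit false

namespace Pool.Agent.SCD

open Filter Topology Set


/-- the first wall on the way from `z0` to a boundary point -/
theorem first_wall {Γ : Subgroup SL} (hΓ : Good Γ) {γ : SL} (hγ : γ ∈ Γ) (h1 : γ ≠ 1)
    (hD : Disj Γ γ) {z0 : V} (hz0 : Gn Γ γ z0) (x : Bd) {δ : SL} (hδ : δ ∈ Cj Γ γ)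
    (hx : B x.1 (W δ) * B z0 (W δ) < 0) :
    ∃ δ1 ∈ Cj Γ γ, B x.1 (W δ1) * B z0 (W δ1) < 0 ∧ ∃ q ∈ Cone, B q (W δ1) = 0 ∧
      AdjAt Γ γ q δ1 z0 := by
  obtain ⟨hz, hzw⟩ := hz0
  set y : ℝ → V := fun t => (1 - t) • z0 + t • x.1 with hy
  have hL : ∀ (t : ℝ) (w : V), B (y t) w = (1 - t) * B z0 w + t * B x.1 w := by
    intro t w
    rw [hy]
    simp only
    rw [B_add_left, B_smul_left, B_smul_left]
  have hzx : 0 < B z0 x.1 := B_pos hz (by rw [x.2.1]; norm_num) (by rw [x.2.2])
  have hcone : ∀ t, 0 ≤ t → t < 1 → y t ∈ Cone := by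
    intro t t0 t1
    constructor
    · show 0 < ((1 - t) • z0 + t • x.1).1
      have h2 : ((1 - t) • z0 + t • x.1).1 = (1 - t) * z0.1 + t * x.1.1 := rfl
      rw [h2]
      have h3 := (Bd.fst_nonneg x).1
      have h4 := hz.1
      have h5 : 0 < (1 - t) * z0.1 := mul_pos (by linarith) h4
      have h6 : 0 ≤ t * x.1.1 := mul_nonneg t0 h3
      linarith
    · rw [hL, B_comm z0 (y t), B_comm x.1 (y t), hL, hL, x.2.2, B_comm x.1 z0]
      have h3 := hz.2
      have h5 : 0 < (1 - t) * ((1 - t) * B z0 z0) := mul_pos (by linarith) (mul_pos (by linarith) h3)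
      have h6 : 0 ≤ (1 - t) * (t * B z0 x.1) := mul_nonneg (by linarith) (mul_nonneg t0 hzx.le)
      nlinarith
  have hcont : Continuous y := by
    rw [hy]
    fun_prop
  set T : Set ℝ := {t | 0 ≤ t ∧ t < 1 ∧ ∃ δ' ∈ Cj Γ γ, B (y t) (W δ') = 0} with hT
  have hTne : T.Nonempty := by
    set a := B z0 (W δ) with ha
    set b := B x.1 (W δ) with hb
    have hab : a - b ≠ 0 := by
      intro h
      have : a = b := by linarith
      rw [this] at hx
      nlinarith [mul_self_nonneg b]
    refine ⟨a / (a - b), ?_, ?_, δ, hδ, ?_⟩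
    · rcases lt_or_gt_of_ne hab with h | h
      · apply div_nonneg_of_nonpos _ h.le
        by_contra hc
        push Not at hc
        nlinarith
      · apply div_nonneg _ h.le
        by_contra hc
        push Not at hc
        nlinarith
    · rcases lt_or_gt_of_ne hab with h | h
      · rw [div_lt_one_of_neg h]
        by_contra hc
        push Not at hc
        nlinarith
      · rw [div_lt_one h]
        by_contra hc
        push Not at hc
        nlinarith
    · rw [hL]
      field_simp
      ring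
  have hTb : BddBelow T := ⟨0, fun t ht => ht.1⟩
  set t1 := sInf T with ht1
  have ht10 : 0 ≤ t1 := le_csInf hTne (fun t ht => ht.1)
  have ht11 : t1 < 1 := by
    obtain ⟨t, ht⟩ := hTne
    exact lt_of_le_of_lt (csInf_le hTb ht) ht.2.1
  have hqC := hcone t1 ht10 ht11
  have hmem : t1 ∈ T := by
    by_contra hcon
    have hno : ∀ δ' ∈ Cj Γ γ, B (y t1) (W δ') ≠ 0 := by
      intro δ' hδ' h0
      exact hcon ⟨ht10, ht11, δ', hδ', h0⟩
    obtain ⟨r, hr, _, hball⟩ := wall_locfin hΓ hγ h1 hqC
    have hnhds : ∀ᶠ t in 𝓝 t1, y t ∈ Metric.ball (y t1) r :=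
      hcont.continuousAt (Metric.ball_mem_nhds _ hr)
    obtain ⟨ε, hε, hεb⟩ := Metric.eventually_nhds_iff.mp hnhds
    obtain ⟨t, htT, htlt⟩ := exists_lt_of_csInf_lt hTne (show sInf T < t1 + ε by linarith)
    have htge : t1 ≤ t := csInf_le hTb htT
    obtain ⟨_, _, δ', hδ', h0⟩ := htT
    have h2 := hball δ' hδ' (hno δ' hδ') (y t) (hεb (by
      rw [Real.dist_eq, abs_of_nonneg (by linarith)]; linarith))
    rw [h0, mul_zero] at h2
    exact lt_irrefl _ h2
  obtain ⟨_, _, δ1, hδ1, h0⟩ := hmem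
  have ht1pos : 0 < t1 := by
    rcases ht10.lt_or_eq with h | h
    · exact h
    · exfalso
      rw [hL, ← h] at h0
      apply hzw δ1 hδ1
      linarith
  refine ⟨δ1, hδ1, ?_, y t1, hqC, h0, hz, hzw δ1 hδ1, ?_⟩
  · rw [hL] at h0
    have ha := hzw δ1 hδ1
    have h2 : t1 * (B x.1 (W δ1) * B z0 (W δ1)) = -((1 - t1) * (B z0 (W δ1)) ^ 2) := by
      linear_combination (B z0 (W δ1)) * h0
    have h3 : 0 < (1 - t1) * (B z0 (W δ1)) ^ 2 := mul_pos (by linarith) (by positivity)
    by_contra hc
    push Not at hc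
    have := mul_nonneg ht1pos.le hc
    linarith
  · intro δ' hδ' hne
    have hc0 : B (y t1) (W δ') ≠ 0 := hD δ1 hδ1 δ' hδ' (Ne.symm hne) (y t1) hqC h0
    have ha0 : B z0 (W δ') ≠ 0 := hzw δ' hδ'
    by_contra hcon
    push Not at hcon
    set a := B z0 (W δ') with ha
    set c := B (y t1) (W δ') with hc
    have hac : c * a < 0 := lt_of_le_of_ne hcon (mul_ne_zero hc0 ha0)
    have hne' : a - c ≠ 0 := by
      intro h
      have h3 : a = c := by linarith
      rw [h3] at hac
      nlinarith [mul_self_nonneg c]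
    have hcL : c = (1 - t1) * a + t1 * B x.1 (W δ') := by rw [hc, hL]
    have hfr0 : 0 < a / (a - c) := by
      rcases lt_or_gt_of_ne hne' with h | h
      · apply div_pos_of_neg_of_neg _ h
        by_contra hc'
        push Not at hc'
        have : 0 < a := lt_of_le_of_ne hc' (Ne.symm ha0)
        nlinarith
      · apply div_pos _ h
        by_contra hc'
        push Not at hc'
        have : a < 0 := lt_of_le_of_ne hc' ha0
        nlinarith
    have hfr1 : a / (a - c) < 1 := by
      rcases lt_or_gt_of_ne hne' with h | h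
      · rw [div_lt_one_of_neg h]
        by_contra hc'
        push Not at hc'
        have : c < 0 := lt_of_le_of_ne (by linarith) hc0
        nlinarith
      · rw [div_lt_one h]
        by_contra hc'
        push Not at hc'
        have : 0 < c := lt_of_le_of_ne (by linarith) (Ne.symm hc0)
        nlinarith
    have hT' : t1 * (a / (a - c)) ∈ T := by
      refine ⟨by positivity, ?_, δ', hδ', ?_⟩
      · have : t1 * (a / (a - c)) < t1 * 1 := mul_lt_mul_of_pos_left hfr1 ht1pos
        linarith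
      · rw [hL, ← ha]
        have h4 : t1 * (B x.1 (W δ') - a) = c - a := by rw [hcL]; ring
        have h5 : (1 - t1 * (a / (a - c))) * a + t1 * (a / (a - c)) * B x.1 (W δ') =
            a + (a / (a - c)) * (t1 * (B x.1 (W δ') - a)) := by ring
        rw [h5, h4]
        field_simp
        ring
    have h6 : t1 ≤ t1 * (a / (a - c)) := csInf_le hTb hT'
    have : t1 * (a / (a - c)) < t1 * 1 := mul_lt_mul_of_pos_left hfr1 ht1pos
    linarith



end Pool.Agent.SCD
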