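import Mathlib
import Pool.Agent.SCD.Basic
import Pool.Agent.SCD.L_adj_facts
import Pool.Agent.SCD.L_cj_basic

set_option autoImplicit false

namespace Pool.Agent.SCD

open Filter Topology Set


theorem twist_fix {Γ : Subgroup SL} {γ : SL} (hγ : γ ∈ Γ) (hD : Disj Γ γ) {e : ℤ} {s : V → SL}
    (hs : IsPot Γ γ e s) {z0 : V} (h0 : s z0 = 1) {q : V} {δ : SL} (hδ : δ ∈ Cj Γ γ)
    (hq : q ∈ Cone) (hw : B q (W δ) = 0) (ha : AdjAt Γ γ q δ z0) : s (act δ z0) * δ = δ := by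
  have h1 := same_pow hγ hD hδ hq hw ha 1
  rw [zpow_one] at h1
  have gz := adj_gn ha
  have h2 := hs.same z0 (act δ z0) gz (gn_act (cj_mem hγ hδ) gz) h1
  rw [← h2, h0, one_mul]



end Pool.Agent.SCD
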