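import Mathlib
import Pool.Agent.SCD.Basic
import Pool.Agent.SCD.L_arc_conn
import Pool.Agent.SCD.L_hyp_fix
import Pool.Agent.SCD.L_commute_fix
import Pool.Agent.SCD.L_comm_of_fix
import Pool.Agent.SCD.L_cj_basic
import Pool.Agent.SCD.L_adj_facts
import Pool.Agent.SCD.L_twist_fix
import Pool.Agent.SCD.L_cap
import Pool.Agent.SCD.L_first_wall
import Pool.Agent.SCD.L_dense_walls

set_option autoImplicit false

namespace Pool.Agent.SCD

open Filter Topology Set


private theorem h170_B_nonneg {q : V} (hq : q ∈ Cone) (c : Bd) : 0 ≤ B q c.1 := by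
  obtain ⟨h1, h2⟩ := Bd.fst_nonneg c
  have h3 := c.2.2
  have h4 : 0 < q.1 := hq.1
  have h5 := Cone_pos22 hq
  have h6 : 0 < B q q := hq.2
  unfold B at h3 h6 ⊢
  have e1 : c.1.2.1 ^ 2 = c.1.1 * c.1.2.2 := by nlinarith
  have e2 : q.2.1 ^ 2 ≤ q.1 * q.2.2 := by nlinarith
  have h7 : (q.2.1 * c.1.2.1) ^ 2 ≤ ((q.1 * c.1.2.2 + q.2.2 * c.1.1) / 2) ^ 2 := by
    have h8 : 0 ≤ c.1.1 * c.1.2.2 := mul_nonneg h1 h2
    calc (q.2.1 * c.1.2.1) ^ 2 = q.2.1 ^ 2 * (c.1.1 * c.1.2.2) := by rw [mul_pow, e1]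
      _ ≤ (q.1 * q.2.2) * (c.1.1 * c.1.2.2) := mul_le_mul_of_nonneg_right e2 h8
      _ ≤ ((q.1 * c.1.2.2 + q.2.2 * c.1.1) / 2) ^ 2 := by
        nlinarith [sq_nonneg (q.1 * c.1.2.2 - q.2.2 * c.1.1)]
  have h9 := abs_le_of_sq_le_sq' h7 (by positivity)
  linarith [h9.2]

private theorem h170_key {w : V} (hw : B w w < 0) (T : Bd ≃ₜ Bd) (hfix : ∀ x : Bd, B x.1 w = 0 → T x = x)
    (c : Bd) (hc : T c = c) (hcw : 0 < B c.1 w) (x : Bd) (hx : B x.1 w < 0) :
    B (T x).1 w < 0 := by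
  have hcont : Continuous (fun x : Bd => B x.1 w) := (continuous_B w).comp continuous_subtype_val
  have hneg : ∀ x : Bd, B x.1 ((-1 : ℝ) • w) = - B x.1 w := by
    intro x
    rw [B_smul_right]
    ring
  have hw' : B ((-1 : ℝ) • w) ((-1 : ℝ) • w) < 0 := by
    rw [B_smul_right, B_smul_left]
    linarith
  have hcont' : Continuous (fun x : Bd => B x.1 ((-1 : ℝ) • w)) :=
    (continuous_B _).comp continuous_subtype_val
  obtain ⟨hN, -, -⟩ := arc_conn hw
  obtain ⟨hF, hFne, -⟩ := arc_conn hw'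
  have hNo : IsOpen {x : Bd | 0 < B x.1 w} := isOpen_lt continuous_const hcont
  have hFo : IsOpen {x : Bd | 0 < B x.1 ((-1 : ℝ) • w)} := isOpen_lt continuous_const hcont'
  have hdisj : Disjoint {x : Bd | 0 < B x.1 w} {x : Bd | 0 < B x.1 ((-1 : ℝ) • w)} := by
    rw [Set.disjoint_left]
    intro y hy hy'
    have h1 : 0 < B y.1 w := hy
    have h2 : 0 < B y.1 ((-1 : ℝ) • w) := hy'
    rw [hneg] at h2
    linarith
  have hav : ∀ y : Bd, B y.1 w ≠ 0 → B (T y).1 w ≠ 0 := by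
    intro y hy h
    have h1 := hfix (T y) h
    have h2 := T.injective h1
    rw [h2] at h
    exact hy h
  have hcov : ∀ y : Bd, B y.1 w ≠ 0 →
      T y ∈ {x : Bd | 0 < B x.1 w} ∪ {x : Bd | 0 < B x.1 ((-1 : ℝ) • w)} := by
    intro y hy
    rcases lt_or_gt_of_ne (hav y hy) with h | h
    · right
      show 0 < B (T y).1 ((-1 : ℝ) • w)
      rw [hneg]
      linarith
    · left
      exact h
  have hTN : T '' {x : Bd | 0 < B x.1 w} ⊆ {x : Bd | 0 < B x.1 w} := by
    apply (hN.image T T.continuous.continuousOn).subset_left_of_subset_union hNo hFo hdisj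
    · rintro _ ⟨y, hy, rfl⟩
      exact hcov y (ne_of_gt hy)
    · exact ⟨c, ⟨c, hcw, hc⟩, hcw⟩
  have hTF : T '' {x : Bd | 0 < B x.1 ((-1 : ℝ) • w)} ⊆ {x : Bd | 0 < B x.1 w} ∨
      T '' {x : Bd | 0 < B x.1 ((-1 : ℝ) • w)} ⊆ {x : Bd | 0 < B x.1 ((-1 : ℝ) • w)} := by
    apply (hF.image T T.continuous.continuousOn).subset_or_subset hNo hFo hdisj
    rintro _ ⟨y, hy, rfl⟩
    apply hcov y
    have hy' : 0 < B y.1 ((-1 : ℝ) • w) := hy
    rw [hneg] at hy'
    intro h
    linarith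
  rcases hTF with h | h
  · exfalso
    obtain ⟨y, hy⟩ := hFne
    obtain ⟨z, rfl⟩ := T.surjective y
    rw [hneg] at hy
    rcases lt_trichotomy (B z.1 w) 0 with hz | hz | hz
    · have h1 : T z ∈ {x : Bd | 0 < B x.1 w} := by
        apply h
        refine ⟨z, ?_, rfl⟩
        show 0 < B z.1 ((-1 : ℝ) • w)
        rw [hneg]
        linarith
      have h2 : 0 < B (T z).1 w := h1
      linarith
    · rw [hfix z hz] at hy
      linarith
    · have h1 : T z ∈ {x : Bd | 0 < B x.1 w} := hTN ⟨z, hz, rfl⟩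
      have h2 : 0 < B (T z).1 w := h1
      linarith
  · have h1 : T x ∈ {x : Bd | 0 < B x.1 ((-1 : ℝ) • w)} := by
      apply h
      refine ⟨x, ?_, rfl⟩
      show 0 < B x.1 ((-1 : ℝ) • w)
      rw [hneg]
      linarith
    have h2 : 0 < B (T x).1 ((-1 : ℝ) • w) := h1
    rw [hneg] at h2
    linarith

theorem near_id {Γ : Subgroup SL} (hΓ : Good Γ) {γ : SL} (hγ : γ ∈ Γ) (h1 : γ ≠ 1)
    (hD : Disj Γ γ) {e : ℤ} {s : V → SL} (hs : IsPot Γ γ e s) {z0 q0 : V} (hq0 : q0 ∈ Cone)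
    (hw : B q0 (W γ) = 0) (ha : AdjAt Γ γ q0 γ z0) (h0 : s z0 = 1) (T : Bd ≃ₜ Bd)
    (hT : ∀ g ∈ Γ, ∀ x : Bd, T (g • x) = (s (act g z0) * g) • T x) {R : ℝ} (hR : 0 < R)
    (hF : ∀ δ ∈ Cj Γ γ, δ ≠ γ → Far R (W δ))
    (hI : ∀ δ ∈ Cj Γ γ, δ ≠ γ → 0 < B I0 (W δ) * B z0 (W δ)) (x : Bd)
    (hx : 0 ≤ B x.1 (W γ) * B z0 (W γ)) : dist (T x) x ≤ 2 / R := by
  -- hyperbolic
  have hhyp : ∀ δ ∈ Cj Γ γ, 2 < |ea δ + ed δ| := by
    intro δ hδ
    rw [cj_tr hδ]
    exact hΓ.hyp γ hγ h1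
  -- (1)
  have hfix : ∀ δ ∈ Cj Γ γ, ∀ q ∈ Cone, B q (W δ) = 0 → AdjAt Γ γ q δ z0 →
      ∀ y : Bd, B y.1 (W δ) = 0 → T y = y := by
    intro δ hδ q hq hqw hadj y hy
    have e1 := twist_fix hγ hD hs h0 hδ hq hqw hadj
    have e2 : ∀ z : Bd, T (δ • z) = δ • T z := by
      intro z
      rw [hT δ (cj_mem hγ hδ) z, e1]
    obtain ⟨xp, xm, -, e3, e4, -, -⟩ := hyp_fix (hhyp δ hδ)
    exact commute_fix (hhyp δ hδ) T e2 y ((e3 y).2 ((e4 y).1 hy))
  have hself := cj_self Γ γ
  -- a fixed point of `γ`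
  obtain ⟨c, cm, -, -, hc4, -, -⟩ := hyp_fix (hhyp γ hself)
  have hcW : B c.1 (W γ) = 0 := (hc4 c).2 (Or.inl rfl)
  have hTc : T c = c := hfix γ hself q0 hq0 hw ha c hcW
  -- (2), (3)
  have h3 : ∀ δ ∈ Cj Γ γ, δ ≠ γ → ∀ q ∈ Cone, B q (W δ) = 0 → AdjAt Γ γ q δ z0 →
      ∀ y : Bd, B y.1 (W δ) * B z0 (W δ) < 0 → dist (T y) y ≤ 2 / R := by
    intro δ hδ hne q hq hqw hadj y hy
    have hz0 : B z0 (W δ) ≠ 0 := hadj.2.1
    have hside : ∀ q' ∈ Cone, B q' (W γ) = 0 → 0 < B q' (W δ) * B z0 (W δ) := by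
      intro q' hq' hqw'
      have e1 := wall_side hD hself hδ (Ne.symm hne) hq0 hq' hw hqw'
      have e2 := ha.2.2 δ hδ hne
      have e3 : 0 < (B q0 (W δ) * B q' (W δ)) * (B q0 (W δ) * B z0 (W δ)) := mul_pos e1 e2
      have e4 : (B q0 (W δ) * B q' (W δ)) * (B q0 (W δ) * B z0 (W δ)) =
        (B q0 (W δ)) ^ 2 * (B q' (W δ) * B z0 (W δ)) := by ring
      rw [e4] at e3
      exact (pos_iff_pos_of_mul_pos e3).1 (by
        have : B q0 (W δ) ≠ 0 := by
          intro h
          rw [h] at e1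
          simp at e1
        positivity)
    have hcδ : 0 < B c.1 (W δ) * B z0 (W δ) := by
      have e1 : B c.1 (W δ) ≠ 0 := by
        intro h
        exact hne (cj_wall hΓ hγ h1 hδ hself c h hcW)
      have e2 : B c.1 (W δ) * B z0 (W δ) ≠ 0 := mul_ne_zero e1 hz0
      have e3 : 0 ≤ B c.1 (W δ) * B z0 (W δ) := by
        by_contra hcon
        push Not at hcon
        have e4 : ∀ t : ℝ, 0 < t → 0 < B (t • q0 + c.1) (W δ) * B z0 (W δ) := by
          intro t ht
          apply hside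
          · have e5 := Bd.fst_nonneg c
            refine ⟨?_, ?_⟩
            · show 0 < t * q0.1 + c.1.1
              have e6 := mul_pos ht hq0.1
              linarith [e5.1]
            · rw [B_add_left, B_add_right, B_add_right, B_smul_left, B_smul_left, B_smul_right,
                B_smul_right, c.2.2, B_comm c.1 q0]
              have e6 := h170_B_nonneg hq0 c
              have e7 : 0 < B q0 q0 := hq0.2
              have e8 : 0 < t * (t * B q0 q0) := by positivity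
              have e9 : 0 ≤ t * B q0 c.1 := by positivity
              linarith
          · rw [B_add_left, B_smul_left, hw, hcW]
            ring
        have e5 := hside q0 hq0 hw
        obtain ⟨A, hA⟩ : ∃ A, A = B q0 (W δ) * B z0 (W δ) := ⟨_, rfl⟩
        obtain ⟨D, hDD⟩ : ∃ D, D = B c.1 (W δ) * B z0 (W δ) := ⟨_, rfl⟩
        rw [← hA] at e5
        rw [← hDD] at hcon
        have e6 := e4 (-D / (2 * A)) (by
          apply div_pos (by linarith) (by linarith))
        rw [B_add_left, B_smul_left] at e6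
        have e7 : (-D / (2 * A) * B q0 (W δ) + B c.1 (W δ)) * B z0 (W δ) =
          -D / (2 * A) * A + D := by
          rw [hA, hDD]
          ring
        rw [e7] at e6
        have e8 : -D / (2 * A) * A = -D / 2 := by
          field_simp
        rw [e8] at e6
        linarith
      exact lt_of_le_of_ne e3 (Ne.symm e2)
    obtain ⟨σ, hσ1, hσ2⟩ : ∃ σ : ℝ, σ ^ 2 = 1 ∧ 0 < σ * B z0 (W δ) := by
      rcases lt_or_gt_of_ne hz0 with h | h
      · exact ⟨-1, by norm_num, by linarith⟩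
      · exact ⟨1, by norm_num, by linarith⟩
    have hsgn : ∀ v : ℝ, v * B z0 (W δ) = (σ * v) * (σ * B z0 (W δ)) := by
      intro v
      linear_combination (-(v * B z0 (W δ))) * hσ1
    have hσ0 : σ ≠ 0 := by
      intro h
      rw [h] at hσ1
      norm_num at hσ1
    have hw1 : B (σ • W δ) (σ • W δ) < 0 := by
      rw [B_smul_left, B_smul_right]
      have := cj_BW hΓ hγ h1 hδ
      have e1 : σ * (σ * B (W δ) (W δ)) = B (W δ) (W δ) := by
        linear_combination (B (W δ) (W δ)) * hσ1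
      rw [e1]
      exact this
    have hy1 : B y.1 (σ • W δ) < 0 := by
      rw [B_smul_right]
      rw [hsgn] at hy
      by_contra hcon
      push Not at hcon
      have := mul_nonneg hcon hσ2.le
      linarith
    have hc1 : 0 < B c.1 (σ • W δ) := by
      rw [B_smul_right]
      rw [hsgn] at hcδ
      exact (pos_iff_pos_of_mul_pos hcδ).2 hσ2
    have hI1 : 0 < B I0 (σ • W δ) := by
      rw [B_smul_right]
      have e1 := hI δ hδ hne
      rw [hsgn] at e1
      exact (pos_iff_pos_of_mul_pos e1).2 hσ2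
    have hfix1 : ∀ z : Bd, B z.1 (σ • W δ) = 0 → T z = z := by
      intro z hz
      rw [B_smul_right] at hz
      exact hfix δ hδ q hq hqw hadj z ((mul_eq_zero.1 hz).resolve_left hσ0)
    have hTy := h170_key hw1 T hfix1 c hTc hc1 y hy1
    have hFar : Far R (σ • W δ) := by
      intro v hv hv1 hv2
      rw [B_smul_right] at hv2
      exact hF δ hδ hne v hv hv1 ((mul_eq_zero.1 hv2).resolve_left hσ0)
    exact cap hw1 hI1 hR hFar (T y) y hTy.le hy1.le
  rcases hx.lt_or_eq with hpos | hzero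
  · -- (4)
    have hxW : B x.1 (W γ) ≠ 0 := by
      intro h
      rw [h] at hpos
      simp at hpos
    have hclosed : IsClosed {y : Bd | dist (T y) y ≤ 2 / R} :=
      isClosed_le (T.continuous.dist continuous_id) continuous_const
    have hcont : Continuous (fun y : Bd => B y.1 (W γ) * B z0 (W γ)) :=
      ((continuous_B _).comp continuous_subtype_val).mul continuous_const
    have hopen : IsOpen {y : Bd | 0 < B y.1 (W γ) * B z0 (W γ)} :=
      isOpen_lt continuous_const hcont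
    have hmem : x ∈ closure {y : Bd | dist (T y) y ≤ 2 / R} := by
      rw [Metric.mem_closure_iff]
      intro ε hε
      obtain ⟨ε', hε', hball⟩ := Metric.isOpen_iff.1 hopen x hpos
      obtain ⟨δ, hδ, hδne, hδd⟩ := dense_walls hΓ hγ h1 x hxW (lt_min hε hε')
      have hI1 := hI δ hδ hδne
      have hIne : B I0 (W δ) ≠ 0 := by
        intro h
        rw [h] at hI1
        simp at hI1
      -- a point on the opposite side
      have hW' : B ((-B I0 (W δ)) • W δ) ((-B I0 (W δ)) • W δ) < 0 := by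
        rw [B_smul_left, B_smul_right]
        have e1 := cj_BW hΓ hγ h1 hδ
        have e2 : 0 < (B I0 (W δ)) ^ 2 := by positivity
        nlinarith
      obtain ⟨-, ⟨x', hx'⟩, -⟩ := arc_conn hW'
      rw [B_smul_right] at hx'
      have hx1 : B x'.1 (W δ) * B I0 (W δ) < 0 := by linarith
      have hdist := hδd x' hx1.le
      have hx2 : B x'.1 (W δ) * B z0 (W δ) < 0 := by
        have e1 : (B x'.1 (W δ) * B I0 (W δ)) * (B I0 (W δ) * B z0 (W δ)) < 0 :=
          mul_neg_of_neg_of_pos hx1 hI1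
        have e2 : (B x'.1 (W δ) * B I0 (W δ)) * (B I0 (W δ) * B z0 (W δ)) =
          (B I0 (W δ)) ^ 2 * (B x'.1 (W δ) * B z0 (W δ)) := by ring
        rw [e2] at e1
        have e3 : 0 < (B I0 (W δ)) ^ 2 := by positivity
        by_contra hcon
        push Not at hcon
        have := mul_nonneg e3.le hcon
        linarith
      have hx3 : 0 < B x'.1 (W γ) * B z0 (W γ) := by
        apply hball
        rw [Metric.mem_ball]
        exact lt_of_lt_of_le hdist (min_le_right _ _)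
      obtain ⟨δ1, hδ1, hd1, q, hq, hqw, hadj⟩ := first_wall hΓ hγ h1 hD (adj_gn ha) x' hδ hx2
      have hne1 : δ1 ≠ γ := by
        intro h
        rw [h] at hd1
        linarith
      refine ⟨x', h3 δ1 hδ1 hne1 q hq hqw hadj x' hd1, ?_⟩
      rw [dist_comm]
      exact lt_of_lt_of_le hdist (min_le_left _ _)
    rw [hclosed.closure_eq] at hmem
    exact hmem
  · -- (5)
    have hz0 : B z0 (W γ) ≠ 0 := ha.2.1
    have hxW : B x.1 (W γ) = 0 := (mul_eq_zero.1 hzero.symm).resolve_right hz0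
    rw [hfix γ hself q0 hq0 hw ha x hxW, dist_self]
    positivity



end Pool.Agent.SCD
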