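import Mathlib
import Pool.Agent.SCD.Basic
import Pool.Agent.SCD.L_cj_basic
import Pool.Agent.SCD.L_wall_const
import Pool.Agent.SCD.L_adj_facts

set_option autoImplicit false

namespace Pool.Agent.SCD

open Filter Topology Set


theorem pot_equiv {Γ : Subgroup SL} (hΓ : Good Γ) {γ : SL} (hγ : γ ∈ Γ) (h1 : γ ≠ 1)
    (hD : Disj Γ γ) {e : ℤ} {s : V → SL} (hs : IsPot Γ γ e s) {z0 : V} (hz0 : Gn Γ γ z0)
    (h0 : s z0 = 1) {g : SL} (hg : g ∈ Γ) {z : V} (hz : Gn Γ γ z) :
    s (act g z) = (s (act g z0) * g) * s z * g⁻¹ := by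
  have key := wall_const hΓ hγ h1 hD (fun z => s (act g z) * g * (s z)⁻¹) (by
    intro z z' hz hz' hS
    have e1 := hs.same z z' hz hz' hS
    have e2 := hs.same _ _ (gn_act hg hz) (gn_act hg hz') (same_act hg hS)
    simp only [e1, e2]) (by
    intro q hq δ hδ hB z z' ha ha' hp hn
    have e1 := hs.cross q hq δ hδ hB z z' ha ha' hp hn
    have hW : ∀ y : V, B (act g y) (W (g * δ * g⁻¹)) = B y (W δ) := by
      intro y
      rw [W_conj, B_act]
    have e2 := hs.cross (act g q) (act_mem_Cone g hq) (g * δ * g⁻¹) (cj_conj hg hδ)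
      (by rw [hW]; exact hB) (act g z) (act g z') (adj_act hg hδ ha) (adj_act hg hδ ha')
      (by rw [hW]; exact hp) (by rw [hW]; exact hn)
    simp only [e1, e2, conj_zpow]
    group) z z0 hz hz0
  simp only [h0, inv_one, mul_one] at key
  rw [← key]
  group



end Pool.Agent.SCD
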