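import Mathlib
import Pool.Agent.SCD.Basic

set_option autoImplicit false

namespace Pool.Agent.SCD

open Filter Topology Set


theorem pot_left {Γ : Subgroup SL} {γ : SL} {e : ℤ} {s : V → SL} (hs : IsPot Γ γ e s) {c : SL}
    (hc : c ∈ Γ) : IsPot Γ γ e (fun z => c * s z) := by
  refine ⟨fun z => Γ.mul_mem hc (hs.mem z), fun z z' h1 h2 h3 => ?_, fun q hq δ hδ h z z' h1 h2 h3 h4 => ?_⟩
  · show c * s z = c * s z'
    rw [hs.same z z' h1 h2 h3]
  · show c * s z' = c * s z * δ ^ e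
    rw [hs.cross q hq δ hδ h z z' h1 h2 h3 h4, mul_assoc]



end Pool.Agent.SCD
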