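import Mathlib
import Pool.Agent.SCD.Basic
import Pool.Agent.SCD.L_kak
import Pool.Agent.SCD.L_chain

set_option autoImplicit false

namespace Pool.Agent.SCD

open Filter Topology Set


theorem fg_good {Γ : Subgroup SL} (hΓ : Good Γ) : ∃ S : Set SL, S.Finite ∧ S ⊆ Γ ∧
    Γ ≤ Subgroup.closure S := by
  obtain ⟨C, hC, hch⟩ := chain hΓ
  refine ⟨{g : SL | g ∈ Γ ∧ N g ≤ C}, hΓ.disc C, fun g hg => hg.1, ?_⟩
  intro g hg
  obtain ⟨k, l, s, _, _, _, _, m, p, _, hp0, hpm, hpΓ, hpN, _⟩ := hch 1 Γ.one_mem g hg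
  have key : ∀ i, i ≤ m → p i ∈ Subgroup.closure {g : SL | g ∈ Γ ∧ N g ≤ C} := by
    intro i
    induction i with
    | zero =>
      intro _
      rw [hp0]
      exact Subgroup.one_mem _
    | succ i ih =>
      intro hi
      have h1 := ih (by omega)
      have h2 : (p i)⁻¹ * p (i + 1) ∈ Subgroup.closure {g : SL | g ∈ Γ ∧ N g ≤ C} :=
        Subgroup.subset_closure ⟨Γ.mul_mem (Γ.inv_mem (hpΓ i)) (hpΓ (i + 1)), hpN i (by omega)⟩
      have h3 := Subgroup.mul_mem _ h1 h2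
      rwa [mul_inv_cancel_left] at h3
  rw [← hpm]
  exact key m le_rfl



end Pool.Agent.SCD
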