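import Mathlib
import Pool.Agent.SCD.Basic
import Pool.Agent.SCD.L_fg_good
import Pool.Agent.SCD.L_kak
import Pool.Agent.SCD.L_chain

set_option autoImplicit false

namespace Pool.Agent.SCD

open Filter Topology Set


private theorem rf_jac_int : IsJacobsonRing ℤ := by
  rw [isJacobsonRing_iff_prime_eq]
  intro P hP
  by_cases h : P = ⊥
  · subst h
    rw [eq_bot_iff]
    intro x hx
    rw [Ideal.mem_jacobson_bot] at hx
    have h1 := hx x
    rw [Int.isUnit_iff] at h1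
    rw [Ideal.mem_bot]
    rcases h1 with h1 | h1
    · have : x * x = 0 := by linarith
      exact mul_self_eq_zero.1 this
    · exfalso
      nlinarith [mul_self_nonneg x]
  · have : P.IsMaximal := IsPrime.to_maximal_ideal h
    exact Ideal.jacobson_eq_self_of_isMaximal

/-- residue fields of finitely generated commutative rings are finite -/
private theorem rf_residue_finite (S : Type*) [CommRing S] [Algebra.FiniteType ℤ S] (m : Ideal S)
    [hm : m.IsMaximal] : Finite (S ⧸ m) := by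
  let F : Field (S ⧸ m) := Ideal.Quotient.field m
  have h0 : Algebra.FiniteType ℤ (S ⧸ m) :=
    Algebra.FiniteType.of_surjective ((Ideal.Quotient.mkₐ S m).restrictScalars ℤ)
      Ideal.Quotient.mk_surjective
  have hJ : IsJacobsonRing ℤ := rf_jac_int
  have h1 : Module.Finite ℤ (S ⧸ m) := finite_of_finite_type_of_isJacobsonRing ℤ (S ⧸ m)
  obtain ⟨p, hp⟩ := CharP.exists (S ⧸ m)
  rcases Nat.eq_zero_or_pos p with h2 | h2
  · exfalso
    subst h2
    have hc : CharZero (S ⧸ m) := CharP.charP_to_charZero (S ⧸ m)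
    have h3 : Function.Injective (algebraMap ℤ (S ⧸ m)) := by
      have : (algebraMap ℤ (S ⧸ m)) = Int.castRingHom (S ⧸ m) := RingHom.ext_int _ _
      rw [this]
      exact RingHom.injective_int _
    have hi : Algebra.IsIntegral ℤ (S ⧸ m) := Algebra.IsIntegral.of_finite ℤ (S ⧸ m)
    have h4 : IsField ℤ := isField_of_isIntegral_of_isField h3 (Field.toIsField _)
    exact Int.not_isField h4
  · apply Module.finite_of_fg_torsion (S ⧸ m)
    intro x
    refine ⟨⟨(p : ℤ), ?_⟩, ?_⟩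
    · rw [mem_nonZeroDivisors_iff_ne_zero]
      exact_mod_cast h2.ne'
    · change (p : ℤ) • x = 0
      rw [zsmul_eq_mul]
      simp

/-- in a finitely generated domain a nonzero element survives in some residue field -/
private theorem rf_max (R : Type*) [CommRing R] [IsDomain R] [Algebra.FiniteType ℤ R] (r : R)
    (hr : r ≠ 0) : ∃ m : Ideal R, m.IsMaximal ∧ r ∉ m := by
  have hJ : IsJacobsonRing ℤ := rf_jac_int
  have hR : IsJacobsonRing R := isJacobsonRing_of_finiteType (A := ℤ)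
  by_contra hcon
  push Not at hcon
  have h1 : r ∈ (⊥ : Ideal R).jacobson := by
    unfold Ideal.jacobson
    rw [Submodule.mem_sInf]
    rintro J ⟨_, hJm⟩
    exact hcon J hJm
  rw [← Ideal.radical_eq_jacobson] at h1
  obtain ⟨n, hn⟩ := h1
  rw [Ideal.mem_bot] at hn
  exact hr (eq_zero_of_pow_eq_zero hn)

/-- the ring generated by the entries -/
private theorem rf_ring {Γ : Subgroup SL} (hΓ : Good Γ) : ∃ R0 : Subalgebra ℤ ℝ,
    Algebra.FiniteType ℤ R0 ∧
    Γ ≤ (Matrix.SpecialLinearGroup.map (n := Fin 2) (algebraMap R0 ℝ)).range := by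
  obtain ⟨S, hS, hSΓ, hΓS⟩ := fg_good hΓ
  let E : Set ℝ := (ea '' S ∪ eb '' S) ∪ (ec '' S ∪ ed '' S)
  have hE : E.Finite := ((hS.image _).union (hS.image _)).union ((hS.image _).union (hS.image _))
  let R0 : Subalgebra ℤ ℝ := Algebra.adjoin ℤ E
  have hfg : R0.FG := ⟨hE.toFinset, by rw [hE.coe_toFinset]⟩
  refine ⟨R0, (Subalgebra.fg_iff_finiteType R0).mp hfg, hΓS.trans ?_⟩
  rw [Subgroup.closure_le]
  intro s hs
  have ha : ea s ∈ R0 := Algebra.subset_adjoin (Or.inl (Or.inl ⟨s, hs, rfl⟩))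
  have hb : eb s ∈ R0 := Algebra.subset_adjoin (Or.inl (Or.inr ⟨s, hs, rfl⟩))
  have hc : ec s ∈ R0 := Algebra.subset_adjoin (Or.inr (Or.inl ⟨s, hs, rfl⟩))
  have hd : ed s ∈ R0 := Algebra.subset_adjoin (Or.inr (Or.inr ⟨s, hs, rfl⟩))
  let a : R0 := ⟨ea s, ha⟩
  let b : R0 := ⟨eb s, hb⟩
  let c : R0 := ⟨ec s, hc⟩
  let d : R0 := ⟨ed s, hd⟩
  have hdet : Matrix.det !![a, b; c, d] = 1 := by
    rw [Matrix.det_fin_two_of]
    apply Subtype.ext
    have := det_eq s
    exact this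
  refine ⟨⟨!![a, b; c, d], hdet⟩, ?_⟩
  apply SL_ext
  · rfl
  · rfl
  · rfl
  · rfl

/-- one element -/
private theorem rf_one {Γ : Subgroup SL} (hΓ : Good Γ) {f : SL} (hf : f ≠ 1) :
    ∃ K : Subgroup SL, K ≤ Γ ∧ (K.subgroupOf Γ).index ≠ 0 ∧ (∀ g ∈ Γ, ∀ k ∈ K, g * k * g⁻¹ ∈ K) ∧
      f ∉ K := by
  by_cases hfΓ : f ∈ Γ
  swap
  · refine ⟨Γ, le_rfl, ?_, fun g hg k hk => Γ.mul_mem (Γ.mul_mem hg hk) (Γ.inv_mem hg), hfΓ⟩
    have : (Γ.subgroupOf Γ).index = 1 := Subgroup.relIndex_self Γ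
    rw [this]
    exact one_ne_zero
  obtain ⟨R0, hR0, hle⟩ := rf_ring hΓ
  set ι : Matrix.SpecialLinearGroup (Fin 2) R0 →* SL :=
    Matrix.SpecialLinearGroup.map (n := Fin 2) (algebraMap R0 ℝ) with hι
  have hιinj : Function.Injective ι := by
    intro x y hxy
    apply Subtype.ext
    ext i j
    have h1 := congrArg (fun z : SL => z.1 i j) hxy
    exact h1
  obtain ⟨x, hx⟩ := hle hfΓ
  have hx1 : x ≠ 1 := by
    rintro rfl
    rw [map_one] at hx
    exact hf hx.symm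
  obtain ⟨i, j, hij⟩ : ∃ i j, x.1 i j ≠ (1 : Matrix (Fin 2) (Fin 2) R0) i j := by
    by_contra hcon
    push Not at hcon
    apply hx1
    apply Subtype.ext
    ext i j
    exact congrArg Subtype.val (hcon i j)
  obtain ⟨m, hm, hrm⟩ := rf_max R0 (x.1 i j - (1 : Matrix (Fin 2) (Fin 2) R0) i j)
    (sub_ne_zero.mpr hij)
  have hfin : Finite (R0 ⧸ m) := rf_residue_finite R0 m
  let q : Matrix.SpecialLinearGroup (Fin 2) R0 →* Matrix.SpecialLinearGroup (Fin 2) (R0 ⧸ m) :=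
    Matrix.SpecialLinearGroup.map (Ideal.Quotient.mk m)
  have hqx : x ∉ q.ker := by
    intro hk
    rw [MonoidHom.mem_ker] at hk
    have h1 := congrArg (fun z : Matrix.SpecialLinearGroup (Fin 2) (R0 ⧸ m) => z.1 i j) hk
    have h2 : Ideal.Quotient.mk m (x.1 i j) =
        Ideal.Quotient.mk m ((1 : Matrix (Fin 2) (Fin 2) R0) i j) := by
      have h3 : (1 : Matrix (Fin 2) (Fin 2) (R0 ⧸ m)) i j =
          Ideal.Quotient.mk m ((1 : Matrix (Fin 2) (Fin 2) R0) i j) := by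
        rw [Matrix.one_apply, Matrix.one_apply]
        split_ifs
        · rw [map_one]
        · rw [map_zero]
      rw [← h3]
      exact h1
    rw [Ideal.Quotient.eq] at h2
    exact hrm h2
  have hfinSL : Finite (Matrix.SpecialLinearGroup (Fin 2) (R0 ⧸ m)) := by
    have : Finite (Matrix (Fin 2) (Fin 2) (R0 ⧸ m)) := by
      unfold Matrix; infer_instance
    exact Subtype.finite
  have hidx : q.ker.index ≠ 0 := by
    rw [Subgroup.index_ker]
    exact Nat.card_pos.ne'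
  refine ⟨q.ker.map ι ⊓ Γ, inf_le_right, ?_, ?_, ?_⟩
  · change (q.ker.map ι ⊓ Γ).relIndex Γ ≠ 0
    rw [Subgroup.inf_relIndex_right]
    have h1 : (q.ker.map ι).relIndex ι.range ≠ 0 := by
      rw [MonoidHom.range_eq_map, Subgroup.relIndex_map_map_of_injective _ _ hιinj,
        Subgroup.relIndex_top_right]
      exact hidx
    exact fun h => h1 (Subgroup.relIndex_eq_zero_of_le_right hle h)
  · rintro g hg k ⟨⟨y, hy, rfl⟩, hk⟩
    obtain ⟨z, rfl⟩ := hle hg
    refine ⟨⟨z * y * z⁻¹, ?_, ?_⟩, Γ.mul_mem (Γ.mul_mem hg hk) (Γ.inv_mem hg)⟩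
    · exact q.normal_ker.conj_mem y hy z
    · rw [map_mul, map_mul, map_inv]
  · rintro ⟨⟨y, hy, hyf⟩, _⟩
    have : y = x := hιinj (hyf.trans hx.symm)
    rw [this] at hy
    exact hqx hy

/-- residual finiteness (Malcev) -/
theorem rf {Γ : Subgroup SL} (hΓ : Good Γ) {F : Set SL} (hF : F.Finite) (h1 : (1 : SL) ∉ F) :
    ∃ K : Subgroup SL, K ≤ Γ ∧ (K.subgroupOf Γ).index ≠ 0 ∧ (∀ g ∈ Γ, ∀ k ∈ K, g * k * g⁻¹ ∈ K) ∧
      ∀ f ∈ F, f ∉ K := by
  induction F, hF using Set.Finite.induction_on with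
  | empty =>
    refine ⟨Γ, le_rfl, ?_, fun g hg k hk => Γ.mul_mem (Γ.mul_mem hg hk) (Γ.inv_mem hg), ?_⟩
    · have : (Γ.subgroupOf Γ).index = 1 := Subgroup.relIndex_self Γ
      rw [this]
      exact one_ne_zero
    · intro f hf
      exact absurd hf (Set.notMem_empty f)
  | @insert a F ha hF ih =>
    rw [Set.mem_insert_iff, not_or] at h1
    obtain ⟨K1, h11, h12, h13, h14⟩ := ih h1.2
    obtain ⟨K2, h21, h22, h23, h24⟩ := rf_one hΓ (Ne.symm h1.1)
    refine ⟨K1 ⊓ K2, inf_le_left.trans h11, ?_, ?_, ?_⟩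
    · exact Subgroup.relIndex_inf_ne_zero h12 h22
    · intro g hg k hk
      exact ⟨h13 g hg k hk.1, h23 g hg k hk.2⟩
    · rintro f (rfl | hf) hK
      · exact h24 hK.2
      · exact h14 f hf hK.1



end Pool.Agent.SCD
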