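import Mathlib
import Pool.Agent.SCD.Basic
import Pool.Agent.SCD.L_rf
import Pool.Agent.SCD.L_B_pos
import Pool.Agent.SCD.L_cj_basic
import Pool.Agent.SCD.L_wall_locfin
import Pool.Agent.SCD.L_good_sub

set_option autoImplicit false

namespace Pool.Agent.SCD

open Filter Topology Set


private theorem h154_step (g : SL) (X : V) (h : B X (W g) = 0) :
    tr (act g X) + tr (act g⁻¹ X) = ((ea g + ed g) ^ 2 - 2) * tr X := by
  have hd := det_eq g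
  unfold B W at h
  unfold tr act
  simp only [ea_inv, eb_inv, ec_inv, ed_inv] at h ⊢
  linear_combination (-2 * (X.1 + X.2.2)) * hd + 4 * (ec g - eb g) * h

private theorem h154_quad (g : SL) (X : V) (h : B X (W g) = 0) (h1 : B X X = 1) :
    ((ea g + ed g) ^ 2 - 2) * tr X * tr (act g X) - tr X ^ 2 - tr (act g X) ^ 2 =
      (ea g + ed g) ^ 2 * ((ea g + ed g) ^ 2 - 4 + (ec g - eb g) ^ 2) := by
  have hd := det_eq g
  have hs := h154_step g X h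
  obtain ⟨x, y, z⟩ := X
  unfold B W at h
  unfold B at h1
  unfold tr act at hs ⊢
  simp only [ea_inv, eb_inv, ec_inv, ed_inv] at h h1 hs ⊢
  set a := ea g
  set b := eb g
  set c := ec g
  set d := ed g
  have hg : c * x - b * z - (a - d) * y = 0 := by linear_combination 2 * h
  have hD : (a + d) ^ 2 - 4 = (a - d) ^ 2 + 4 * b * c := by linear_combination 4 * hd
  have hxy : x * z - y ^ 2 = 1 := by linear_combination h1
  -- the key quadratic identity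
  have key : ((a - d) ^ 2 + 4 * b * c) * (x + z) ^ 2 -
      ((a - d) * (x - z) + 2 * (b + c) * y) ^ 2 =
      4 * ((a - d) ^ 2 + 4 * b * c + (c - b) ^ 2) * (x * z - y ^ 2) := by
    linear_combination (4 * ((b + c) * (x - z) - 2 * (c * x - b * z) +
      (c * x - b * z - (a - d) * y))) * hg
  -- the trace of `act g X`
  have hf1 : a ^ 2 * x + 2 * a * b * y + b ^ 2 * z + (c ^ 2 * x + 2 * c * d * y + d ^ 2 * z) =
      (((a + d) ^ 2 - 2) * (x + z) + (a + d) * ((a - d) * (x - z) + 2 * (b + c) * y)) / 2 := by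
    linear_combination hs / 2
  have hT : ((a + d) ^ 2 - 2) ^ 2 - 4 = (a + d) ^ 2 * ((a - d) ^ 2 + 4 * b * c) := by
    rw [← hD]; ring
  rw [hxy, mul_one] at key
  rw [hD]
  have e1 : a ^ 2 * x + 2 * a * b * y + b ^ 2 * z + (c ^ 2 * x + 2 * c * d * y + d ^ 2 * z) =
      (((a + d) ^ 2 - 2) * (x + z) + (a + d) * ((a - d) * (x - z) + 2 * (b + c) * y)) / 2 := hf1
  set τ := (a + d) ^ 2 - 2
  set l := (a - d) * (x - z) + 2 * (b + c) * y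
  rw [e1]
  linear_combination ((x + z) ^ 2 / 4) * hT + ((a + d) ^ 2 / 4) * key

private theorem h154_tr_ge {X : V} (hX : X ∈ Cone) (h : B X X = 1) : 2 ≤ tr X := by
  have h1 := hX.1
  have h2 := Cone_pos22 hX
  unfold B at h
  unfold tr
  nlinarith [sq_nonneg X.2.1, sq_nonneg (X.1 - X.2.2)]

private theorem h154_core {τ δ p q M : ℝ} (hδ0 : 0 < δ) (hδ1 : δ ≤ 1 / 2)
    (hδ2 : δ ≤ (τ - 2) / 2) (hp : 2 ≤ p) (hq1 : (1 - δ) * p ≤ q) (hq2 : (1 - δ) * p ≤ τ * p - q)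
    (hq : τ * p * q - p ^ 2 - q ^ 2 = M) : p * δ ≤ M := by
  have h3 : 0 ≤ (q - (1 - δ) * p) * (τ * p - q - (1 - δ) * p) :=
    mul_nonneg (by linarith) (by linarith)
  have h4 : 0 ≤ (τ - 2 - 2 * δ) * (1 - δ) := mul_nonneg (by linarith) (by linarith)
  have h5 : 0 ≤ δ * (1 / 2 - δ) := mul_nonneg hδ0.le (by linarith)
  have h6 : 0 ≤ p ^ 2 * ((τ - 2 - 2 * δ) * (1 - δ)) := mul_nonneg (sq_nonneg p) h4
  have h7 : 0 ≤ p ^ 2 * (δ * (1 / 2 - δ)) := mul_nonneg (sq_nonneg p) h5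
  have h8 : 0 ≤ δ * (p * (p - 2)) :=
    mul_nonneg hδ0.le (mul_nonneg (by linarith) (by linarith))
  nlinarith [h3, h6, h7, h8]

private theorem h154_zpow_W (g : SL) (k : ℤ) : act (g ^ k) (W g) = W g := by
  rw [← W_conj]; congr 1; group

set_option maxHeartbeats 4000000 in
private theorem h154_R1 {γ : SL} (ht : 2 < |ea γ + ed γ|) :
    ∃ R1 : ℝ, ∀ x ∈ Cone, B x x = 1 → B x (W γ) = 0 → ∃ k : ℤ, tr (act (γ ^ k) x) ≤ R1 := by
  set τ : ℝ := (ea γ + ed γ) ^ 2 - 2 with hτ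
  have hτ2 : 2 < τ := by
    have : 4 < (ea γ + ed γ) ^ 2 := by
      rw [← sq_abs]
      nlinarith
    linarith
  set δ : ℝ := min (1 / 2) ((τ - 2) / 2) with hδ
  have hδ0 : 0 < δ := lt_min (by norm_num) (by linarith)
  have hδ1 : δ ≤ 1 / 2 := min_le_left _ _
  have hδ2 : δ ≤ (τ - 2) / 2 := min_le_right _ _
  set M : ℝ := (ea γ + ed γ) ^ 2 * ((ea γ + ed γ) ^ 2 - 4 + (ec γ - eb γ) ^ 2) with hM
  refine ⟨M / δ, fun x hx h1 h2 => ?_⟩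
  set f : ℤ → ℝ := fun k => tr (act (γ ^ k) x) with hf
  have hC : ∀ k : ℤ, act (γ ^ k) x ∈ Cone := fun k => act_mem_Cone _ hx
  have hB : ∀ k : ℤ, B (act (γ ^ k) x) (act (γ ^ k) x) = 1 := fun k => by rw [B_act, h1]
  have hW : ∀ k : ℤ, B (act (γ ^ k) x) (W γ) = 0 := by
    intro k
    rw [← h154_zpow_W γ k, B_act, h2]
  have hf2 : ∀ k, 2 ≤ f k := fun k => h154_tr_ge (hC k) (hB k)
  have hbd : BddBelow (Set.range f) := ⟨2, by rintro _ ⟨k, rfl⟩; exact hf2 k⟩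
  have hI2 : 2 ≤ ⨅ k, f k := le_ciInf hf2
  have hρ : 0 < 1 - δ := by linarith
  have hlt : (⨅ k, f k) < (⨅ k, f k) / (1 - δ) := by
    rw [lt_div_iff₀ hρ]
    have := mul_pos (lt_of_lt_of_le (by norm_num : (0 : ℝ) < 2) hI2) hδ0
    linarith
  obtain ⟨k, hk⟩ := exists_lt_of_ciInf_lt hlt
  rw [lt_div_iff₀ hρ] at hk
  refine ⟨k, ?_⟩
  have hup : (⨅ k, f k) ≤ f (1 + k) := ciInf_le hbd _
  have hdn : (⨅ k, f k) ≤ f (-1 + k) := ciInf_le hbd _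
  have e1 : f (1 + k) = tr (act γ (act (γ ^ k) x)) := by
    simp only [hf]
    rw [← act_mul, zpow_one_add]
  have e2 : f (-1 + k) = tr (act γ⁻¹ (act (γ ^ k) x)) := by
    simp only [hf]
    rw [← act_mul, zpow_add, zpow_neg_one]
  have hs := h154_step γ _ (hW k)
  have hq := h154_quad γ _ (hW k) (hB k)
  rw [← e1, ← e2] at hs
  rw [← e1] at hq
  have hfk : tr (act (γ ^ k) x) = f k := rfl
  rw [hfk] at hs hq ⊢
  have hp := hf2 k
  set p := f k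
  set q := f (1 + k)
  have hq1 : (1 - δ) * p ≤ q := by linarith
  have hq2 : (1 - δ) * p ≤ τ * p - q := by
    have : f (-1 + k) = τ * p - q := by linarith
    linarith
  rw [le_div_iff₀ hδ0]
  exact h154_core hδ0 hδ1 hδ2 hp hq1 hq2 (by linarith)

theorem sparse {Γ : Subgroup SL} (hΓ : Good Γ) {γ : SL} (hγ : γ ∈ Γ) (h1 : γ ≠ 1) (R : ℝ) :
    ∃ Γ' : Subgroup SL, Γ' ≤ Γ ∧ (Γ'.subgroupOf Γ).index ≠ 0 ∧ γ ∈ Γ' ∧ Disj Γ' γ ∧
      ∀ δ ∈ Cj Γ' γ, δ ≠ γ → Far R (W δ) := by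
  obtain ⟨R0, hR0⟩ := h154_R1 (hΓ.hyp γ hγ h1)
  set R1 : ℝ := max R R0 with hR1
  set S : Set SL := {δ | δ ∈ Γ ∧ ea δ + ed δ = ea γ + ed γ ∧
    ∃ y ∈ Cone, B y y = 1 ∧ B y (W δ) = 0 ∧ tr y ≤ R1} with hS
  have hSfin : S.Finite := wall_fin hΓ hγ h1 R1
  set F : Set SL := (fun δ => δ * γ⁻¹) '' (S \ {γ}) with hF
  have hFfin : F.Finite := (hSfin.subset Set.sdiff_subset).image _
  have h1F : (1 : SL) ∉ F := by
    rintro ⟨δ, ⟨-, hδ⟩, h⟩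
    apply hδ
    simp only at h
    exact mul_inv_eq_one.1 h
  obtain ⟨K, hKΓ, hKi, hKn, hKF⟩ := rf hΓ hFfin h1F
  let Γ' : Subgroup SL :=
    { carrier := {g | g ∈ Γ ∧ g * γ * g⁻¹ * γ⁻¹ ∈ K}
      one_mem' := ⟨Γ.one_mem, by simp [K.one_mem]⟩
      mul_mem' := by
        rintro g h ⟨hg1, hg2⟩ ⟨hh1, hh2⟩
        refine ⟨Γ.mul_mem hg1 hh1, ?_⟩
        have e : g * h * γ * (g * h)⁻¹ * γ⁻¹ =
            (g * (h * γ * h⁻¹ * γ⁻¹) * g⁻¹) * (g * γ * g⁻¹ * γ⁻¹) := by group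
        rw [e]
        exact K.mul_mem (hKn g hg1 _ hh2) hg2
      inv_mem' := by
        rintro g ⟨hg1, hg2⟩
        refine ⟨Γ.inv_mem hg1, ?_⟩
        have e : g⁻¹ * γ * g⁻¹⁻¹ * γ⁻¹ = g⁻¹ * (g * γ * g⁻¹ * γ⁻¹)⁻¹ * g⁻¹⁻¹ := by group
        rw [e]
        exact hKn _ (Γ.inv_mem hg1) _ (K.inv_mem hg2) }
  have hmem : ∀ g, g ∈ Γ' ↔ g ∈ Γ ∧ g * γ * g⁻¹ * γ⁻¹ ∈ K := fun g => Iff.rfl
  have hΓ'Γ : Γ' ≤ Γ := fun g hg => ((hmem g).1 hg).1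
  have hKΓ' : K ≤ Γ' := by
    intro k hk
    rw [hmem]
    refine ⟨hKΓ hk, ?_⟩
    have e : k * γ * k⁻¹ * γ⁻¹ = k * (γ * k⁻¹ * γ⁻¹) := by group
    rw [e]
    exact K.mul_mem hk (hKn γ hγ _ (K.inv_mem hk))
  have hγΓ' : γ ∈ Γ' := by
    rw [hmem]
    exact ⟨hγ, by simp [K.one_mem]⟩
  have hCj : ∀ δ ∈ Cj Γ' γ, δ ≠ γ → ∀ y ∈ Cone, B y y = 1 → B y (W δ) = 0 → R1 < tr y := by
    rintro δ ⟨g, hg, rfl⟩ hne y hy hy1 hy2
    by_contra hc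
    push Not at hc
    have hgΓ := ((hmem g).1 hg).1
    have hcjΓ : g * γ * g⁻¹ ∈ Cj Γ γ := ⟨g, hgΓ, rfl⟩
    refine hKF (g * γ * g⁻¹ * γ⁻¹) ⟨g * γ * g⁻¹, ⟨⟨cj_mem hγ hcjΓ, cj_tr hcjΓ, y, hy, hy1, hy2, hc⟩, hne⟩,
      rfl⟩ ((hmem g).1 hg).2
  refine ⟨Γ', hΓ'Γ, ?_, hγΓ', ?_, ?_⟩
  · have hle : K.subgroupOf Γ ≤ Γ'.subgroupOf Γ := by
      intro x hx
      rw [Subgroup.mem_subgroupOf] at hx ⊢
      exact hKΓ' hx
    exact ne_zero_of_dvd_ne_zero hKi (Subgroup.index_dvd_of_le hle)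
  · rintro δ ⟨g, hg, rfl⟩ δ' hδ' hne x hx hx1 hx2
    -- normalise
    set r : ℝ := (Real.sqrt (B x x))⁻¹ with hr
    have hr0 : 0 < r := inv_pos.2 (Real.sqrt_pos.2 hx.2)
    have hrr : r * (r * B x x) = 1 := by
      have h5 := Real.mul_self_sqrt hx.2.le
      have h6 : Real.sqrt (B x x) ≠ 0 := (Real.sqrt_pos.2 hx.2).ne'
      rw [hr]
      nth_rewrite 3 [← h5]
      field_simp
    set y : V := act g⁻¹ (r • x) with hy
    have hrx : r • x ∈ Cone := by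
      refine ⟨?_, ?_⟩
      · simp only [Prod.smul_fst, smul_eq_mul]
        exact mul_pos hr0 hx.1
      · rw [B_smul_left, B_smul_right, hrr]; norm_num
    have hyC : y ∈ Cone := act_mem_Cone _ hrx
    have hy1 : B y y = 1 := by
      rw [hy, B_act, B_smul_left, B_smul_right, hrr]
    have hyγ : B y (W γ) = 0 := by
      rw [hy, B_act_left, inv_inv, ← W_conj, B_smul_left, hx1, mul_zero]
    obtain ⟨k, hk⟩ := hR0 y hyC hy1 hyγ
    set δ3 : SL := γ ^ k * (g⁻¹ * δ' * g⁻¹⁻¹) * (γ ^ k)⁻¹ with hδ3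
    have hδ3m : δ3 ∈ Cj Γ' γ :=
      cj_conj (Γ'.zpow_mem hγΓ' k) (cj_conj (Γ'.inv_mem hg) hδ')
    have hδ3ne : δ3 ≠ γ := by
      intro h
      apply hne
      have e : δ' = g * ((γ ^ k)⁻¹ * δ3 * γ ^ k) * g⁻¹ := by
        rw [hδ3]; group
      rw [e, h]
      group
    have hw : B (act (γ ^ k) y) (W δ3) = 0 := by
      rw [hδ3, W_conj, B_act, W_conj, hy, B_act, B_smul_left, hx2, mul_zero]
    have h7 := hCj δ3 hδ3m hδ3ne (act (γ ^ k) y) (act_mem_Cone _ hyC) (by rw [B_act, hy1]) hw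
    have h8 : R0 ≤ R1 := le_max_right _ _
    linarith
  · intro δ hδ hne y hy hy1 hy2
    have h7 := hCj δ hδ hne y hy hy1 hy2
    have h8 : R ≤ R1 := le_max_left _ _
    linarith



end Pool.Agent.SCD
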