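import Mathlib
import Pool.Agent.SCD.Basic
import Pool.Agent.SCD.L_mono_const

set_option autoImplicit false

namespace Pool.Agent.SCD

open Filter Topology Set


private theorem mono_exists_aux {E G : Type*} [NormedAddCommGroup E] [NormedSpace ℝ E] [Group G] {X : Set E}
    (hX : Convex ℝ X) (x0 : E) (hx0 : x0 ∈ X) (τ : E → E → G)
    (hloc : ∀ q ∈ X, ∃ r > 0, ∀ a ∈ X, ∀ b ∈ X, ∀ c ∈ X, a ∈ Metric.ball q r →
      b ∈ Metric.ball q r → c ∈ Metric.ball q r → τ a b * τ b c = τ a c) :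
    ∃ S : E → G, ∀ q ∈ X, ∃ r > 0, ∀ a ∈ X, ∀ b ∈ X, a ∈ Metric.ball q r → b ∈ Metric.ball q r →
      (S a)⁻¹ * S b = τ a b := by
  obtain ⟨γ, hγ⟩ : ∃ γ : E → ℝ → E, ∀ x u, γ x u = x0 + u • (x - x0) := ⟨_, fun _ _ => rfl⟩
  have hγX : ∀ x ∈ X, ∀ u : ℝ, 0 ≤ u → u ≤ 1 → γ x u ∈ X := by
    intro x hx u h0 h1
    rw [hγ]
    exact hX.add_smul_sub_mem hx0 hx ⟨h0, h1⟩
  have hγ0 : ∀ x, γ x 0 = x0 := by intro x; rw [hγ]; simp
  have hγ1 : ∀ x, γ x 1 = x := by intro x; rw [hγ]; simp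
  have hd1 : ∀ x y (u : ℝ), 0 ≤ u → u ≤ 1 → dist (γ y u) (γ x u) ≤ dist y x := by
    intro x y u h0 h1
    rw [hγ, hγ, dist_add_left, dist_eq_norm, ← smul_sub, norm_smul, Real.norm_of_nonneg h0,
      dist_eq_norm]
    have : y - x0 - (x - x0) = y - x := by abel
    rw [this]
    exact mul_le_of_le_one_left (norm_nonneg _) h1
  have hd2 : ∀ x (u v : ℝ), dist (γ x u) (γ x v) = |u - v| * dist x x0 := by
    intro x u v
    rw [hγ, hγ, dist_add_left, dist_eq_norm, ← sub_smul, norm_smul, Real.norm_eq_abs, dist_eq_norm]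
  choose! r hr0 hr using hloc
  have L1 : ∀ x ∈ X, ∃ ε > 0, ∀ u : ℝ, 0 ≤ u → u ≤ 1 → ∀ a ∈ X, ∀ b ∈ X, ∀ c ∈ X,
      dist a (γ x u) < ε → dist b (γ x u) < ε → dist c (γ x u) < ε → τ a b * τ b c = τ a c := by
    intro x hx
    have hK : IsCompact (γ x '' Set.Icc (0:ℝ) 1) := by
      refine isCompact_Icc.image ?_
      have : γ x = fun u => x0 + u • (x - x0) := funext (hγ x)
      rw [this]; fun_prop
    obtain ⟨ε, hε, h⟩ := lebesgue_number_lemma_of_metric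
      (c := fun q : X => Metric.ball (q : E) (r q)) hK (fun q => Metric.isOpen_ball) (by
      rintro _ ⟨u, ⟨h0, h1⟩, rfl⟩
      have hq := hγX x hx u h0 h1
      exact Set.mem_iUnion.2 ⟨⟨γ x u, hq⟩, Metric.mem_ball_self (hr0 _ hq)⟩)
    refine ⟨ε, hε, fun u h0 h1 a ha b hb c hc da db dc => ?_⟩
    obtain ⟨q, hq⟩ := h (γ x u) ⟨u, ⟨h0, h1⟩, rfl⟩
    exact hr q q.2 a ha b hb c hc (hq (Metric.mem_ball.2 da)) (hq (Metric.mem_ball.2 db))
      (hq (Metric.mem_ball.2 dc))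
  obtain ⟨P, hP0, hPS⟩ : ∃ P : E → ℕ → ℕ → G, (∀ x N, P x N 0 = 1) ∧ ∀ x N j, P x N (j+1)
      = P x N j * τ (γ x ((j:ℝ)/N)) (γ x (((j+1 : ℕ) : ℝ)/N)) :=
    ⟨fun x N j => Nat.rec 1 (fun j g => g * τ (γ x ((j:ℝ)/N)) (γ x (((j+1 : ℕ) : ℝ)/N))) j,
      fun _ _ => rfl, fun _ _ _ => rfl⟩
  have hττ : ∀ x ∈ X, ∀ ε > 0, ∀ u : ℝ, 0 ≤ u → u ≤ 1 → (∀ a ∈ X, ∀ b ∈ X, ∀ c ∈ X,
      dist a (γ x u) < ε → dist b (γ x u) < ε → dist c (γ x u) < ε → τ a b * τ b c = τ a c) →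
      τ (γ x u) (γ x u) = 1 := by
    intro x hx ε hε u h0 h1 h
    have hm := hγX x hx u h0 h1
    have hz : dist (γ x u) (γ x u) < ε := by rw [dist_self]; exact hε
    have := h _ hm _ hm _ hm hz hz hz
    exact mul_eq_left.1 this
  have L3 : ∀ x ∈ X, ∃ N0 : ℕ, 1 ≤ N0 ∧ ∀ N, N0 ≤ N → ∀ M, 1 ≤ M →
      P x (N*M) (N*M) = P x N N := by
    intro x hx
    obtain ⟨ε, hε, hc⟩ := L1 x hx
    obtain ⟨n, hn⟩ := exists_nat_gt (dist x x0 / ε)
    refine ⟨n + 1, by omega, fun N hN M hM => ?_⟩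
    have hN0 : (0:ℝ) < N := by exact_mod_cast (by omega : 0 < N)
    have hM0 : (0:ℝ) < M := by exact_mod_cast hM
    have hNx : dist x x0 / N < ε := by
      rw [div_lt_iff₀ hN0]
      rw [div_lt_iff₀ hε] at hn
      have : (n:ℝ) ≤ N := by exact_mod_cast (by omega : n ≤ N)
      nlinarith
    have hpt : ∀ j, j < N → ∀ i, i ≤ M → 0 ≤ ((j*M+i : ℕ) : ℝ)/((N*M : ℕ) : ℝ) ∧
        ((j*M+i : ℕ) : ℝ)/((N*M : ℕ) : ℝ) ≤ 1 ∧
        dist (γ x (((j*M+i : ℕ) : ℝ)/((N*M : ℕ) : ℝ))) (γ x ((j:ℝ)/N)) < ε := by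
      intro j hj i hi
      refine ⟨by positivity, ?_, ?_⟩
      · rw [div_le_one (by push_cast; positivity)]
        have : j * M + i ≤ N * M := by nlinarith
        exact_mod_cast this
      · rw [hd2]
        have e : ((j*M+i : ℕ) : ℝ)/((N*M : ℕ) : ℝ) - (j:ℝ)/N = (i:ℝ) / (N * M) := by
          push_cast
          field_simp
          ring
        rw [e, abs_of_nonneg (by positivity)]
        have h1 : (i:ℝ) / (N * M) ≤ 1 / N := by
          rw [div_le_div_iff₀ (by positivity) hN0]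
          have : (i:ℝ) ≤ M := by exact_mod_cast hi
          nlinarith
        calc (i:ℝ) / (N * M) * dist x x0 ≤ 1 / N * dist x x0 :=
              mul_le_mul_of_nonneg_right h1 dist_nonneg
          _ = dist x x0 / N := by ring
          _ < ε := hNx
    have hj01 : ∀ j, j < N → 0 ≤ (j:ℝ)/N ∧ (j:ℝ)/N ≤ 1 := by
      intro j hj
      refine ⟨by positivity, ?_⟩
      rw [div_le_one hN0]
      exact_mod_cast hj.le
    have key : ∀ j, j < N → ∀ i, i ≤ M → P x (N*M) (j*M+i) = P x (N*M) (j*M) *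
        τ (γ x ((j:ℝ)/N)) (γ x (((j*M+i : ℕ) : ℝ)/((N*M : ℕ) : ℝ))) := by
      intro j hj i
      induction i with
      | zero =>
        intro _
        have e : ((j*M+0 : ℕ) : ℝ)/((N*M : ℕ) : ℝ) = (j:ℝ)/N := by
          push_cast; field_simp; ring
        rw [e, hττ x hx ε hε _ (hj01 j hj).1 (hj01 j hj).2 (hc _ (hj01 j hj).1 (hj01 j hj).2),
          mul_one, add_zero]
      | succ i ih =>
        intro hi
        have ih' := ih (by omega)
        have h1 := hpt j hj i (by omega)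
        have h2 := hpt j hj (i+1) hi
        rw [← add_assoc, hPS, ih', mul_assoc]
        congr 1
        refine hc _ (hj01 j hj).1 (hj01 j hj).2 _ (hγX x hx _ (hj01 j hj).1 (hj01 j hj).2) _
          (hγX x hx _ h1.1 h1.2.1) _ (hγX x hx _ h2.1 h2.2.1) ?_ h1.2.2 h2.2.2
        rw [dist_self]; exact hε
    have key2 : ∀ j, j ≤ N → P x (N*M) (j*M) = P x N j := by
      intro j
      induction j with
      | zero => intro _; rw [zero_mul, hP0, hP0]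
      | succ j ih =>
        intro hj
        have ih' := ih (by omega)
        rw [add_mul, one_mul, key j (by omega) M le_rfl, ih', hPS]
        congr 3
        push_cast
        field_simp
    exact key2 N le_rfl
  have L2 : ∀ x ∈ X, ∃ ρ > 0, ∃ N0 : ℕ, ∀ N, N0 ≤ N → 1 ≤ N → ∀ y ∈ X, ∀ z ∈ X,
      dist y x < ρ → dist z x < ρ → ∀ j, j ≤ N →
        (P y N j)⁻¹ * P z N j = τ (γ y ((j:ℝ)/N)) (γ z ((j:ℝ)/N)) := by
    intro x hx
    obtain ⟨ε, hε, hc⟩ := L1 x hx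
    obtain ⟨n, hn⟩ := exists_nat_gt (dist x x0 / (ε/2))
    refine ⟨ε/2, by positivity, n, fun N hN hN1 y hy z hz hyx hzx j => ?_⟩
    have hN0 : (0:ℝ) < N := by exact_mod_cast (by omega : 0 < N)
    have hNx : dist x x0 / N < ε / 2 := by
      rw [div_lt_iff₀ hN0]
      rw [div_lt_iff₀ (by positivity)] at hn
      have : (n:ℝ) ≤ N := by exact_mod_cast hN
      nlinarith
    have hj01 : ∀ j, j ≤ N → 0 ≤ (j:ℝ)/N ∧ (j:ℝ)/N ≤ 1 := by
      intro j hj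
      refine ⟨by positivity, ?_⟩
      rw [div_le_one hN0]
      exact_mod_cast hj
    have hdist : ∀ w, dist w x < ε / 2 → ∀ j, j < N → dist (γ w ((j:ℝ)/N)) (γ x ((j:ℝ)/N)) < ε ∧
        dist (γ w (((j+1 : ℕ):ℝ)/N)) (γ x ((j:ℝ)/N)) < ε := by
      intro w hw j hj
      have a1 := hj01 j hj.le
      have a2 := hj01 (j+1) hj
      constructor
      · linarith [hd1 x w _ a1.1 a1.2]
      · have h1 := hd1 x w _ a2.1 a2.2
        have h2 : dist (γ x (((j+1 : ℕ):ℝ)/N)) (γ x ((j:ℝ)/N)) < ε / 2 := by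
          rw [hd2]
          have e : ((j+1 : ℕ):ℝ)/N - (j:ℝ)/N = 1 / N := by push_cast; ring
          rw [e, abs_of_nonneg (by positivity)]
          calc 1 / (N:ℝ) * dist x x0 = dist x x0 / N := by ring
            _ < _ := hNx
        linarith [dist_triangle (γ w (((j+1 : ℕ):ℝ)/N)) (γ x (((j+1 : ℕ):ℝ)/N)) (γ x ((j:ℝ)/N))]
    induction j with
    | zero =>
      intro _
      rw [hP0, hP0, inv_one, one_mul, Nat.cast_zero, zero_div, hγ0, hγ0]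
      have := hττ x hx ε hε 0 le_rfl zero_le_one (hc 0 le_rfl zero_le_one)
      rw [hγ0] at this
      exact this.symm
    | succ j ih =>
      intro hj
      have ih' := ih (by omega)
      have a1 := hj01 j (by omega)
      have a2 := hj01 (j+1) hj
      obtain ⟨y1, y2⟩ := hdist y hyx j hj
      obtain ⟨z1, z2⟩ := hdist z hzx j hj
      have my1 := hγX y hy _ a1.1 a1.2
      have my2 := hγX y hy _ a2.1 a2.2
      have mz1 := hγX z hz _ a1.1 a1.2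
      have mz2 := hγX z hz _ a2.1 a2.2
      have e1 := hc _ a1.1 a1.2 _ my1 _ my2 _ mz2 y1 y2 z2
      have e2 := hc _ a1.1 a1.2 _ my1 _ mz1 _ mz2 y1 z1 z2
      rw [hPS, hPS, mul_inv_rev]
      calc (τ (γ y ((j:ℝ)/N)) (γ y (((j+1 : ℕ):ℝ)/N)))⁻¹ * (P y N j)⁻¹ *
            (P z N j * τ (γ z ((j:ℝ)/N)) (γ z (((j+1 : ℕ):ℝ)/N)))
          = (τ (γ y ((j:ℝ)/N)) (γ y (((j+1 : ℕ):ℝ)/N)))⁻¹ * (((P y N j)⁻¹ *
            P z N j) * τ (γ z ((j:ℝ)/N)) (γ z (((j+1 : ℕ):ℝ)/N))) := by group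
        _ = _ := by rw [ih', e2, ← e1, inv_mul_cancel_left]
  choose! N0 hN01 hN0 using L3
  refine ⟨fun x => P x (N0 x) (N0 x), fun q hq => ?_⟩
  obtain ⟨ρ, hρ, n, hn⟩ := L2 q hq
  refine ⟨ρ, hρ, fun a ha b hb hab hbb => ?_⟩
  have hstab : ∀ x ∈ X, ∀ N, N0 x ≤ N → P x N N = P x (N0 x) (N0 x) := by
    intro x hx N hN
    have h1 := hN0 x hx N hN (N0 x) (hN01 x hx)
    have h2 := hN0 x hx (N0 x) le_rfl N ((hN01 x hx).trans hN)
    rw [← h1, ← h2, mul_comm]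
  obtain ⟨N, h1, h2, h3, h4⟩ : ∃ N, n ≤ N ∧ 1 ≤ N ∧ N0 a ≤ N ∧ N0 b ≤ N :=
    ⟨n + 1 + N0 a + N0 b, by omega, by omega, by omega, by omega⟩
  have := hn N h1 h2 a ha b hb hab hbb N le_rfl
  rw [div_self (by exact_mod_cast (by omega : N ≠ 0)), hγ1, hγ1, hstab a ha N h3,
    hstab b hb N h4] at this
  exact this

/-- MONODROMY: a local cocycle over a convex set has a potential -/
theorem mono_exists {E Y G : Type*} [NormedAddCommGroup E] [NormedSpace ℝ E] [Group G] {X : Set E}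
    (hX : Convex ℝ X) (p : Y → E) (hp : ∀ y, p y ∈ X) (hsurj : ∀ x ∈ X, ∃ y, p y = x)
    (t : Y → Y → G)
    (hloc : ∀ q ∈ X, ∃ r > 0, ∀ y1 y2 y3, p y1 ∈ Metric.ball q r → p y2 ∈ Metric.ball q r →
      p y3 ∈ Metric.ball q r → t y1 y2 * t y2 y3 = t y1 y3) :
    ∃ s : Y → G, ∀ q ∈ X, ∃ r > 0, ∀ y1 y2, p y1 ∈ Metric.ball q r → p y2 ∈ Metric.ball q r →
      (s y1)⁻¹ * s y2 = t y1 y2 := by
  rcases isEmpty_or_nonempty Y with hY | hY
  · refine ⟨fun _ => 1, fun q hq => ?_⟩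
    obtain ⟨y, _⟩ := hsurj q hq
    exact hY.elim y
  choose! sec hsec using hsurj
  obtain ⟨y0⟩ := id hY
  obtain ⟨S, hS⟩ := mono_exists_aux hX (p y0) (hp y0) (fun a b => t (sec a) (sec b))
    (fun q hq => by
      obtain ⟨r, hr, h⟩ := hloc q hq
      refine ⟨r, hr, fun a ha b hb c hc h1 h2 h3 => ?_⟩
      apply h
      · rw [hsec a ha]; exact h1
      · rw [hsec b hb]; exact h2
      · rw [hsec c hc]; exact h3)
  refine ⟨fun y => S (p y) * t (sec (p y)) y, fun q hq => ?_⟩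
  obtain ⟨r1, hr1, h1⟩ := hloc q hq
  obtain ⟨r2, hr2, h2⟩ := hS q hq
  refine ⟨min r1 r2, lt_min hr1 hr2, fun y1 y2 hy1 hy2 => ?_⟩
  have a1 : p y1 ∈ Metric.ball q r1 := Metric.ball_subset_ball (min_le_left _ _) hy1
  have a2 : p y2 ∈ Metric.ball q r1 := Metric.ball_subset_ball (min_le_left _ _) hy2
  have b1 : p y1 ∈ Metric.ball q r2 := Metric.ball_subset_ball (min_le_right _ _) hy1
  have b2 : p y2 ∈ Metric.ball q r2 := Metric.ball_subset_ball (min_le_right _ _) hy2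
  have c1 : p (sec (p y1)) = p y1 := hsec _ (hp y1)
  have c2 : p (sec (p y2)) = p y2 := hsec _ (hp y2)
  have e1 := h2 _ (hp y1) _ (hp y2) b1 b2
  have e2 := h1 (sec (p y1)) (sec (p y2)) y2 (by rw [c1]; exact a1) (by rw [c2]; exact a2) a2
  have e3 := h1 (sec (p y1)) y1 y2 (by rw [c1]; exact a1) a1 a2
  calc (S (p y1) * t (sec (p y1)) y1)⁻¹ * (S (p y2) * t (sec (p y2)) y2)
      = (t (sec (p y1)) y1)⁻¹ * (((S (p y1))⁻¹ * S (p y2)) * t (sec (p y2)) y2) := by group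
    _ = (t (sec (p y1)) y1)⁻¹ * (t (sec (p y1)) y1 * t y1 y2) := by rw [e1, e2, e3]
    _ = t y1 y2 := by group



end Pool.Agent.SCD
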