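import Mathlib
import Pool.Agent.SCD.Basic
import Pool.Agent.SCD.L_mono_const
import Pool.Agent.SCD.L_mono_exists
import Pool.Agent.SCD.L_B_pos
import Pool.Agent.SCD.L_cj_basic
import Pool.Agent.SCD.L_wall_locfin
import Pool.Agent.SCD.L_wall_const

set_option autoImplicit false

namespace Pool.Agent.SCD

open Filter Topology Set


/-- `x` is in the closure of the region of the generic point `z` -/
private def PE_Cl (Γ : Subgroup SL) (γ : SL) (x z : V) : Prop :=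
  x ∈ Cone ∧ Gn Γ γ z ∧ ∀ δ ∈ Cj Γ γ, 0 ≤ B x (W δ) * B z (W δ)

open Classical in
/-- the local cocycle -/
private noncomputable def PE_kap (Γ : Subgroup SL) (γ : SL) (e : ℤ) (z z' : V) : SL :=
  if h : ∃ δ, δ ∈ Cj Γ γ ∧ B z (W δ) * B z' (W δ) < 0 then
    h.choose ^ (if 0 < B z (W h.choose) then e else -e) else 1

private theorem PE_kap_mem {Γ : Subgroup SL} {γ : SL} (hγ : γ ∈ Γ) (e : ℤ) (z z' : V) :
    PE_kap Γ γ e z z' ∈ Γ := by
  unfold PE_kap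
  by_cases h : ∃ δ, δ ∈ Cj Γ γ ∧ B z (W δ) * B z' (W δ) < 0
  · rw [dif_pos h]
    exact Γ.zpow_mem (cj_mem hγ h.choose_spec.1) _
  · rw [dif_neg h]
    exact Γ.one_mem

private theorem PE_kap_same {Γ : Subgroup SL} {γ : SL} (e : ℤ) {z z' : V} (h : Same Γ γ z z') :
    PE_kap Γ γ e z z' = 1 := by
  unfold PE_kap
  rw [dif_neg]
  rintro ⟨δ, hδ, hlt⟩
  exact absurd (h δ hδ) (not_lt.2 hlt.le)

open Classical in
private theorem PE_kap_eq {Γ : Subgroup SL} {γ : SL} (e : ℤ) {z z' : V} {δ : SL} (hδ : δ ∈ Cj Γ γ)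
    (hpos : ∀ δ' ∈ Cj Γ γ, δ' ≠ δ → 0 < B z (W δ') * B z' (W δ'))
    (hz : B z (W δ) ≠ 0) (hz' : B z' (W δ) ≠ 0) :
    PE_kap Γ γ e z z' = δ ^ ((if 0 < B z (W δ) then e else 0) -
      (if 0 < B z' (W δ) then e else 0)) := by
  unfold PE_kap
  by_cases h : ∃ δ, δ ∈ Cj Γ γ ∧ B z (W δ) * B z' (W δ) < 0
  · have hc : h.choose = δ := by
      by_contra hne
      exact absurd (hpos _ h.choose_spec.1 hne) (not_lt.2 h.choose_spec.2.le)
    have hlt := h.choose_spec.2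
    rw [dif_pos h]
    rw [hc] at hlt ⊢
    congr 1
    rcases lt_or_gt_of_ne hz with h1 | h1
    · have h2 : 0 < B z' (W δ) := by
        by_contra h2
        push Not at h2
        nlinarith [mul_nonneg_of_nonpos_of_nonpos h1.le h2]
      rw [if_neg (not_lt.2 h1.le), if_neg (not_lt.2 h1.le), if_pos h2, zero_sub]
    · have h2 : B z' (W δ) < 0 := by
        by_contra h2
        push Not at h2
        nlinarith [mul_nonneg h1.le h2]
      rw [if_pos h1, if_pos h1, if_neg (not_lt.2 h2.le), sub_zero]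
  · rw [dif_neg h]
    push Not at h
    have h0 := h δ hδ
    rcases lt_or_gt_of_ne hz with h1 | h1
    · have h2 : B z' (W δ) < 0 := by
        by_contra h2
        push Not at h2
        have h3 : 0 < B z' (W δ) := lt_of_le_of_ne h2 (Ne.symm hz')
        nlinarith [mul_neg_of_neg_of_pos h1 h3]
      rw [if_neg (not_lt.2 h1.le), if_neg (not_lt.2 h2.le), sub_zero, zpow_zero]
    · have h2 : 0 < B z' (W δ) := by
        by_contra h2
        push Not at h2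
        have h3 : B z' (W δ) < 0 := lt_of_le_of_ne h2 hz'
        nlinarith [mul_neg_of_pos_of_neg h1 h3]
      rw [if_pos h1, if_pos h2, sub_self, zpow_zero]

private theorem PE_sgn {a b c : ℝ} (h1 : 0 < a * b) (h2 : 0 ≤ b * c) (h3 : c ≠ 0) : 0 < a * c := by
  have hb : b ≠ 0 := by rintro rfl; simp at h1
  have h4 : 0 < b * c := lt_of_le_of_ne h2 (Ne.symm (mul_ne_zero hb h3))
  have h5 : 0 < b ^ 2 := by positivity
  have h6 : 0 < (a * b) * (b * c) := mul_pos h1 h4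
  have h7 : (a * b) * (b * c) = (a * c) * b ^ 2 := by ring
  rw [h7] at h6
  exact (pos_iff_pos_of_mul_pos h6).2 h5

private theorem PE_sgn2 {a b c : ℝ} (h1 : 0 < a * b) (h2 : 0 < a * c) : 0 < b * c := by
  have ha : a ≠ 0 := by rintro rfl; simp at h1
  have h5 : 0 < a ^ 2 := by positivity
  have h6 : 0 < (a * b) * (a * c) := mul_pos h1 h2
  have h7 : (a * b) * (a * c) = (b * c) * a ^ 2 := by ring
  rw [h7] at h6
  exact (pos_iff_pos_of_mul_pos h6).2 h5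

private theorem PE_surj {Γ : Subgroup SL} (hΓ : Good Γ) {γ : SL} (hγ : γ ∈ Γ) (h1 : γ ≠ 1)
    (hD : Disj Γ γ) {x : V} (hx : x ∈ Cone) : ∃ z, PE_Cl Γ γ x z := by
  obtain ⟨r, hr, hb, hs⟩ := wall_locfin hΓ hγ h1 hx
  by_cases h : ∃ δ, δ ∈ Cj Γ γ ∧ B x (W δ) = 0
  · obtain ⟨δ, hδ, h0⟩ := h
    have hW := cj_BW hΓ hγ h1 hδ
    have hcont : Filter.Tendsto (fun ε : ℝ => x + ε • W δ) (𝓝 0) (𝓝 x) := by
      have hc : Continuous (fun ε : ℝ => x + ε • W δ) := by fun_prop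
      have := hc.tendsto 0
      simpa using this
    have hev : ∀ᶠ ε in 𝓝[>] (0 : ℝ), x + ε • W δ ∈ Metric.ball x r :=
      (hcont.eventually (Metric.ball_mem_nhds x hr)).filter_mono nhdsWithin_le_nhds
    obtain ⟨ε, hε1, hε2⟩ := (hev.and self_mem_nhdsWithin).exists
    have hε : 0 < ε := hε2
    have hz : B (x + ε • W δ) (W δ) = ε * B (W δ) (W δ) := by
      rw [B_add_left, B_smul_left, h0, zero_add]
    have hz0 : B (x + ε • W δ) (W δ) ≠ 0 := by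
      rw [hz]; exact mul_ne_zero hε.ne' hW.ne
    refine ⟨x + ε • W δ, hx, ⟨hb hε1, ?_⟩, ?_⟩
    · intro δ' hδ'
      by_cases hd : δ' = δ
      · rw [hd]; exact hz0
      · have hq := hD δ hδ δ' hδ' (Ne.symm hd) x hx h0
        have := hs δ' hδ' hq _ hε1
        intro h00
        rw [h00, mul_zero] at this
        exact lt_irrefl _ this
    · intro δ' hδ'
      by_cases hd : δ' = δ
      · rw [hd, h0, zero_mul]
      · have hq := hD δ hδ δ' hδ' (Ne.symm hd) x hx h0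
        exact (hs δ' hδ' hq _ hε1).le
  · push Not at h
    exact ⟨x, hx, ⟨hx, h⟩, fun δ _ => mul_self_nonneg _⟩

open Classical in
private theorem PE_main {Γ : Subgroup SL} (hΓ : Good Γ) {γ : SL} (hγ : γ ∈ Γ) (h1 : γ ≠ 1)
    (hD : Disj Γ γ) (e : ℤ) : ∃ S : {p : V × V // PE_Cl Γ γ p.1 p.2} → Γ,
      ∀ q ∈ Cone, ∃ r > 0, ∀ y1 y2 : {p : V × V // PE_Cl Γ γ p.1 p.2},
        y1.1.1 ∈ Metric.ball q r → y2.1.1 ∈ Metric.ball q r →
        ((S y1)⁻¹ * S y2 : Γ) = (⟨PE_kap Γ γ e y1.1.2 y2.1.2, PE_kap_mem hγ e _ _⟩ : Γ) := by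
  refine mono_exists (E := V) (X := Cone) convex_Cone
    (fun y : {p : V × V // PE_Cl Γ γ p.1 p.2} => y.1.1)
    (fun y => y.2.1) ?_
    (fun y y' => (⟨PE_kap Γ γ e y.1.2 y'.1.2, PE_kap_mem hγ e _ _⟩ : Γ)) ?_
  · intro x hx
    obtain ⟨z, hz⟩ := PE_surj hΓ hγ h1 hD hx
    exact ⟨⟨(x, z), hz⟩, rfl⟩
  · intro q hq
    obtain ⟨r, hr, hb, hs⟩ := wall_locfin hΓ hγ h1 hq
    refine ⟨r, hr, ?_⟩
    intro y1 y2 y3 hy1 hy2 hy3
    have key : ∀ y : {p : V × V // PE_Cl Γ γ p.1 p.2}, y.1.1 ∈ Metric.ball q r →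
        ∀ δ ∈ Cj Γ γ, B q (W δ) ≠ 0 → 0 < B q (W δ) * B y.1.2 (W δ) := by
      intro y hy δ hδ h0
      exact PE_sgn (hs δ hδ h0 _ hy) (y.2.2.2 δ hδ) (y.2.2.1.2 δ hδ)
    apply Subtype.ext
    change PE_kap Γ γ e y1.1.2 y2.1.2 * PE_kap Γ γ e y2.1.2 y3.1.2 = PE_kap Γ γ e y1.1.2 y3.1.2
    by_cases h : ∃ δ, δ ∈ Cj Γ γ ∧ B q (W δ) = 0
    · obtain ⟨δ, hδ, h0⟩ := h
      have hf : ∀ y y' : {p : V × V // PE_Cl Γ γ p.1 p.2}, y.1.1 ∈ Metric.ball q r →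
          y'.1.1 ∈ Metric.ball q r → PE_kap Γ γ e y.1.2 y'.1.2 =
            δ ^ ((if 0 < B y.1.2 (W δ) then e else 0) - (if 0 < B y'.1.2 (W δ) then e else 0)) := by
        intro y y' hy hy'
        refine PE_kap_eq e hδ ?_ (y.2.2.1.2 δ hδ) (y'.2.2.1.2 δ hδ)
        intro δ' hδ' hne
        have hq0 := hD δ hδ δ' hδ' (Ne.symm hne) q hq h0
        exact PE_sgn2 (key y hy δ' hδ' hq0) (key y' hy' δ' hδ' hq0)
      rw [hf y1 y2 hy1 hy2, hf y2 y3 hy2 hy3, hf y1 y3 hy1 hy3, ← zpow_add]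
      congr 1
      ring
    · push Not at h
      have hf : ∀ y y' : {p : V × V // PE_Cl Γ γ p.1 p.2}, y.1.1 ∈ Metric.ball q r →
          y'.1.1 ∈ Metric.ball q r → PE_kap Γ γ e y.1.2 y'.1.2 = 1 := by
        intro y y' hy hy'
        refine PE_kap_same e ?_
        intro δ' hδ'
        exact PE_sgn2 (key y hy δ' hδ' (h δ' hδ')) (key y' hy' δ' hδ' (h δ' hδ'))
      rw [hf y1 y2 hy1 hy2, hf y2 y3 hy2 hy3, hf y1 y3 hy1 hy3, mul_one]

theorem pot_exists {Γ : Subgroup SL} (hΓ : Good Γ) {γ : SL} (hγ : γ ∈ Γ) (h1 : γ ≠ 1)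
    (hD : Disj Γ γ) (e : ℤ) {z0 : V} (hz0 : Gn Γ γ z0) :
    ∃ s : V → SL, IsPot Γ γ e s ∧ s z0 = 1 := by
  classical
  obtain ⟨S, hS⟩ := PE_main hΓ hγ h1 hD e
  have hcl : ∀ z, Gn Γ γ z → PE_Cl Γ γ z z := fun z hz => ⟨hz.1, hz, fun δ _ => mul_self_nonneg _⟩
  have hsame : ∀ z, Gn Γ γ z → Same Γ γ z z := fun z hz δ hδ =>
    mul_self_pos.2 (hz.2 δ hδ)
  -- constancy along the region
  have hconst : ∀ x z (h : PE_Cl Γ γ x z) (hz : Gn Γ γ z),
      S ⟨(x, z), h⟩ = S ⟨(z, z), hcl z hz⟩ := by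
    intro x z h hz
    have hseg : ∀ y ∈ segment ℝ x z, PE_Cl Γ γ y z := by
      intro y hy
      refine ⟨convex_Cone.segment_subset h.1 hz.1 hy, hz, ?_⟩
      intro δ hδ
      obtain ⟨a, b, ha, hb, hab, rfl⟩ := hy
      rw [B_add_left, B_smul_left, B_smul_left]
      have h2 := h.2.2 δ hδ
      have h3 : 0 ≤ B z (W δ) * B z (W δ) := mul_self_nonneg _
      have h4 := mul_nonneg ha h2
      have h5 := mul_nonneg hb h3
      nlinarith
    have := mono_const (E := V) (X := segment ℝ x z) (convex_segment x z)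
      (fun y : {y : V // y ∈ segment ℝ x z} => y.1) (fun y => y.2) (fun y hy => ⟨⟨y, hy⟩, rfl⟩)
      (fun y => S ⟨(y.1, z), hseg y.1 y.2⟩) ?_
      ⟨x, left_mem_segment ℝ x z⟩ ⟨z, right_mem_segment ℝ x z⟩
    · exact this
    · intro q hq
      obtain ⟨r, hr, hr2⟩ := hS q (hseg q hq).1
      refine ⟨r, hr, ?_⟩
      intro y1 y2 hy1 hy2
      have h3 := hr2 ⟨(y1.1, z), hseg y1.1 y1.2⟩ ⟨(y2.1, z), hseg y2.1 y2.2⟩ hy1 hy2
      have h4 : (⟨PE_kap Γ γ e z z, PE_kap_mem hγ e _ _⟩ : Γ) = 1 :=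
        Subtype.ext (PE_kap_same e (hsame z hz))
      have h5 := h3.trans h4
      exact (inv_mul_eq_one.1 h5)
  obtain ⟨s, hs⟩ : ∃ s : V → SL, s = fun z =>
    if h : Gn Γ γ z then ((S ⟨(z, z), hcl z h⟩ : Γ) : SL) else 1 := ⟨_, rfl⟩
  have hsG : ∀ z (h : Gn Γ γ z), s z = ((S ⟨(z, z), hcl z h⟩ : Γ) : SL) := by
    intro z h
    rw [hs]
    exact dif_pos h
  have hsmem : ∀ z, s z ∈ Γ := by
    intro z
    rw [hs]
    by_cases h : Gn Γ γ z
    · simp only [dif_pos h]; exact (S ⟨(z, z), hcl z h⟩).2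
    · simp only [dif_neg h]; exact Γ.one_mem
  refine ⟨fun z => (s z0)⁻¹ * s z, ⟨?_, ?_, ?_⟩, ?_⟩
  · intro z
    exact Γ.mul_mem (Γ.inv_mem (hsmem z0)) (hsmem z)
  · intro z z' hz hz' hzz
    have hc : PE_Cl Γ γ z z' := ⟨hz.1, hz', fun δ hδ => (hzz δ hδ).le⟩
    obtain ⟨r, hr, hr2⟩ := hS z hz.1
    have h3 := hr2 ⟨(z, z), hcl z hz⟩ ⟨(z, z'), hc⟩ (Metric.mem_ball_self hr)
      (Metric.mem_ball_self hr)
    have h4 : (⟨PE_kap Γ γ e z z', PE_kap_mem hγ e _ _⟩ : Γ) = 1 :=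
      Subtype.ext (PE_kap_same e hzz)
    have h5 := inv_mul_eq_one.1 (h3.trans h4)
    have h6 := hconst z z' hc hz'
    change (s z0)⁻¹ * s z = (s z0)⁻¹ * s z'
    rw [hsG z hz, hsG z' hz', h5, h6]
  · intro q hq δ hδ h0 z z' hz hz' hp hn
    have hG : ∀ w, AdjAt Γ γ q δ w → Gn Γ γ w := by
      intro w hw
      refine ⟨hw.1, fun δ' hδ' => ?_⟩
      by_cases hd : δ' = δ
      · rw [hd]; exact hw.2.1
      · have := hw.2.2 δ' hδ' hd
        intro h00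
        rw [h00, mul_zero] at this
        exact lt_irrefl _ this
    have hC : ∀ w, AdjAt Γ γ q δ w → PE_Cl Γ γ q w := by
      intro w hw
      refine ⟨hq, hG w hw, fun δ' hδ' => ?_⟩
      by_cases hd : δ' = δ
      · rw [hd, h0, zero_mul]
      · exact (hw.2.2 δ' hδ' hd).le
    obtain ⟨r, hr, hr2⟩ := hS q hq
    have h3 := hr2 ⟨(q, z), hC z hz⟩ ⟨(q, z'), hC z' hz'⟩ (Metric.mem_ball_self hr)
      (Metric.mem_ball_self hr)
    have h4 : PE_kap Γ γ e z z' = δ ^ e := by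
      rw [PE_kap_eq e hδ _ hz.2.1 hz'.2.1, if_pos hp, if_neg (not_lt.2 hn.le), sub_zero]
      intro δ' hδ' hne
      exact PE_sgn2 (hz.2.2 δ' hδ' hne) (hz'.2.2 δ' hδ' hne)
    have h5 : S ⟨(q, z'), hC z' hz'⟩ = S ⟨(q, z), hC z hz⟩ *
        (⟨PE_kap Γ γ e z z', PE_kap_mem hγ e _ _⟩ : Γ) := by
      rw [← h3, mul_inv_cancel_left]
    change (s z0)⁻¹ * s z' = (s z0)⁻¹ * s z * δ ^ e
    rw [hsG z (hG z hz), hsG z' (hG z' hz'), ← hconst q z (hC z hz) (hG z hz),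
      ← hconst q z' (hC z' hz') (hG z' hz'), h5, Subgroup.coe_mul, mul_assoc]
    change _ * (_ * PE_kap Γ γ e z z') = _
    rw [h4]
  · change (s z0)⁻¹ * s z0 = 1
    exact inv_mul_cancel _



end Pool.Agent.SCD
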