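import Mathlib
import Pool.Agent.SCD.Basic
import Pool.Agent.SCD.L_cj_basic
import Pool.Agent.SCD.L_wall_const
import Pool.Agent.SCD.L_adj_facts

set_option autoImplicit false

namespace Pool.Agent.SCD

open Filter Topology Set


theorem pot_inv {Γ : Subgroup SL} (hΓ : Good Γ) {γ : SL} (hγ : γ ∈ Γ) (h1 : γ ≠ 1)
    (hD : Disj Γ γ) {e : ℤ} {s s' : V → SL} (hs : IsPot Γ γ e s) (hs' : IsPot Γ γ (-e) s') {z0 : V}
    (hz0 : Gn Γ γ z0) (h0 : s z0 = 1) (h0' : s' z0 = 1) {z : V} (hz : Gn Γ γ z) :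
    s' (act (s z) z) = (s z)⁻¹ := by
  have hconst := wall_const hΓ hγ h1 hD (fun z => s' (act (s z) z) * s z) ?_ ?_ z z0 hz hz0
  · have hconst' : s' (act (s z) z) * s z = s' (act (s z0) z0) * s z0 := hconst
    rw [h0, act_one, h0', mul_one] at hconst'
    exact eq_inv_of_mul_eq_one_left hconst'
  · intro z z' hz hz' hzz
    show s' (act (s z) z) * s z = s' (act (s z') z') * s z'
    rw [← hs.same z z' hz hz' hzz]
    rw [hs'.same _ _ (gn_act (hs.mem z) hz) (gn_act (hs.mem z) hz') (same_act (hs.mem z) hzz)]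
  · intro q hq δ hδ hqδ z z' hz hz' hpos hneg
    show s' (act (s z) z) * s z = s' (act (s z') z') * s z'
    have hgΓ : s z ∈ Γ := hs.mem z
    have hsz' := hs.cross q hq δ hδ hqδ z z' hz hz' hpos hneg
    have hδΓ : δ ∈ Γ := cj_mem hγ hδ
    obtain ⟨g, hg⟩ : ∃ g, g = s z := ⟨_, rfl⟩
    rw [← hg] at hgΓ hsz' ⊢
    rw [hsz']
    have hgδ : g * δ ^ e ∈ Γ := Γ.mul_mem hgΓ (Γ.zpow_mem hδΓ e)
    have e1 : s' (act g z') = s' (act (g * δ ^ e) z') := by
      rw [act_mul]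
      apply hs'.same _ _ (gn_act hgΓ (adj_gn hz'))
      · rw [← act_mul]
        exact gn_act hgδ (adj_gn hz')
      · exact same_act hgΓ (same_pow hγ hD hδ hq hqδ hz' e)
    have hBW : ∀ x, B (act g x) (W (g * δ * g⁻¹)) = B x (W δ) := by
      intro x
      rw [W_conj, B_act]
    have e2 := hs'.cross (act g q) (act_mem_Cone g hq) (g * δ * g⁻¹) (cj_conj hgΓ hδ)
      (by rw [hBW]; exact hqδ) (act g z) (act g z') (adj_act hgΓ hδ hz) (adj_act hgΓ hδ hz')
      (by rw [hBW]; exact hpos) (by rw [hBW]; exact hneg)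
    rw [← e1, e2, conj_zpow]
    group



end Pool.Agent.SCD
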