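import Mathlib
import Pool.Agent.SCD.Basic
import Pool.Agent.SCD.L_pot_exists
import Pool.Agent.SCD.L_pot_equiv
import Pool.Agent.SCD.L_pot_inv
import Pool.Agent.SCD.L_adj_facts
import Pool.Agent.SCD.L_cj_basic

set_option autoImplicit false

namespace Pool.Agent.SCD

open Filter Topology Set


/-- the Dehn twist automorphism -/
theorem twist {Γ : Subgroup SL} (hΓ : Good Γ) {γ : SL} (hγ : γ ∈ Γ) (h1 : γ ≠ 1)
    (hD : Disj Γ γ) {z0 : V} (hz0 : Gn Γ γ z0) :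
    ∃ (s : V → SL) (τ : Γ ≃* Γ), IsPot Γ γ 1 s ∧ s z0 = 1 ∧
      ∀ g : Γ, ((τ g : Γ) : SL) = s (act (g : SL) z0) * g := by
  obtain ⟨s, hs, hs0⟩ := pot_exists hΓ hγ h1 hD 1 hz0
  obtain ⟨s', hs', hs0'⟩ := pot_exists hΓ hγ h1 hD (-1) hz0
  have hss : IsPot Γ γ (-(-1)) s := by rw [neg_neg]; exact hs
  have hgn : ∀ g : Γ, Gn Γ γ (act (g : SL) z0) := fun g => gn_act g.2 hz0
  refine ⟨s, ⟨⟨fun g => ⟨s (act (g : SL) z0) * g, Γ.mul_mem (hs.mem _) g.2⟩,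
    fun g => ⟨s' (act (g : SL) z0) * g, Γ.mul_mem (hs'.mem _) g.2⟩, ?_, ?_⟩, ?_⟩, hs, hs0,
    fun g => rfl⟩
  · intro g
    apply Subtype.ext
    show s' (act (s (act (g : SL) z0) * (g : SL)) z0) * (s (act (g : SL) z0) * (g : SL)) = g
    rw [act_mul, pot_inv hΓ hγ h1 hD hs hs' hz0 hs0 hs0' (hgn g), inv_mul_cancel_left]
  · intro g
    apply Subtype.ext
    show s (act (s' (act (g : SL) z0) * (g : SL)) z0) * (s' (act (g : SL) z0) * (g : SL)) = g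
    rw [act_mul, pot_inv hΓ hγ h1 hD hs' hss hz0 hs0' hs0 (hgn g), inv_mul_cancel_left]
  · intro g h
    apply Subtype.ext
    show s (act (((g * h : Γ) : SL)) z0) * ((g * h : Γ) : SL) =
      (s (act (g : SL) z0) * (g : SL)) * (s (act (h : SL) z0) * (h : SL))
    have : ((g * h : Γ) : SL) = (g : SL) * (h : SL) := rfl
    rw [this, act_mul, pot_equiv hΓ hγ h1 hD hs hz0 hs0 g.2 (hgn h)]
    group



end Pool.Agent.SCD
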