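import Mathlib
import Pool.Agent.SCD.Basic
import Pool.Agent.SCD.L_good_sub
import Pool.Agent.SCD.L_IsComm_of_iso
import Pool.Agent.SCD.L_twist
import Pool.Agent.SCD.L_pot_left
import Pool.Agent.SCD.L_pot_equiv
import Pool.Agent.SCD.L_near_id
import Pool.Agent.SCD.L_sparse
import Pool.Agent.SCD.L_far_side
import Pool.Agent.SCD.L_adj_facts
import Pool.Agent.SCD.L_cj_basic
import Pool.Agent.SCD.L_B_pos

set_option autoImplicit false

namespace Pool.Agent.SCD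

open Filter Topology Set


private theorem E_limit_cone {X : V} (h1 : 0 < tr X) (h2 : 0 < B X X) : X ∈ Cone := by
  refine ⟨?_, h2⟩
  unfold tr at h1; unfold B at h2
  by_contra hc
  push Not at hc
  nlinarith [sq_nonneg X.2.1, sq_nonneg X.1]

/-- `identity on one side, γ on the other side` is a limit of commensurations -/
theorem E_limit {Γ : Subgroup SL} (hΓ : Good Γ) {γ : SL} (hγ : γ ∈ Γ) (h1 : γ ≠ 1) {ε : ℝ}
    (hε : 0 < ε) : ∃ T : Bd ≃ₜ Bd, IsComm Γ T ∧ (∀ x : Bd, 0 ≤ B x.1 (W γ) → dist (T x) x ≤ ε) ∧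
      ∀ x : Bd, B x.1 (W γ) ≤ 0 → dist (T x) (γ • x) ≤ ε := by
  have hBW : B (W γ) (W γ) < 0 := cj_BW hΓ hγ h1 (cj_self Γ γ)
  set w : V := W γ with hw
  set κ : ℝ := B I0 w / B w w with hκ
  set q0 : V := I0 - κ • w with hq0def
  have hII : B I0 I0 = 1 := by simp [B, I0]
  have hw0 : B q0 w = 0 := by
    rw [hq0def, B_sub_left, B_smul_left, hκ, div_mul_cancel₀ _ hBW.ne, sub_self]
  have hqq : B q0 q0 = B q0 I0 := by
    conv_lhs => rw [hq0def]
    rw [B_sub_left, B_smul_left]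
    rw [← hq0def, B_comm w q0, hw0, mul_zero, sub_zero, B_comm]
  have hqI : 1 ≤ B q0 I0 := by
    rw [hq0def, B_sub_left, B_smul_left, hII, hκ, B_comm w I0]
    have h3 : B I0 w / B w w * B I0 w = (B I0 w) ^ 2 / B w w := by ring
    rw [h3]
    have h4 : (B I0 w) ^ 2 / B w w ≤ 0 := div_nonpos_of_nonneg_of_nonpos (sq_nonneg _) hBW.le
    linarith
  have hqqpos : 0 < B q0 q0 := by rw [hqq]; linarith
  have htrq : 0 < tr q0 := by
    have := B_I0 q0
    linarith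
  have hq0 : q0 ∈ Cone := E_limit_cone htrq hqqpos
  have hsq : 0 < √(B q0 q0) := Real.sqrt_pos.2 hqqpos
  -- uniform continuity
  have huc : UniformContinuous (fun x : Bd => γ • x) :=
    CompactSpace.uniformContinuous_of_continuous (continuous_smul' γ)
  obtain ⟨δ0, hδ0, hδ⟩ := Metric.uniformContinuous_iff.1 huc ε hε
  set R : ℝ := 3 + tr q0 / √(B q0 q0) + 2 / ε + 4 / δ0 with hRdef
  have hp1 : 0 < tr q0 / √(B q0 q0) := div_pos htrq hsq
  have hp2 : 0 < 2 / ε := by positivity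
  have hp3 : 0 < 4 / δ0 := by positivity
  have hR : 0 < R := by linarith
  have hR1 : 2 / R ≤ ε := by
    rw [div_le_iff₀ hR]
    have h3 : 2 / ε ≤ R := by linarith
    rw [div_le_iff₀ hε] at h3
    linarith
  have hR2 : 2 / R < δ0 := by
    rw [div_lt_iff₀ hR]
    have h3 : 4 / δ0 ≤ R := by linarith
    rw [div_le_iff₀ hδ0] at h3
    linarith
  obtain ⟨Γ', hle, hidx, hγ', hD, hF⟩ := sparse hΓ hγ h1 R
  have hΓ' : Good Γ' := good_sub hΓ hle hidx
  -- the two test points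
  set U : Set V := {z | z ∈ Cone ∧ tr z < R * √(B z z)} with hU
  have hUo : IsOpen U := by
    have h3 : IsOpen {z : V | tr z < R * √(B z z)} :=
      isOpen_lt continuous_tr (continuous_const.mul continuous_BB.sqrt)
    exact isOpen_Cone.inter h3
  have hq0U : q0 ∈ U := by
    refine ⟨hq0, ?_⟩
    have h3 : tr q0 / √(B q0 q0) < R := by linarith
    rwa [div_lt_iff₀ hsq] at h3
  have hI0U : I0 ∈ U := by
    refine ⟨I0_mem, ?_⟩
    rw [hII, Real.sqrt_one]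
    have : tr I0 = 2 := by simp [tr, I0]; norm_num
    rw [this]
    linarith
  have hcont : Continuous fun t : ℝ => q0 + t • w := by fun_prop
  have hev : ∀ᶠ t in 𝓝 (0 : ℝ), q0 + t • w ∈ U := by
    apply hcont.continuousAt.eventually_mem
    rw [zero_smul, add_zero]
    exact hUo.mem_nhds hq0U
  obtain ⟨ρ, hρ, hρU⟩ := Metric.eventually_nhds_iff.1 hev
  set η : ℝ := ρ / 2 with hη
  have hη0 : 0 < η := by positivity
  set z0 : V := q0 + (-η) • w with hz0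
  set z1 : V := q0 + η • w with hz1
  have hz0U : z0 ∈ U := hρU (by rw [Real.dist_eq, sub_zero, abs_neg, abs_of_pos hη0]; linarith)
  have hz1U : z1 ∈ U := hρU (by rw [Real.dist_eq, sub_zero, abs_of_pos hη0]; linarith)
  have hBz0 : 0 < B z0 w := by
    rw [hz0, B_add_left, B_smul_left, hw0]
    nlinarith
  have hBz1 : B z1 w < 0 := by
    rw [hz1, B_add_left, B_smul_left, hw0]
    nlinarith
  have hfs : ∀ δ ∈ Cj Γ' γ, δ ≠ γ → ∀ a ∈ U, ∀ b ∈ U, 0 < B a (W δ) * B b (W δ) :=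
    fun δ hδ' hne a ha b hb => far_side hR (hF δ hδ' hne) ha.1 hb.1 ha.2 hb.2
  have hadj0 : AdjAt Γ' γ q0 γ z0 :=
    ⟨hz0U.1, hBz0.ne', fun δ' hδ' hne => hfs δ' hδ' hne q0 hq0U z0 hz0U⟩
  have hadj1 : AdjAt Γ' γ q0 γ z1 :=
    ⟨hz1U.1, hBz1.ne, fun δ' hδ' hne => hfs δ' hδ' hne q0 hq0U z1 hz1U⟩
  obtain ⟨s, τ, hpot, hs0, hτ⟩ := twist hΓ' hγ' h1 hD (adj_gn hadj0)
  obtain ⟨T, hTc, hT⟩ := IsComm_of_iso hΓ hle hle hidx hidx τ
  have hT' : ∀ g ∈ Γ', ∀ x : Bd, T (g • x) = (s (act g z0) * g) • T x := by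
    intro g hg x
    have h3 := hT ⟨g, hg⟩ x
    rw [hτ] at h3
    exact h3
  refine ⟨T, hTc, ?_, ?_⟩
  · intro x hx
    refine le_trans ?_ hR1
    exact near_id hΓ' hγ' h1 hD hpot hq0 hw0 hadj0 hs0 T hT' hR hF
      (fun δ hδ' hne => hfs δ hδ' hne I0 hI0U z0 hz0U) x (mul_nonneg hx hBz0.le)
  · intro x hx
    have hsz1 : s z1 = γ := by
      have h3 := hpot.cross q0 hq0 γ (cj_self Γ' γ) hw0 z0 z1 hadj0 hadj1 hBz0 hBz1
      rw [h3, hs0, one_mul, zpow_one]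
    have hpot1 : IsPot Γ' γ 1 (fun z => γ⁻¹ * s z) := pot_left hpot (inv_mem hγ')
    have hT1 : ∀ g ∈ Γ', ∀ y : Bd, (T.trans (sm γ⁻¹)) (g • y) =
        ((fun z => γ⁻¹ * s z) (act g z1) * g) • (T.trans (sm γ⁻¹)) y := by
      intro g hg y
      show γ⁻¹ • T (g • y) = (γ⁻¹ * s (act g z1) * g) • (γ⁻¹ • T y)
      rw [hT' g hg y, smul_smul, smul_smul,
        pot_equiv hΓ' hγ' h1 hD hpot (adj_gn hadj0) hs0 hg (adj_gn hadj1), hsz1]
      congr 1
      group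
    have h3 : dist ((T.trans (sm γ⁻¹)) x) x ≤ 2 / R :=
      near_id hΓ' hγ' h1 hD hpot1 hq0 hw0 hadj1
        (by show γ⁻¹ * s z1 = 1; rw [hsz1, inv_mul_cancel]) _ hT1 hR hF
        (fun δ hδ' hne => hfs δ hδ' hne I0 hI0U z1 hz1U) x
        (mul_nonneg_of_nonpos_of_nonpos hx hBz1.le)
    have h4 := hδ (lt_of_le_of_lt h3 hR2)
    have h5 : γ • (T.trans (sm γ⁻¹)) x = T x := by
      show γ • (γ⁻¹ • T x) = T x
      rw [smul_inv_smul]
    simp only [h5] at h4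
    exact h4.le



end Pool.Agent.SCD
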