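import Mathlib
import Pool.Agent.SCD.Basic
import Pool.Agent.SCD.L_bp_facts
import Pool.Agent.SCD.L_lift_sm

set_option autoImplicit false

namespace Pool.Agent.SCD

open Filter Topology Set
private theorem bp_close {ε : ℝ} (hε : 0 < ε) : ∃ η > 0, ∀ a b : ℝ, dist (bp a) (bp b) ≤ η →
    ∃ k : ℤ, |a - b - k| < ε := by
  set ε1 : ℝ := min ε (1 / 2) with hε1
  have h1 : 0 < ε1 := lt_min hε (by norm_num)
  have h2 : ε1 ≤ 1 / 2 := min_le_right _ _
  have h3 : ε1 ≤ ε := min_le_left _ _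
  have hpi := Real.pi_pos
  have hc : Real.cos (2 * Real.pi * ε1) < 1 := by
    have := Real.cos_lt_cos_of_nonneg_of_le_pi (le_refl (0 : ℝ))
      (show 2 * Real.pi * ε1 ≤ Real.pi by nlinarith) (by positivity)
    rwa [Real.cos_zero] at this
  have hc2 := Real.neg_one_le_cos (2 * Real.pi * ε1)
  set δ : ℝ := 1 - Real.cos (2 * Real.pi * ε1) with hδ
  have hδ0 : 0 < δ := by rw [hδ]; linarith
  have hδ2 : δ ≤ 2 := by rw [hδ]; linarith
  refine ⟨δ / 4, by positivity, fun a b hab => ?_⟩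
  rw [Bd.dist_def, bp_val, bp_val, Prod.dist_eq, Prod.dist_eq] at hab
  have hP := (le_max_left _ _).trans hab
  have hQ := ((le_max_left _ _).trans (le_max_right _ _)).trans hab
  simp only [Real.dist_eq] at hP hQ
  set α := Real.pi * a with hα
  set β := Real.pi * b with hβ
  have e1 : Real.cos (2 * α - 2 * β) = 1 -
      2 * (Real.cos α ^ 2 - Real.cos β ^ 2) ^ 2 -
      2 * (Real.cos α * Real.sin α - Real.cos β * Real.sin β) ^ 2 := by
    rw [Real.cos_sub, Real.cos_two_mul, Real.cos_two_mul, Real.sin_two_mul, Real.sin_two_mul]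
    have ha := Real.sin_sq_add_cos_sq α
    have hb := Real.sin_sq_add_cos_sq β
    have ha' : Real.sin α ^ 2 = 1 - Real.cos α ^ 2 := by linarith
    have hb' : Real.sin β ^ 2 = 1 - Real.cos β ^ 2 := by linarith
    have : (Real.cos α * Real.sin α - Real.cos β * Real.sin β) ^ 2 =
        Real.cos α ^ 2 * (1 - Real.cos α ^ 2) + Real.cos β ^ 2 * (1 - Real.cos β ^ 2) -
        2 * (Real.cos α * Real.sin α * (Real.cos β * Real.sin β)) := by
      rw [← ha', ← hb']; ring
    rw [this]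
    ring
  have e2 : (Real.cos α ^ 2 - Real.cos β ^ 2) ^ 2 ≤ (δ / 4) ^ 2 := by
    rw [← sq_abs]
    exact pow_le_pow_left₀ (abs_nonneg _) hP 2
  have e3 : (Real.cos α * Real.sin α - Real.cos β * Real.sin β) ^ 2 ≤ (δ / 4) ^ 2 := by
    rw [← sq_abs]
    exact pow_le_pow_left₀ (abs_nonneg _) hQ 2
  have e4 : 1 - δ / 2 ≤ Real.cos (2 * α - 2 * β) := by
    rw [e1]
    nlinarith
  refine ⟨round (a - b), ?_⟩
  set r : ℝ := a - b - (round (a - b) : ℤ) with hr
  have hr1 : |r| ≤ 1 / 2 := abs_sub_round (a - b)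
  have e5 : Real.cos (2 * α - 2 * β) = Real.cos (2 * Real.pi * |r|) := by
    have e6 : 2 * Real.pi * |r| = |2 * Real.pi * r| := by
      rw [abs_mul, abs_of_pos (show 0 < 2 * Real.pi by positivity)]
    rw [e6, Real.cos_abs]
    have e7 : 2 * α - 2 * β = 2 * Real.pi * r + (round (a - b) : ℤ) * (2 * Real.pi) := by
      rw [hr, hα, hβ]; ring
    rw [e7, Real.cos_add_int_mul_two_pi]
  by_contra hcon
  have hcon' : ε1 ≤ |r| := h3.trans (le_of_not_gt hcon)
  have e8 : Real.cos (2 * Real.pi * |r|) ≤ Real.cos (2 * Real.pi * ε1) := by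
    refine Real.cos_le_cos_of_nonneg_of_le_pi (by positivity) ?_ ?_
    · nlinarith
    · exact mul_le_mul_of_nonneg_left hcon' (by positivity)
  rw [e5] at e4
  linarith

private theorem const_of_close {D : ℝ → ℝ} (hD : Continuous D) (h : ∀ t, ∃ k : ℤ, |D t - k| < 1 / 8) :
    ∃ k : ℤ, ∀ t, |D t - k| < 1 / 8 := by
  choose k hk using h
  have hloc : IsLocallyConstant k := by
    rw [IsLocallyConstant.iff_eventually_eq]
    intro x
    have h1 : ∀ᶠ y in 𝓝 x, |D y - D x| < 1 / 4 := by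
      have := Metric.tendsto_nhds.1 (hD.tendsto x) (1 / 4) (by norm_num)
      simpa [Real.dist_eq] using this
    filter_upwards [h1] with y hy
    have h2 := hk y
    have h3 := hk x
    rw [abs_lt] at hy h2 h3
    have h4 : ((k y - k x : ℤ) : ℝ) < 1 := by push_cast; linarith [hy.1, hy.2, h2.1, h2.2, h3.1, h3.2]
    have h5 : (-1 : ℝ) < ((k y - k x : ℤ) : ℝ) := by
      push_cast; linarith [hy.1, hy.2, h2.1, h2.2, h3.1, h3.2]
    have h6 : k y - k x < 1 := by exact_mod_cast h4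
    have h7 : -1 < k y - k x := by exact_mod_cast h5
    omega
  refine ⟨k 0, fun t => ?_⟩
  have := hloc.apply_eq_of_preconnectedSpace t 0
  rw [← this]
  exact hk t



theorem close_lift {e : ℝ ≃o ℝ} (he : ∀ t, e (t + 1) = e t + 1) {ε : ℝ} (hε : 0 < ε) :
    ∃ η > 0, ∀ h : Bd ≃ₜ Bd, (∀ t, dist (h (bp t)) (bp (e t)) ≤ η) →
      ∃ F : ℝ ≃o ℝ, (∀ t, F (t + 1) = F t + 1) ∧ (∀ t, h (bp t) = bp (F t)) ∧
        ∀ t, |F t - e t| < ε := by
  obtain ⟨η, hη, hclose⟩ := bp_close (lt_min hε (show (0 : ℝ) < 1 / 8 by norm_num))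
  refine ⟨η, hη, fun h hh => ?_⟩
  have hε1 : min ε (1 / 8) ≤ ε := min_le_left _ _
  have hε2 : min ε (1 / 8) ≤ 1 / 8 := min_le_right _ _
  rcases homeo_OP h with ⟨F, hF1, hF2⟩ | ⟨G, hG1, hG2⟩
  · have hk : ∀ t, ∃ k : ℤ, |F t - e t - k| < min ε (1 / 8) := by
      intro t
      refine hclose (F t) (e t) ?_
      rw [← hF2]
      exact hh t
    obtain ⟨k, hk0⟩ := const_of_close (D := fun t => F t - e t) (F.continuous.sub e.continuous)
      (fun t => by
        obtain ⟨k, hk⟩ := hk t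
        exact ⟨k, hk.trans_le hε2⟩)
    refine ⟨F.trans (OrderIso.addRight (-(k : ℝ))), fun t => ?_, fun t => ?_, fun t => ?_⟩
    · show F (t + 1) + -(k : ℝ) = F t + -(k : ℝ) + 1
      rw [hF1]; ring
    · show h (bp t) = bp (F t + -(k : ℝ))
      rw [hF2, bp_eq_iff]
      exact ⟨k, by ring⟩
    · show |F t + -(k : ℝ) - e t| < ε
      obtain ⟨k', hk'⟩ := hk t
      have h1 := hk0 t
      have h2 := hk'.trans_le hε2
      have h3 : k' = k := by
        rw [abs_lt] at h1 h2
        have h4 : ((k' - k : ℤ) : ℝ) < 1 := by push_cast; linarith [h1.1, h1.2, h2.1, h2.2]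
        have h5 : (-1 : ℝ) < ((k' - k : ℤ) : ℝ) := by push_cast; linarith [h1.1, h1.2, h2.1, h2.2]
        have h6 : k' - k < 1 := by exact_mod_cast h4
        have h7 : -1 < k' - k := by exact_mod_cast h5
        omega
      rw [h3] at hk'
      have h4 : F t + -(k : ℝ) - e t = F t - e t - k := by ring
      rw [h4]
      exact hk'.trans_le hε1
  · exfalso
    have hinv : ∀ x : Bd, rfl0 (rfl0 x) = x := fun x => by
      apply Subtype.ext
      show (x.1.1, - -x.1.2.1, x.1.2.2) = x.1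
      rw [neg_neg]
    have hb : ∀ t, h (bp t) = bp (-G t) := by
      intro t
      have h1 : rfl0 (h (bp t)) = bp (G t) := hG2 t
      rw [← rfl0_bp, ← h1, hinv]
    obtain ⟨k, hk⟩ := const_of_close (D := fun t => -G t - e t)
      (G.continuous.neg.sub e.continuous) (fun t => by
        obtain ⟨k, hk⟩ := hclose (-G t) (e t) (by rw [← hb]; exact hh t)
        exact ⟨k, hk.trans_le hε2⟩)
    have h0 := hk 0
    have h1 := hk (0 + 1)
    simp only [hG1, he] at h0 h1
    rw [abs_lt] at h0 h1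
    linarith [h0.1, h0.2, h1.1, h1.2]



end Pool.Agent.SCD
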