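import Mathlib
import Pool.Agent.SCD.Basic
import Pool.Agent.SCD.L_cl_mul
import Pool.Agent.SCD.L_move_up
import Pool.Agent.SCD.L_bp_facts
import Pool.Agent.SCD.L_hyp_fix
import Pool.Agent.SCD.L_arc_conn
import Pool.Agent.SCD.L_DW
import Pool.Agent.SCD.L_E_limit
import Pool.Agent.SCD.L_lift_sm
import Pool.Agent.SCD.L_close_lift
import Pool.Agent.SCD.L_comm_of_fix

set_option autoImplicit false

namespace Pool.Agent.SCD

open Filter Topology Set


/-- the group of lifts of commensurations -/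
def IsLift (Γ : Subgroup SL) (F : ℝ ≃o ℝ) : Prop :=
  (∀ t, F (t + 1) = F t + 1) ∧ ∃ h : Bd ≃ₜ Bd, IsComm Γ h ∧ ∀ t, h (bp t) = bp (F t)

private theorem sm_sign_pos {f : ℝ → ℝ} (hf : Continuous f) {p q c : ℝ} (hc : c ∈ Ioo p q)
    (hfc : 0 < f c) (hz : ∀ t ∈ Ioo p q, f t ≠ 0) : ∀ t ∈ Ioo p q, 0 < f t := by
  intro t ht
  by_contra hcon
  push Not at hcon
  have h1 : (0:ℝ) ∈ Set.uIcc (f t) (f c) := by
    rw [Set.uIcc_of_le (by linarith)]
    exact ⟨hcon, hfc.le⟩
  obtain ⟨s, hs, hs0⟩ := intermediate_value_uIcc (a := t) (b := c) hf.continuousOn h1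
  have hmem : s ∈ Ioo p q := by
    have h2 : Set.uIcc t c ⊆ Ioo p q := Set.OrdConnected.uIcc_subset Set.ordConnected_Ioo ht hc
    exact h2 hs
  exact hz s hmem hs0

/-- zero between points of different sign -/
private theorem sm_zero_between {f : ℝ → ℝ} (hf : Continuous f) {s t : ℝ} (hst : s ≤ t)
    (h : (0 ≤ f s ∧ f t ≤ 0) ∨ (f s ≤ 0 ∧ 0 ≤ f t)) : ∃ c, s ≤ c ∧ c ≤ t ∧ f c = 0 := by
  have h1 : (0:ℝ) ∈ Set.uIcc (f s) (f t) := by
    rcases h with h | h
    · rw [Set.uIcc_of_ge (by linarith)]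
      exact ⟨h.2, h.1⟩
    · rw [Set.uIcc_of_le (by linarith)]
      exact ⟨h.1, h.2⟩
  obtain ⟨c, hc, hc0⟩ := intermediate_value_uIcc (a := s) (b := t) hf.continuousOn h1
  rw [Set.uIcc_of_le hst] at hc
  exact ⟨c, hc.1, hc.2, hc0⟩

private theorem small_moves_aux {Γ : Subgroup SL} (hΓ : Good Γ) (G : Subgroup (ℝ ≃o ℝ))
    (hG : ∀ F : ℝ ≃o ℝ, IsLift Γ F → F ∈ G) (x ε : ℝ) (hε : 0 < ε) (hε4 : ε < 1 / 4) :
    ∃ a b : ℝ, x - ε < a ∧ a < x ∧ x < b ∧ b < x + ε ∧ ∃ e : ℝ ≃o ℝ, Cl G e ∧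
    (∀ y ∈ Icc b (a + 1), e y = y) ∧ ∀ y ∈ Ioo a b, e y ≠ y := by
  classical
  -- small radius
  have hopen : IsOpen (bp '' (Ioo (x - ε) (x + ε))) := isOpenMap_bp _ isOpen_Ioo
  have hxm : bp x ∈ bp '' (Ioo (x - ε) (x + ε)) := ⟨x, ⟨by linarith, by linarith⟩, rfl⟩
  obtain ⟨r, hr, hball⟩ := Metric.isOpen_iff.1 hopen _ hxm
  obtain ⟨γ, hγ, hγ1, hpos, hsmall⟩ := DW hΓ (bp x) hr
  have hhyp := hΓ.hyp γ hγ hγ1
  obtain ⟨xp, xm, hpm, hfix, hzero, -, -⟩ := hyp_fix hhyp
  set f : ℝ → ℝ := fun t => B (bp t).1 (W γ) with hf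
  have hfc : Continuous f := by
    have h1 : Continuous (fun t => (bp t).1) := continuous_subtype_val.comp continuous_bp
    exact (continuous_B (W γ)).comp h1
  have hfper : ∀ t, f (t + 1) = f t := by
    intro t
    show B (bp (t + 1)).1 (W γ) = B (bp t).1 (W γ)
    rw [bp_add_one]
  have hfnn : ∀ t, 0 ≤ f t → ∃ k : ℤ, |t - x - k| < ε := by
    intro t ht
    have h1 := hsmall (bp t) ht
    obtain ⟨s, hs, hst⟩ := hball h1
    obtain ⟨k, hk⟩ := (bp_eq_iff t s).1 hst.symm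
    refine ⟨k, ?_⟩
    rw [hk, abs_lt]
    constructor <;> linarith [hs.1, hs.2]
  have hneg : ∀ t, x + ε ≤ t → t ≤ x - ε + 1 → f t < 0 := by
    intro t h1 h2
    by_contra hcon
    push Not at hcon
    obtain ⟨k, hk⟩ := hfnn t hcon
    rw [abs_lt] at hk
    have h3 : (k:ℝ) < 1 := by linarith [hk.1]
    have h4 : (0:ℝ) < (k:ℝ) := by linarith [hk.2]
    have h5 : k < 1 := by exact_mod_cast h3
    have h6 : 0 < k := by exact_mod_cast h4
    omega
  have hf1 : f (x + ε) < 0 := hneg _ le_rfl (by linarith)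
  have hf2 : f (x - ε) < 0 := by
    have := hneg (x - ε + 1) (by linarith) le_rfl
    rwa [hfper] at this
  have hfx : 0 < f x := hpos
  obtain ⟨a, ha1, ha2, ha0⟩ := sm_zero_between hfc (by linarith : x - ε ≤ x) (Or.inr ⟨hf2.le, hfx.le⟩)
  obtain ⟨b, hb1, hb2, hb0⟩ := sm_zero_between hfc (by linarith : x ≤ x + ε) (Or.inl ⟨hfx.le, hf1.le⟩)
  have ha1' : x - ε < a := lt_of_le_of_ne ha1 (by rintro rfl; linarith)
  have ha2' : a < x := lt_of_le_of_ne ha2 (by rintro rfl; linarith)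
  have hb1' : x < b := lt_of_le_of_ne hb1 (by rintro rfl; linarith)
  have hb2' : b < x + ε := lt_of_le_of_ne hb2 (by rintro rfl; linarith)
  have hab : bp a ≠ bp b := by
    intro h
    obtain ⟨k, hk⟩ := (bp_eq_iff b a).1 h.symm
    have h3 : (k:ℝ) < 1 := by linarith
    have h4 : (0:ℝ) < (k:ℝ) := by linarith
    have h5 : k < 1 := by exact_mod_cast h3
    have h6 : 0 < k := by exact_mod_cast h4
    omega
  have hzab : ∀ t, f t = 0 → ∃ k : ℤ, t = a + k ∨ t = b + k := by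
    intro t ht
    have h1 := (hzero (bp t)).1 ht
    have h2 := (hzero (bp a)).1 ha0
    have h3 := (hzero (bp b)).1 hb0
    have h4 : bp t = bp a ∨ bp t = bp b := by
      rcases h1 with h1 | h1 <;> rcases h2 with h2 | h2 <;> rcases h3 with h3 | h3
      · left; rw [h1, h2]
      · left; rw [h1, h2]
      · right; rw [h1, h3]
      · exact absurd (h2.trans h3.symm) hab
      · exact absurd (h2.trans h3.symm) hab
      · right; rw [h1, h3]
      · left; rw [h1, h2]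
      · left; rw [h1, h2]
    rcases h4 with h4 | h4
    · obtain ⟨k, hk⟩ := (bp_eq_iff t a).1 h4
      exact ⟨k, Or.inl hk⟩
    · obtain ⟨k, hk⟩ := (bp_eq_iff t b).1 h4
      exact ⟨k, Or.inr hk⟩
  have hnz1 : ∀ t ∈ Ioo a b, f t ≠ 0 := by
    intro t ht h0
    obtain ⟨k, hk | hk⟩ := hzab t h0
    · have h3 : (k:ℝ) < 1 := by linarith [ht.1, ht.2]
      have h4 : (0:ℝ) < (k:ℝ) := by linarith [ht.1, ht.2]
      have h5 : k < 1 := by exact_mod_cast h3
      have h6 : 0 < k := by exact_mod_cast h4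
      omega
    · have h3 : (k:ℝ) < 0 := by linarith [ht.1, ht.2]
      have h4 : (-1:ℝ) < (k:ℝ) := by linarith [ht.1, ht.2]
      have h5 : k < 0 := by exact_mod_cast h3
      have h6 : -1 < k := by exact_mod_cast h4
      omega
  have hnz2 : ∀ t ∈ Ioo b (a + 1), f t ≠ 0 := by
    intro t ht h0
    obtain ⟨k, hk | hk⟩ := hzab t h0
    · have h3 : (k:ℝ) < 1 := by linarith [ht.1, ht.2]
      have h4 : (0:ℝ) < (k:ℝ) := by linarith [ht.1, ht.2]
      have h5 : k < 1 := by exact_mod_cast h3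
      have h6 : 0 < k := by exact_mod_cast h4
      omega
    · have h3 : (k:ℝ) < 1 := by linarith [ht.1, ht.2]
      have h4 : (0:ℝ) < (k:ℝ) := by linarith [ht.1, ht.2]
      have h5 : k < 1 := by exact_mod_cast h3
      have h6 : 0 < k := by exact_mod_cast h4
      omega
  have hp1 : ∀ t ∈ Ioo a b, 0 < f t := sm_sign_pos hfc ⟨ha2', hb1'⟩ hfx hnz1
  have hn2 : ∀ t ∈ Ioo b (a + 1), f t < 0 := by
    have h1 := sm_sign_pos (f := fun t => - f t) hfc.neg (p := b) (q := a + 1) (c := x + ε)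
      ⟨hb2', by linarith⟩ (by show 0 < - f (x + ε); linarith)
      (fun t ht h => hnz2 t ht (by linarith [show - f t = 0 from h]))
    intro t ht
    have := h1 t ht
    linarith
  -- fixed points
  have hfixinv : ∀ y : Bd, γ⁻¹ • y = y ↔ γ • y = y := by
    intro y
    constructor
    · intro h
      calc γ • y = γ • γ⁻¹ • y := by rw [h]
        _ = y := smul_inv_smul γ y
    · intro h
      calc γ⁻¹ • y = γ⁻¹ • γ • y := by rw [h]
        _ = y := inv_smul_smul γ y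
  have hfix0 : ∀ t, f t = 0 ↔ γ⁻¹ • bp t = bp t := by
    intro t
    rw [hfixinv, hfix, ← hzero]
  -- the lift
  obtain ⟨F0, hF0, hF0b⟩ := OP_sm γ⁻¹
  have ha' : bp (F0 a) = bp a := by
    rw [← hF0b, sm_apply]
    exact (hfix0 a).1 ha0
  obtain ⟨k0, hk0⟩ := (bp_eq_iff (F0 a) a).1 ha'
  let F : ℝ ≃o ℝ := F0.trans (OrderIso.addRight (-(k0:ℝ)))
  have hFv : ∀ t, F t = F0 t - k0 := by
    intro t
    show F0 t + -(k0:ℝ) = F0 t - k0
    ring
  have hFper : ∀ t, F (t + 1) = F t + 1 := by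
    intro t
    rw [hFv, hFv, hF0]; ring
  have hFb : ∀ t, bp (F t) = γ⁻¹ • bp t := by
    intro t
    rw [← sm_apply, hF0b]
    apply (bp_eq_iff _ _).2
    refine ⟨-k0, ?_⟩
    rw [hFv]; push_cast; ring
  have hFa : F a = a := by rw [hFv, hk0]; ring
  have hFint : ∀ (t : ℝ) (n : ℕ), F (t + n) = F t + n := by
    intro t n
    induction n with
    | zero => simp
    | succ n ih =>
      push_cast
      rw [← add_assoc, hFper, ih]; ring
  have hFint' : ∀ (t : ℝ) (k : ℤ), F (t + k) = F t + k := by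
    intro t k
    obtain ⟨n, rfl | rfl⟩ := k.eq_nat_or_neg
    · exact_mod_cast hFint t n
    · have h1 := hFint (t + ((-(n:ℤ) : ℤ) : ℝ)) n
      have h2 : t + ((-(n:ℤ) : ℤ) : ℝ) + n = t := by push_cast; ring
      rw [h2] at h1
      push_cast at h1 ⊢
      linarith
  have hFbb : F b = b := by
    have h1 : bp (F b) = bp b := by rw [hFb]; exact (hfix0 b).1 hb0
    obtain ⟨m, hm⟩ := (bp_eq_iff (F b) b).1 h1
    have h2 : F a < F b := F.strictMono (by linarith)
    have h3 : F b < F (a + 1) := F.strictMono (by linarith)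
    rw [hFper, hFa, hm] at h3
    rw [hFa, hm] at h2
    have h4 : (m:ℝ) < 1 := by linarith
    have h5 : (-1:ℝ) < (m:ℝ) := by linarith
    have h6 : m < 1 := by exact_mod_cast h4
    have h7 : -1 < m := by exact_mod_cast h5
    have h8 : m = 0 := by omega
    rw [hm, h8]; simp
  have hFz : ∀ c, f c = 0 → F c = c := by
    intro c hc
    obtain ⟨k, hk | hk⟩ := hzab c hc
    · rw [hk, hFint', hFa]
    · rw [hk, hFint', hFbb]
  have hFsign : ∀ t, 0 ≤ f (F t) ↔ 0 ≤ f t := by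
    intro t
    have h1 : f (F t) = (tr (act γ⁻¹ (bp t).1))⁻¹ * f t := by
      show B (bp (F t)).1 (W γ) = _ * B (bp t).1 (W γ)
      rw [hFb, B_smul_sign, inv_inv, act_W]
    have h2 : 0 < (tr (act γ⁻¹ (bp t).1))⁻¹ := inv_pos.2 (Bd_tr_act_pos γ⁻¹ (bp t))
    rw [h1]
    constructor
    · intro h
      by_contra hcon
      push Not at hcon
      have := mul_neg_of_pos_of_neg h2 hcon
      linarith
    · intro h
      exact mul_nonneg h2.le h
  let e0 : ℝ → ℝ := fun t => if 0 ≤ f t then F t else t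
  let e1 : ℝ → ℝ := fun t => if 0 ≤ f t then F.symm t else t
  have he0p : ∀ t, 0 ≤ f t → e0 t = F t := fun t ht => if_pos ht
  have he0n : ∀ t, f t < 0 → e0 t = t := fun t ht => if_neg (not_le.2 ht)
  have hmono : StrictMono e0 := by
    intro s t hst
    rcases lt_or_ge (f s) 0 with h1 | h1 <;> rcases lt_or_ge (f t) 0 with h2 | h2
    · rw [he0n s h1, he0n t h2]; exact hst
    · rw [he0n s h1, he0p t h2]
      obtain ⟨c, hc1, hc2, hc0⟩ := sm_zero_between hfc hst.le (Or.inr ⟨h1.le, h2⟩)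
      have hsc : s < c := lt_of_le_of_ne hc1 (by rintro rfl; linarith)
      calc s < c := hsc
        _ = F c := (hFz c hc0).symm
        _ ≤ F t := F.monotone hc2
    · rw [he0p s h1, he0n t h2]
      obtain ⟨c, hc1, hc2, hc0⟩ := sm_zero_between hfc hst.le (Or.inl ⟨h1, h2.le⟩)
      have hct : c < t := lt_of_le_of_ne hc2 (by rintro rfl; linarith)
      calc F s ≤ F c := F.monotone hc1
        _ = c := hFz c hc0
        _ < t := hct
    · rw [he0p s h1, he0p t h2]; exact F.strictMono hst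
  have hri : Function.RightInverse e1 e0 := by
    intro t
    by_cases ht : 0 ≤ f t
    · have h1 : e1 t = F.symm t := if_pos ht
      have h2 : 0 ≤ f (F.symm t) := by
        rw [← hFsign, OrderIso.apply_symm_apply]; exact ht
      rw [h1, he0p _ h2, OrderIso.apply_symm_apply]
    · have h1 : e1 t = t := if_neg ht
      rw [h1, he0n t (not_le.1 ht)]
  let e : ℝ ≃o ℝ := StrictMono.orderIsoOfRightInverse e0 hmono e1 hri
  have he : ∀ t, e t = e0 t := fun t => rfl
  have heper : ∀ t, e (t + 1) = e t + 1 := by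
    intro t
    rw [he, he]
    by_cases ht : 0 ≤ f t
    · rw [he0p t ht, he0p (t + 1) (by rw [hfper]; exact ht), hFper]
    · rw [he0n t (not_le.1 ht), he0n (t + 1) (by rw [hfper]; exact not_le.1 ht)]
  refine ⟨a, b, ha1', ha2', hb1', hb2', e, ⟨heper, ?_⟩, ?_, ?_⟩
  · intro ε' hε'
    obtain ⟨η, hη, hcl⟩ := close_lift heper hε'
    have hγi1 : γ⁻¹ ≠ 1 := fun h => hγ1 (inv_eq_one.1 h)
    obtain ⟨T, hT, hT1, hT2⟩ := E_limit hΓ (Γ.inv_mem hγ) hγi1 hη
    have hB : ∀ t, B (bp t).1 (W γ⁻¹) = - f t := by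
      intro t
      rw [W_inv]
      show B (bp t).1 (-W γ) = - B (bp t).1 (W γ)
      have : (-W γ) = (-1:ℝ) • W γ := by rw [neg_one_smul]
      rw [this, B_smul_right]; ring
    obtain ⟨F1, hF1, hF1b, hF1c⟩ := hcl T (by
      intro t
      by_cases ht : 0 ≤ f t
      · have h1 : e t = F t := he0p t ht
        rw [h1, hFb]
        apply hT2
        rw [hB]; linarith
      · have h1 : e t = t := he0n t (not_le.1 ht)
        rw [h1]
        apply hT1
        rw [hB]; linarith [not_le.1 ht])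
    exact ⟨F1, hG F1 ⟨hF1, T, hT, hF1b⟩, hF1c⟩
  · intro y hy
    rw [he]
    have hle : f y ≤ 0 := by
      rcases eq_or_lt_of_le hy.1 with h1 | h1
      · rw [← h1, hb0]
      · rcases eq_or_lt_of_le hy.2 with h2 | h2
        · rw [h2, hfper, ha0]
        · exact (hn2 y ⟨h1, h2⟩).le
    rcases eq_or_lt_of_le hle with h1 | h1
    · rw [he0p y h1.ge, hFz y h1]
    · exact he0n y h1
  · intro y hy
    rw [he, he0p y (hp1 y hy).le]
    intro h
    have h1 : γ⁻¹ • bp y = bp y := by rw [← hFb, h]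
    have h2 := (hfix0 y).2 h1
    exact hnz1 y hy h2

theorem small_moves {Γ : Subgroup SL} (hΓ : Good Γ) (G : Subgroup (ℝ ≃o ℝ))
    (hG : ∀ F : ℝ ≃o ℝ, IsLift Γ F → F ∈ G) : SmallMoves G := by
  intro x ε hε
  obtain ⟨a, b, h1, h2, h3, h4, h5⟩ := small_moves_aux hΓ G hG x (min ε (1 / 5))
    (lt_min hε (by norm_num)) (lt_of_le_of_lt (min_le_right _ _) (by norm_num))
  have := min_le_left ε (1 / 5)
  exact ⟨a, b, by linarith, h2, h3, by linarith, h5⟩



end Pool.Agent.SCD
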