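import Mathlib
import Pool.Agent.SCD.Basic
import Pool.Agent.SCD.L_cl_mul
import Pool.Agent.SCD.L_move_up
import Pool.Agent.SCD.L_dense_line
import Pool.Agent.SCD.L_small_moves
import Pool.Agent.SCD.L_bp_facts
import Pool.Agent.SCD.L_lift_sm
import Pool.Agent.SCD.L_IsComm_trans
import Pool.Agent.SCD.L_IsComm_symm
import Pool.Agent.SCD.L_IsComm_sm

set_option autoImplicit false

namespace Pool.Agent.SCD

open Filter Topology Set


private theorem bp_lip (s t : ℝ) : dist (bp s) (bp t) ≤ 2 * Real.pi * |s - t| := by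
  have hc : ∀ a b : ℝ, |Real.cos a - Real.cos b| ≤ |a - b| := by
    intro a b
    have := Real.lipschitzWith_cos.dist_le_mul a b
    simpa [Real.dist_eq] using this
  have hs : ∀ a b : ℝ, |Real.sin a - Real.sin b| ≤ |a - b| := by
    intro a b
    have := Real.lipschitzWith_sin.dist_le_mul a b
    simpa [Real.dist_eq] using this
  have h1 : |Real.pi * s - Real.pi * t| = Real.pi * |s - t| := by
    rw [← mul_sub, abs_mul, abs_of_pos Real.pi_pos]
  have key : ∀ p q p' q' : ℝ, |p| ≤ 1 → |q| ≤ 1 → |p'| ≤ 1 → |q'| ≤ 1 →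
      |p - p'| ≤ Real.pi * |s - t| → |q - q'| ≤ Real.pi * |s - t| →
      |p * q - p' * q'| ≤ 2 * Real.pi * |s - t| := by
    intro p q p' q' _ h3 h4 _ h6 h7
    have e : p * q - p' * q' = (p - p') * q + p' * (q - q') := by ring
    rw [e]
    refine (abs_add_le _ _).trans ?_
    rw [abs_mul, abs_mul]
    have e1 : |p - p'| * |q| ≤ (Real.pi * |s - t|) * 1 :=
      mul_le_mul h6 h3 (abs_nonneg _) ((abs_nonneg _).trans h6)
    have e2 : |p'| * |q - q'| ≤ 1 * (Real.pi * |s - t|) :=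
      mul_le_mul h4 h7 (abs_nonneg _) zero_le_one
    linarith
  have ec := hc (Real.pi * s) (Real.pi * t)
  have es := hs (Real.pi * s) (Real.pi * t)
  rw [h1] at ec es
  have c1 := Real.abs_cos_le_one (Real.pi * s)
  have c2 := Real.abs_cos_le_one (Real.pi * t)
  have s1 := Real.abs_sin_le_one (Real.pi * s)
  have s2 := Real.abs_sin_le_one (Real.pi * t)
  rw [Bd.dist_def, bp_val, bp_val, Prod.dist_eq, Prod.dist_eq]
  simp only [Real.dist_eq]
  refine max_le ?_ (max_le ?_ ?_)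
  · rw [pow_two, pow_two]; exact key _ _ _ _ c1 c1 c2 c2 ec ec
  · exact key _ _ _ _ c1 s1 c2 s2 ec es
  · rw [pow_two, pow_two]; exact key _ _ _ _ s1 s1 s2 s2 es es

private theorem IsComm_refl (Γ : Subgroup SL) : IsComm Γ (Homeomorph.refl Bd) := by
  have h := IsComm_sm (Γ := Γ) (g := 1) Γ.one_mem
  have e : sm 1 = Homeomorph.refl Bd := by
    ext x
    show (1 : SL) • x = x
    exact one_smul _ x
  rwa [e] at h

/-- the group of lifts -/
private def liftGp (Γ : Subgroup SL) : Subgroup (ℝ ≃o ℝ) where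
  carrier := {F | IsLift Γ F}
  mul_mem' := by
    rintro F1 F2 ⟨p1, h1, c1, e1⟩ ⟨p2, h2, c2, e2⟩
    refine ⟨fun t => ?_, h2.trans h1, IsComm_trans c2 c1, fun t => ?_⟩
    · show F1 (F2 (t + 1)) = F1 (F2 t) + 1
      rw [p2, p1]
    · show h1 (h2 (bp t)) = bp (F1 (F2 t))
      rw [e2, e1]
  one_mem' := ⟨fun t => rfl, Homeomorph.refl Bd, IsComm_refl Γ, fun t => rfl⟩
  inv_mem' := by
    rintro F ⟨p, h, c, e⟩
    refine ⟨fun t => ?_, h.symm, IsComm_symm c, fun t => ?_⟩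
    · show F.symm (t + 1) = F.symm t + 1
      rw [OrderIso.symm_apply_eq, p, OrderIso.apply_symm_apply]
    · show h.symm (bp t) = bp (F.symm t)
      rw [Homeomorph.symm_apply_eq, e, OrderIso.apply_symm_apply]

theorem main_OP {Γ : Subgroup SL} (hΓ : Good Γ) {f : Bd ≃ₜ Bd} (hf : OP f) {ε : ℝ} (hε : 0 < ε) :
    ∃ h : Bd ≃ₜ Bd, IsComm Γ h ∧ ∀ x, dist (h x) (f x) < ε := by
  obtain ⟨F, hF1, hF2⟩ := hf
  have hP : ∀ g ∈ liftGp Γ, Per g := fun g hg => hg.1
  have hS : SmallMoves (liftGp Γ) := small_moves hΓ (liftGp Γ) fun F hF => hF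
  have hT : ∃ g ∈ liftGp Γ, ∀ x : ℝ, g x = x + 1 := by
    refine ⟨OrderIso.addRight 1, ⟨fun t => rfl, Homeomorph.refl Bd, IsComm_refl Γ, fun t => ?_⟩,
      fun x => rfl⟩
    show bp t = bp (t + 1)
    exact (bp_add_one t).symm
  obtain ⟨_, hcl⟩ := dense_line hP hS hT F hF1
  obtain ⟨F', ⟨_, h, hc, he⟩, hF'⟩ := hcl (ε / (4 * Real.pi)) (by have := Real.pi_pos; positivity)
  refine ⟨h, hc, fun x => ?_⟩
  obtain ⟨t, _, _, rfl⟩ := bp_surj x
  rw [he, hF2]
  refine lt_of_le_of_lt (bp_lip _ _) ?_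
  have h1 := hF' t
  have hpi := Real.pi_pos
  have h2 : 2 * Real.pi * |F' t - F t| < 2 * Real.pi * (ε / (4 * Real.pi)) :=
    mul_lt_mul_of_pos_left h1 (by positivity)
  have h3 : 2 * Real.pi * (ε / (4 * Real.pi)) = ε / 2 := by
    field_simp; norm_num
  rw [h3] at h2
  linarith



end Pool.Agent.SCD
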