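import Mathlib
import Pool.Agent.SCD.Basic
import Pool.Agent.SCD.L_DW
import Pool.Agent.SCD.L_commute_fix

set_option autoImplicit false

namespace Pool.Agent.SCD

open Filter Topology Set


private lemma j19116_eig (a b c d : ℝ) (hd : a * d - b * c = 1) (ht : 2 < |a + d|) :
    ∃ p q l : ℝ, 0 < p ^ 2 + q ^ 2 ∧ a * p + b * q = l * p ∧ c * p + d * q = l * q ∧
      l ≠ 0 ∧ l ^ 2 ≠ 1 := by
  have ht2 : 4 < (a + d) ^ 2 := by
    have h1 : (2:ℝ) ^ 2 < |a + d| ^ 2 := by
      apply pow_lt_pow_left₀ ht (by norm_num) (by norm_num)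
    rw [sq_abs] at h1
    linarith
  by_cases hb : b = 0
  · subst hb
    have had : a * d = 1 := by linarith
    have hne : a ≠ d := by
      intro h
      subst h
      nlinarith
    refine ⟨a - d, c, a, ?_, by ring, by ring, ?_, ?_⟩
    · have h1 : 0 < (a - d) ^ 2 := by
        have := sub_ne_zero.mpr hne
        positivity
      positivity
    · rintro rfl
      simp at had
    · intro h
      have h1 : a * (a - d) = 0 := by linear_combination h - had
      rcases mul_eq_zero.mp h1 with h2 | h2
      · rw [h2] at had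
        simp at had
      · exact hne (sub_eq_zero.mp h2)
  · have hdisc : 0 ≤ (a + d) ^ 2 - 4 := by linarith
    set r := Real.sqrt ((a + d) ^ 2 - 4) with hr
    have hr2 : r ^ 2 = (a + d) ^ 2 - 4 := Real.sq_sqrt hdisc
    set l := ((a + d) + r) / 2 with hl
    have hchar : l ^ 2 - (a + d) * l + 1 = 0 := by
      rw [hl]
      linear_combination (1/4) * hr2
    refine ⟨b, l - a, l, ?_, by ring, ?_, ?_, ?_⟩
    · have : 0 < b ^ 2 := by positivity
      positivity
    · linear_combination -hchar - hd
    · intro h0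
      rw [h0] at hchar
      norm_num at hchar
    · intro h1
      have h2 : (l - 1) * (l + 1) = 0 := by linear_combination h1
      rcases mul_eq_zero.mp h2 with h3 | h3
      · have h4 : l = 1 := by linarith
        rw [h4] at hchar
        have : a + d = 2 := by linarith
        rw [this] at ht2
        norm_num at ht2
      · have h4 : l = -1 := by linarith
        rw [h4] at hchar
        have : a + d = -2 := by linarith
        rw [this] at ht2
        norm_num at ht2

private lemma j19116_fix {g : SL} (hg : 2 < |ea g + ed g|) :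
    ∃ y : Bd, g • y = y ∧ B y.1 (W g) = 0 := by
  obtain ⟨p, q, l, hn, h1, h2, hl0, hl1⟩ := j19116_eig _ _ _ _ (det_eq g) hg
  have hn' := hn.ne'
  let y0 : V := (p ^ 2 + q ^ 2)⁻¹ • (p ^ 2, p * q, q ^ 2)
  have hy1 : tr y0 = 1 := by
    simp only [y0]
    rw [tr_smul]
    simp only [tr]
    exact inv_mul_cancel₀ hn'
  have hy2 : B y0 y0 = 0 := by
    simp only [y0]
    rw [B_smul_left, B_smul_right]
    unfold B
    simp only
    ring
  have hact : act g y0 = (l ^ 2) • y0 := by
    simp only [y0]
    rw [act_smul, smul_comm]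
    congr 1
    unfold act
    simp only [Prod.smul_mk, smul_eq_mul, Prod.mk.injEq]
    refine ⟨?_, ?_, ?_⟩
    · linear_combination (ea g * p + eb g * q + l * p) * h1
    · linear_combination (ec g * p + ed g * q) * h1 + l * p * h2
    · linear_combination (ec g * p + ed g * q + l * q) * h2
  have hl2 : l ^ 2 ≠ 0 := pow_ne_zero 2 hl0
  let yb : Bd := (⟨y0, hy1, hy2⟩ : {x : V // tr x = 1 ∧ B x x = 0})
  refine ⟨yb, ?_, ?_⟩
  · apply Bd.ext
    rw [smul_val]
    show (tr (act g y0))⁻¹ • act g y0 = y0
    rw [hact, tr_smul, hy1, mul_one, smul_smul, inv_mul_cancel₀ hl2, one_smul]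
  · show B y0 (W g) = 0
    have h3 := B_act g y0 (W g)
    rw [act_W, hact, B_smul_left] at h3
    have h4 : (l ^ 2 - 1) * B y0 (W g) = 0 := by linear_combination h3
    rcases mul_eq_zero.mp h4 with h5 | h5
    · exact absurd (by linarith) hl1
    · exact h5

theorem uniq {H : Subgroup SL} (hH : Good H) {h h' : Bd ≃ₜ Bd} (a : H → SL)
    (e : ∀ (g : H) (x : Bd), h ((g : SL) • x) = a g • h x)
    (e' : ∀ (g : H) (x : Bd), h' ((g : SL) • x) = a g • h' x) : h = h' := by
  have hcomm : ∀ (g : SL), g ∈ H → ∀ x, (h.trans h'.symm) (g • x) = g • (h.trans h'.symm) x := by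
    intro g hg x
    apply h'.injective
    have e1 := e ⟨g, hg⟩ x
    have e2 := e' ⟨g, hg⟩ ((h.trans h'.symm) x)
    simp only [Homeomorph.trans_apply, Homeomorph.apply_symm_apply] at e1 e2 ⊢
    rw [e1, e2]
  have hfix : ∀ x, (h.trans h'.symm) x = x := by
    intro x
    have hcl : IsClosed {y : Bd | (h.trans h'.symm) y = y} :=
      isClosed_eq (h.trans h'.symm).continuous continuous_id
    have hx : x ∈ closure {y : Bd | (h.trans h'.symm) y = y} := by
      rw [Metric.mem_closure_iff]
      intro ε hε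
      obtain ⟨γ, hγ, hγ1, _, hγ2⟩ := DW hH x hε
      obtain ⟨y, hy1, hy2⟩ := j19116_fix (hH.hyp γ hγ hγ1)
      refine ⟨y, commute_fix (hH.hyp γ hγ hγ1) _ (hcomm γ hγ) y hy1, ?_⟩
      rw [dist_comm]
      exact hγ2 y hy2.ge
    rw [hcl.closure_eq] at hx
    exact hx
  ext1 x
  have h1 := hfix x
  simp only [Homeomorph.trans_apply] at h1
  rw [Homeomorph.symm_apply_eq] at h1
  exact h1



end Pool.Agent.SCD
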