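import Mathlib
import Pool.Agent.SCD.Basic
import Pool.Agent.SCD.L_good_sub
import Pool.Agent.SCD.L_IsComm_of_iso
import Pool.Agent.SCD.L_uniq

set_option autoImplicit false

namespace Pool.Agent.SCD

open Filter Topology Set


private theorem eta_idx {Γ : Subgroup SL} {Λ : Type} [Group Λ] (ψ : Γ →* Λ)
    (hi : ψ.range.index ≠ 0) (f : Γ →* Λ) : (ψ.range.comap f).index ≠ 0 := by
  rw [Subgroup.index_comap]
  intro h0
  exact hi (Subgroup.index_eq_zero_of_relIndex_eq_zero h0)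

private theorem eta_lift {Γ : Subgroup SL} {Λ : Type} [Group Λ] (ψ : Γ →* Λ)
    (hψ : Function.Injective ψ) (α : MulAut Λ) (H : Subgroup Γ)
    (hH : ∀ g ∈ H, α (ψ g) ∈ ψ.range) : ∃ f : H →* Γ, ∀ g : H, ψ (f g) = α (ψ g) := by
  let c : H →* ψ.range := (((α : Λ ≃* Λ).toMonoidHom.comp ψ).comp H.subtype).codRestrict ψ.range
    (fun g => hH g g.2)
  refine ⟨(MonoidHom.ofInjective hψ).symm.toMonoidHom.comp c, fun g => ?_⟩
  have h1 : ((MonoidHom.ofInjective hψ) ((MonoidHom.ofInjective hψ).symm (c g)) : Λ) = c g := by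
    rw [MulEquiv.apply_symm_apply]
  exact h1

theorem eta_exists {Γ : Subgroup SL} (hΓ : Good Γ) {Λ : Type} [Group Λ] (ψ : Γ →* Λ)
    (hψ : Function.Injective ψ) (hi : ψ.range.index ≠ 0) (α : MulAut Λ) :
    ∃ h : Bd ≃ₜ Bd, IsComm Γ h ∧ ∀ g g' : Γ, α (ψ g) = ψ g' → ∀ x : Bd,
      h ((g : SL) • x) = (g' : SL) • h x := by
  let H₀ : Subgroup Γ := ψ.range.comap ((α : Λ ≃* Λ).toMonoidHom.comp ψ)
  let K₀ : Subgroup Γ := ψ.range.comap ((α⁻¹ : MulAut Λ).toMonoidHom.comp ψ)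
  have iH₀ : H₀.index ≠ 0 := eta_idx ψ hi _
  have iK₀ : K₀.index ≠ 0 := eta_idx ψ hi _
  obtain ⟨f, hf⟩ := eta_lift ψ hψ α H₀ (fun g hg => hg)
  obtain ⟨f', hf'⟩ := eta_lift ψ hψ α⁻¹ K₀ (fun g hg => hg)
  have e1 : ∀ y, α (α⁻¹ y) = y := fun y => MulAut.apply_inv_self Λ α y
  have e2 : ∀ y, α⁻¹ (α y) = y := fun y => MulAut.inv_apply_self Λ α y
  have m1 : ∀ g : H₀, f g ∈ K₀ := by
    intro g
    show α⁻¹ (ψ (f g)) ∈ ψ.range
    rw [hf, e2]
    exact ⟨g, rfl⟩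
  have m2 : ∀ g : K₀, f' g ∈ H₀ := by
    intro g
    show α (ψ (f' g)) ∈ ψ.range
    rw [hf', e1]
    exact ⟨g, rfl⟩
  let φ₀ : H₀ ≃* K₀ :=
    { toFun := fun g => ⟨f g, m1 g⟩
      invFun := fun g => ⟨f' g, m2 g⟩
      left_inv := fun g => Subtype.ext (hψ (by
        show ψ (f' ⟨f g, m1 g⟩) = ψ g
        rw [hf']
        show α⁻¹ (ψ (f g)) = ψ g
        rw [hf, e2]))
      right_inv := fun g => Subtype.ext (hψ (by
        show ψ (f ⟨f' g, m2 g⟩) = ψ g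
        rw [hf]
        show α (ψ (f' g)) = ψ g
        rw [hf', e1]))
      map_mul' := fun g g' => Subtype.ext (by
        show f (g * g') = f g * f g'
        rw [map_mul]) }
  have hinj : Function.Injective Γ.subtype := Subtype.val_injective
  let H : Subgroup SL := H₀.map Γ.subtype
  let K : Subgroup SL := K₀.map Γ.subtype
  have hHs : H.subgroupOf Γ = H₀ := Subgroup.comap_map_eq_self_of_injective hinj H₀
  have hKs : K.subgroupOf Γ = K₀ := Subgroup.comap_map_eq_self_of_injective hinj K₀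
  have hH : H ≤ Γ := Subgroup.map_subtype_le H₀
  have hK : K ≤ Γ := Subgroup.map_subtype_le K₀
  let φ : H ≃* K := ((H₀.equivMapOfInjective Γ.subtype hinj).symm.trans φ₀).trans
    (K₀.equivMapOfInjective Γ.subtype hinj)
  obtain ⟨h, hc, he⟩ := IsComm_of_iso hΓ hH hK (by rw [hHs]; exact iH₀) (by rw [hKs]; exact iK₀) φ
  refine ⟨h, hc, ?_⟩
  intro g g' hgg x
  have hg : g ∈ H₀ := by
    show α (ψ g) ∈ ψ.range
    rw [hgg]; exact ⟨g', rfl⟩
  have hfg : f ⟨g, hg⟩ = g' := hψ (by rw [hf]; exact hgg)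
  have h1 := he (H₀.equivMapOfInjective Γ.subtype hinj ⟨g, hg⟩) x
  have h2 : φ (H₀.equivMapOfInjective Γ.subtype hinj ⟨g, hg⟩) =
      K₀.equivMapOfInjective Γ.subtype hinj (φ₀ ⟨g, hg⟩) := by
    show K₀.equivMapOfInjective Γ.subtype hinj (φ₀ ((H₀.equivMapOfInjective Γ.subtype hinj).symm
      (H₀.equivMapOfInjective Γ.subtype hinj ⟨g, hg⟩))) = _
    rw [MulEquiv.symm_apply_apply]
  rw [h2, Subgroup.coe_equivMapOfInjective_apply, Subgroup.coe_equivMapOfInjective_apply] at h1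
  have h3 : ((φ₀ ⟨g, hg⟩ : K₀) : Γ) = g' := hfg
  rw [h3] at h1
  exact h1

theorem eta_unique {Γ : Subgroup SL} (hΓ : Good Γ) {Λ : Type} [Group Λ] (ψ : Γ →* Λ)
    (hψ : Function.Injective ψ) (hi : ψ.range.index ≠ 0) (α β : MulAut Λ) {h h' h'' : Bd ≃ₜ Bd}
    (e : ∀ g g' : Γ, α (ψ g) = ψ g' → ∀ x : Bd, h ((g : SL) • x) = (g' : SL) • h x)
    (e' : ∀ g g' : Γ, β (ψ g) = ψ g' → ∀ x : Bd, h' ((g : SL) • x) = (g' : SL) • h' x)
    (e'' : ∀ g g' : Γ, (α * β) (ψ g) = ψ g' → ∀ x : Bd, h'' ((g : SL) • x) = (g' : SL) • h'' x) :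
    ∀ x, h'' x = h (h' x) := by
  let H₁ : Subgroup Γ := ψ.range.comap ((β : Λ ≃* Λ).toMonoidHom.comp ψ)
  let H₂ : Subgroup Γ := ψ.range.comap ((α * β : MulAut Λ).toMonoidHom.comp ψ)
  have iH₁ : H₁.index ≠ 0 := eta_idx ψ hi _
  have iH₂ : H₂.index ≠ 0 := eta_idx ψ hi _
  have iH : (H₁ ⊓ H₂).index ≠ 0 := Subgroup.index_inf_ne_zero iH₁ iH₂
  have hinj : Function.Injective Γ.subtype := Subtype.val_injective
  let H : Subgroup SL := (H₁ ⊓ H₂).map Γ.subtype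
  have hHs : H.subgroupOf Γ = H₁ ⊓ H₂ := Subgroup.comap_map_eq_self_of_injective hinj _
  have hH : H ≤ Γ := Subgroup.map_subtype_le _
  have hG : Good H := good_sub hΓ hH (by rw [hHs]; exact iH)
  have hex : ∀ g : H, ∃ g₀ g' g'' : Γ, (g₀ : SL) = g ∧ β (ψ g₀) = ψ g' ∧
      (α * β) (ψ g₀) = ψ g'' := by
    rintro ⟨g, g₀, ⟨h1, h2⟩, rfl⟩
    obtain ⟨g', hg'⟩ : β (ψ g₀) ∈ ψ.range := h1
    obtain ⟨g'', hg''⟩ : (α * β) (ψ g₀) ∈ ψ.range := h2
    exact ⟨g₀, g', g'', rfl, hg'.symm, hg''.symm⟩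
  choose g₀ g' g'' E0 E1 E2 using hex
  have key : h'' = h'.trans h := by
    refine uniq hG (fun g => (g'' g : SL)) ?_ ?_
    · intro g x
      rw [← E0 g]
      exact e'' _ _ (E2 g) x
    · intro g x
      show h (h' ((g : SL) • x)) = (g'' g : SL) • h (h' x)
      rw [← E0 g, e' _ _ (E1 g) x]
      refine e _ _ ?_ _
      rw [← E1 g]
      exact E2 g
  intro x
  rw [key]
  rfl


end Pool.Agent.SCD
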