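import Mathlib
import Pool.Agent.SCD.Basic
import Pool.Agent.SCD.L_bp_facts

set_option autoImplicit false

namespace Pool.Agent.SCD

open Filter Topology Set


private theorem j19142_int {F : ℝ → ℝ} (hF : ∀ t, F (t + 1) = F t + 1) (k : ℤ) :
    ∀ t, F (t + k) = F t + k := by
  induction k using Int.induction_on with
  | zero => intro t; simp
  | succ i ih =>
    intro t
    have h1 : t + ((i + 1 : ℤ) : ℝ) = (t + (i : ℤ)) + 1 := by push_cast; ring
    rw [h1, hF, ih]
    push_cast
    ring
  | pred i ih =>
    intro t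
    have h1 : F (t + ((-i - 1 : ℤ) : ℝ) + 1) = F (t + ((-i - 1 : ℤ) : ℝ)) + 1 := hF _
    have h2 : t + ((-i - 1 : ℤ) : ℝ) + 1 = t + ((-i : ℤ) : ℝ) := by push_cast; ring
    rw [h2, ih] at h1
    have h3 : ((-i - 1 : ℤ) : ℝ) = ((-i : ℤ) : ℝ) - 1 := by push_cast; ring
    rw [h3] at h1 ⊢
    linarith

private theorem j19142_const {g : ℝ → ℝ} (hg : Continuous g) (h : ∀ t, ∃ k : ℤ, g t = k) :
    ∃ k : ℤ, ∀ t, g t = k := by
  obtain ⟨k, hk⟩ := h 0
  refine ⟨k, fun t => ?_⟩
  obtain ⟨l, hl⟩ := h t
  rcases lt_trichotomy l k with h1 | h1 | h1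
  · exfalso
    have h2 : (l : ℝ) + 1 ≤ k := by exact_mod_cast h1
    have h3 : (l : ℝ) + 1 / 2 ∈ Set.range g :=
      mem_range_of_exists_le_of_exists_ge hg ⟨t, by rw [hl]; linarith⟩ ⟨0, by rw [hk]; linarith⟩
    obtain ⟨c, hc⟩ := h3
    obtain ⟨q, hq⟩ := h c
    rw [hq] at hc
    have h4 : ((2 * q : ℤ) : ℝ) = ((2 * l + 1 : ℤ) : ℝ) := by push_cast; linarith
    have h5 : 2 * q = 2 * l + 1 := by exact_mod_cast h4
    omega
  · rw [hl, h1]
  · exfalso
    have h2 : (k : ℝ) + 1 ≤ l := by exact_mod_cast h1
    have h3 : (k : ℝ) + 1 / 2 ∈ Set.range g :=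
      mem_range_of_exists_le_of_exists_ge hg ⟨0, by rw [hk]; linarith⟩ ⟨t, by rw [hl]; linarith⟩
    obtain ⟨c, hc⟩ := h3
    obtain ⟨q, hq⟩ := h c
    rw [hq] at hc
    have h4 : ((2 * q : ℤ) : ℝ) = ((2 * k + 1 : ℤ) : ℝ) := by push_cast; linarith
    have h5 : 2 * q = 2 * k + 1 := by exact_mod_cast h4
    omega

private theorem j19142_bp {g h : ℝ → ℝ} (hg : Continuous g) (hh : Continuous h)
    (e : ∀ t, bp (g t) = bp (h t)) : ∃ k : ℤ, ∀ t, g t = h t + k := by
  obtain ⟨k, hk⟩ := j19142_const (g := fun t => g t - h t) (hg.sub hh) (fun t => by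
    obtain ⟨k, hk⟩ := (bp_eq_iff _ _).1 (e t)
    exact ⟨k, by simp only [hk]; ring⟩)
  exact ⟨k, fun t => by have := hk t; linarith⟩

/-- an orientation preserving homeomorphism of finite order which is conjugate to its inverse by an
orientation preserving homeomorphism has order at most two -/
theorem rot {f k : Bd ≃ₜ Bd} (hf : OP f) (hk : OP k) {n : ℕ} (hn : 0 < n)
    (h1 : ∀ x, f^[n] x = x) (h2 : ∀ x, k (f x) = f.symm (k x)) : ∀ x, f (f x) = x := by
  obtain ⟨U, hU1, hU⟩ := hf
  obtain ⟨K, hK1, hK⟩ := hk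
  have hUs1 : ∀ t, U.symm (t + 1) = U.symm t + 1 := by
    intro t
    apply U.injective
    rw [hU1, U.apply_symm_apply, U.apply_symm_apply]
  have hUs : ∀ t, f.symm (bp t) = bp (U.symm t) := by
    intro t
    rw [Homeomorph.symm_apply_eq, hU, U.apply_symm_apply]
  have hUc : Continuous U := U.continuous
  have hUsc : Continuous U.symm := U.symm.continuous
  have hKc : Continuous K := K.continuous
  -- the first constant
  obtain ⟨j, hj⟩ := j19142_bp (g := fun t => K (U t)) (h := fun t => U.symm (K t))
    (hKc.comp hUc) (hUsc.comp hKc) (fun t => by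
      rw [← hK, ← hU, h2, hK, hUs])
  -- the second constant
  have hit : ∀ (i : ℕ) (t : ℝ), f^[i] (bp t) = bp (U^[i] t) := by
    intro i
    induction i with
    | zero => intro t; rfl
    | succ i ih =>
      intro t
      rw [Function.iterate_succ_apply', Function.iterate_succ_apply', ih, hU]
  have hitc : ∀ i : ℕ, Continuous (U^[i]) := fun i => hUc.iterate i
  obtain ⟨m, hm⟩ := j19142_bp (g := U^[n]) (h := fun t => t) (hitc n) continuous_id
    (fun t => by rw [← hit, h1])
  -- iteration of the first relation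
  have hint := j19142_int (F := U.symm) hUs1
  have hKi : ∀ (i : ℕ) (t : ℝ), K (U^[i] t) = U.symm^[i] (K t) + i * j := by
    intro i
    induction i with
    | zero => intro t; simp
    | succ i ih =>
      intro t
      rw [Function.iterate_succ_apply', hj, ih, Function.iterate_succ_apply']
      have h3 : U.symm^[i] (K t) + (i : ℝ) * j = U.symm^[i] (K t) + ((i * j : ℤ) : ℝ) := by
        push_cast; ring
      rw [h3, hint]
      push_cast
      ring
  have hUsn : ∀ t, U.symm^[n] t = t - m := by
    intro t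
    have h3 : Function.LeftInverse (U.symm^[n]) (U^[n]) :=
      Function.LeftInverse.iterate U.symm_apply_apply n
    have h4 := h3 (t - m)
    rw [hm] at h4
    simpa using h4
  have h2m : 2 * (m : ℝ) = n * j := by
    have h3 := hKi n 0
    rw [hm, hUsn] at h3
    have h4 := j19142_int (F := K) hK1 m 0
    rw [h4] at h3
    linarith
  -- the map `V`
  have hV : ∀ t, U (U t) - j = t := by
    set V : ℝ → ℝ := fun t => U (U t) - j with hVd
    have hVm : StrictMono V := by
      intro a b hab
      have := U.strictMono (U.strictMono hab)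
      simp only [hVd]
      linarith
    have hUj := j19142_int (F := U) hU1
    have hVi : ∀ (i : ℕ) (t : ℝ), V^[i] t = U^[i] (U^[i] t) - i * j := by
      intro i
      induction i with
      | zero => intro t; simp
      | succ i ih =>
        intro t
        rw [Function.iterate_succ_apply', ih]
        simp only [hVd]
        have h3 : U^[i] (U^[i] t) - (i : ℝ) * j = U^[i] (U^[i] t) + ((-(i * j) : ℤ) : ℝ) := by
          push_cast; ring
        rw [h3, hUj, hUj, Function.iterate_succ_apply', Function.iterate_succ_apply']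
        have h4 : U (U^[i] (U^[i] t)) = U^[i] (U (U^[i] t)) := by
          rw [← Function.iterate_succ_apply' U i, Function.iterate_succ_apply]
        rw [h4]
        push_cast
        ring
    have hVn : ∀ t, V^[n] t = t := by
      intro t
      rw [hVi, hm, hm]
      linarith
    intro t
    show V t = t
    rcases lt_trichotomy (V t) t with h3 | h3 | h3
    · have h4 := hVm.strictAnti_iterate_of_map_lt h3 hn
      simp only [hVn, Function.iterate_zero, id] at h4
      exact absurd h4 (lt_irrefl _)
    · exact h3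
    · have h4 := hVm.strictMono_iterate_of_lt_map h3 hn
      simp only [hVn, Function.iterate_zero, id] at h4
      exact absurd h4 (lt_irrefl _)
  intro x
  obtain ⟨t, _, _, rfl⟩ := bp_surj x
  rw [hU, hU, bp_eq_iff]
  exact ⟨j, by have := hV t; linarith⟩



end Pool.Agent.SCD
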