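import Mathlib
import Pool.Agent.SCD.Basic

set_option autoImplicit false

namespace Pool.Agent.SCD

open Filter Topology Set


/-- relators of the triangle group -/
private def algR (d : ℕ) : Set (FreeGroup Bool) :=
  {FreeGroup.of true ^ d, FreeGroup.of false ^ 2, (FreeGroup.of true * FreeGroup.of false) ^ 3}

private theorem alg_lift (d : ℕ) {K : Type} [Group K] (x y : K) (h1 : x ^ d = 1) (h2 : y ^ 2 = 1)
    (h3 : (x * y) ^ 3 = 1) :
    ∃ f : PresentedGroup (algR d) →* K, f (PresentedGroup.of true) = x ∧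
      f (PresentedGroup.of false) = y := by
  have h : ∀ r ∈ algR d, FreeGroup.lift (fun b : Bool => if b then x else y) r = 1 := by
    intro r hr
    rcases hr with rfl | rfl | rfl
    · simp [h1]
    · simp [h2]
    · simp [h3]
  refine ⟨PresentedGroup.toGroup h, ?_, ?_⟩
  · rw [PresentedGroup.toGroup.of]; simp
  · rw [PresentedGroup.toGroup.of]; simp

private theorem alg_rels (d : ℕ) :
    ((PresentedGroup.of true : PresentedGroup (algR d)) ^ d = 1) ∧
    ((PresentedGroup.of false : PresentedGroup (algR d)) ^ 2 = 1) ∧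
    (((PresentedGroup.of true : PresentedGroup (algR d)) * PresentedGroup.of false) ^ 3 = 1) := by
  refine ⟨?_, ?_, ?_⟩
  · exact PresentedGroup.one_of_mem (rels := algR d) (x := FreeGroup.of true ^ d) (Or.inl rfl)
  · exact PresentedGroup.one_of_mem (rels := algR d) (x := FreeGroup.of false ^ 2)
      (Or.inr (Or.inl rfl))
  · exact PresentedGroup.one_of_mem (rels := algR d)
      (x := (FreeGroup.of true * FreeGroup.of false) ^ 3) (Or.inr (Or.inr rfl))

private theorem alg_tst {K : Type} [Group K] (s t : K) (h2 : t ^ 2 = 1) (h3 : (s * t) ^ 3 = 1) :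
    t * s⁻¹ * t = s * t * s := by
  have ht : t⁻¹ = t := by
    rw [inv_eq_iff_mul_eq_one, ← pow_two]; exact h2
  have h4 : s * t * (s * t) * (s * t) = 1 := by
    rw [← h3, pow_succ, pow_two]
  have h5 : s * t * s = (t * s * t)⁻¹ := by
    rw [eq_inv_iff_mul_eq_one]
    rw [← h4]; group
  rw [h5]
  simp only [mul_inv_rev, ht, mul_assoc]

/-- a one-vertex triangulation embeds the group into a triangle group, with its mirror automorphism -/
theorem alg {G : Type} [Group G] (A : Set G) (hfin : A.Finite) (hne : A.Nonempty)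
    (hgen : Subgroup.closure A = ⊤) (hinv : ∀ a ∈ A, a⁻¹ ∈ A) (σ : Equiv.Perm A)
    (hσ : ∀ a : A, ∃ c : A, (c : G) = (a : G)⁻¹ * (σ a : G) ∧ ((σ c : A) : G) = (a : G)⁻¹)
    (htr : ∀ S : Set A, S.Nonempty → (∀ a ∈ S, σ a ∈ S) → S = univ)
    (huniv : ∀ (L : Type) [Group L] (μ : A → L),
      (∀ a b : A, (b : G) = (a : G)⁻¹ → μ b = (μ a)⁻¹) →
      (∀ a c : A, (c : G) = (a : G)⁻¹ * (σ a : G) → μ a * μ c = μ (σ a)) →
      ∃ Φ : G →* L, ∀ a : A, Φ a = μ a) :
    ∃ (Λ : Type) (_ : Group Λ) (ψ : G →* Λ) (s t : Λ) (m : MulAut Λ) (d : ℕ),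
      Function.Injective ψ ∧ ψ.range.index ≠ 0 ∧ 0 < d ∧ s ^ d = 1 ∧ t ^ 2 = 1 ∧ (s * t) ^ 3 = 1 ∧
      Subgroup.closure {s, t} = ⊤ ∧ m s = s⁻¹ ∧ m t = t := by
  classical
  haveI : Finite A := hfin.to_subtype
  obtain ⟨a0', ha0'⟩ := hne
  obtain ⟨a0, -⟩ : ∃ a0 : A, a0 = ⟨a0', ha0'⟩ := ⟨_, rfl⟩
  obtain ⟨iv, hiv⟩ : ∃ iv : A → A, ∀ a : A, ((iv a : A) : G) = (a : G)⁻¹ :=
    ⟨fun a => ⟨(a : G)⁻¹, hinv a a.2⟩, fun a => rfl⟩
  have hiviv : ∀ a, iv (iv a) = a := by
    intro a; apply Subtype.ext; rw [hiv, hiv, inv_inv]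
  obtain ⟨d, hd⟩ : ∃ d : ℕ, d = orderOf σ := ⟨_, rfl⟩
  have hd0 : 0 < d := by rw [hd]; exact orderOf_pos σ
  have hreach : ∀ a : A, ∃ i : ℕ, (σ ^ i) a0 = a := by
    have h := htr {a | ∃ i : ℕ, (σ ^ i) a0 = a} ⟨a0, 0, rfl⟩ (by
      rintro a ⟨i, hi⟩
      refine ⟨i + 1, ?_⟩
      rw [pow_succ', Equiv.Perm.mul_apply, hi])
    intro a
    have : a ∈ {a | ∃ i : ℕ, (σ ^ i) a0 = a} := by rw [h]; exact mem_univ a
    exact this
  choose ix hix using hreach
  obtain ⟨hs, ht, hst⟩ := alg_rels d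
  obtain ⟨s, hsdef⟩ : ∃ s : PresentedGroup (algR d), s = PresentedGroup.of true := ⟨_, rfl⟩
  obtain ⟨t, htdef⟩ : ∃ t : PresentedGroup (algR d), t = PresentedGroup.of false := ⟨_, rfl⟩
  rw [← hsdef] at hs
  rw [← htdef] at ht
  rw [← hsdef, ← htdef] at hst
  have htinv : t⁻¹ = t := by
    rw [inv_eq_iff_mul_eq_one, ← pow_two]; exact ht
  have htt : t * t = 1 := by rw [← pow_two]; exact ht
  have htst := alg_tst s t ht hst
  -- the key fact
  have key : ∀ p q : ℤ, (σ ^ p) a0 = (σ ^ q) a0 → s ^ p = s ^ q := by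
    intro p q h
    have h1 : σ ^ (p - q) = 1 := by
      apply Equiv.ext
      intro a
      rw [← hix a]
      have h2 : (σ ^ (p - q)) ((σ ^ (ix a)) a0) = (σ ^ (ix a)) ((σ ^ (p - q)) a0) := by
        rw [← Equiv.Perm.mul_apply, ← Equiv.Perm.mul_apply]
        congr 1
        exact (((Commute.refl σ).zpow_left _).pow_right _).eq
      have h3 : (σ ^ (p - q)) a0 = a0 := by
        rw [sub_eq_add_neg, add_comm, zpow_add, Equiv.Perm.mul_apply, h,
          ← Equiv.Perm.mul_apply, ← zpow_add]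
        simp
      rw [h2, h3]
      rfl
    have h4 : (orderOf σ : ℤ) ∣ p - q := orderOf_dvd_iff_zpow_eq_one.2 h1
    rw [← hd] at h4
    obtain ⟨e, he⟩ := h4
    have h5 : s ^ (p - q) = 1 := by
      rw [he, zpow_mul, zpow_natCast, hs, one_zpow]
    have h6 : p = (p - q) + q := by ring
    rw [h6, zpow_add, h5, one_mul]
  have key' : ∀ p : ℤ, ∀ a : A, (σ ^ p) a0 = a → s ^ (ix a : ℤ) = s ^ p := by
    intro p a h
    apply key
    rw [h, zpow_natCast, hix]
  -- the map on the generators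
  obtain ⟨μ, hμ⟩ : ∃ μ : A → PresentedGroup (algR d),
      ∀ a, μ a = s ^ (ix a : ℤ) * t * (s ^ (ix (iv a) : ℤ))⁻¹ := ⟨_, fun a => rfl⟩
  have hσix : ∀ a : A, s ^ (ix (σ a) : ℤ) = s ^ (ix a : ℤ) * s := by
    intro a
    rw [key' ((ix a : ℤ) + 1) (σ a), zpow_add, zpow_one]
    rw [add_comm, zpow_add, zpow_one, Equiv.Perm.mul_apply, zpow_natCast, hix]
  obtain ⟨ψ, hψ⟩ := huniv (PresentedGroup (algR d)) μ (by
    intro a b hab
    have hb : b = iv a := by apply Subtype.ext; rw [hab, hiv]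
    rw [hμ, hμ, hb, hiviv]
    simp only [mul_inv_rev, inv_inv, htinv, mul_assoc]) (by
    intro a c hc
    obtain ⟨c', hc1, hc2⟩ := hσ a
    have hcc : c' = c := by apply Subtype.ext; rw [hc1, hc]
    rw [hcc] at hc2
    have hsc : σ c = iv a := by apply Subtype.ext; rw [hc2, hiv]
    obtain ⟨e, he1, he2⟩ := hσ c
    have hee : e = iv (σ a) := by
      apply Subtype.ext
      rw [he1, hsc, hiv, hiv, hc]
      group
    have hse : σ (iv (σ a)) = iv c := by
      apply Subtype.ext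
      rw [← hee, he2, hiv]
    rw [hμ, hμ, hμ, ← hsc, hσix c, ← hse, hσix (iv (σ a)), hσix a]
    have e1 : s ^ (ix a : ℤ) * t * (s ^ (ix c : ℤ) * s)⁻¹ *
        (s ^ (ix c : ℤ) * t * (s ^ (ix (iv (σ a)) : ℤ) * s)⁻¹) =
        s ^ (ix a : ℤ) * (t * s⁻¹ * t) * s⁻¹ * (s ^ (ix (iv (σ a)) : ℤ))⁻¹ := by
      group
    rw [e1, htst]
    group)
  have ias : ∀ (τ : Equiv.Perm A) (x : A), τ⁻¹ (τ x) = x := fun τ x => τ.symm_apply_apply x
  have sai : ∀ (τ : Equiv.Perm A) (x : A), τ (τ⁻¹ x) = x := fun τ x => τ.apply_symm_apply x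
  -- the permutation representation
  have hCex : ∀ a : A, ((σ⁻¹ (iv a) : A) : G) = (a : G)⁻¹ * (σ a : G) := by
    intro a
    obtain ⟨c, hc1, hc2⟩ := hσ a
    have : σ c = iv a := by apply Subtype.ext; rw [hc2, hiv]
    rw [← this, ias, hc1]
  let S : Equiv.Perm (G × A) := Equiv.prodCongr (Equiv.refl G) σ⁻¹
  have hTT : Function.Involutive (fun x : G × A => ((x.1 * (x.2 : G), iv x.2) : G × A)) := by
    rintro ⟨g, a⟩
    simp only [hiviv, hiv]
    rw [mul_assoc, mul_inv_cancel, mul_one]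
  let T : Equiv.Perm (G × A) := hTT.toPerm
  have hS : ∀ g a, S (g, a) = (g, σ⁻¹ a) := fun g a => rfl
  have hT : ∀ g (a : A), T (g, a) = (g * (a : G), iv a) := fun g a => rfl
  have hSz : ∀ (k : ℤ) g a, (S ^ k) (g, a) = (g, (σ ^ (-k)) a) := by
    have hn : ∀ (k : ℕ) g a, (S ^ k) (g, a) = (g, ((σ⁻¹) ^ k) a) := by
      intro k
      induction k with
      | zero => intro g a; rfl
      | succ k ih =>
        intro g a
        rw [pow_succ', Equiv.Perm.mul_apply, ih, hS, pow_succ', Equiv.Perm.mul_apply]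
    intro k g a
    rcases le_total 0 k with hk | hk
    · obtain ⟨n, rfl⟩ := Int.eq_ofNat_of_zero_le hk
      rw [zpow_natCast, hn, zpow_neg, zpow_natCast, inv_pow]
    · obtain ⟨n, hn'⟩ := Int.eq_ofNat_of_zero_le (show 0 ≤ -k by omega)
      have hk' : k = -(n:ℤ) := by omega
      rw [hk', zpow_neg, zpow_natCast, neg_neg, zpow_natCast, Equiv.Perm.inv_eq_iff_eq, hn,
        inv_pow, ias]
  obtain ⟨ρ, hρs, hρt⟩ := alg_lift d (K := Equiv.Perm (G × A)) S T (by
      apply Equiv.ext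
      rintro ⟨g, a⟩
      rw [← zpow_natCast, hSz]
      have : σ ^ (-(d:ℤ)) = 1 := by
        rw [zpow_neg, zpow_natCast, hd, pow_orderOf_eq_one, inv_one]
      rw [this]
      rfl) (by
      apply Equiv.ext
      intro x
      rw [pow_two, Equiv.Perm.mul_apply]
      exact hTT x) (by
      have hf : ∀ g (a : A), (S * T) (g, a) = (g * (a : G), σ⁻¹ (iv a)) := fun g a => rfl
      apply Equiv.ext
      rintro ⟨g, a⟩
      rw [pow_succ, pow_two, Equiv.Perm.mul_apply, Equiv.Perm.mul_apply, hf, hf, hf]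
      have e1 : ((σ⁻¹ (iv a) : A) : G) = (a : G)⁻¹ * (σ a : G) := hCex a
      have e2 : ((σ⁻¹ (iv (σ⁻¹ (iv a))) : A) : G) = ((σ a : A) : G)⁻¹ := by
        rw [hCex, e1, sai, hiv]
        group
      have e3 : σ⁻¹ (iv (σ⁻¹ (iv a))) = iv (σ a) := by
        apply Subtype.ext; rw [e2, hiv]
      rw [e3, hiviv, ias]
      have e4 : g * (a:G) * ((σ⁻¹ (iv a) : A) : G) * ((iv (σ a) : A) : G) = g := by
        rw [e1, hiv]; group
      show ((g * (a:G) * ((σ⁻¹ (iv a) : A) : G) * ((iv (σ a) : A) : G), a) : G × A) = (g, a)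
      rw [e4])
  rw [← hsdef] at hρs
  rw [← htdef] at hρt
  have hact : ∀ h : G, ∀ g, ρ (ψ h) (g, a0) = (g * h⁻¹, a0) := by
    intro h
    have hmem : h ∈ Subgroup.closure A := by rw [hgen]; exact Subgroup.mem_top h
    induction hmem using Subgroup.closure_induction with
    | mem a ha =>
      intro g
      have e0 : ψ a = μ ⟨a, ha⟩ := hψ ⟨a, ha⟩
      have e1 : (S ^ (-(ix (iv ⟨a, ha⟩) : ℤ))) (g, a0) = (g, iv ⟨a, ha⟩) := by
        rw [hSz, neg_neg, zpow_natCast, hix]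
      have e2 : (S ^ (ix (⟨a, ha⟩ : A) : ℤ)) (g * a⁻¹, ⟨a, ha⟩) = (g * a⁻¹, a0) := by
        have e3 : (σ ^ (-(ix (⟨a, ha⟩ : A) : ℤ))) ⟨a, ha⟩ = a0 := by
          have h4 := ias (σ ^ (ix (⟨a, ha⟩ : A))) a0
          rw [hix] at h4
          rw [zpow_neg, zpow_natCast]
          exact h4
        rw [hSz, e3]
      rw [e0, hμ, map_mul, map_mul, map_inv, map_zpow, map_zpow, hρs, hρt, ← zpow_neg,
        Equiv.Perm.mul_apply, Equiv.Perm.mul_apply, e1, hT, hiviv, hiv]
      exact e2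
    | one => intro g; simp
    | mul x y _ _ hx hy =>
      intro g
      rw [map_mul, map_mul, Equiv.Perm.mul_apply, hy, hx, mul_inv_rev, mul_assoc]
    | inv x _ hx =>
      intro g
      rw [map_inv, map_inv, Equiv.Perm.inv_eq_iff_eq, hx, inv_inv]
      simp
  have hinj : Function.Injective ψ := by
    rw [injective_iff_map_eq_one]
    intro h hh
    have := hact h 1
    rw [hh, map_one] at this
    have h2 : (1 : G) = 1 * h⁻¹ := congrArg Prod.fst this
    rw [one_mul] at h2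
    exact inv_eq_one.1 h2.symm
  have hclos : Subgroup.closure {s, t} = (⊤ : Subgroup (PresentedGroup (algR d))) := by
    rw [← PresentedGroup.closure_range_of (algR d)]
    congr 1
    ext x
    constructor
    · rintro (rfl | rfl)
      · exact ⟨true, hsdef.symm⟩
      · exact ⟨false, htdef.symm⟩
    · rintro ⟨b, rfl⟩
      rcases b with _ | _
      · right; exact htdef.symm
      · left; exact hsdef.symm
  -- every element is `s^j ψ g`
  have hts : ∀ j : ℤ, ∃ (g : G) (k : ℤ), t * s ^ j = s ^ k * ψ g := by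
    intro j
    obtain ⟨b, hb⟩ : ∃ b : A, b = (σ ^ (-j)) a0 := ⟨_, rfl⟩
    have h1 : s ^ (ix b : ℤ) = s ^ (-j) := key' (-j) b hb.symm
    refine ⟨(iv b : G), -(ix (iv b) : ℤ), ?_⟩
    rw [hψ, hμ, hiviv, h1]
    group
  have hall : ∀ h : PresentedGroup (algR d), ∃ (g : G) (k : ℤ), h = s ^ k * ψ g := by
    intro h
    have hmem : h ∈ Subgroup.closure {s, t} := by rw [hclos]; exact Subgroup.mem_top h
    induction hmem using Subgroup.closure_induction_left with
    | one => exact ⟨1, 0, by simp⟩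
    | mul_left x hx y _ hy =>
      obtain ⟨g, k, hy⟩ := hy
      rcases hx with rfl | rfl
      · exact ⟨g, 1 + k, by rw [hy, zpow_add, zpow_one, mul_assoc]⟩
      · obtain ⟨g', k', h'⟩ := hts k
        exact ⟨g' * g, k', by rw [hy, ← mul_assoc, h', map_mul, mul_assoc]⟩
    | inv_mul_cancel x hx y _ hy =>
      obtain ⟨g, k, hy⟩ := hy
      rcases hx with rfl | rfl
      · exact ⟨g, -1 + k, by rw [hy, zpow_add, zpow_neg_one, mul_assoc]⟩
      · obtain ⟨g', k', h'⟩ := hts k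
        exact ⟨g' * g, k', by rw [htinv, hy, ← mul_assoc, h', map_mul, mul_assoc]⟩
  have hidx : ψ.range.index ≠ 0 := by
    have hsurj : Function.Surjective (fun z : Fin d =>
        (QuotientGroup.mk (s ^ (z : ℕ)) : PresentedGroup (algR d) ⧸ ψ.range)) := by
      intro q
      obtain ⟨h, rfl⟩ := QuotientGroup.mk_surjective q
      obtain ⟨g, k, hk⟩ := hall h
      have hdz : (0:ℤ) < (d:ℤ) := by exact_mod_cast hd0
      have hnn : 0 ≤ k % (d:ℤ) := Int.emod_nonneg _ hdz.ne'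
      have hlt : k % (d:ℤ) < d := Int.emod_lt_of_pos _ hdz
      have hks : s ^ ((k % (d:ℤ)).toNat) = s ^ k := by
        rw [← zpow_natCast, Int.toNat_of_nonneg hnn]
        have h6 : k = k % (d:ℤ) + (d:ℤ) * (k / (d:ℤ)) := (Int.emod_add_mul_ediv k d).symm
        conv_rhs => rw [h6]
        rw [zpow_add, zpow_mul, zpow_natCast, hs, one_zpow, mul_one]
      refine ⟨⟨(k % (d:ℤ)).toNat, by omega⟩, ?_⟩
      simp only
      rw [QuotientGroup.eq, hks, hk]
      exact ⟨g, by group⟩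
    haveI : Finite (PresentedGroup (algR d) ⧸ ψ.range) := Finite.of_surjective _ hsurj
    exact Subgroup.index_ne_zero_of_finite
  -- the mirror automorphism
  obtain ⟨f, hfs, hft⟩ := alg_lift d (K := PresentedGroup (algR d)) s⁻¹ t
    (by rw [inv_pow, hs, inv_one]) ht (by
      have e1 : (s⁻¹ * t) ^ 3 = s⁻¹ * (t * s⁻¹ * t) * s⁻¹ * t := by
        rw [pow_succ, pow_two]; group
      rw [e1, htst]
      have e2 : s⁻¹ * (s * t * s) * s⁻¹ * t = t * t := by group
      rw [e2, htt])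
  rw [← hsdef] at hfs
  rw [← htdef] at hft
  have hff : f.comp f = MonoidHom.id _ := by
    apply PresentedGroup.ext
    intro b
    rcases b with _ | _
    · rw [MonoidHom.comp_apply, ← htdef, hft, hft]; rfl
    · rw [MonoidHom.comp_apply, ← hsdef, hfs, map_inv, hfs, inv_inv]; rfl
  refine ⟨PresentedGroup (algR d), inferInstance, ψ, s, t,
    MonoidHom.toMulEquiv f f hff hff, d, hinj, hidx, hd0, hs, ht, hst, hclos, hfs, hft⟩



end Pool.Agent.SCD
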