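import Mathlib
import Pool.Agent.SCD.Basic
import Pool.Agent.SCD.L_B_pos
import Pool.Agent.SCD.L_B_lower

set_option autoImplicit false

namespace Pool.Agent.SCD

open Filter Topology Set


theorem cell_one {Γ : Subgroup SL} {P : V} (hP : P ∈ Cone) : P ∈ Cell Γ P 1 := by
  refine ⟨hP, ?_⟩
  intro h _
  rw [act_one]
  have hY : act h P ∈ Cone := act_mem_Cone h hP
  have h1 := B_rcs hP (Cone_tr_pos hY) hY.2.le
  have h2 := B_pos hP (Cone_tr_pos hY) hY.2.le
  rw [B_act] at h1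
  have h3 := hP.2
  nlinarith
theorem cell_act {Γ : Subgroup SL} {P : V} {h : SL} (hh : h ∈ Γ) (g : SL) (x : V) :
    x ∈ Cell Γ P g ↔ act h x ∈ Cell Γ P (h * g) := by
  have key : ∀ h' : SL, B (act h x) (act (h * h') P) = B x (act h' P) := by
    intro h'
    rw [act_mul, B_act]
  constructor
  · rintro ⟨hx, hc⟩
    refine ⟨act_mem_Cone h hx, ?_⟩
    intro h' hh'
    rw [key]
    have h1 := key (h⁻¹ * h')
    rw [mul_inv_cancel_left] at h1
    rw [h1]
    exact hc _ (Γ.mul_mem (Γ.inv_mem hh) hh')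
  · rintro ⟨hx, hc⟩
    refine ⟨?_, ?_⟩
    · have := act_mem_Cone h⁻¹ hx
      rwa [act_inv_act] at this
    · intro h' hh'
      have h1 := hc (h * h') (Γ.mul_mem hh hh')
      rwa [key, key] at h1
theorem cell_smul {Γ : Subgroup SL} {P : V} {g : SL} {x : V} (hx : x ∈ Cell Γ P g) {r : ℝ}
    (hr : 0 < r) : r • x ∈ Cell Γ P g := by
  obtain ⟨⟨h1, h2⟩, h3⟩ := hx
  refine ⟨⟨?_, ?_⟩, ?_⟩
  · exact mul_pos hr h1
  · rw [B_smul_left, B_smul_right]
    exact mul_pos hr (mul_pos hr h2)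
  · intro h hh
    rw [B_smul_left, B_smul_left]
    exact mul_le_mul_of_nonneg_left (h3 h hh) hr.le
theorem cell_convex (Γ : Subgroup SL) (P : V) (g : SL) : Convex ℝ (Cell Γ P g) := by
  intro x hx y hy a b ha hb hab
  refine ⟨convex_Cone hx.1 hy.1 ha hb hab, ?_⟩
  intro h hh
  rw [B_add_left, B_add_left, B_smul_left, B_smul_left, B_smul_left, B_smul_left]
  exact add_le_add (mul_le_mul_of_nonneg_left (hx.2 h hh) ha) (mul_le_mul_of_nonneg_left (hy.2 h hh) hb)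
theorem cell_cover {Γ : Subgroup SL} (hΓ : Good Γ) {P : V} (hP : P ∈ Cone) {x : V}
    (hx : x ∈ Cone) : ∃ g ∈ Γ, x ∈ Cell Γ P g := by
  obtain ⟨c, hc, r, hr, _, hlow⟩ := B_lower hx hP
  have hlow' := hlow x (Metric.mem_ball_self hr)
  set R : ℝ := max (B x P / c) 2 with hR
  have hfin := hΓ.disc R
  have hne : ({g : SL | g ∈ Γ ∧ N g ≤ R}).Nonempty := by
    refine ⟨1, Γ.one_mem, ?_⟩
    rw [N_one]
    exact le_max_right _ _
  obtain ⟨g, hg, hmin⟩ := Set.exists_min_image _ (fun g => B x (act g P)) hfin hne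
  refine ⟨g, hg.1, hx, ?_⟩
  intro h hh
  by_cases hN : N h ≤ R
  · exact hmin h ⟨hh, hN⟩
  · push Not at hN
    have h1 := hmin 1 ⟨Γ.one_mem, by rw [N_one]; exact le_max_right _ _⟩
    simp only [act_one] at h1
    have h2 := hlow' h
    have h3 : B x P / c < N h := lt_of_le_of_lt (le_max_left _ _) hN
    rw [div_lt_iff₀ hc] at h3
    linarith
theorem orbit_inj {Γ : Subgroup SL} (hΓ : Good Γ) {P : V} (hP : P ∈ Cone) {a b : SL} (ha : a ∈ Γ)
    (hb : b ∈ Γ) (h : act a P = act b P) : a = b := by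
  have h1 : act (b⁻¹ * a) P = P := by
    rw [act_mul, h, act_inv_act]
  by_contra hne
  have hg : b⁻¹ * a ≠ 1 := by
    intro h2
    apply hne
    have := inv_mul_eq_one.mp h2
    exact this.symm
  have h2 := hΓ.hyp _ (Γ.mul_mem (Γ.inv_mem hb) ha) hg
  have h3 := B_self_act (b⁻¹ * a) P
  rw [h1] at h3
  have h4 : 4 < (ea (b⁻¹ * a) + ed (b⁻¹ * a)) ^ 2 := by
    rw [← sq_abs]
    nlinarith
  have h5 := hP.2
  nlinarith [sq_nonneg (B P (W (b⁻¹ * a))), mul_pos h5 (sub_pos.mpr h4)]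


end Pool.Agent.SCD
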