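import Mathlib
import Pool.Agent.SCD.Basic
import Pool.Agent.SCD.L_B_pos

set_option autoImplicit false

namespace Pool.Agent.SCD

open Filter Topology Set


private theorem ga_diag (a : SL) (h : 2 < |ea a + ed a|) :
    ∃ p : SL, ∃ l m : ℝ, l * m = 1 ∧ l ^ 2 ≠ 1 ∧ ea (p⁻¹ * a * p) = l ∧
      eb (p⁻¹ * a * p) = 0 ∧ ec (p⁻¹ * a * p) = 0 ∧ ed (p⁻¹ * a * p) = m := by
  have hd := det_eq a
  by_cases hc : ec a = 0
  · have hd' : ea a * ed a = 1 := by rw [hc, mul_zero, sub_zero] at hd; exact hd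
    have hne : ea a ^ 2 ≠ 1 := by
      intro h1
      have h2 : ea a ≠ 0 := by
        intro h0
        rw [h0] at hd'
        simp at hd'
      have h3 : ed a = ea a := by
        apply mul_left_cancel₀ h2
        rw [hd', ← h1]; ring
      rw [h3] at h
      have h4 : |ea a + ea a| ^ 2 = 4 := by
        rw [sq_abs]
        linear_combination 4 * h1
      nlinarith [abs_nonneg (ea a + ea a)]
    have hsub : ed a - ea a ≠ 0 := by
      intro h1
      apply hne
      have h2 : ed a = ea a := by linarith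
      rw [h2] at hd'
      rw [sq]; exact hd'
    refine ⟨mk4 1 (eb a / (ed a - ea a)) 0 1 (by ring), ea a, ed a, hd', hne, ?_, ?_, ?_, ?_⟩
    · simp [hc]
    · simp [hc]
      field_simp
      ring
    · simp [hc]
    · simp [hc]
  · set t := ea a + ed a with ht
    have ht2 : 0 < t ^ 2 - 4 := by
      have : |t| ^ 2 = t ^ 2 := sq_abs t
      nlinarith [abs_nonneg t]
    set δ := Real.sqrt (t ^ 2 - 4) with hδ
    have hδ0 : 0 < δ := Real.sqrt_pos.2 ht2
    have hδ2 : δ ^ 2 = t ^ 2 - 4 := Real.sq_sqrt ht2.le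
    set l := (t + δ) / 2 with hl
    set m := (t - δ) / 2 with hm
    have hlm : l * m = 1 := by
      rw [hl, hm]
      linear_combination -hδ2 / 4
    have hlmd : l - m = δ := by rw [hl, hm]; ring
    have hlms : l + m = ea a + ed a := by rw [hl, hm, ← ht]; ring
    have hl1 : l ^ 2 ≠ 1 := by
      intro h1
      have h2 : l * (l - m) = 0 := by linear_combination h1 - hlm
      rcases mul_eq_zero.1 h2 with h3 | h3
      · rw [h3] at hlm
        simp at hlm
      · rw [hlmd] at h3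
        exact hδ0.ne' h3
    have hql : l ^ 2 - (ea a + ed a) * l + 1 = 0 := by
      rw [← hlms]
      linear_combination -hlm
    have hqm : m ^ 2 - (ea a + ed a) * m + 1 = 0 := by
      rw [← hlms]
      linear_combination -hlm
    have hdet : (l - ed a) * (1 / δ) - ((m - ed a) / (ec a * δ)) * ec a = 1 := by
      have : δ ≠ 0 := hδ0.ne'
      field_simp
      linear_combination hlmd
    set p := mk4 (l - ed a) ((m - ed a) / (ec a * δ)) (ec a) (1 / δ) hdet with hp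
    set D := mk4 l 0 0 m (by linear_combination hlm) with hD
    have hapD : a * p = p * D := by
      have hδne : δ ≠ 0 := hδ0.ne'
      apply SL_ext
      · simp only [ea_mul, hp, hD, ea_mk4, eb_mk4, ec_mk4, ed_mk4]
        linear_combination -hd - hql
      · simp only [eb_mul, hp, hD, ea_mk4, eb_mk4, ec_mk4, ed_mk4]
        field_simp
        linear_combination -hd - hqm
      · simp only [ec_mul, hp, hD, ea_mk4, eb_mk4, ec_mk4, ed_mk4]
        ring
      · simp only [ed_mul, hp, hD, ea_mk4, eb_mk4, ec_mk4, ed_mk4]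
        field_simp
        ring
    have hconj : p⁻¹ * a * p = D := by
      rw [mul_assoc, hapD, inv_mul_cancel_left]
    refine ⟨p, l, m, hlm, hl1, ?_, ?_, ?_, ?_⟩
    · rw [hconj, hD, ea_mk4]
    · rw [hconj, hD, eb_mk4]
    · rw [hconj, hD, ec_mk4]
    · rw [hconj, hD, ed_mk4]

private theorem ga_fix (p g : SL) (h : ec (p⁻¹ * g * p) = 0) : g • (p • bp 0) = p • bp 0 := by
  have hfix : (p⁻¹ * g * p) • bp 0 = bp 0 := by
    have hd := det_eq (p⁻¹ * g * p)
    have h0 : ea (p⁻¹ * g * p) ≠ 0 := by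
      intro h0
      rw [h0, h] at hd
      simp at hd
    apply Subtype.ext
    rw [smul_val, bp_val]
    have e : act (p⁻¹ * g * p) (Real.cos (Real.pi * 0) ^ 2,
        Real.cos (Real.pi * 0) * Real.sin (Real.pi * 0), Real.sin (Real.pi * 0) ^ 2) =
        (ea (p⁻¹ * g * p) ^ 2, 0, 0) := by
      unfold act
      rw [h]
      simp only [mul_zero, Real.cos_zero, Real.sin_zero]
      simp only [Prod.mk.injEq]
      refine ⟨?_, ?_, ?_⟩ <;> ring
    rw [e]
    have e2 : tr (ea (p⁻¹ * g * p) ^ 2, 0, 0) = ea (p⁻¹ * g * p) ^ 2 := by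
      unfold tr; simp
    rw [e2, Prod.smul_mk, Prod.smul_mk, smul_eq_mul, smul_eq_mul, mul_zero,
      inv_mul_cancel₀ (pow_ne_zero 2 h0)]
    simp
  have e : g • (p • bp 0) = p • ((p⁻¹ * g * p) • bp 0) := by
    rw [smul_smul, smul_smul]
    congr 1
    group
  rw [e, hfix]

private theorem ga_trace (p g : SL) : ea (p⁻¹ * g * p) + ed (p⁻¹ * g * p) = ea g + ed g := by
  have hd := det_eq p
  simp only [ea_mul, ed_mul, eb_mul, ec_mul, ea_inv, eb_inv, ec_inv, ed_inv]
  linear_combination (ea g + ed g) * hd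

private theorem ga_move (p g : SL) (Q : V) :
    act g (act p Q) - act p Q = act p (act (p⁻¹ * g * p) Q - Q) := by
  rw [act_sub, act_mul, act_mul, act_act_inv]

private theorem ga_one (a b c : SL) (ha : ec a = 0) :
    d3 (act a (1, 0, 0) - (1, 0, 0)) (act b (1, 0, 0) - (1, 0, 0)) (act c (1, 0, 0) - (1, 0, 0)) =
      (ea a ^ 2 - 1) * (ec b * ec c * (ea b * ec c - ec b * ea c)) := by
  unfold d3 act
  simp only [ha, Prod.mk_sub_mk]
  ring

private theorem ga_two (a b c z : SL) (ha : ec a = 0) (ha' : eb a = 0) (hz : ec z = 0) (hz' : eb z = 0)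
    (hc : c = b * z) :
    d3 (act a (1, 1, 0) - (1, 1, 0)) (act b (1, 1, 0) - (1, 1, 0)) (act c (1, 1, 0) - (1, 1, 0)) =
      (ea a ^ 2 - 1) * (2 * ec b ^ 2 * (1 - ea z ^ 2)) := by
  have hda := det_eq a
  have hdb := det_eq b
  have hdz := det_eq z
  rw [ha, ha'] at hda
  rw [hz, hz'] at hdz
  have hda' : ea a * ed a = 1 := by linarith
  have hdz' : ea z * ed z = 1 := by linarith
  have e1 : act a (1, 1, 0) - (1, 1, 0) = (ea a ^ 2 - 1, 0, 0) := by
    unfold act
    simp only [ha, ha', Prod.mk_sub_mk, Prod.mk.injEq]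
    refine ⟨?_, ?_, ?_⟩
    · ring
    · linear_combination hda'
    · ring
  have e2 : act b (1, 1, 0) - (1, 1, 0) = (ea b ^ 2 + 2 * ea b * eb b - 1,
      ec b * (ea b + 2 * eb b), ec b * (ec b + 2 * ed b)) := by
    unfold act
    simp only [Prod.mk_sub_mk, Prod.mk.injEq]
    refine ⟨?_, ?_, ?_⟩
    · ring
    · linear_combination hdb
    · ring
  have e3 : act c (1, 1, 0) - (1, 1, 0) = (ea b ^ 2 * ea z ^ 2 + 2 * ea b * eb b - 1,
      ec b * (ea b * ea z ^ 2 + 2 * eb b), ec b * (ec b * ea z ^ 2 + 2 * ed b)) := by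
    unfold act
    rw [hc]
    simp only [ea_mul, eb_mul, ec_mul, ed_mul, hz, hz', Prod.mk_sub_mk, Prod.mk.injEq]
    refine ⟨?_, ?_, ?_⟩
    · linear_combination (2 * ea b * eb b) * hdz'
    · linear_combination hdb + (ea b * ed b + ec b * eb b) * hdz'
    · linear_combination (2 * ec b * ed b) * hdz'
  rw [e1, e2, e3]
  unfold d3
  simp only
  linear_combination (ea a ^ 2 - 1) * ec b ^ 2 * (2 - 2 * ea z ^ 2) * hdb

/-- the cubic form `det (aP-P, bP-P, cP-P)` does not vanish identically -/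
theorem gen_alg {Γ : Subgroup SL} (hΓ : Good Γ) {a b c : SL} (ha : a ∈ Γ) (hb : b ∈ Γ) (hc : c ∈ Γ)
    (ha1 : a ≠ 1) (hb1 : b ≠ 1) (hc1 : c ≠ 1) (hab : a ≠ b) (hac : a ≠ c) (hbc : b ≠ c)
    (nb : a * b ≠ b * a) (nc : a * c ≠ c * a)
    (hfix : ∀ g ∈ Γ, ∀ x : Bd, a • x = x → g • x = x → a * g = g * a) :
    ∃ P : V, d3 (act a P - P) (act b P - P) (act c P - P) ≠ 0 := by
  obtain ⟨p, l, m, hlm, hl1, hA1, hA2, hA3, hA4⟩ := ga_diag a (hΓ.hyp a ha ha1)
  have hx : a • (p • bp 0) = p • bp 0 := ga_fix p a hA3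
  have hB : ec (p⁻¹ * b * p) ≠ 0 := by
    intro h
    exact nb (hfix b hb _ hx (ga_fix p b h))
  have hC : ec (p⁻¹ * c * p) ≠ 0 := by
    intro h
    exact nc (hfix c hc _ hx (ga_fix p c h))
  have key : ∀ Q : V, d3 (act a (act p Q) - act p Q) (act b (act p Q) - act p Q)
      (act c (act p Q) - act p Q) =
      d3 (act (p⁻¹ * a * p) Q - Q) (act (p⁻¹ * b * p) Q - Q) (act (p⁻¹ * c * p) Q - Q) := by
    intro Q
    rw [ga_move, ga_move, ga_move, d3_act]
  by_cases hz : ec (p⁻¹ * (b⁻¹ * c) * p) = 0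
  · -- degenerate case
    have hzΓ : b⁻¹ * c ∈ Γ := Γ.mul_mem (Γ.inv_mem hb) hc
    have hz1 : b⁻¹ * c ≠ 1 := by
      intro h
      exact hbc (inv_mul_eq_one.1 h)
    have hcomm := hfix _ hzΓ _ hx (ga_fix p _ hz)
    have hcomm' : (p⁻¹ * a * p) * (p⁻¹ * (b⁻¹ * c) * p) =
        (p⁻¹ * (b⁻¹ * c) * p) * (p⁻¹ * a * p) := by
      calc (p⁻¹ * a * p) * (p⁻¹ * (b⁻¹ * c) * p) = p⁻¹ * (a * (b⁻¹ * c)) * p := by group
        _ = p⁻¹ * ((b⁻¹ * c) * a) * p := by rw [hcomm]
        _ = _ := by group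
    have hzb : eb (p⁻¹ * (b⁻¹ * c) * p) = 0 := by
      have h1 := congrArg eb hcomm'
      rw [eb_mul (p⁻¹ * a * p), eb_mul (p⁻¹ * (b⁻¹ * c) * p), hA1, hA2, hA4] at h1
      have h2 : eb (p⁻¹ * (b⁻¹ * c) * p) * (l - m) = 0 := by linear_combination h1
      rcases mul_eq_zero.1 h2 with h3 | h3
      · exact h3
      · exfalso
        apply hl1
        have : l = m := by linarith
        rw [sq]
        nth_rewrite 2 [this]
        exact hlm
    have hzt := hΓ.hyp _ hzΓ hz1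
    rw [← ga_trace p] at hzt
    have hzd := det_eq (p⁻¹ * (b⁻¹ * c) * p)
    rw [hz, hzb] at hzd
    have hzl : ea (p⁻¹ * (b⁻¹ * c) * p) ^ 2 ≠ 1 := by
      intro h1
      have h2 : ea (p⁻¹ * (b⁻¹ * c) * p) ≠ 0 := by
        intro h0
        rw [h0] at hzd
        simp at hzd
      have h3 : ed (p⁻¹ * (b⁻¹ * c) * p) = ea (p⁻¹ * (b⁻¹ * c) * p) := by
        apply mul_left_cancel₀ h2
        linear_combination hzd - h1
      rw [h3] at hzt
      have h4 : |ea (p⁻¹ * (b⁻¹ * c) * p) + ea (p⁻¹ * (b⁻¹ * c) * p)| ^ 2 = 4 := by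
        rw [sq_abs]
        linear_combination 4 * h1
      nlinarith [abs_nonneg (ea (p⁻¹ * (b⁻¹ * c) * p) + ea (p⁻¹ * (b⁻¹ * c) * p))]
    refine ⟨act p (1, 1, 0), ?_⟩
    rw [key, ga_two (p⁻¹ * a * p) (p⁻¹ * b * p) (p⁻¹ * c * p) (p⁻¹ * (b⁻¹ * c) * p) hA3 hA2 hz hzb
      (by group), hA1]
    refine mul_ne_zero (sub_ne_zero.2 hl1) (mul_ne_zero (mul_ne_zero two_ne_zero
      (pow_ne_zero 2 hB)) (sub_ne_zero.2 (Ne.symm hzl)))
  · refine ⟨act p (1, 0, 0), ?_⟩
    rw [key, ga_one _ _ _ hA3, hA1]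
    refine mul_ne_zero (sub_ne_zero.2 hl1) (mul_ne_zero (mul_ne_zero hB hC) ?_)
    intro h1
    apply hz
    have e : p⁻¹ * (b⁻¹ * c) * p = (p⁻¹ * b * p)⁻¹ * (p⁻¹ * c * p) := by group
    rw [e, ec_mul (p⁻¹ * b * p)⁻¹, ec_inv, ed_inv]
    linear_combination h1



end Pool.Agent.SCD
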