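import Mathlib
import Pool.Agent.SCD.Basic
import Pool.Agent.SCD.L_B_pos
import Pool.Agent.SCD.L_comm_of_fix
import Pool.Agent.SCD.L_hyp_fix

set_option autoImplicit false

namespace Pool.Agent.SCD

open Filter Topology Set



private theorem gcv_formula (α β m b c : ℝ) (g : SL) (ha : ea g = α + β * m) (hb : eb g = β * b)
    (hc : ec g = β * c) (hd : ed g = α - β * m) (x P : V) :
    B x (act g P) = α ^ 2 * B x P
      + α * β * B x (2 * m * P.1 + 2 * b * P.2.1, c * P.1 + b * P.2.2, 2 * c * P.2.1 - 2 * m * P.2.2)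
      + β ^ 2 * B x (m ^ 2 * P.1 + 2 * m * b * P.2.1 + b ^ 2 * P.2.2,
          m * c * P.1 + (b * c - m ^ 2) * P.2.1 - b * m * P.2.2,
          c ^ 2 * P.1 - 2 * c * m * P.2.1 + m ^ 2 * P.2.2) := by
  unfold B act
  simp only [ha, hb, hc, hd]
  ring

private theorem gcv_pos {x P : V} (hx : x ∈ Cone) (hP : P ∈ Cone) (m b c : ℝ) (hD : 0 < m ^ 2 + b * c) :
    0 < B x (m ^ 2 * P.1 + 2 * m * b * P.2.1 + b ^ 2 * P.2.2,
          m * c * P.1 + (b * c - m ^ 2) * P.2.1 - b * m * P.2.2,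
          c ^ 2 * P.1 - 2 * c * m * P.2.1 + m ^ 2 * P.2.2) := by
  obtain ⟨h1, h2⟩ := hP
  have h3 : 0 < P.1 * P.2.2 - P.2.1 ^ 2 := by
    unfold B at h2; nlinarith
  have e1 : ∀ s t : ℝ, P.1 * (s ^ 2 * P.1 + 2 * s * t * P.2.1 + t ^ 2 * P.2.2)
      = (s * P.1 + t * P.2.1) ^ 2 + t ^ 2 * (P.1 * P.2.2 - P.2.1 ^ 2) := by
    intro s t; ring
  have e2 : ∀ s t : ℝ, 0 ≤ s ^ 2 * P.1 + 2 * s * t * P.2.1 + t ^ 2 * P.2.2 := by
    intro s t
    have h : 0 ≤ P.1 * (s ^ 2 * P.1 + 2 * s * t * P.2.1 + t ^ 2 * P.2.2) := by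
      rw [e1]; positivity
    exact nonneg_of_mul_nonneg_right h h1
  have e3 : ∀ s t : ℝ, s ^ 2 * P.1 + 2 * s * t * P.2.1 + t ^ 2 * P.2.2 = 0 → s = 0 ∧ t = 0 := by
    intro s t h
    have h' := e1 s t
    rw [h, mul_zero] at h'
    have ht2 : t ^ 2 * (P.1 * P.2.2 - P.2.1 ^ 2) = 0 := by
      have := sq_nonneg (s * P.1 + t * P.2.1)
      have h5 : 0 ≤ t ^ 2 * (P.1 * P.2.2 - P.2.1 ^ 2) := by positivity
      linarith
    have ht : t = 0 := by
      rcases mul_eq_zero.1 ht2 with h6 | h6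
      · exact pow_eq_zero_iff (two_ne_zero) |>.1 h6
      · exact absurd h6 h3.ne'
    subst ht
    have hs2 : (s * P.1) ^ 2 = 0 := by nlinarith
    have hs : s * P.1 = 0 := pow_eq_zero_iff (two_ne_zero) |>.1 hs2
    rcases mul_eq_zero.1 hs with h7 | h7
    · exact ⟨h7, rfl⟩
    · exact absurd h7 h1.ne'
  apply B_pos hx
  · unfold tr
    simp only
    have a1 := e2 m b
    have a2 := e2 c (-m)
    have a3 : c ^ 2 * P.1 + 2 * c * (-m) * P.2.1 + (-m) ^ 2 * P.2.2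
      = c ^ 2 * P.1 - 2 * c * m * P.2.1 + m ^ 2 * P.2.2 := by ring
    rw [a3] at a2
    rcases a1.lt_or_eq with a4 | a4
    · linarith
    rcases a2.lt_or_eq with a5 | a5
    · linarith
    exfalso
    obtain ⟨hm, hb⟩ := e3 m b a4.symm
    rw [hm, hb] at hD
    norm_num at hD
  · have : B (m ^ 2 * P.1 + 2 * m * b * P.2.1 + b ^ 2 * P.2.2,
          m * c * P.1 + (b * c - m ^ 2) * P.2.1 - b * m * P.2.2,
          c ^ 2 * P.1 - 2 * c * m * P.2.1 + m ^ 2 * P.2.2)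
          (m ^ 2 * P.1 + 2 * m * b * P.2.1 + b ^ 2 * P.2.2,
          m * c * P.1 + (b * c - m ^ 2) * P.2.1 - b * m * P.2.2,
          c ^ 2 * P.1 - 2 * c * m * P.2.1 + m ^ 2 * P.2.2)
          = (m ^ 2 + b * c) ^ 2 * (P.1 * P.2.2 - P.2.1 ^ 2) := by
      unfold B
      simp only
      ring
    rw [this]
    positivity

/-- no point is equidistant from three points of the orbit of a cyclic group -/
theorem gen_conv {Γ : Subgroup SL} (hΓ : Good Γ) {y z : SL} (hy : y ∈ Γ) (hz : z ∈ Γ) (hy1 : y ≠ 1)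
    (hz1 : z ≠ 1) (hyz : y ≠ z) (hc : y * z = z * y) {x P : V} (hx : x ∈ Cone) (hP : P ∈ Cone) :
    ¬ (B x (act y P) = B x P ∧ B x (act z P) = B x P) := by
  rintro ⟨h1, h2⟩
  have hty := hΓ.hyp y hy hy1
  have htz := hΓ.hyp z hz hz1
  have dy := det_eq y
  have dz := det_eq z
  have ce : ea (y * z) = ea (z * y) := by rw [hc]
  have cb : eb (y * z) = eb (z * y) := by rw [hc]
  have cc : ec (y * z) = ec (z * y) := by rw [hc]
  simp only [ea_mul, eb_mul, ec_mul] at ce cb cc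
  obtain ⟨m, hm⟩ : ∃ m, m = (ea y - ed y) / 2 := ⟨_, rfl⟩
  obtain ⟨τ, hτ⟩ : ∃ τ, τ = (ea y + ed y) / 2 := ⟨_, rfl⟩
  obtain ⟨α, hα⟩ : ∃ α, α = (ea z + ed z) / 2 := ⟨_, rfl⟩
  obtain ⟨n, hn⟩ : ∃ n, n = (ea z - ed z) / 2 := ⟨_, rfl⟩
  obtain ⟨b, hb⟩ : ∃ b, b = eb y := ⟨_, rfl⟩
  obtain ⟨c, hcc⟩ : ∃ c, c = ec y := ⟨_, rfl⟩
  have hD1 : m ^ 2 + b * c = τ ^ 2 - 1 := by
    rw [hm, hτ, hb, hcc]; linear_combination (-1) * dy
  have hτ2 : 1 < τ ^ 2 := by
    have h3 : 2 ^ 2 < (ea y + ed y) ^ 2 := by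
      rw [← sq_abs (ea y + ed y)]
      exact pow_lt_pow_left₀ hty (by norm_num) two_ne_zero
    rw [hτ]; nlinarith
  have hD : 0 < m ^ 2 + b * c := by rw [hD1]; linarith
  have k1 : m * eb z = b * n := by rw [hm, hb, hn]; linarith
  have k2 : m * ec z = c * n := by rw [hm, hcc, hn]; linarith
  have k3 : b * ec z = eb z * c := by rw [hb, hcc]; linarith
  obtain ⟨β, hβ⟩ : ∃ β, β = (m * n + (b * ec z + c * eb z) / 2) / (m ^ 2 + b * c) := ⟨_, rfl⟩
  have hβD : β * (m ^ 2 + b * c) = m * n + (b * ec z + c * eb z) / 2 := by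
    rw [hβ, div_mul_cancel₀ _ hD.ne']
  have l1 : n = β * m := by
    apply mul_right_cancel₀ hD.ne'
    have : β * m * (m ^ 2 + b * c) = m * (β * (m ^ 2 + b * c)) := by ring
    rw [this, hβD]
    linear_combination (-(b / 2)) * k2 - (c / 2) * k1
  have l2 : eb z = β * b := by
    apply mul_right_cancel₀ hD.ne'
    have : β * b * (m ^ 2 + b * c) = b * (β * (m ^ 2 + b * c)) := by ring
    rw [this, hβD]
    linear_combination m * k1 - (b / 2) * k3
  have l3 : ec z = β * c := by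
    apply mul_right_cancel₀ hD.ne'
    have : β * c * (m ^ 2 + b * c) = c * (β * (m ^ 2 + b * c)) := by ring
    rw [this, hβD]
    linear_combination m * k2 + (c / 2) * k3
  have l4 : ea z = α + β * m := by rw [← l1, hα, hn]; ring
  have l5 : ed z = α - β * m := by rw [← l1, hα, hn]; ring
  have hαβ : α ^ 2 - β ^ 2 * (m ^ 2 + b * c) = 1 := by
    rw [l2, l3, l4, l5] at dz
    linear_combination dz
  have fy := gcv_formula τ 1 m b c y (by rw [hτ, hm]; ring) (by rw [hb]; ring)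
    (by rw [hcc]; ring) (by rw [hτ, hm]; ring) x P
  have fz := gcv_formula α β m b c z l4 l2 l3 l5 x P
  have hr := gcv_pos hx hP m b c hD
  have hp : 0 < B x P := B_pos hx (Cone_tr_pos hP) hP.2.le
  rw [h1] at fy
  rw [h2] at fz
  generalize B x (2 * m * P.1 + 2 * b * P.2.1, c * P.1 + b * P.2.2, 2 * c * P.2.1 - 2 * m * P.2.2)
    = q at fy fz
  generalize B x (m ^ 2 * P.1 + 2 * m * b * P.2.1 + b ^ 2 * P.2.2,
          m * c * P.1 + (b * c - m ^ 2) * P.2.1 - b * m * P.2.2,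
          c ^ 2 * P.1 - 2 * c * m * P.2.1 + m ^ 2 * P.2.2) = r at fy fz hr
  obtain ⟨D, hDD⟩ : ∃ D, D = m ^ 2 + b * c := ⟨_, rfl⟩
  rw [← hDD] at hD hαβ hD1
  have gy : D * B x P + r + τ * q = 0 := by
    linear_combination (-1) * fy + B x P * hD1
  have gz : β * (β * (D * B x P + r) + α * q) = 0 := by
    linear_combination (-1) * fz - B x P * hαβ
  have hS : 0 < D * B x P + r := by positivity
  have hβ0 : β ≠ 0 := by
    intro h0
    rw [h0] at hαβ
    have h3 : α ^ 2 = 1 := by linarith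
    have h4 : 2 ^ 2 < (ea z + ed z) ^ 2 := by
      rw [← sq_abs (ea z + ed z)]
      exact pow_lt_pow_left₀ htz (by norm_num) two_ne_zero
    have h5 : α ^ 2 = (ea z + ed z) ^ 2 / 4 := by rw [hα]; ring
    linarith
  have gz' : β * (D * B x P + r) + α * q = 0 := by
    rcases mul_eq_zero.1 gz with h | h
    · exact absurd h hβ0
    · exact h
  have hq0 : q ≠ 0 := by
    intro h0
    rw [h0, mul_zero, add_zero] at gy
    linarith
  have hατ : α = β * τ := by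
    have : (α - β * τ) * q = 0 := by linear_combination gz' - β * gy
    rcases mul_eq_zero.1 this with h | h
    · linarith
    · exact absurd h hq0
  have hβ1 : β ^ 2 = 1 := by
    rw [hατ] at hαβ
    linear_combination hαβ + β ^ 2 * hD1
  have hβ1' : (β - 1) * (β + 1) = 0 := by linear_combination hβ1
  rcases mul_eq_zero.1 hβ1' with h | h
  · have hb1 : β = 1 := by linarith
    apply hyz
    apply SL_ext
    · rw [l4, hατ, hb1, hτ, hm]; ring
    · rw [l2, hb1, hb]; ring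
    · rw [l3, hb1, hcc]; ring
    · rw [l5, hατ, hb1, hτ, hm]; ring
  · have hb1 : β = -1 := by linarith
    have hmem : z * y⁻¹ ∈ Γ := Γ.mul_mem hz (Γ.inv_mem hy)
    have hne : z * y⁻¹ ≠ 1 := by
      intro h3
      exact hyz (mul_inv_eq_one.1 h3).symm
    have h6 := hΓ.hyp _ hmem hne
    have h7 : ea (z * y⁻¹) + ed (z * y⁻¹) = -2 := by
      simp only [ea_mul, ed_mul, ea_inv, eb_inv, ec_inv, ed_inv]
      rw [l4, l2, l3, l5, hατ, hb1, hτ, hm, hb, hcc]
      linear_combination (-2) * dy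
    rw [h7] at h6
    norm_num at h6



end Pool.Agent.SCD
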