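import Mathlib
import Pool.Agent.SCD.Basic
import Pool.Agent.SCD.L_B_pos
import Pool.Agent.SCD.L_comm_of_fix
import Pool.Agent.SCD.L_gen_alg
import Pool.Agent.SCD.L_gen_conv

set_option autoImplicit false

namespace Pool.Agent.SCD

open Filter Topology Set


private theorem gen_exists_orth {x U₁ U₂ U₃ : V} (hx : x.1 ≠ 0) (h1 : B x U₁ = 0) (h2 : B x U₂ = 0)
    (h3 : B x U₃ = 0) : d3 U₁ U₂ U₃ = 0 := by
  have key : d3 U₁ U₂ U₃ * (x.1 / 2) = (U₂.1 * U₃.2.1 - U₂.2.1 * U₃.1) * B x U₁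
      - (U₁.1 * U₃.2.1 - U₁.2.1 * U₃.1) * B x U₂ + (U₁.1 * U₂.2.1 - U₁.2.1 * U₂.1) * B x U₃ := by
    unfold d3 B
    ring
  rw [h1, h2, h3, mul_zero, mul_zero, mul_zero, sub_zero, add_zero] at key
  rcases mul_eq_zero.1 key with h | h
  · exact h
  · exact absurd (by linarith : x.1 = 0) hx

private theorem gen_exists_line (U₀ U₁ V₀ V₁ W₀ W₁ : V) (s : ℝ) :
    d3 (U₀ + s • U₁) (V₀ + s • V₁) (W₀ + s • W₁) = d3 U₀ V₀ W₀
      + (d3 U₁ V₀ W₀ + d3 U₀ V₁ W₀ + d3 U₀ V₀ W₁) * s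
      + (d3 U₁ V₁ W₀ + d3 U₁ V₀ W₁ + d3 U₀ V₁ W₁) * s ^ 2 + d3 U₁ V₁ W₁ * s ^ 3 := by
  unfold d3
  simp only [Prod.fst_add, Prod.snd_add, Prod.smul_fst, Prod.smul_snd, smul_eq_mul]
  ring

/-- the cubic form -/
private noncomputable def gen_exists_F (a b c : SL) (X : V) : ℝ :=
  d3 (act a X - X) (act b X - X) (act c X - X)

private theorem gen_exists_cont (a b c : SL) : Continuous (gen_exists_F a b c) := by
  have ha := continuous_act a
  have hb := continuous_act b
  have hc := continuous_act c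
  unfold gen_exists_F d3
  fun_prop

private theorem gen_exists_dense (a b c : SL) (h : ∃ X, gen_exists_F a b c X ≠ 0) :
    Dense {X | gen_exists_F a b c X ≠ 0} := by
  obtain ⟨X₁, hX₁⟩ := h
  intro X₀
  by_contra hcon
  set D : V := X₁ - X₀ with hD
  set q : Polynomial ℝ := Polynomial.C (d3 (act a X₀ - X₀) (act b X₀ - X₀) (act c X₀ - X₀))
    + Polynomial.C (d3 (act a D - D) (act b X₀ - X₀) (act c X₀ - X₀)
      + d3 (act a X₀ - X₀) (act b D - D) (act c X₀ - X₀)
      + d3 (act a X₀ - X₀) (act b X₀ - X₀) (act c D - D)) * Polynomial.X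
    + Polynomial.C (d3 (act a D - D) (act b D - D) (act c X₀ - X₀)
      + d3 (act a D - D) (act b X₀ - X₀) (act c D - D)
      + d3 (act a X₀ - X₀) (act b D - D) (act c D - D)) * Polynomial.X ^ 2
    + Polynomial.C (d3 (act a D - D) (act b D - D) (act c D - D)) * Polynomial.X ^ 3 with hq
  have hev : ∀ s : ℝ, q.eval s = gen_exists_F a b c (X₀ + s • D) := by
    intro s
    have e : ∀ g : SL, act g (X₀ + s • D) - (X₀ + s • D) = (act g X₀ - X₀) + s • (act g D - D) := by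
      intro g
      rw [act_add, act_smul, add_sub_add_comm, ← smul_sub]
    unfold gen_exists_F
    rw [e, e, e, gen_exists_line, hq]
    simp only [Polynomial.eval_add, Polynomial.eval_mul, Polynomial.eval_C, Polynomial.eval_X,
      Polynomial.eval_pow]
  have hnhds : {s : ℝ | q.IsRoot s} ∈ 𝓝 (0 : ℝ) := by
    have hc : Continuous (fun s : ℝ => X₀ + s • D) := by fun_prop
    have h0 : (closure {X | gen_exists_F a b c X ≠ 0})ᶜ ∈ 𝓝 ((fun s : ℝ => X₀ + s • D) 0) := by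
      apply isClosed_closure.isOpen_compl.mem_nhds
      simpa using hcon
    filter_upwards [hc.continuousAt.preimage_mem_nhds h0] with s hs
    show q.eval s = 0
    rw [hev]
    by_contra hne
    exact hs (subset_closure hne)
  have hq0 : q = 0 := Polynomial.eq_zero_of_infinite_isRoot q (infinite_of_mem_nhds 0 hnhds)
  apply hX₁
  have h1 := hev 1
  rw [hq0, Polynomial.eval_zero, one_smul, hD, add_sub_cancel] at h1
  exact h1.symm

private theorem gen_exists_countable {Γ : Subgroup SL} (hΓ : Good Γ) : Countable Γ := by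
  have h : (Γ : Set SL) ⊆ ⋃ n : ℕ, {g : SL | g ∈ Γ ∧ N g ≤ n} := by
    intro g hg
    obtain ⟨n, hn⟩ := exists_nat_ge (N g)
    exact Set.mem_iUnion.2 ⟨n, hg, hn⟩
  have h2 : (⋃ n : ℕ, {g : SL | g ∈ Γ ∧ N g ≤ n}).Countable :=
    Set.countable_iUnion (fun n => (hΓ.disc n).countable)
  exact (h2.mono h).to_subtype

theorem gen_exists {Γ : Subgroup SL} (hΓ : Good Γ) : ∃ P, Gen Γ P := by
  have hcount := gen_exists_countable hΓ
  have hdense : Dense (⋂ τ : {τ : Γ × Γ × Γ // ∃ X, gen_exists_F τ.1 τ.2.1 τ.2.2 X ≠ 0},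
      {X | gen_exists_F τ.1.1 τ.1.2.1 τ.1.2.2 X ≠ 0}) := by
    apply dense_iInter_of_isOpen
    · intro τ
      exact isOpen_ne_fun (gen_exists_cont _ _ _) continuous_const
    · intro τ
      exact gen_exists_dense _ _ _ τ.2
  have hopen : IsOpen Cone := by
    have h1 : IsOpen {X : V | 0 < X.1} := isOpen_lt continuous_const continuous_fst
    have h2 : IsOpen {X : V | 0 < B X X} := isOpen_lt continuous_const continuous_BB
    exact h1.inter h2
  have hne : Cone.Nonempty := ⟨(1, 0, 1), by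
    constructor
    · norm_num
    · unfold B; norm_num⟩
  obtain ⟨P, hPC, hP⟩ := hdense.inter_open_nonempty Cone hopen hne
  refine ⟨P, hPC, ?_⟩
  intro a ha b hb c hc ha1 hb1 hc1 hab hac hbc x hx ⟨h1, h2, h3⟩
  have hF : gen_exists_F a b c P = 0 := by
    apply gen_exists_orth (x := x) hx.1.ne'
    · rw [B_sub_right, h1, sub_self]
    · rw [B_sub_right, h2, sub_self]
    · rw [B_sub_right, h3, sub_self]
  have hall : ∀ X, gen_exists_F a b c X = 0 := by
    intro X
    by_contra hX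
    have := Set.mem_iInter.1 hP ⟨(⟨a, ha⟩, ⟨b, hb⟩, ⟨c, hc⟩), ⟨X, hX⟩⟩
    exact this hF
  have hfix : ∀ g ∈ Γ, ∀ x : Bd, a • x = x → g • x = x → a * g = g * a :=
    fun g hg x hax hgx => comm_of_fix hΓ ha hg ha1 x hax hgx
  by_cases nb : a * b = b * a
  · exact gen_conv hΓ ha hb ha1 hb1 hab nb hx hPC ⟨h1, h2⟩
  · by_cases nc : a * c = c * a
    · exact gen_conv hΓ ha hc ha1 hc1 hac nc hx hPC ⟨h1, h3⟩
    · obtain ⟨X, hX⟩ := gen_alg hΓ ha hb hc ha1 hb1 hc1 hab hac hbc nb nc hfix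
      exact hX (hall X)



end Pool.Agent.SCD
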