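import Mathlib
import Pool.Agent.SCD.Basic
import Pool.Agent.SCD.L_B_pos
import Pool.Agent.SCD.L_B_lower
import Pool.Agent.SCD.L_cell_basic

set_option autoImplicit false

namespace Pool.Agent.SCD

open Filter Topology Set


theorem cell_locfin {Γ : Subgroup SL} (hΓ : Good Γ) {P : V} (hP : P ∈ Cone) {q : V}
    (hq : q ∈ Cone) : ∃ r > 0, Metric.ball q r ⊆ Cone ∧
      ∀ g ∈ Γ, ∀ y ∈ Metric.ball q r, y ∈ Cell Γ P g → q ∈ Cell Γ P g := by
  obtain ⟨c, hc, r0, hr0, hball, hlow⟩ := B_lower hq hP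
  obtain ⟨g0, hg0, hq0⟩ := cell_cover hΓ hP hq
  have hF := hΓ.disc ((B q (act g0 P) + 1) / c)
  have h1 : ∀ᶠ y in 𝓝 q, y ∈ Metric.ball q r0 := Metric.ball_mem_nhds q hr0
  have h2 : ∀ᶠ y in 𝓝 q, B y (act g0 P) < B q (act g0 P) + 1 :=
    (continuous_B (act g0 P)).continuousAt.eventually_lt continuousAt_const (by linarith)
  have h3 : ∀ᶠ y in 𝓝 q, ∀ g ∈ {g : SL | g ∈ Γ ∧ N g ≤ (B q (act g0 P) + 1) / c},
      q ∉ Cell Γ P g → B y (act g0 P) < B y (act g P) := by
    rw [Filter.eventually_all_finite hF]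
    intro g hg
    by_cases hqg : q ∈ Cell Γ P g
    · exact Filter.Eventually.of_forall fun y h => absurd hqg h
    · have h4 : B q (act g0 P) < B q (act g P) := by
        by_contra hcon
        rw [not_lt] at hcon
        exact hqg ⟨hq, fun h hh => hcon.trans (hq0.2 h hh)⟩
      have h5 := (continuous_B (act g0 P)).continuousAt.eventually_lt
        (continuous_B (act g P)).continuousAt h4
      exact h5.mono fun y hy _ => hy
  obtain ⟨r, hr, hsub⟩ := Metric.eventually_nhds_iff_ball.1 (h1.and (h2.and h3))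
  refine ⟨r, hr, fun y hy => hball (hsub y hy).1, fun g hg y hy hyg => ?_⟩
  obtain ⟨hy1, hy2, hy3⟩ := hsub y hy
  by_contra hcon
  have h6 : B y (act g P) ≤ B y (act g0 P) := hyg.2 g0 hg0
  have h7 := hlow y hy1 g
  have h8 : N g ≤ (B q (act g0 P) + 1) / c := by
    rw [le_div_iff₀ hc]
    linarith
  have h9 := hy3 g ⟨hg, h8⟩ hcon
  linarith



end Pool.Agent.SCD
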