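import Mathlib
import Pool.Agent.SCD.Basic
import Pool.Agent.SCD.L_B_pos
import Pool.Agent.SCD.L_B_lower
import Pool.Agent.SCD.L_cell_basic

set_option autoImplicit false

namespace Pool.Agent.SCD

open Filter Topology Set


private theorem nb_sub_mem {P : V} (hP : P ∈ Cone) : P - (B P P / tr P) • I0 ∈ Cone := by
  have ht := Cone_tr_pos hP
  obtain ⟨h1, h2⟩ := hP
  have e : (B P P / tr P) * tr P = B P P := div_mul_cancel₀ _ ht.ne'
  have hc : 0 < B P P / tr P := div_pos h2 ht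
  generalize B P P / tr P = c at *
  unfold tr at e ht
  unfold B at e h2
  constructor
  · show 0 < P.1 - c * I0.1
    simp only [I0]
    have h3 : 0 < (P.1 - c * 1) * (P.1 + P.2.2) := by nlinarith [sq_nonneg P.2.1, mul_pos h1 h1]
    exact (pos_iff_pos_of_mul_pos h3).mpr ht
  · have e2 : B (P - c • I0) (P - c • I0) = c ^ 2 := by
      unfold B
      simp only [I0, Prod.fst_sub, Prod.snd_sub, Prod.smul_fst, Prod.smul_snd, smul_eq_mul]
      linear_combination -e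
    rw [e2]
    positivity

private theorem nb_sub_mem' {P : V} (hP : P ∈ Cone) : tr P • I0 - P ∈ Cone := by
  have h3 := Cone_pos22 hP
  obtain ⟨h1, h2⟩ := hP
  unfold B at h2
  constructor
  · show 0 < tr P * I0.1 - P.1
    simp only [I0, tr]
    linarith
  · have e2 : B (tr P • I0 - P) (tr P • I0 - P) = B P P := by
      unfold B tr
      simp only [I0, Prod.fst_sub, Prod.snd_sub, Prod.smul_fst, Prod.smul_snd, smul_eq_mul]
      ring
    rw [e2]
    exact h2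

private theorem nb_lower {P x : V} (hP : P ∈ Cone) (hx : x ∈ Cone) :
    (B P P / tr P) * (tr x / 2) ≤ B x P := by
  have h := nb_sub_mem hP
  have h1 := B_pos hx (Cone_tr_pos h) h.2.le
  rw [B_sub_right, B_smul_right, B_I0] at h1
  linarith

private theorem nb_upper {P x : V} (hP : P ∈ Cone) (hx : x ∈ Cone) :
    B x P ≤ tr P * (tr x / 2) := by
  have h := nb_sub_mem' hP
  have h1 := B_pos hx (Cone_tr_pos h) h.2.le
  rw [B_sub_right, B_smul_right, B_I0] at h1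
  linarith

private theorem nb_act_move (a : SL) (x P : V) : B x (act a P) = B (act a⁻¹ x) P := by
  rw [B_act_left, inv_inv]

private theorem nb_cholesky {x : V} (hx : x ∈ Cone) (h1 : B x x = 1) : ∃ A : SL, act A I0 = x := by
  have hp := hx.1
  have hs : 0 < Real.sqrt x.1 := Real.sqrt_pos.mpr hp
  have hss : Real.sqrt x.1 ^ 2 = x.1 := Real.sq_sqrt hp.le
  refine ⟨mk4 (Real.sqrt x.1) 0 (x.2.1 / Real.sqrt x.1) (Real.sqrt x.1)⁻¹
    (by rw [zero_mul, sub_zero]; exact mul_inv_cancel₀ hs.ne'), ?_⟩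
  unfold B at h1
  unfold act I0
  simp only [ea_mk4, eb_mk4, ec_mk4, ed_mk4]
  refine Prod.ext ?_ (Prod.ext ?_ ?_)
  · show Real.sqrt x.1 ^ 2 * 1 + 2 * Real.sqrt x.1 * 0 * 0 + 0 ^ 2 * 1 = x.1
    linear_combination hss
  · show Real.sqrt x.1 * (x.2.1 / Real.sqrt x.1) * 1 + (Real.sqrt x.1 * (Real.sqrt x.1)⁻¹
      + 0 * (x.2.1 / Real.sqrt x.1)) * 0 + 0 * (Real.sqrt x.1)⁻¹ * 1 = x.2.1
    field_simp
    ring
  · show (x.2.1 / Real.sqrt x.1) ^ 2 * 1 + 2 * (x.2.1 / Real.sqrt x.1) * (Real.sqrt x.1)⁻¹ * 0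
      + (Real.sqrt x.1)⁻¹ ^ 2 * 1 = x.2.2
    have e : (x.2.1 / Real.sqrt x.1) ^ 2 * 1 + 2 * (x.2.1 / Real.sqrt x.1) * (Real.sqrt x.1)⁻¹ * 0
      + (Real.sqrt x.1)⁻¹ ^ 2 * 1 = (x.2.1 ^ 2 + 1) / (Real.sqrt x.1) ^ 2 := by
      field_simp
      ring
    rw [e, hss, div_eq_iff hp.ne']
    linear_combination -h1

private theorem nb_cell_bdd {Γ : Subgroup SL} (hΓ : Good Γ) {P : V} (hP : P ∈ Cone) :
    ∃ R : ℝ, ∀ x ∈ Cell Γ P 1, B x x = 1 → tr x ≤ R := by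
  obtain ⟨C, hC⟩ := hΓ.cocpt
  have hc : 0 < B P P / tr P := div_pos hP.2 (Cone_tr_pos hP)
  refine ⟨tr P * C / (B P P / tr P), fun x hx h1 => ?_⟩
  obtain ⟨hxc, hxm⟩ := hx
  obtain ⟨A, hA⟩ := nb_cholesky hxc h1
  obtain ⟨γ, hγ, hN⟩ := hC A
  have h2 := hxm γ hγ
  rw [act_one, nb_act_move γ, ← hA, ← act_mul, hA] at h2
  have h3 := nb_upper hP (act_mem_Cone (γ⁻¹ * A) I0_mem)
  rw [tr_act_I0] at h3
  have h4 := nb_lower hP hxc
  have htP := Cone_tr_pos hP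
  rw [le_div_iff₀ hc]
  have h5 : tr P * (N (γ⁻¹ * A) / 2) ≤ tr P * (C / 2) :=
    mul_le_mul_of_nonneg_left (by linarith) htP.le
  linarith

theorem nb_finite {Γ : Subgroup SL} (hΓ : Good Γ) {P : V} (hP : P ∈ Cone) : (Nb Γ P).Finite := by
  obtain ⟨R, hR⟩ := nb_cell_bdd hΓ hP
  have hc : 0 < B P P / tr P := div_pos hP.2 (Cone_tr_pos hP)
  refine (hΓ.disc (R * (R * tr P) / (B P P / tr P))).subset ?_
  rintro a ⟨haΓ, -, x, hx1, hxa⟩
  refine ⟨haΓ, ?_⟩
  have hBx : 0 < B x x := hx1.1.2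
  have hr : 0 < (Real.sqrt (B x x))⁻¹ := inv_pos.mpr (Real.sqrt_pos.mpr hBx)
  have hx1' := cell_smul hx1 hr
  have hxa' := cell_smul hxa hr
  have hB1 : B ((Real.sqrt (B x x))⁻¹ • x) ((Real.sqrt (B x x))⁻¹ • x) = 1 := by
    rw [B_smul_left, B_smul_right]
    have hss : Real.sqrt (B x x) ^ 2 = B x x := Real.sq_sqrt hBx.le
    have hs : Real.sqrt (B x x) ≠ 0 := (Real.sqrt_pos.mpr hBx).ne'
    field_simp
    exact hss.symm
  generalize (Real.sqrt (B x x))⁻¹ • x = y at *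
  have hyC := hx1'.1
  have hyt := Cone_tr_pos hyC
  have hyR := hR y hx1' hB1
  have hRpos : 0 < R := lt_of_lt_of_le hyt hyR
  have htP := Cone_tr_pos hP
  have h1 := hxa'.2 1 Γ.one_mem
  rw [act_one] at h1
  have h2 := nb_upper hP hyC
  have h3 : B y (act a P) ≤ tr P * (R / 2) :=
    (h1.trans h2).trans (mul_le_mul_of_nonneg_left (by linarith) htP.le)
  have h4 := nb_lower hP (act_mem_Cone a⁻¹ hyC)
  rw [← nb_act_move] at h4
  have h5 : tr (act a⁻¹ y) / 2 = B y (act a I0) := by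
    rw [nb_act_move, B_I0]
  rw [h5] at h4
  have h6 := nb_lower hyC (act_mem_Cone a I0_mem)
  rw [hB1, tr_act_I0, B_comm] at h6
  have hN := N_pos a
  have h7 : R⁻¹ * (N a / 2) ≤ B y (act a I0) := by
    refine le_trans ?_ h6
    refine mul_le_mul_of_nonneg_right ?_ (by linarith)
    rw [one_div]
    exact inv_anti₀ hyt hyR
  have h8 : (B P P / tr P) * (R⁻¹ * (N a / 2)) ≤ tr P * (R / 2) :=
    (mul_le_mul_of_nonneg_left h7 hc.le).trans (h4.trans h3)
  rw [le_div_iff₀ hc]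
  have h9 : R * ((B P P / tr P) * (R⁻¹ * (N a / 2))) = (B P P / tr P) * (N a / 2) := by
    field_simp
  have h10 := mul_le_mul_of_nonneg_left h8 hRpos.le
  rw [h9] at h10
  linarith

theorem cell_bdd {Γ : Subgroup SL} (hΓ : Good Γ) {P : V} (hP : P ∈ Cone) :
    ∃ R : ℝ, ∀ x ∈ Cell Γ P 1, B x x = 1 → tr x ≤ R :=
  nb_cell_bdd hΓ hP



end Pool.Agent.SCD
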