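import Mathlib
import Pool.Agent.SCD.Basic
import Pool.Agent.SCD.L_B_pos
import Pool.Agent.SCD.L_cell_basic
import Pool.Agent.SCD.L_cell_locfin
import Pool.Agent.SCD.L_nb_finite

set_option autoImplicit false

namespace Pool.Agent.SCD

open Filter Topology Set



/-- a parametrised circle of directions orthogonal to `P` -/
private noncomputable def fr (P : V) (θ : ℝ) : V :=
  (Real.cos θ * P.1 + Real.sin θ * (P.1 * P.2.1), Real.sin θ * (P.1 * P.2.2),
   - (Real.cos θ * P.2.2) + Real.sin θ * (P.2.2 * P.2.1))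

private theorem fr_B (P : V) (θ : ℝ) : B (fr P θ) P = 0 := by unfold B fr; simp only; ring

private theorem fr_BB {P : V} (hP : P ∈ Cone) (θ : ℝ) : B (fr P θ) (fr P θ) < 0 := by
  have h1 := hP.1
  have h2 := hP.2
  have h3 := Cone_pos22 hP
  have h4 : B (fr P θ) (fr P θ) = - (P.1 * P.2.2 * (Real.cos θ ^ 2 + Real.sin θ ^ 2 * B P P)) := by
    unfold B fr; simp only; ring
  rw [h4]
  have h5 := Real.sin_sq_add_cos_sq θ
  have h6 : 0 < P.1 * P.2.2 := mul_pos h1 h3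
  have h7 : 0 < Real.cos θ ^ 2 + Real.sin θ ^ 2 * B P P := by
    by_cases hc : Real.cos θ = 0
    · rw [hc] at h5 ⊢
      have : Real.sin θ ^ 2 = 1 := by linarith
      rw [this]; linarith
    · have : 0 < Real.cos θ ^ 2 := by positivity
      have := mul_nonneg (sq_nonneg (Real.sin θ)) h2.le
      linarith
  have := mul_pos h6 h7
  linarith

private theorem fr_cont (P Y : V) : Continuous (fun θ => B (fr P θ) Y) := by unfold B fr; fun_prop

private theorem fr_surj {P : V} (hP : P ∈ Cone) {v : V} (hv : B v P = 0) (hv0 : v ≠ 0) :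
    ∃ r : ℝ, r > 0 ∧ ∃ θ : ℝ, v = r • fr P θ := by
  have h1 := hP.1
  have h2 := hP.2
  have h3 := Cone_pos22 hP
  set b : ℝ := v.2.1 / (P.1 * P.2.2) with hb
  set a : ℝ := v.1 / P.1 - b * P.2.1 with ha
  have e1 : v.1 = a * P.1 + b * (P.1 * P.2.1) := by
    rw [ha]; field_simp; ring
  have e2 : v.2.1 = b * (P.1 * P.2.2) := by
    rw [hb]; field_simp
  have e3 : v.2.2 = - (a * P.2.2) + b * (P.2.2 * P.2.1) := by
    have h4 : v.2.2 * P.1 = (- (a * P.2.2) + b * (P.2.2 * P.2.1)) * P.1 := by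
      unfold B at hv
      have : v.2.2 * P.1 = 2 * (v.2.1 * P.2.1) - v.1 * P.2.2 := by linarith
      rw [this, e1, e2]; ring
    exact mul_right_cancel₀ h1.ne' h4
  set z : ℂ := ⟨a, b⟩ with hz
  have hz0 : z ≠ 0 := by
    intro h
    have ha0 : a = 0 := by have := congrArg Complex.re h; simpa [hz] using this
    have hb0 : b = 0 := by have := congrArg Complex.im h; simpa [hz] using this
    apply hv0
    rw [ha0, hb0] at e1 e3
    rw [hb0] at e2
    apply Prod.ext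
    · simpa using e1
    apply Prod.ext
    · simpa using e2
    · simpa using e3
  refine ⟨‖z‖, norm_pos_iff.mpr hz0, Complex.arg z, ?_⟩
  have c1 : ‖z‖ * Real.cos (Complex.arg z) = a := Complex.norm_mul_cos_arg z
  have c2 : ‖z‖ * Real.sin (Complex.arg z) = b := Complex.norm_mul_sin_arg z
  unfold fr
  apply Prod.ext
  · simp only [Prod.smul_fst, smul_eq_mul]
    rw [e1, ← c1, ← c2]; ring
  apply Prod.ext
  · simp only [Prod.smul_fst, Prod.smul_snd, smul_eq_mul]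
    rw [e2, ← c2]; ring
  · simp only [Prod.smul_snd, smul_eq_mul]
    rw [e3, ← c1, ← c2]; ring

/-- strict positivity -/
private theorem nb_fpos {Γ : Subgroup SL} (hΓ : Good Γ) {P : V} (hP : P ∈ Cone) {c : SL} (hc : c ∈ Γ)
    (hc1 : c ≠ 1) : 0 < B P (act c P) - B P P := by
  have hcC := act_mem_Cone c hP
  have h1 := B_rcs hP (Cone_tr_pos hcC) hcC.2.le
  rw [B_act] at h1
  have h2 := B_pos hP (Cone_tr_pos hcC) hcC.2.le
  have h3 : B P P ≤ B P (act c P) := by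
    have h4 := hP.2
    by_contra hn
    push Not at hn
    nlinarith
  rcases h3.lt_or_eq with h | h
  · linarith
  · exfalso
    have h5 := B_rcs_eq hP hcC (by rw [B_act]) h.symm
    apply hc1
    apply orbit_inj hΓ hP hc (one_mem Γ)
    rw [act_one]; exact h5.symm

private theorem P_not_mem {Γ : Subgroup SL} (hΓ : Good Γ) {P : V} (hP : P ∈ Cone) {c : SL} (hc : c ∈ Γ)
    (hc1 : c ≠ 1) : P ∉ Cell Γ P c := by
  intro h
  have h1 := h.2 1 (one_mem Γ)
  rw [act_one] at h1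
  have := nb_fpos hΓ hP hc hc1
  linarith

private theorem tr_lower {P x : V} (hP : P ∈ Cone) (hx : x ∈ Cone) : B x P ≤ tr x * tr P := by
  have p1 := hP.1
  have p3 := Cone_pos22 hP
  have x1 := hx.1
  have x3 := Cone_pos22 hx
  have hp := hP.2
  have hxx := hx.2
  unfold B at hp hxx
  have hx2 : |x.2.1| ≤ tr x := by
    unfold tr
    rw [abs_le]
    constructor <;> nlinarith
  have hp2 : |P.2.1| ≤ tr P := by
    unfold tr
    rw [abs_le]
    constructor <;> nlinarith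
  have hx2' : x.2.1 ^ 2 ≤ (tr x / 2) ^ 2 := by
    unfold tr; nlinarith [sq_nonneg (x.1 - x.2.2)]
  have hp2' : P.2.1 ^ 2 ≤ (tr P / 2) ^ 2 := by
    unfold tr; nlinarith [sq_nonneg (P.1 - P.2.2)]
  have htx : 0 < tr x := Cone_tr_pos hx
  have htp : 0 < tr P := Cone_tr_pos hP
  have hx3 : |x.2.1| ≤ tr x / 2 := abs_le_of_sq_le_sq hx2' (by linarith)
  have hp3 : |P.2.1| ≤ tr P / 2 := abs_le_of_sq_le_sq hp2' (by linarith)
  have h5 : -(x.2.1 * P.2.1) ≤ tr x / 2 * (tr P / 2) := by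
    calc -(x.2.1 * P.2.1) ≤ |x.2.1 * P.2.1| := neg_le_abs _
      _ = |x.2.1| * |P.2.1| := abs_mul _ _
      _ ≤ _ := mul_le_mul hx3 hp3 (abs_nonneg _) (by linarith)
  have h6 : (x.1 * P.2.2 + x.2.2 * P.1) / 2 ≤ tr x * tr P / 2 := by
    unfold tr
    have := mul_pos x1 p1
    have := mul_pos x3 p3
    linarith
  have h7 := mul_pos htx htp
  unfold B
  linarith

/-- Claim 1 -/
private theorem ray_exit {Γ : Subgroup SL} (hΓ : Good Γ) {P : V} (hP : P ∈ Cone) {e : V}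
    (he : B e P = 0) (hee : B e e < 0) :
    ∃ τ : ℝ, 0 < τ ∧ ∃ c ∈ Nb Γ P, P + τ • e ∈ Cell Γ P 1 ∧ P + τ • e ∈ Cell Γ P c := by
  obtain ⟨R0, hR0⟩ := cell_bdd hΓ hP
  set R : ℝ := max R0 1 with hRdef
  have hRpos : 0 < R := lt_of_lt_of_le one_pos (le_max_right _ _)
  have hR : ∀ x ∈ Cell Γ P 1, B x x = 1 → tr x ≤ R := fun x hx h => (hR0 x hx h).trans (le_max_left _ _)
  have hD := hP.2
  have htP := Cone_tr_pos hP
  set x : ℝ → V := fun τ => P + τ • e with hxdef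
  have hxc : Continuous x := by fun_prop
  have hxP : ∀ τ, B (x τ) P = B P P := by
    intro τ; simp only [hxdef]; rw [B_add_left, B_smul_left, he]; ring
  have hxx : ∀ τ, B (x τ) (x τ) = B P P + τ ^ 2 * B e e := by
    intro τ; simp only [hxdef]
    rw [B_add_left, B_add_right, B_add_right, B_smul_left, B_smul_left, B_smul_right, B_smul_right,
      B_comm P e, he]; ring
  set δ : ℝ := (B P P / tr P / R) ^ 2 with hδ
  have hδpos : 0 < δ := by positivity
  have hlow : ∀ τ, x τ ∈ Cell Γ P 1 → δ ≤ B (x τ) (x τ) := by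
    intro τ hτ
    have hxC := hτ.1
    have hs := hxC.2
    set s := Real.sqrt (B (x τ) (x τ)) with hsdef
    have hs0 : 0 < s := Real.sqrt_pos.mpr hs
    have hss : s ^ 2 = B (x τ) (x τ) := Real.sq_sqrt hs.le
    have h1 := hR (s⁻¹ • x τ) (cell_smul hτ (inv_pos.mpr hs0)) (by
      rw [B_smul_left, B_smul_right, ← hss]; field_simp)
    rw [tr_smul] at h1
    have h2 := tr_lower hP hxC
    rw [hxP] at h2
    have h3 : tr (x τ) ≤ R * s := by
      have := mul_le_mul_of_nonneg_left h1 hs0.le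
      rw [← mul_assoc, mul_inv_cancel₀ hs0.ne', one_mul] at this
      linarith
    have h4 : B P P / tr P ≤ tr (x τ) := by
      rw [div_le_iff₀ htP]; exact h2
    have h5 : B P P / tr P / R ≤ s := by
      rw [div_le_iff₀ hRpos]; linarith
    rw [hδ, ← hss]
    exact pow_le_pow_left₀ (by positivity) h5 2
  -- the closed set
  set T : Set ℝ := {τ | 0 ≤ τ ∧ δ ≤ B (x τ) (x τ) ∧ 0 ≤ (x τ).1 ∧ ∀ h ∈ Γ, B (x τ) (act 1 P) ≤ B (x τ) (act h P)} with hT
  have hTiff : ∀ τ, τ ∈ T ↔ 0 ≤ τ ∧ x τ ∈ Cell Γ P 1 := by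
    intro τ
    constructor
    · rintro ⟨h1, h2, h3, h4⟩
      refine ⟨h1, ⟨?_, lt_of_lt_of_le hδpos h2⟩, h4⟩
      rcases h3.lt_or_eq with h | h
      · exact h
      · exfalso
        have h5 : 0 < B (x τ) (x τ) := lt_of_lt_of_le hδpos h2
        unfold B at h5
        rw [← h] at h5
        nlinarith [sq_nonneg (x τ).2.1]
    · rintro ⟨h1, h2⟩
      exact ⟨h1, hlow τ h2, h2.1.1.le, h2.2⟩
  have hTclosed : IsClosed T := by
    have e1 : T = {τ | 0 ≤ τ} ∩ ({τ | δ ≤ B (x τ) (x τ)} ∩ ({τ | 0 ≤ (x τ).1} ∩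
        ⋂ h ∈ Γ, {τ | B (x τ) (act 1 P) ≤ B (x τ) (act h P)})) := by
      ext τ
      simp only [hT, Set.mem_ofPred_eq, Set.mem_inter_iff, Set.mem_iInter]
    rw [e1]
    refine (isClosed_le continuous_const continuous_id).inter
      ((isClosed_le continuous_const (continuous_BB.comp hxc)).inter
      ((isClosed_le continuous_const (continuous_fst.comp hxc)).inter ?_))
    refine isClosed_biInter fun h _ => ?_
    exact isClosed_le ((continuous_B _).comp hxc) ((continuous_B _).comp hxc)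
  have h0T : (0 : ℝ) ∈ T := by
    rw [hTiff]
    refine ⟨le_rfl, ?_⟩
    simp only [hxdef, zero_smul, add_zero]
    exact cell_one hP
  have hTbdd : BddAbove T := by
    refine ⟨1 + B P P / (- B e e), fun τ hτ => ?_⟩
    have h1 := lt_of_lt_of_le hδpos hτ.2.1
    rw [hxx] at h1
    have h2 : τ ^ 2 < B P P / (- B e e) := by
      rw [lt_div_iff₀ (by linarith)]; linarith
    nlinarith [sq_nonneg (τ - 1)]
  set t := sSup T with ht
  have htT : t ∈ T := hTclosed.csSup_mem ⟨0, h0T⟩ hTbdd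
  have htC := ((hTiff t).mp htT).2
  have ht0 := ((hTiff t).mp htT).1
  obtain ⟨r, hr, hball, hloc⟩ := cell_locfin hΓ hP (q := x t) htC.1
  -- a slightly bigger parameter
  have hev : ∀ᶠ τ in 𝓝[>] t, x τ ∈ Metric.ball (x t) r :=
    (hxc.continuousAt.tendsto.mono_left nhdsWithin_le_nhds).eventually (Metric.ball_mem_nhds _ hr)
  obtain ⟨τ, hτb, hτt⟩ := (hev.and self_mem_nhdsWithin).exists
  have hτt' : t < τ := hτt
  have hτn : x τ ∉ Cell Γ P 1 := by
    intro h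
    have : τ ∈ T := (hTiff τ).mpr ⟨by linarith, h⟩
    have := le_csSup hTbdd this
    linarith
  obtain ⟨g, hg, hgC⟩ := cell_cover hΓ hP (hball hτb)
  have hg1 : g ≠ 1 := by
    rintro rfl; exact hτn hgC
  have hq := hloc g hg _ hτb hgC
  refine ⟨t, ?_, g, ⟨hg, hg1, x t, htC, hq⟩, htC, hq⟩
  rcases ht0.lt_or_eq with h | h
  · exact h
  · exfalso
    apply P_not_mem hΓ hP hg hg1
    have : x t = P := by simp only [hxdef]; rw [← h]; simp
    rw [← this]; rw [this] at hq ⊢; exact hq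

/-- the link of the identity is connected -/
theorem nb_conn {Γ : Subgroup SL} (hΓ : Good Γ) {P : V} (hP : P ∈ Cone) {S : Set SL}
    (hS : S ⊆ Nb Γ P) (hne : S.Nonempty) (hcl : ∀ a ∈ S, ∀ c, Tri Γ P a c → c ∈ S) :
    S = Nb Γ P := by
  classical
  by_contra hSN
  have hfin := nb_finite hΓ hP
  have hD := hP.2
  set f : SL → ℝ := fun c => B P (act c P) - B P P with hf
  have hfpos : ∀ c ∈ Nb Γ P, 0 < f c := fun c hc => nb_fpos hΓ hP hc.1 hc.2.1
  set qq : SL → ℝ → ℝ := fun c θ => - B (fr P θ) (act c P) / f c with hqq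
  have hqc : ∀ c, Continuous (qq c) := fun c => ((fr_cont P (act c P)).neg).div_const _
  set Θ : SL → Set ℝ := fun c => {θ | ∀ c' ∈ Nb Γ P, qq c' θ ≤ qq c θ} with hΘ
  have hΘcl : ∀ c, IsClosed (Θ c) := by
    intro c
    have : Θ c = ⋂ c' ∈ Nb Γ P, {θ | qq c' θ ≤ qq c θ} := by
      ext θ; simp [hΘ]
    rw [this]
    exact isClosed_biInter fun c' _ => isClosed_le (hqc c') (hqc c)
  -- evaluation
  have hev : ∀ (θ τ : ℝ) (c : SL), B (P + τ • fr P θ) (act c P) = B P P + f c + τ * B (fr P θ) (act c P) := by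
    intro θ τ c
    rw [B_add_left, B_smul_left]
    simp only [hf]; ring
  have hevP : ∀ (θ τ : ℝ), B (P + τ • fr P θ) P = B P P := by
    intro θ τ
    rw [B_add_left, B_smul_left, fr_B]; ring
  -- a point in Cell 1 ∩ Cell c has q_c = 1/τ
  have hle : ∀ (θ τ : ℝ), 0 < τ → P + τ • fr P θ ∈ Cell Γ P 1 → ∀ c ∈ Nb Γ P, qq c θ ≤ 1 / τ := by
    intro θ τ hτ h1 c hc
    have h2 := h1.2 c hc.1
    rw [act_one, hevP, hev] at h2
    simp only [hqq]
    rw [div_le_div_iff₀ (hfpos c hc) hτ]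
    linarith
  have hge : ∀ (θ τ : ℝ), 0 < τ → ∀ c ∈ Nb Γ P, P + τ • fr P θ ∈ Cell Γ P c → 1 / τ ≤ qq c θ := by
    intro θ τ hτ c hc h1
    have h2 := h1.2 1 (one_mem Γ)
    rw [act_one, hevP, hev] at h2
    simp only [hqq]
    rw [div_le_div_iff₀ hτ (hfpos c hc)]
    linarith
  have hmem : ∀ (θ τ : ℝ), 0 < τ → P + τ • fr P θ ∈ Cell Γ P 1 → ∀ c ∈ Nb Γ P, 1 / τ ≤ qq c θ →
      P + τ • fr P θ ∈ Cell Γ P c := by
    intro θ τ hτ h1 c hc h2
    refine ⟨h1.1, fun h hh => ?_⟩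
    refine le_trans ?_ (h1.2 h hh)
    rw [act_one, hevP, hev]
    simp only [hqq] at h2
    rw [div_le_div_iff₀ hτ (hfpos c hc)] at h2
    linarith
  -- key: for every θ there is τ such that Θ c ∋ θ iff the point is in Cell c
  have key : ∀ θ : ℝ, ∃ τ : ℝ, P + τ • fr P θ ∈ Cell Γ P 1 ∧ (∃ c ∈ Nb Γ P, θ ∈ Θ c) ∧
      ∀ c ∈ Nb Γ P, θ ∈ Θ c → P + τ • fr P θ ∈ Cell Γ P c := by
    intro θ
    obtain ⟨τ, hτ, c, hc, h1, h2⟩ := ray_exit hΓ hP (fr_B P θ) (fr_BB hP θ)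
    have h3 := hge θ τ hτ c hc h2
    refine ⟨τ, h1, ⟨c, hc, fun c' hc' => (hle θ τ hτ h1 c' hc').trans h3⟩, fun c' hc' h4 => ?_⟩
    exact hmem θ τ hτ h1 c' hc' (h3.trans (h4 c hc))
  have hnonempty : ∀ c ∈ Nb Γ P, (Θ c).Nonempty := by
    intro c hc
    obtain ⟨hcΓ, hc1, y, hy1, hyc⟩ := hc
    have hyC := hy1.1
    have hyP : 0 < B y P := B_pos hyC (Cone_tr_pos hP) hP.2.le
    set r := B P P / B y P with hr
    have hrpos : 0 < r := div_pos hD hyP
    have hz1 := cell_smul hy1 hrpos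
    have hzc := cell_smul hyc hrpos
    set z := r • y with hz
    have hzP : B z P = B P P := by
      rw [hz, B_smul_left, hr]; field_simp
    have hv : B (z - P) P = 0 := by rw [B_sub_left, hzP]; ring
    have hv0 : z - P ≠ 0 := by
      intro h
      have : z = P := sub_eq_zero.mp h
      rw [this] at hzc
      exact P_not_mem hΓ hP hcΓ hc1 hzc
    obtain ⟨τ, hτ, θ, hθ⟩ := fr_surj hP hv hv0
    have hzz : z = P + τ • fr P θ := by rw [← hθ]; abel
    have hc : c ∈ Nb Γ P := ⟨hcΓ, hc1, y, hy1, hyc⟩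
    rw [hzz] at hz1 hzc
    refine ⟨θ, fun c' hc' => (hle θ τ hτ hz1 c' hc').trans (hge θ τ hτ c hc hzc)⟩
  -- the two closed sets
  have hconn : IsPreconnected (Set.univ : Set ℝ) := isPreconnected_univ
  rw [isPreconnected_closed_iff] at hconn
  have hdiff : (Nb Γ P \ S).Nonempty := by
    by_contra hn
    rw [Set.not_nonempty_iff_eq_empty, Set.sdiff_eq_empty] at hn
    exact hSN (Set.Subset.antisymm hS hn)
  have hA1 : IsClosed (⋃ c ∈ S, Θ c) := (hfin.subset hS).isClosed_biUnion fun c _ => hΘcl c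
  have hA2 : IsClosed (⋃ c ∈ Nb Γ P \ S, Θ c) :=
    (hfin.subset Set.sdiff_subset).isClosed_biUnion fun c _ => hΘcl c
  obtain ⟨θ, -, hθ1, hθ2⟩ := hconn _ _ hA1 hA2 (by
    intro θ _
    obtain ⟨τ, -, ⟨c, hc, hcθ⟩, -⟩ := key θ
    by_cases hcS : c ∈ S
    · left; exact Set.mem_biUnion hcS hcθ
    · right; exact Set.mem_biUnion (show c ∈ Nb Γ P \ S from ⟨hc, hcS⟩) hcθ) (by
    obtain ⟨a, ha⟩ := hne
    obtain ⟨θ, hθ⟩ := hnonempty a (hS ha)
    exact ⟨θ, trivial, Set.mem_biUnion ha hθ⟩) (by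
    obtain ⟨a, ha⟩ := hdiff
    obtain ⟨θ, hθ⟩ := hnonempty a ha.1
    exact ⟨θ, trivial, Set.mem_biUnion ha hθ⟩)
  simp only [Set.mem_iUnion, exists_prop] at hθ1 hθ2
  obtain ⟨a, haS, haθ⟩ := hθ1
  obtain ⟨c, hcN, hcθ⟩ := hθ2
  obtain ⟨τ, h1, -, h2⟩ := key θ
  have haN := hS haS
  have : c ∈ S := hcl a haS c ⟨haN.1, hcN.1.1, haN.2.1, hcN.1.2.1, by
    rintro rfl; exact hcN.2 haS, P + τ • fr P θ, h1, h2 a haN haθ, h2 c hcN.1 hcθ⟩
  exact hcN.2 this



end Pool.Agent.SCD
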