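import Mathlib
import Pool.Agent.SCD.Basic
import Pool.Agent.SCD.L_cell_basic

set_option autoImplicit false

namespace Pool.Agent.SCD

open Filter Topology Set


theorem tri_swap {Γ : Subgroup SL} {P : V} {a c : SL} (h : Tri Γ P a c) : Tri Γ P c a := by
  obtain ⟨ha, hc, ha1, hc1, hac, x, h1, hxa, hxc⟩ := h
  exact ⟨hc, ha, hc1, ha1, hac.symm, x, h1, hxc, hxa⟩
theorem tri_shift {Γ : Subgroup SL} {P : V} {a c : SL} (h : Tri Γ P a c) :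
    Tri Γ P (a⁻¹ * c) a⁻¹ ∧
      d3 P (act (a⁻¹ * c) P) (act a⁻¹ P) = d3 P (act a P) (act c P) := by
  obtain ⟨ha, hc, ha1, hc1, hac, x, h1, hxa, hxc⟩ := h
  have hai : a⁻¹ ∈ Γ := Γ.inv_mem ha
  refine ⟨⟨Γ.mul_mem hai hc, hai, ?_, ?_, ?_, act a⁻¹ x, ?_, ?_, ?_⟩, ?_⟩
  · intro e
    apply hac
    rw [inv_mul_eq_one] at e
    exact e
  · intro e
    apply ha1
    rwa [inv_eq_one] at e
  · intro e
    apply hc1
    have : a⁻¹ * c = a⁻¹ * 1 := by rw [mul_one]; exact e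
    exact mul_left_cancel this
  · have := (cell_act hai a x).1 hxa
    rwa [inv_mul_cancel] at this
  · exact (cell_act hai c x).1 hxc
  · have := (cell_act hai 1 x).1 h1
    rwa [mul_one] at this
  · rw [← d3_act a, ← act_mul, mul_inv_cancel_left, act_act_inv, d3_rot]
theorem nb_inv {Γ : Subgroup SL} {P : V} {a : SL} (h : a ∈ Nb Γ P) : a⁻¹ ∈ Nb Γ P := by
  obtain ⟨ha, ha1, x, h1, hxa⟩ := h
  have hai : a⁻¹ ∈ Γ := Γ.inv_mem ha
  refine ⟨hai, ?_, act a⁻¹ x, ?_, ?_⟩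
  · intro e
    apply ha1
    rwa [inv_eq_one] at e
  · have := (cell_act hai a x).1 hxa
    rwa [inv_mul_cancel] at this
  · have := (cell_act hai 1 x).1 h1
    rwa [mul_one] at this
theorem tri_nb {Γ : Subgroup SL} {P : V} {a c : SL} (h : Tri Γ P a c) :
    a ∈ Nb Γ P ∧ c ∈ Nb Γ P ∧ a⁻¹ * c ∈ Nb Γ P := by
  have hs := (tri_shift h).1
  obtain ⟨ha, hc, ha1, hc1, hac, x, h1, hxa, hxc⟩ := h
  obtain ⟨hb, -, hb1, -, -, y, hy1, hyb, -⟩ := hs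
  exact ⟨⟨ha, ha1, x, h1, hxa⟩, ⟨hc, hc1, x, h1, hxc⟩, ⟨hb, hb1, y, hy1, hyb⟩⟩



end Pool.Agent.SCD
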