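import Mathlib
import Pool.Agent.SCD.Basic
import Pool.Agent.SCD.L_mono_const
import Pool.Agent.SCD.L_B_pos
import Pool.Agent.SCD.L_cell_basic
import Pool.Agent.SCD.L_cell_locfin
import Pool.Agent.SCD.L_tri_sym

set_option autoImplicit false

namespace Pool.Agent.SCD

open Filter Topology Set


theorem nb_gen {Γ : Subgroup SL} (hΓ : Good Γ) {P : V} (hP : P ∈ Cone) :
    Γ ≤ Subgroup.closure (Nb Γ P) := by
  intro g hg
  have key := mono_const (Y := {p : V × SL // p.2 ∈ Γ ∧ p.1 ∈ Cell Γ P p.2}) convex_Cone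
    (fun y => y.1.1) (fun y => y.2.2.1) (fun x hx => by
      obtain ⟨a, ha, hxa⟩ := cell_cover hΓ hP hx
      exact ⟨⟨(x, a), ha, hxa⟩, rfl⟩)
    (fun y => (QuotientGroup.mk y.1.2 : SL ⧸ Subgroup.closure (Nb Γ P)))
    (fun q hq => by
      obtain ⟨r, hr, -, hr2⟩ := cell_locfin hΓ hP hq
      refine ⟨r, hr, ?_⟩
      rintro ⟨⟨x1, g1⟩, h1, hx1⟩ ⟨⟨x2, g2⟩, h2, hx2⟩ hb1 hb2
      have q1 := hr2 g1 h1 x1 hb1 hx1
      have q2 := hr2 g2 h2 x2 hb2 hx2
      have hi : g1⁻¹ ∈ Γ := Γ.inv_mem h1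
      have c1 := (cell_act hi g1 q).1 q1
      have c2 := (cell_act hi g2 q).1 q2
      rw [inv_mul_cancel] at c1
      show (QuotientGroup.mk g1 : SL ⧸ Subgroup.closure (Nb Γ P)) = QuotientGroup.mk g2
      rw [QuotientGroup.eq]
      by_cases he : g1⁻¹ * g2 = 1
      · rw [he]; exact Subgroup.one_mem _
      · exact Subgroup.subset_closure ⟨Γ.mul_mem hi h2, he, _, c1, c2⟩)
  have hgP : act g P ∈ Cell Γ P g := by
    have := (cell_act hg 1 P).1 (cell_one hP)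
    rwa [mul_one] at this
  have h1 := key ⟨(P, 1), Γ.one_mem, cell_one hP⟩ ⟨(act g P, g), hg, hgP⟩
  change (QuotientGroup.mk 1 : SL ⧸ Subgroup.closure (Nb Γ P)) = QuotientGroup.mk g at h1
  rw [QuotientGroup.eq, inv_one, one_mul] at h1
  exact h1



end Pool.Agent.SCD
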