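import Mathlib
import Pool.Agent.SCD.Basic
import Pool.Agent.SCD.L_mono_const
import Pool.Agent.SCD.L_mono_exists
import Pool.Agent.SCD.L_B_pos
import Pool.Agent.SCD.L_cell_basic
import Pool.Agent.SCD.L_cell_locfin
import Pool.Agent.SCD.L_tri_sym
import Pool.Agent.SCD.L_nb_gen

set_option autoImplicit false

namespace Pool.Agent.SCD

open Filter Topology Set



private theorem NP_core {Γ : Subgroup SL} {P : V} {L : Type} [Group L] (μ : SL → L)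
    (h1 : ∀ a ∈ Nb Γ P, μ a⁻¹ = (μ a)⁻¹)
    (h2 : ∀ a c, Tri Γ P a c → μ a * μ (a⁻¹ * c) = μ c) (μ' : SL → L)
    (hμ1 : μ' 1 = 1) (hμ : ∀ a ∈ Nb Γ P, μ' a = μ a) (a c : SL) (ha : a ∈ Γ) (hc : c ∈ Γ)
    (x : V) (x1 : x ∈ Cell Γ P 1) (xa : x ∈ Cell Γ P a) (xc : x ∈ Cell Γ P c) :
    μ' a * μ' (a⁻¹ * c) = μ' c := by
  by_cases ha1 : a = 1
  · subst ha1
    rw [hμ1, inv_one, one_mul, one_mul]
  by_cases hac : a = c
  · subst hac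
    rw [inv_mul_cancel, hμ1, mul_one]
  have haN : a ∈ Nb Γ P := ⟨ha, ha1, x, x1, xa⟩
  by_cases hc1 : c = 1
  · subst hc1
    rw [mul_one, hμ1, hμ a haN, hμ a⁻¹ (nb_inv haN), h1 a haN, mul_inv_cancel]
  have htri : Tri Γ P a c := ⟨ha, hc, ha1, hc1, hac, x, x1, xa, xc⟩
  obtain ⟨n1, n2, n3⟩ := tri_nb htri
  rw [hμ a n1, hμ c n2, hμ _ n3]
  exact h2 a c htri

private theorem NP_core3 {Γ : Subgroup SL} {P : V} {L : Type} [Group L] (μ : SL → L)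
    (h1 : ∀ a ∈ Nb Γ P, μ a⁻¹ = (μ a)⁻¹)
    (h2 : ∀ a c, Tri Γ P a c → μ a * μ (a⁻¹ * c) = μ c) (μ' : SL → L)
    (hμ1 : μ' 1 = 1) (hμ : ∀ a ∈ Nb Γ P, μ' a = μ a) (g1 g2 g3 : SL) (hg1 : g1 ∈ Γ)
    (hg2 : g2 ∈ Γ) (hg3 : g3 ∈ Γ)
    (q : V) (q1 : q ∈ Cell Γ P g1) (q2 : q ∈ Cell Γ P g2) (q3 : q ∈ Cell Γ P g3) :
    μ' (g1⁻¹ * g2) * μ' (g2⁻¹ * g3) = μ' (g1⁻¹ * g3) := by
  have e : g2⁻¹ * g3 = (g1⁻¹ * g2)⁻¹ * (g1⁻¹ * g3) := by group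
  rw [e]
  have hi := Γ.inv_mem hg1
  refine NP_core μ h1 h2 μ' hμ1 hμ (g1⁻¹ * g2) (g1⁻¹ * g3) (Γ.mul_mem hi hg2)
    (Γ.mul_mem hi hg3) (act g1⁻¹ q) ?_ ((cell_act hi g2 q).1 q2) ((cell_act hi g3 q).1 q3)
  have := (cell_act hi g1 q).1 q1
  rwa [inv_mul_cancel] at this

/-- presentation of `Γ` -/
theorem nb_pres {Γ : Subgroup SL} (hΓ : Good Γ) {P : V} (hP : P ∈ Cone) {L : Type} [Group L]
    (μ : SL → L) (h1 : ∀ a ∈ Nb Γ P, μ a⁻¹ = (μ a)⁻¹)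
    (h2 : ∀ a c, Tri Γ P a c → μ a * μ (a⁻¹ * c) = μ c) :
    ∃ Φ : Γ →* L, ∀ a : Γ, (a : SL) ∈ Nb Γ P → Φ a = μ a := by
  classical
  obtain ⟨μ', hμ'⟩ : ∃ μ' : SL → L, μ' = fun g => if g ∈ Nb Γ P then μ g else 1 := ⟨_, rfl⟩
  have hμ1 : μ' 1 = 1 := by
    rw [hμ']
    simp only
    rw [if_neg]
    intro h
    exact h.2.1 rfl
  have hμ : ∀ a ∈ Nb Γ P, μ' a = μ a := by
    intro a ha
    rw [hμ']
    simp only
    rw [if_pos ha]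
  obtain ⟨s, hs⟩ := mono_exists (E := V) (Y := {p : V × SL // p.2 ∈ Γ ∧ p.1 ∈ Cell Γ P p.2})
    (G := L) (X := Cone) convex_Cone (fun y => y.1.1) (fun y => y.2.2.1)
    (by
      intro x hx
      obtain ⟨g, hg, hxg⟩ := cell_cover hΓ hP hx
      exact ⟨⟨(x, g), hg, hxg⟩, rfl⟩)
    (fun y1 y2 => μ' (y1.1.2⁻¹ * y2.1.2))
    (by
      intro q hq
      obtain ⟨r, hr, -, hcell⟩ := cell_locfin hΓ hP hq
      refine ⟨r, hr, ?_⟩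
      intro y1 y2 y3 hy1 hy2 hy3
      exact NP_core3 μ h1 h2 μ' hμ1 hμ _ _ _ y1.2.1 y2.2.1 y3.2.1 q
        (hcell _ y1.2.1 _ hy1 y1.2.2) (hcell _ y2.2.1 _ hy2 y2.2.2) (hcell _ y3.2.1 _ hy3 y3.2.2))
  -- the total function
  obtain ⟨F, hF⟩ : ∃ F : V → SL → L, ∀ (x : V) (g : SL) (h : g ∈ Γ ∧ x ∈ Cell Γ P g),
      F x g = s ⟨(x, g), h⟩ := by
    refine ⟨fun x g => if h : g ∈ Γ ∧ x ∈ Cell Γ P g then s ⟨(x, g), h⟩ else 1, ?_⟩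
    intro x g h
    simp only
    rw [dif_pos h]
  have hFt : ∀ q g1 g2, g1 ∈ Γ → g2 ∈ Γ → q ∈ Cell Γ P g1 → q ∈ Cell Γ P g2 →
      (F q g1)⁻¹ * F q g2 = μ' (g1⁻¹ * g2) := by
    intro q g1 g2 hg1 hg2 q1 q2
    obtain ⟨r, hr, h⟩ := hs q q1.1
    rw [hF q g1 ⟨hg1, q1⟩, hF q g2 ⟨hg2, q2⟩]
    exact h ⟨(q, g1), hg1, q1⟩ ⟨(q, g2), hg2, q2⟩ (Metric.mem_ball_self hr)
      (Metric.mem_ball_self hr)
  have hFc : ∀ g, g ∈ Γ → ∀ x y, x ∈ Cell Γ P g → y ∈ Cell Γ P g → F x g = F y g := by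
    intro g hg x y hx hy
    have := mono_const (E := V) (Y := {x : V // x ∈ Cell Γ P g}) (Z := L)
      (X := Cell Γ P g) (cell_convex Γ P g) Subtype.val (fun y => y.2)
      (fun x hx => ⟨⟨x, hx⟩, rfl⟩) (fun y => F y.1 g)
      (by
        intro q hq
        obtain ⟨r, hr, h⟩ := hs q hq.1
        refine ⟨r, hr, ?_⟩
        intro y1 y2 hy1 hy2
        have h3 := h ⟨(y1.1, g), hg, y1.2⟩ ⟨(y2.1, g), hg, y2.2⟩ hy1 hy2
        simp only at h3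
        rw [inv_mul_cancel, hμ1, inv_mul_eq_one] at h3
        rw [hF y1.1 g ⟨hg, y1.2⟩, hF y2.1 g ⟨hg, y2.2⟩]
        exact h3) ⟨x, hx⟩ ⟨y, hy⟩
    exact this
  have hPc : ∀ g, g ∈ Γ → act g P ∈ Cell Γ P g := by
    intro g hg
    have := (cell_act hg 1 P).1 (cell_one hP)
    rwa [mul_one] at this
  obtain ⟨S, hS⟩ : ∃ S : SL → L, S = fun g => F (act g P) g := ⟨_, rfl⟩
  have hSF : ∀ g, g ∈ Γ → ∀ x, x ∈ Cell Γ P g → F x g = S g := by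
    intro g hg x hx
    rw [hS]
    exact hFc g hg _ _ hx (hPc g hg)
  have hstep : ∀ g, g ∈ Γ → ∀ a, a ∈ Nb Γ P → (S g)⁻¹ * S (g * a) = μ a := by
    intro g hg a ha
    obtain ⟨haΓ, ha1, x, x1, xa⟩ := id ha
    have q1 := (cell_act hg 1 x).1 x1
    rw [mul_one] at q1
    have q2 := (cell_act hg a x).1 xa
    have h3 := hFt (act g x) g (g * a) hg (Γ.mul_mem hg haΓ) q1 q2
    rw [hSF g hg _ q1, hSF (g * a) (Γ.mul_mem hg haΓ) _ q2, inv_mul_cancel_left, hμ a ha] at h3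
    exact h3
  have hmul : ∀ h, h ∈ Γ → ∀ g, g ∈ Γ → (S g)⁻¹ * S (g * h) = (S 1)⁻¹ * S h := by
    intro h hh
    have hcl := nb_gen hΓ hP hh
    have key : h ∈ Γ ∧ ∀ g, g ∈ Γ → (S g)⁻¹ * S (g * h) = (S 1)⁻¹ * S h := by
      have hst : ∀ x, (x ∈ Γ ∧ ∀ g, g ∈ Γ → (S g)⁻¹ * S (g * x) = (S 1)⁻¹ * S x) →
          ∀ a, a ∈ Nb Γ P → (x * a ∈ Γ ∧
            ∀ g, g ∈ Γ → (S g)⁻¹ * S (g * (x * a)) = (S 1)⁻¹ * S (x * a)) := by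
        intro x hx a ha
        refine ⟨Γ.mul_mem hx.1 ha.1, ?_⟩
        intro g hg
        have e1 := hstep (g * x) (Γ.mul_mem hg hx.1) a ha
        have e2 := hstep x hx.1 a ha
        have e3 := hx.2 g hg
        rw [mul_assoc] at e1
        have f1 : S (g * (x * a)) = S (g * x) * μ a := by rw [← e1]; group
        have f2 : S (x * a) = S x * μ a := by rw [← e2]; group
        rw [f1, f2, ← mul_assoc, e3, mul_assoc]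
      refine Subgroup.closure_induction_right
        (p := fun x _ => x ∈ Γ ∧ ∀ g, g ∈ Γ → (S g)⁻¹ * S (g * x) = (S 1)⁻¹ * S x)
        ?_ ?_ ?_ hcl
      · refine ⟨Γ.one_mem, ?_⟩
        intro g _
        rw [mul_one, inv_mul_cancel, inv_mul_cancel]
      · intro x _ y hy hx
        exact hst x hx y hy
      · intro x _ y hy hx
        exact hst x hx y⁻¹ (nb_inv hy)
    exact key.2
  refine ⟨MonoidHom.mk' (fun g : Γ => (S 1)⁻¹ * S (g : SL)) ?_, ?_⟩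
  · intro g h
    have e := hmul h.1 h.2 g.1 g.2
    change (S 1)⁻¹ * S (g.1 * h.1) = (S 1)⁻¹ * S g.1 * ((S 1)⁻¹ * S h.1)
    rw [← e]
    group
  · intro a ha
    have e := hstep 1 Γ.one_mem a.1 ha
    rw [one_mul] at e
    exact e



end Pool.Agent.SCD
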