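import Mathlib
import Pool.Agent.SCD.Basic
import Pool.Agent.SCD.L_B_pos
import Pool.Agent.SCD.L_cell_basic

set_option autoImplicit false

namespace Pool.Agent.SCD

open Filter Topology Set


private theorem third_ne_alg (x1 x2 x3 p1 p2 p3 y1 y2 y3 z1 z2 z3 D k : ℝ)
    (hP : (p1 * p3 + p3 * p1) / 2 - p2 * p2 = D)
    (hY : (y1 * y3 + y3 * y1) / 2 - y2 * y2 = D)
    (hZ : (z1 * z3 + z3 * z1) / 2 - z2 * z2 = D) (hk : k ≠ 0)
    (h1 : (x1 * p3 + x3 * p1) / 2 - x2 * p2 = k)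
    (h2 : (x1 * y3 + x3 * y1) / 2 - x2 * y2 = k)
    (h3 : (x1 * z3 + x3 * z1) / 2 - x2 * z2 = k)
    (hd : p1 * (y2 * z3 - y3 * z2) - p2 * (y1 * z3 - y3 * z1) + p3 * (y1 * z2 - y2 * z1) = 0)
    (hPY : (p1 * y3 + p3 * y1) / 2 - p2 * y2 ≠ D)
    (hPZ : (p1 * z3 + p3 * z1) / 2 - p2 * z2 ≠ D) :
    z1 = y1 ∧ z2 = y2 ∧ z3 = y3 := by
  obtain ⟨U1, hU1⟩ : ∃ u, u = y1 - p1 := ⟨_, rfl⟩
  obtain ⟨U2, hU2⟩ : ∃ u, u = y2 - p2 := ⟨_, rfl⟩
  obtain ⟨U3, hU3⟩ : ∃ u, u = y3 - p3 := ⟨_, rfl⟩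
  obtain ⟨W1, hW1⟩ : ∃ u, u = z1 - p1 := ⟨_, rfl⟩
  obtain ⟨W2, hW2⟩ : ∃ u, u = z2 - p2 := ⟨_, rfl⟩
  obtain ⟨W3, hW3⟩ : ∃ u, u = z3 - p3 := ⟨_, rfl⟩
  obtain rfl : y1 = p1 + U1 := by linarith
  obtain rfl : y2 = p2 + U2 := by linarith
  obtain rfl : y3 = p3 + U3 := by linarith
  obtain rfl : z1 = p1 + W1 := by linarith
  obtain rfl : z2 = p2 + W2 := by linarith
  obtain rfl : z3 = p3 + W3 := by linarith
  have n1 : U2 * W3 - U3 * W2 = 0 := by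
    apply (mul_eq_zero.1 _).resolve_left hk
    linear_combination (x3 / 2) * hd + (p2 * W3 - p3 * W2) * (h2 - h1)
      - (p2 * U3 - p3 * U2) * (h3 - h1) - (U2 * W3 - U3 * W2) * h1
  have n2 : U3 * W1 - U1 * W3 = 0 := by
    apply (mul_eq_zero.1 _).resolve_left hk
    linear_combination (-x2) * hd + (p3 * W1 - p1 * W3) * (h2 - h1)
      - (p3 * U1 - p1 * U3) * (h3 - h1) - (U3 * W1 - U1 * W3) * h1
  have n3 : U1 * W2 - U2 * W1 = 0 := by
    apply (mul_eq_zero.1 _).resolve_left hk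
    linear_combination (x1 / 2) * hd + (p1 * W2 - p2 * W1) * (h2 - h1)
      - (p1 * U2 - p2 * U1) * (h3 - h1) - (U1 * W2 - U2 * W1) * h1
  obtain ⟨p, hp⟩ : ∃ p, p = U1 * U3 - U2 ^ 2 := ⟨_, rfl⟩
  obtain ⟨q, hq⟩ : ∃ q, q = (U1 * W3 + U3 * W1) / 2 - U2 * W2 := ⟨_, rfl⟩
  obtain ⟨r, hr⟩ : ∃ r, r = W1 * W3 - W2 ^ 2 := ⟨_, rfl⟩
  have e1 : p * W1 = q * U1 := by
    rw [hp, hq]; linear_combination (U1 / 2) * n2 + U2 * n3
  have e2 : p * W2 = q * U2 := by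
    rw [hp, hq]; linear_combination (-(U1 / 2)) * n1 + (U3 / 2) * n3
  have e3 : p * W3 = q * U3 := by
    rw [hp, hq]; linear_combination (-(U3 / 2)) * n2 - U2 * n1
  have f1 : 2 * ((p1 * U3 + p3 * U1) / 2 - p2 * U2) = - p := by
    rw [hp]; linear_combination hY - hP
  have f2 : 2 * ((p1 * W3 + p3 * W1) / 2 - p2 * W2) = - r := by
    rw [hr]; linear_combination hZ - hP
  have hp0 : p ≠ 0 := by
    intro h0
    apply hPY
    linear_combination hP + (1 / 2) * f1 - (1 / 2) * h0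
  have hr0 : r ≠ 0 := by
    intro h0
    apply hPZ
    linear_combination hP + (1 / 2) * f2 - (1 / 2) * h0
  have g1 : p * r = p * q := by
    linear_combination p * f2 - q * f1 - p1 * e3 - p3 * e1 + 2 * p2 * e2
  have g2 : r = q := mul_left_cancel₀ hp0 g1
  have g3 : p * r = q * q := by
    have : p * r = (W1 / 2) * (p * W3) + (W3 / 2) * (p * W1) - W2 * (p * W2) := by rw [hr]; ring
    rw [this, e1, e2, e3, hq]; ring
  have g4 : p = q := by
    rw [g2] at g3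
    have hq0 : q ≠ 0 := g2 ▸ hr0
    exact mul_right_cancel₀ hq0 g3
  rw [← g4] at e1 e2 e3
  have i1 := mul_left_cancel₀ hp0 e1
  have i2 := mul_left_cancel₀ hp0 e2
  have i3 := mul_left_cancel₀ hp0 e3
  exact ⟨by rw [i1], by rw [i2], by rw [i3]⟩

theorem third_ne {Γ : Subgroup SL} (hΓ : Good Γ) {P : V} (hP : P ∈ Cone) {a c : SL}
    (h : Tri Γ P a c) : d3 P (act a P) (act c P) ≠ 0 := by
  obtain ⟨ha, hc, ha1, hc1, hac, x, hx1, hxa, hxc⟩ := h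
  intro hd
  have hone : (1 : SL) ∈ Γ := Γ.one_mem
  have hxC := hx1.1
  have e1 : B x (act a P) = B x P := by
    apply le_antisymm
    · have := hxa.2 1 hone
      rwa [act_one] at this
    · have := hx1.2 a ha
      rwa [act_one] at this
  have e2 : B x (act c P) = B x P := by
    apply le_antisymm
    · have := hxc.2 1 hone
      rwa [act_one] at this
    · have := hx1.2 c hc
      rwa [act_one] at this
  have hk : B x P ≠ 0 := (B_pos hxC (Cone_tr_pos hP) hP.2.le).ne'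
  have hne : ∀ g ∈ Γ, g ≠ 1 → B P (act g P) ≠ B P P := by
    intro g hg hg1 h0
    have hgC : act g P ∈ Cone := act_mem_Cone g hP
    have := B_rcs_eq hP hgC (B_act g P P).symm h0
    exact hg1 (orbit_inj hΓ hP hg hone (by rw [act_one]; exact this.symm))
  have key := third_ne_alg x.1 x.2.1 x.2.2 P.1 P.2.1 P.2.2 (act a P).1 (act a P).2.1
    (act a P).2.2 (act c P).1 (act c P).2.1 (act c P).2.2 (B P P) (B x P) rfl
    (B_act a P P) (B_act c P P) hk rfl e1 e2 hd (hne a ha ha1) (hne c hc hc1)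
  obtain ⟨k1, k2, k3⟩ := key
  have : act c P = act a P := Prod.ext k1 (Prod.ext k2 k3)
  exact hac (orbit_inj hΓ hP hc ha this).symm



end Pool.Agent.SCD
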