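import Mathlib
import Pool.Agent.SCD.Basic
import Pool.Agent.SCD.L_B_pos
import Pool.Agent.SCD.L_B_lower
import Pool.Agent.SCD.L_cell_basic
import Pool.Agent.SCD.L_cell_locfin
import Pool.Agent.SCD.L_nb_finite
import Pool.Agent.SCD.L_third_ne

set_option autoImplicit false

namespace Pool.Agent.SCD

open Filter Topology Set


private theorem te_w (P Q : V) : ∃ w : V, (∀ Z, B w Z = d3 P Q Z) ∧
    B w w = 4 * (B P P * B Q Q - B P Q ^ 2) ∧
    ∀ X, (B P P * B Q Q - B P Q ^ 2) • X = (B X P * B Q Q - B X Q * B P Q) • P +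
      (B X Q * B P P - B X P * B P Q) • Q + (B X w / 4) • w := by
  refine ⟨(2 * (P.1 * Q.2.1 - P.2.1 * Q.1), P.1 * Q.2.2 - P.2.2 * Q.1,
    2 * (P.2.1 * Q.2.2 - P.2.2 * Q.2.1)), fun Z => ?_, ?_, fun X => ?_⟩
  · unfold B d3; simp only; ring
  · unfold B; simp only; ring
  · obtain ⟨p1, p2, p3⟩ := P
    obtain ⟨q1, q2, q3⟩ := Q
    obtain ⟨x1, x2, x3⟩ := X
    unfold B
    simp only [Prod.smul_mk, smul_eq_mul, Prod.mk_add_mk, Prod.mk.injEq]
    refine ⟨?_, ?_, ?_⟩ <;> ring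

private theorem te_pos {X : V} (h1 : 0 < tr X) (h2 : 0 < B X X) : X ∈ Cone := by
  refine ⟨?_, h2⟩
  unfold tr at h1; unfold B at h2
  by_contra hc
  push Not at hc
  nlinarith [sq_nonneg X.2.1, sq_nonneg X.1]

private theorem te_up {X P : V} (hX : X ∈ Cone) (hP : P ∈ Cone) : B X P ≤ tr X * tr P := by
  have hX1 := hX.1
  have hX2 := Cone_pos22 hX
  have hP1 := hP.1
  have hP2 := Cone_pos22 hP
  have hXX := hX.2
  have hPP := hP.2
  have e1 : X.2.1 ^ 2 ≤ (tr X) ^ 2 := by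
    unfold B at hXX; unfold tr
    nlinarith [mul_pos hX1 hX2]
  have e2 : P.2.1 ^ 2 ≤ (tr P) ^ 2 := by
    unfold B at hPP; unfold tr
    nlinarith [mul_pos hP1 hP2]
  have t1 := Cone_tr_pos hX
  have t2 := Cone_tr_pos hP
  have e3 : X.2.1 ^ 2 ≤ (tr X / 2) ^ 2 := by
    unfold B at hXX; unfold tr
    nlinarith [sq_nonneg (X.1 - X.2.2)]
  have e4 : P.2.1 ^ 2 ≤ (tr P / 2) ^ 2 := by
    unfold B at hPP; unfold tr
    nlinarith [sq_nonneg (P.1 - P.2.2)]
  have a1 := abs_le_of_sq_le_sq e3 (by linarith)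
  have a2 := abs_le_of_sq_le_sq e4 (by linarith)
  have h3 : -(X.2.1 * P.2.1) ≤ (tr X / 2) * (tr P / 2) := by
    have b1 : |X.2.1| ≤ tr X / 2 := a1
    have b2 : |P.2.1| ≤ tr P / 2 := a2
    calc -(X.2.1 * P.2.1) ≤ |X.2.1 * P.2.1| := neg_le_abs _
      _ = |X.2.1| * |P.2.1| := abs_mul _ _
      _ ≤ (tr X / 2) * (tr P / 2) := mul_le_mul b1 b2 (abs_nonneg _) (by linarith)
  have h4 : (X.1 * P.2.2 + X.2.2 * P.1) / 2 ≤ tr X * tr P / 2 := by
    unfold tr
    nlinarith [mul_pos hX1 hP1, mul_pos hX2 hP2]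
  have h5 : 0 < tr X * tr P := mul_pos t1 t2
  have h6 : B X P = (X.1 * P.2.2 + X.2.2 * P.1) / 2 - X.2.1 * P.2.1 := rfl
  rw [h6]
  linarith

theorem third_exists {Γ : Subgroup SL} (hΓ : Good Γ) {P : V} (hP : P ∈ Cone) {a : SL}
    (ha : a ∈ Nb Γ P) {e : ℝ} (he : e = 1 ∨ e = -1) :
    ∃ c, Tri Γ P a c ∧ 0 < e * d3 P (act a P) (act c P) := by
  obtain ⟨haΓ, ha1, x0, hx1, hxa⟩ := ha
  have hee : e * e = 1 := by rcases he with rfl | rfl <;> norm_num
  obtain ⟨Q, hQdef⟩ : ∃ Q, Q = act a P := ⟨_, rfl⟩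
  have hQ : Q ∈ Cone := by rw [hQdef]; exact act_mem_Cone a hP
  have hQQ : B Q Q = B P P := by rw [hQdef, B_act]
  have h1P : act 1 P = P := act_one P
  have hPQne : P ≠ Q := by
    intro h
    refine ha1 (orbit_inj hΓ hP haΓ Γ.one_mem ?_)
    rw [h1P, ← hQdef, ← h]
  have hPP : 0 < B P P := hP.2
  have hPQ0 : 0 < B P Q := B_pos hP (Cone_tr_pos hQ) hQ.2.le
  have hPQ : B P P < B P Q := by
    have h1 := B_rcs hP (Cone_tr_pos hQ) hQ.2.le
    rw [hQQ] at h1
    rcases lt_or_ge (B P P) (B P Q) with h2 | h2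
    · exact h2
    · exfalso
      have h3 : B P Q = B P P := by nlinarith
      exact hPQne (B_rcs_eq hP hQ hQQ.symm h3)
  obtain ⟨w, hw1, hw2, hw3⟩ := te_w P Q
  have hwP : B w P = 0 := by rw [hw1]; unfold d3; ring
  have hwQ : B w Q = 0 := by rw [hw1]; unfold d3; ring
  rw [hQQ] at hw2 hw3
  have hww : B w w < 0 := by rw [hw2]; nlinarith
  -- the line
  obtain ⟨x, hxdef⟩ : ∃ x : ℝ → V, x = fun s => (P + Q) + s • ((-e) • w) := ⟨_, rfl⟩
  have hxB : ∀ s Z, B (x s) Z = B (P + Q) Z + s * ((-e) * B w Z) := by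
    intro s Z
    rw [hxdef]
    simp only
    rw [B_add_left, B_smul_left, B_smul_left]
  have hxP : ∀ s, B (x s) P = B P P + B P Q := by
    intro s
    rw [hxB, hwP, B_add_left, B_comm Q P]; ring
  have hxQ : ∀ s, B (x s) Q = B P P + B P Q := by
    intro s
    rw [hxB, hwQ, B_add_left, hQQ]; ring
  have hxx : ∀ s, B (x s) (x s) = (2 * B P P + 2 * B P Q) + s ^ 2 * B w w := by
    intro s
    have e1 : B (P + Q) (x s) = 2 * B P P + 2 * B P Q := by
      rw [B_comm, hxB, B_add_left, B_add_right, B_add_right, hQQ, B_comm w (P + Q), B_add_left,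
        B_comm P w, B_comm Q w, hwP, hwQ, B_comm Q P]
      ring
    have e2 : B w (x s) = s * ((-e) * B w w) := by
      rw [B_comm, hxB, B_add_left, B_comm P w, B_comm Q w, hwP, hwQ]
      ring
    rw [hxB, e1, e2]
    linear_combination (s ^ 2 * B w w) * hee
  have hxc : Continuous x := by rw [hxdef]; fun_prop
  -- the set
  obtain ⟨S, hSdef⟩ : ∃ S : Set ℝ, S = {s | x s ∈ Cell Γ P 1} := ⟨_, rfl⟩
  have hmemS : ∀ s, s ∈ S ↔ x s ∈ Cell Γ P 1 := by intro s; rw [hSdef]; rfl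
  have hSne : S.Nonempty := by
    have k1 : B x0 P = B x0 Q := by
      have a1 := hx1.2 a haΓ
      have a2 := hxa.2 1 Γ.one_mem
      rw [h1P, ← hQdef] at a1 a2
      exact le_antisymm a1 a2
    have hid := hw3 x0
    rw [← k1] at hid
    have hk : 0 < B x0 P := B_pos hx1.1 (Cone_tr_pos hP) hP.2.le
    obtain ⟨G, hG⟩ : ∃ G, G = B P P * B P P - B P Q ^ 2 := ⟨_, rfl⟩
    have hGneg : G < 0 := by rw [hG]; nlinarith
    have hGne : G ≠ 0 := hGneg.ne
    obtain ⟨κ, hκ⟩ : ∃ κ, κ = B x0 P := ⟨_, rfl⟩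
    obtain ⟨ω, hω⟩ : ∃ ω, ω = B x0 w := ⟨_, rfl⟩
    rw [← hκ, ← hω] at hid
    rw [← hκ] at hk
    have hsum : 0 < B P P + B P Q := by linarith
    have hdiff : B P P - B P Q < 0 := by linarith
    -- x0 = α m + β w
    have hx0 : ((B P P + B P Q) / κ) • x0 = x ((-e) * ((B P P + B P Q) / κ *
        (ω / 4 / G))) := by
      have h3 : x0 = (κ / (B P P + B P Q)) • (P + Q) + (ω / 4 / G) • w := by
        have h4 : G • x0 = G • ((κ / (B P P + B P Q)) • (P + Q) + (ω / 4 / G) • w) := by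
          rw [hG, hid, ← hG]
          have c1 : κ * B P P - κ * B P Q = G * (κ / (B P P + B P Q)) := by
            rw [hG]; field_simp; ring
          have c2 : ω / 4 = G * (ω / 4 / G) := by
            field_simp
          rw [smul_add, smul_smul, smul_smul, smul_add, ← c1, ← c2]
        exact smul_right_injective V hGneg.ne h4
      rw [hxdef]
      simp only
      conv_lhs => rw [h3]
      rw [smul_add, smul_smul, smul_smul, smul_smul]
      have d1 : (B P P + B P Q) / κ * (κ / (B P P + B P Q)) = 1 := by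
        field_simp
      have d2 : (-e) * ((B P P + B P Q) / κ * (ω / 4 / G)) * (-e) =
          (B P P + B P Q) / κ * (ω / 4 / G) := by
        linear_combination ((B P P + B P Q) / κ * (ω / 4 / G)) * hee
      rw [d1, d2, one_smul]
    refine ⟨(-e) * ((B P P + B P Q) / κ * (ω / 4 / G)), ?_⟩
    rw [hmemS, ← hx0]
    exact cell_smul hx1 (div_pos hsum hk)
  have hSbdd : BddAbove S := by
    refine ⟨1 + (2 * B P P + 2 * B P Q) / (-B w w), ?_⟩
    intro s hs
    rw [hmemS] at hs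
    have h1 : 0 < B (x s) (x s) := hs.1.2
    rw [hxx] at h1
    have h2 : s ^ 2 < (2 * B P P + 2 * B P Q) / (-B w w) := by
      rw [lt_div_iff₀ (by linarith)]
      linarith
    nlinarith [sq_nonneg (s - 1)]
  obtain ⟨R, hR⟩ := cell_bdd hΓ hP
  have hRpos : 0 < R := by
    -- the point P / sqrt
    have h1 : (1 / Real.sqrt (B P P)) • P ∈ Cell Γ P 1 := cell_smul (cell_one hP) (by positivity)
    have h2 : B ((1 / Real.sqrt (B P P)) • P) ((1 / Real.sqrt (B P P)) • P) = 1 := by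
      rw [B_smul_left, B_smul_right]
      have := Real.sq_sqrt hPP.le
      field_simp
      linarith
    exact lt_of_lt_of_le (Cone_tr_pos h1.1) (hR _ h1 h2)
  have htP := Cone_tr_pos hP
  have hS1 : ∀ s ∈ S, (B P P + B P Q) / tr P ≤ tr (x s) := by
    intro s hs
    rw [hmemS] at hs
    have h1 := te_up hs.1 hP
    rw [hxP] at h1
    rw [div_le_iff₀ htP]
    exact h1
  have hS2 : ∀ s ∈ S, ((B P P + B P Q) / tr P / R) ^ 2 ≤ B (x s) (x s) := by
    intro s hs
    have h0 := hS1 s hs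
    rw [hmemS] at hs
    have hpos : 0 < B (x s) (x s) := hs.1.2
    have h1 : (1 / Real.sqrt (B (x s) (x s))) • x s ∈ Cell Γ P 1 := cell_smul hs (by positivity)
    have hsq := Real.sq_sqrt hpos.le
    have h2 : B ((1 / Real.sqrt (B (x s) (x s))) • x s) ((1 / Real.sqrt (B (x s) (x s))) • x s)
        = 1 := by
      rw [B_smul_left, B_smul_right]
      field_simp
      linarith
    have h3 := hR _ h1 h2
    rw [tr_smul] at h3
    have h4 : tr (x s) ≤ R * Real.sqrt (B (x s) (x s)) := by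
      have h5 : 0 < Real.sqrt (B (x s) (x s)) := Real.sqrt_pos.2 hpos
      have h6 : 1 / Real.sqrt (B (x s) (x s)) * tr (x s) * Real.sqrt (B (x s) (x s)) =
          tr (x s) := by field_simp
      rw [← h6]
      exact mul_le_mul_of_nonneg_right h3 h5.le
    have h7 : (B P P + B P Q) / tr P / R ≤ Real.sqrt (B (x s) (x s)) := by
      rw [div_le_iff₀ hRpos]
      linarith
    have h8 : 0 ≤ (B P P + B P Q) / tr P / R := by positivity
    calc ((B P P + B P Q) / tr P / R) ^ 2 ≤ Real.sqrt (B (x s) (x s)) ^ 2 :=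
          pow_le_pow_left₀ h8 h7 2
      _ = _ := hsq
  -- the closed set
  have hTclosed : IsClosed {s : ℝ | (B P P + B P Q) / tr P ≤ tr (x s) ∧
      ((B P P + B P Q) / tr P / R) ^ 2 ≤ B (x s) (x s) ∧
      ∀ h ∈ Γ, B (x s) P ≤ B (x s) (act h P)} := by
    have c1 : IsClosed {s : ℝ | (B P P + B P Q) / tr P ≤ tr (x s)} :=
      isClosed_le continuous_const (continuous_tr.comp hxc)
    have c2 : IsClosed {s : ℝ | ((B P P + B P Q) / tr P / R) ^ 2 ≤ B (x s) (x s)} :=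
      isClosed_le continuous_const (continuous_BB.comp hxc)
    have c3 : IsClosed {s : ℝ | ∀ h ∈ Γ, B (x s) P ≤ B (x s) (act h P)} := by
      have : {s : ℝ | ∀ h ∈ Γ, B (x s) P ≤ B (x s) (act h P)} =
          ⋂ h : SL, ⋂ _ : h ∈ Γ, {s : ℝ | B (x s) P ≤ B (x s) (act h P)} := by
        ext s; simp
      rw [this]
      exact isClosed_iInter (fun h => isClosed_iInter (fun _ =>
        isClosed_le ((continuous_B P).comp hxc) ((continuous_B (act h P)).comp hxc)))
    exact c1.inter (c2.inter c3)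
  have hsup : sSup S ∈ {s : ℝ | (B P P + B P Q) / tr P ≤ tr (x s) ∧
      ((B P P + B P Q) / tr P / R) ^ 2 ≤ B (x s) (x s) ∧
      ∀ h ∈ Γ, B (x s) P ≤ B (x s) (act h P)} := by
    refine closure_minimal ?_ hTclosed (csSup_mem_closure hSne hSbdd)
    intro s hs
    refine ⟨hS1 s hs, hS2 s hs, ?_⟩
    rw [hmemS] at hs
    intro h hh
    have := hs.2 h hh
    rwa [h1P] at this
  obtain ⟨t1, t2, t3⟩ := hsup
  obtain ⟨sp, hsp⟩ : ∃ sp, sp = sSup S := ⟨_, rfl⟩
  rw [← hsp] at t1 t2 t3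
  have hsum : 0 < B P P + B P Q := by linarith
  have hqC : x sp ∈ Cone := te_pos (lt_of_lt_of_le (by positivity) t1)
    (lt_of_lt_of_le (by positivity) t2)
  have hq1 : x sp ∈ Cell Γ P 1 := by
    refine ⟨hqC, fun h hh => ?_⟩
    rw [h1P]
    exact t3 h hh
  have hqa : x sp ∈ Cell Γ P a := by
    refine ⟨hqC, fun h hh => ?_⟩
    rw [← hQdef, hxQ, ← hxP sp]
    exact t3 h hh
  obtain ⟨r, hr, hball, hloc⟩ := cell_locfin hΓ hP hqC
  obtain ⟨δ, hδ, hδ2⟩ := Metric.continuousAt_iff.1 (hxc.continuousAt (x := sp)) r hr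
  have hy : x (sp + δ / 2) ∈ Metric.ball (x sp) r := by
    refine Metric.mem_ball.2 (hδ2 ?_)
    rw [Real.dist_eq, add_sub_cancel_left, abs_of_pos (by linarith)]
    linarith
  have hyC : x (sp + δ / 2) ∈ Cone := hball hy
  obtain ⟨c, hcΓ, hc⟩ := cell_cover hΓ hP hyC
  have hqc : x sp ∈ Cell Γ P c := hloc c hcΓ _ hy hc
  have hnot : x (sp + δ / 2) ∉ Cell Γ P 1 := by
    intro hmem
    have h1 : sp + δ / 2 ∈ S := (hmemS _).2 hmem
    have h2 := le_csSup hSbdd h1
    rw [← hsp] at h2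
    linarith
  have hlt : B (x (sp + δ / 2)) (act c P) < B P P + B P Q := by
    by_contra hcon
    push Not at hcon
    refine hnot ⟨hyC, fun h hh => ?_⟩
    rw [h1P, hxP]
    exact hcon.trans (hc.2 h hh)
  have heq : B (x sp) (act c P) = B P P + B P Q := by
    have a1 := hqc.2 1 Γ.one_mem
    rw [h1P, hxP] at a1
    have a2 := t3 c hcΓ
    rw [hxP] at a2
    exact le_antisymm a1 a2
  have hcne1 : c ≠ 1 := by
    rintro rfl
    rw [h1P, hxP] at hlt
    exact lt_irrefl _ hlt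
  have hcnea : a ≠ c := by
    rintro rfl
    rw [← hQdef, hxQ] at hlt
    exact lt_irrefl _ hlt
  refine ⟨c, ⟨haΓ, hcΓ, ha1, hcne1, hcnea, x sp, hq1, hqa, hqc⟩, ?_⟩
  rw [← hQdef, ← hw1]
  rw [hxB] at hlt heq
  nlinarith



end Pool.Agent.SCD
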