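import Mathlib
import Pool.Agent.SCD.Basic
import Pool.Agent.SCD.L_B_pos
import Pool.Agent.SCD.L_cell_basic
import Pool.Agent.SCD.L_third_ne

set_option autoImplicit false

namespace Pool.Agent.SCD

open Filter Topology Set


private theorem tu_cramer (z P Q R R' : V) : B z R' * d3 P Q R =
    B z R * d3 P Q R' - B z Q * d3 P R R' + B z P * d3 Q R R' := by
  unfold B d3
  ring

private theorem tu_eq {Γ : Subgroup SL} {P : V} {a : SL} (ha : a ∈ Γ) {x : V} (h1 : x ∈ Cell Γ P 1)
    (h2 : x ∈ Cell Γ P a) : B x (act a P) = B x P := by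
  have e1 := h1.2 a ha
  have e2 := h2.2 1 Γ.one_mem
  rw [act_one] at e1 e2
  exact le_antisymm e2 e1

theorem third_unique {Γ : Subgroup SL} (hΓ : Good Γ) {P : V} (hP : Gen Γ P) {a c c' : SL}
    (h : Tri Γ P a c) (h' : Tri Γ P a c')
    (hs : 0 < d3 P (act a P) (act c P) * d3 P (act a P) (act c' P)) : c = c' := by
  obtain ⟨ha, hc, ha1, hc1, hac, x, hx1, hxa, hxc⟩ := h
  obtain ⟨_, hc', _, hc'1, hac', x', hx'1, hx'a, hx'c'⟩ := h'
  by_contra hne
  have hpos : 0 < B x P := B_pos hx1.1 (Cone_tr_pos hP.1) hP.1.2.le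
  have hpos' : 0 < B x' P := B_pos hx'1.1 (Cone_tr_pos hP.1) hP.1.2.le
  have e1 := tu_eq ha hx1 hxa
  have e2 := tu_eq hc hx1 hxc
  have e1' := tu_eq ha hx'1 hx'a
  have e2' := tu_eq hc' hx'1 hx'c'
  have i1 := hx1.2 c' hc'
  have i2 := hx'1.2 c hc
  rw [act_one] at i1 i2
  set Q := act a P with hQ
  set R := act c P with hR
  set R' := act c' P with hR'
  have hz := tu_cramer (B x P • x' - B x' P • x) P Q R R'
  have z1 : B (B x P • x' - B x' P • x) P = 0 := by
    rw [B_sub_left, B_smul_left, B_smul_left]; ring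
  have z2 : B (B x P • x' - B x' P • x) Q = 0 := by
    rw [B_sub_left, B_smul_left, B_smul_left, e1, e1']; ring
  have z3 : B (B x P • x' - B x' P • x) R = B x P * B x' R - B x' P * B x P := by
    rw [B_sub_left, B_smul_left, B_smul_left, e2]
  have z4 : B (B x P • x' - B x' P • x) R' = B x P * B x' P - B x' P * B x R' := by
    rw [B_sub_left, B_smul_left, B_smul_left, e2']
  rw [z1, z2, z3, z4] at hz
  have h3 : 0 ≤ B x P * B x' R - B x' P * B x P := by
    have := mul_le_mul_of_nonneg_left i2 hpos.le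
    linarith
  have h4 : B x P * B x' P - B x' P * B x R' ≤ 0 := by
    have := mul_le_mul_of_nonneg_left i1 hpos'.le
    linarith
  set D := d3 P Q R with hD
  set D' := d3 P Q R' with hD'
  have hD0 : D ≠ 0 := by
    intro h0
    rw [h0, zero_mul] at hs
    exact lt_irrefl _ hs
  have hD2 : 0 < D ^ 2 := by positivity
  have h5 : (B x P * B x' P - B x' P * B x R') * D ^ 2 =
      (B x P * B x' R - B x' P * B x P) * (D * D') := by
    linear_combination D * hz
  have h6 : 0 ≤ (B x P * B x' R - B x' P * B x P) * (D * D') := mul_nonneg h3 hs.le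
  have h7 : (B x P * B x' P - B x' P * B x R') * D ^ 2 ≤ 0 :=
    mul_nonpos_of_nonpos_of_nonneg h4 hD2.le
  have h8 : (B x P * B x' P - B x' P * B x R') * D ^ 2 = 0 := le_antisymm h7 (h5 ▸ h6)
  have h9 : B x P * B x' P - B x' P * B x R' = 0 := by
    rcases mul_eq_zero.mp h8 with h | h
    · exact h
    · exact absurd h hD2.ne'
  have h10 : B x R' = B x P := by
    have : B x' P * (B x R' - B x P) = 0 := by linarith
    rcases mul_eq_zero.mp this with h | h
    · exact absurd h hpos'.ne'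
    · linarith
  exact hP.2 a ha c hc c' hc' ha1 hc1 hc'1 hac hac' hne x hx1.1 ⟨e1, e2, h10⟩



end Pool.Agent.SCD
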