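import Mathlib
import Pool.Agent.SCD.Basic
import Pool.Agent.SCD.L_cell_basic
import Pool.Agent.SCD.L_nb_finite
import Pool.Agent.SCD.L_third_ne
import Pool.Agent.SCD.L_third_unique
import Pool.Agent.SCD.L_third_exists
import Pool.Agent.SCD.L_tri_sym
import Pool.Agent.SCD.L_nb_conn
import Pool.Agent.SCD.L_gen_exists
import Pool.Agent.SCD.L_nb_gen
import Pool.Agent.SCD.L_nb_pres
import Pool.Agent.SCD.L_alg
import Pool.Agent.SCD.L_no_common_fix

set_option autoImplicit false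

namespace Pool.Agent.SCD

open Filter Topology Set


private theorem tri_group_perm {A : Type*} (R : A → A → Prop) (h1 : ∀ a, ∃ c, R a c)
    (h2 : ∀ c, ∃ a, R a c) (u1 : ∀ a c c', R a c → R a c' → c = c')
    (u2 : ∀ a a' c, R a c → R a' c → a = a') :
    ∃ σ : Equiv.Perm A, ∀ a c, R a c ↔ σ a = c := by
  choose f hf using h1
  have hb : Function.Bijective f := by
    refine ⟨fun a a' h => u2 a a' (f a) (hf a) (by rw [h]; exact hf a'), fun c => ?_⟩
    obtain ⟨a, ha⟩ := h2 c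
    exact ⟨a, u1 _ _ _ (hf a) ha⟩
  refine ⟨Equiv.ofBijective f hb, fun a c => ⟨fun h => u1 _ _ _ (hf a) h, fun h => ?_⟩⟩
  rw [← h]
  exact hf a

private theorem tri_group_pow {A : Type*} [Finite A] (σ : Equiv.Perm A) (S : Set A)
    (h : ∀ a ∈ S, σ a ∈ S) (c : A) (hc : σ c ∈ S) : c ∈ S := by
  have h1 : ∀ n : ℕ, ∀ a ∈ S, (σ ^ n) a ∈ S := by
    intro n
    induction n with
    | zero => intro a ha; exact ha
    | succ n ih =>
      intro a ha
      rw [pow_succ, Equiv.Perm.mul_apply]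
      exact ih _ (h a ha)
  have h2 : 0 < orderOf σ := orderOf_pos σ
  obtain ⟨m, hm⟩ : ∃ m, orderOf σ = m + 1 := ⟨orderOf σ - 1, by omega⟩
  have h3 : (σ ^ (m + 1)) c = c := by
    rw [← hm, pow_orderOf_eq_one]
    rfl
  rw [pow_succ, Equiv.Perm.mul_apply] at h3
  rw [← h3]
  exact h1 m _ hc

/-- every good group embeds with finite index in a quotient of the modular group with a mirror automorphism -/
theorem tri_group {Γ : Subgroup SL} (hΓ : Good Γ) :
    ∃ (Λ : Type) (_ : Group Λ) (ψ : Γ →* Λ) (s t : Λ) (m : MulAut Λ) (d : ℕ),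
      Function.Injective ψ ∧ ψ.range.index ≠ 0 ∧ 0 < d ∧ s ^ d = 1 ∧ t ^ 2 = 1 ∧ (s * t) ^ 3 = 1 ∧
      Subgroup.closure {s, t} = ⊤ ∧ m s = s⁻¹ ∧ m t = t := by
  classical
  obtain ⟨P, hGen⟩ := gen_exists hΓ
  have hP : P ∈ Cone := hGen.1
  obtain ⟨A, hA⟩ : ∃ A : Set Γ, A = {a : Γ | (a : SL) ∈ Nb Γ P} := ⟨_, rfl⟩
  have hAmem : ∀ a : A, ((a : Γ) : SL) ∈ Nb Γ P := by
    rintro ⟨a, ha⟩
    rw [hA] at ha
    exact ha
  have hAmk : ∀ g : SL, g ∈ Nb Γ P → ∃ a : A, ((a : Γ) : SL) = g := by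
    intro g hg
    refine ⟨⟨⟨g, hg.1⟩, ?_⟩, rfl⟩
    rw [hA]
    exact hg
  have hAinj : ∀ a b : A, ((a : Γ) : SL) = ((b : Γ) : SL) → a = b := fun a b h =>
    Subtype.ext (Subtype.ext h)
  have hfin : A.Finite := by
    rw [hA]
    exact (nb_finite hΓ hP).preimage (Subtype.val_injective.injOn)
  have hgen : Subgroup.closure A = ⊤ := by
    rw [eq_top_iff]
    intro g _
    have h1 : (g : SL) ∈ Subgroup.closure (Nb Γ P) := nb_gen hΓ hP g.2
    have h2 : Nb Γ P = Γ.subtype '' A := by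
      ext x
      constructor
      · intro hx
        obtain ⟨a, ha⟩ := hAmk x hx
        exact ⟨a, a.2, ha⟩
      · rintro ⟨a, ha, rfl⟩
        exact hAmem ⟨a, ha⟩
    rw [h2, ← MonoidHom.map_closure] at h1
    obtain ⟨g', hg', he⟩ := h1
    have h3 : g' = g := Subtype.ext he
    rw [← h3]
    exact hg'
  have hne : A.Nonempty := by
    rw [Set.nonempty_iff_ne_empty]
    intro h0
    rw [h0, Subgroup.closure_empty] at hgen
    obtain ⟨g, hg, hgx⟩ := no_common_fix hΓ (bp 0)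
    apply hgx
    have h1 : (⟨g, hg⟩ : Γ) ∈ (⊥ : Subgroup Γ) := by
      rw [hgen]
      exact Subgroup.mem_top _
    rw [Subgroup.mem_bot] at h1
    have h2 : g = 1 := congrArg Subtype.val h1
    rw [h2, one_smul]
  have hinv : ∀ a ∈ A, a⁻¹ ∈ A := by
    intro a ha
    rw [hA] at ha ⊢
    exact nb_inv ha
  have hfinA : Finite A := hfin.to_subtype
  -- the rotation
  obtain ⟨R, hR⟩ : ∃ R : A → A → Prop, ∀ a c, R a c ↔ (Tri Γ P ((a : Γ) : SL) ((c : Γ) : SL) ∧
      0 < d3 P (act ((a : Γ) : SL) P) (act ((c : Γ) : SL) P)) := ⟨_, fun a c => Iff.rfl⟩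
  have hsw : ∀ X Y : V, d3 P Y X = - d3 P X Y := fun X Y => d3_swap23 P X Y
  obtain ⟨σ, hσ⟩ := tri_group_perm R
    (by
      intro a
      obtain ⟨c, hc1, hc2⟩ := third_exists hΓ hP (hAmem a) (e := 1) (Or.inl rfl)
      obtain ⟨c', hc'⟩ := hAmk c (tri_nb hc1).2.1
      refine ⟨c', (hR a c').2 ?_⟩
      rw [hc']
      exact ⟨hc1, by linarith⟩)
    (by
      intro c
      obtain ⟨a, ha1, ha2⟩ := third_exists hΓ hP (hAmem c) (e := -1) (Or.inr rfl)
      obtain ⟨a', ha'⟩ := hAmk a (tri_nb ha1).2.1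
      refine ⟨a', (hR a' c).2 ?_⟩
      rw [ha']
      refine ⟨tri_swap ha1, ?_⟩
      rw [hsw (act ((c : Γ) : SL) P) (act a P)]
      linarith)
    (by
      intro a c c' h h'
      obtain ⟨h1, h2⟩ := (hR _ _).1 h
      obtain ⟨h3, h4⟩ := (hR _ _).1 h'
      exact hAinj _ _ (third_unique hΓ hGen h1 h3 (mul_pos h2 h4)))
    (by
      intro a a' c h h'
      obtain ⟨h1, h2⟩ := (hR _ _).1 h
      obtain ⟨h3, h4⟩ := (hR _ _).1 h'
      refine hAinj _ _ (third_unique hΓ hGen (tri_swap h1) (tri_swap h3) ?_)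
      rw [hsw (act ((a : Γ) : SL) P) (act ((c : Γ) : SL) P),
        hsw (act ((a' : Γ) : SL) P) (act ((c : Γ) : SL) P)]
      nlinarith)
  have hcases : ∀ a c : A, Tri Γ P ((a : Γ) : SL) ((c : Γ) : SL) → σ a = c ∨ σ c = a := by
    intro a c h
    rcases lt_or_gt_of_ne (third_ne hΓ hP h) with h1 | h1
    · right
      rw [← hσ, hR]
      refine ⟨tri_swap h, ?_⟩
      rw [hsw (act ((a : Γ) : SL) P) (act ((c : Γ) : SL) P)]
      linarith
    · left
      rw [← hσ, hR]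
      exact ⟨h, h1⟩
  have hσR : ∀ a : A, Tri Γ P ((a : Γ) : SL) ((σ a : Γ) : SL) ∧
      0 < d3 P (act ((a : Γ) : SL) P) (act ((σ a : Γ) : SL) P) := fun a =>
    (hR a (σ a)).1 ((hσ a (σ a)).2 rfl)
  refine alg A hfin hne hgen hinv σ ?_ ?_ ?_
  · intro a
    obtain ⟨h1, h2⟩ := hσR a
    obtain ⟨h3, h4⟩ := tri_shift h1
    obtain ⟨c, hc⟩ := hAmk _ (tri_nb h1).2.2
    obtain ⟨b, hb⟩ := hAmk _ (nb_inv (hAmem a))
    refine ⟨c, ?_, ?_⟩
    · apply Subtype.ext
      rw [hc]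
      rfl
    · have h5 : σ c = b := by
        rw [← hσ, hR, hc, hb]
        exact ⟨h3, by rw [h4]; exact h2⟩
      rw [h5]
      apply Subtype.ext
      rw [hb]
      rfl
  · intro S hS hSc
    have hScl := tri_group_pow σ S hSc
    have h1 : {g : SL | ∃ a ∈ S, ((a : Γ) : SL) = g} = Nb Γ P := by
      apply nb_conn hΓ hP
      · rintro g ⟨a, _, rfl⟩
        exact hAmem a
      · obtain ⟨a, ha⟩ := hS
        exact ⟨_, a, ha, rfl⟩
      · rintro _ ⟨a, ha, rfl⟩ c hc
        obtain ⟨c', hc'⟩ := hAmk c (tri_nb hc).2.1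
        refine ⟨c', ?_, hc'⟩
        rw [← hc'] at hc
        rcases hcases a c' hc with h2 | h2
        · rw [← h2]
          exact hSc a ha
        · apply hScl
          rw [h2]
          exact ha
    ext a
    simp only [Set.mem_univ, iff_true]
    have h2 : ((a : Γ) : SL) ∈ {g : SL | ∃ a ∈ S, ((a : Γ) : SL) = g} := by
      rw [h1]
      exact hAmem a
    obtain ⟨a', ha', he⟩ := h2
    rw [← hAinj a' a he]
    exact ha'
  · intro L _ μ hμ1 hμ2
    obtain ⟨μ', hμ'⟩ : ∃ μ' : SL → L, ∀ a : A, μ' ((a : Γ) : SL) = μ a := by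
      refine ⟨fun g => if h : ∃ a : A, ((a : Γ) : SL) = g then μ h.choose else 1, fun a => ?_⟩
      have h : ∃ b : A, ((b : Γ) : SL) = ((a : Γ) : SL) := ⟨a, rfl⟩
      simp only
      rw [dif_pos h]
      congr 1
      exact hAinj _ _ h.choose_spec
    obtain ⟨Φ, hΦ⟩ := nb_pres hΓ hP μ'
      (by
        intro a ha
        obtain ⟨a', ha'⟩ := hAmk a ha
        obtain ⟨b', hb'⟩ := hAmk _ (nb_inv ha)
        rw [← hb', ← ha', hμ', hμ']
        apply hμ1
        apply Subtype.ext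
        rw [hb', ← ha']
        rfl)
      (by
        intro a c h
        obtain ⟨n1, n2, n3⟩ := tri_nb h
        obtain ⟨n4, n5, n6⟩ := tri_nb (tri_swap h)
        obtain ⟨a', ha'⟩ := hAmk a n1
        obtain ⟨c', hc'⟩ := hAmk c n2
        obtain ⟨e', he'⟩ := hAmk _ n3
        obtain ⟨f', hf'⟩ := hAmk _ n6
        rw [← he', ← ha', ← hc', hμ', hμ', hμ']
        rw [← ha', ← hc'] at h
        rcases hcases a' c' h with h2 | h2
        · have h3 := hμ2 a' e' (by
            apply Subtype.ext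
            rw [he', h2, ← ha', ← hc']
            rfl)
          rw [h3, h2]
        · have h3 := hμ2 c' f' (by
            apply Subtype.ext
            rw [hf', h2, ← ha', ← hc']
            rfl)
          have h4 := hμ1 f' e' (by
            apply Subtype.ext
            rw [he']
            change a⁻¹ * c = ((f' : Γ) : SL)⁻¹
            rw [hf', mul_inv_rev, inv_inv])
          rw [h2] at h3
          rw [h4, ← h3, mul_assoc, mul_inv_cancel, mul_one])
    refine ⟨Φ, fun a => ?_⟩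
    rw [hΦ a (hAmem a), hμ']



end Pool.Agent.SCD
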