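import Mathlib
import Pool.Agent.SCD.Basic
import Pool.Agent.SCD.L_tri_group
import Pool.Agent.SCD.L_eta_exists
import Pool.Agent.SCD.L_rot
import Pool.Agent.SCD.L_no_common_fix
import Pool.Agent.SCD.L_hyp_fix

set_option autoImplicit false

namespace Pool.Agent.SCD

open Filter Topology Set


private theorem not_all_OP_conj {Λ : Type} [Group Λ] (κ : MulAut Λ) (y : Λ) (h : κ y = y⁻¹) :
    κ * MulAut.conj y = (MulAut.conj y)⁻¹ * κ := by
  ext z
  simp only [MulAut.mul_apply, MulAut.conj_apply, map_mul, map_inv, h, MulAut.conj_inv_apply, inv_inv]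

private theorem not_all_OP_hyp {g : SL} (hg : 2 < |ea g + ed g|) (x : Bd) (hx : g • x ≠ x)
    (h : ∀ x : Bd, g • g • x = x) : False := by
  obtain ⟨xp, xm, hne, hfix, _, ht, _⟩ := hyp_fix hg
  have h1 : x ≠ xp := fun e => hx ((hfix x).2 (Or.inl e))
  have h2 : x ≠ xm := fun e => hx ((hfix x).2 (Or.inr e))
  have h3 : ∀ n : ℕ, g ^ (2 * n) • x = x := by
    intro n
    induction n with
    | zero => simp
    | succ n ih =>
      have : g ^ (2 * (n + 1)) = g * (g * g ^ (2 * n)) := by
        rw [show 2 * (n + 1) = 2 * n + 1 + 1 by ring, pow_succ', pow_succ']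
      rw [this, mul_smul, mul_smul, ih]
      exact h x
  have h4 : Tendsto (fun n : ℕ => 2 * n) atTop atTop :=
    Filter.tendsto_atTop_mono (fun n => by change n ≤ 2 * n; omega) tendsto_id
  have h5 := (ht x h2).comp h4
  have h6 : ((fun n : ℕ => g ^ n • x) ∘ fun n : ℕ => 2 * n) = fun _ => x := by
    funext n; exact h3 n
  rw [h6] at h5
  exact h1 (tendsto_nhds_unique tendsto_const_nhds h5)

/-- there is an orientation reversing commensuration -/
theorem not_all_OP {Γ : Subgroup SL} (hΓ : Good Γ) : ∃ h : Bd ≃ₜ Bd, IsComm Γ h ∧ ¬ OP h := by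
  by_contra hcon
  push Not at hcon
  obtain ⟨Λ, _, ψ, s, t, m, d, hinj, hidx, hd, hs, ht, hst, hcl, hms, hmt⟩ := tri_group hΓ
  choose η hηc hηe using fun α : MulAut Λ => eta_exists hΓ ψ hinj hidx α
  have hmul : ∀ (α β : MulAut Λ) (x : Bd), η (α * β) x = η α (η β x) := fun α β =>
    eta_unique hΓ ψ hinj hidx α β (hηe α) (hηe β) (hηe (α * β))
  have hone : ∀ x : Bd, η 1 x = x := by
    intro x
    have h := hmul 1 1 x
    rw [mul_one] at h
    exact ((η 1).injective h).symm
  have hpow : ∀ (α : MulAut Λ) (n : ℕ) (x : Bd), η (α ^ n) x = (η α)^[n] x := by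
    intro α n
    induction n with
    | zero => intro x; rw [pow_zero]; exact hone x
    | succ n ih =>
      intro x
      rw [pow_succ, hmul, ih, Function.iterate_succ_apply]
  have hinv : ∀ (α : MulAut Λ) (x : Bd), η α⁻¹ x = (η α).symm x := by
    intro α x
    have h : η α (η α⁻¹ x) = x := by
      rw [← hmul, mul_inv_cancel, hone]
    rw [eq_comm, Homeomorph.symm_apply_eq]
    exact h.symm
  have R : ∀ (α κ : MulAut Λ) (n : ℕ), 0 < n → α ^ n = 1 → κ * α = α⁻¹ * κ →
      ∀ x, η α (η α x) = x := by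
    intro α κ n hn hα hκ
    refine rot (hcon _ (hηc α)) (hcon _ (hηc κ)) hn ?_ ?_
    · intro x
      rw [← hpow, hα, hone]
    · intro x
      rw [← hmul, hκ, hmul, hinv]
  have hcs : ∀ x, η (MulAut.conj s) (η (MulAut.conj s) x) = x :=
    R _ m d hd (by rw [← map_pow, hs, map_one]) (not_all_OP_conj m s hms)
  have hct : ∀ x, η (MulAut.conj t) (η (MulAut.conj t) x) = x := by
    intro x
    rw [← hmul, ← sq, ← map_pow, ht, map_one, hone]
  have hcv : ∀ x, η (MulAut.conj (s * t)) (η (MulAut.conj (s * t)) x) = x := by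
    refine R _ (MulAut.conj t⁻¹ * m) 3 (by norm_num) (by rw [← map_pow, hst, map_one]) ?_
    apply not_all_OP_conj
    rw [MulAut.mul_apply, map_mul, hms, hmt, MulAut.conj_apply, inv_inv]
    have : t⁻¹ * (s⁻¹ * t) * t = t⁻¹ * s⁻¹ * t ^ 2 := by rw [sq]; group
    rw [this, ht, mul_one, mul_inv_rev]
  have hcv1 : ∀ x, η (MulAut.conj (s * t)) x = x := by
    intro x
    have h3 : η ((MulAut.conj (s * t)) ^ 3) x = x := by
      rw [← map_pow, hst, map_one, hone]
    rw [hpow] at h3
    simp only [Function.iterate_succ_apply, Function.iterate_zero, id] at h3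
    rw [hcv] at h3
    exact h3
  have hcst : ∀ x, η (MulAut.conj s) x = η (MulAut.conj t) x := by
    intro x
    have h := hcv1 (η (MulAut.conj t) x)
    rw [map_mul, hmul, hct] at h
    exact h
  have hall : ∀ y : Λ, (∀ x, η (MulAut.conj y) x = x) ∨
      (∀ x, η (MulAut.conj y) x = η (MulAut.conj t) x) := by
    intro y
    have hy : y ∈ Subgroup.closure ({s, t} : Set Λ) := by rw [hcl]; trivial
    induction hy using Subgroup.closure_induction with
    | mem z hz =>
      rcases hz with rfl | hz
      · exact Or.inr hcst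
      · rw [Set.mem_singleton_iff] at hz
        rw [hz]
        exact Or.inr fun _ => rfl
    | one => left; intro x; rw [map_one, hone]
    | mul a b _ _ ha hb =>
      rcases ha with ha | ha <;> rcases hb with hb | hb
      · left; intro x; rw [map_mul, hmul, hb, ha]
      · right; intro x; rw [map_mul, hmul, hb, ha]
      · right; intro x; rw [map_mul, hmul, hb, ha]
      · left; intro x; rw [map_mul, hmul, hb, ha, hct]
    | inv a _ ha =>
      rcases ha with ha | ha
      · left
        intro x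
        rw [map_inv, hinv, Homeomorph.symm_apply_eq, ha]
      · right
        intro x
        rw [map_inv, hinv, Homeomorph.symm_apply_eq, ha, hct]
  have hsq : ∀ (y : Λ) (x : Bd), η (MulAut.conj y) (η (MulAut.conj y) x) = x := by
    intro y x
    rcases hall y with h | h
    · rw [h, h]
    · rw [h, h, hct]
  have hsm : ∀ (g : Γ) (x : Bd), (g : SL) • x = η (MulAut.conj (ψ g)) x := by
    intro g x
    have key := eta_unique hΓ ψ hinj hidx (MulAut.conj (ψ g)) 1 (h := η (MulAut.conj (ψ g)))
      (h' := η 1) (h'' := sm (g : SL)) (hηe _) (hηe 1) ?_ x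
    · rw [hone] at key
      exact key
    · intro g1 g2 h12 z
      rw [mul_one, MulAut.conj_apply, ← map_mul, ← map_inv, ← map_mul] at h12
      have h13 := hinj h12
      rw [sm_apply, sm_apply, ← h13, ← mul_smul, ← mul_smul]
      congr 1
      simp
  obtain ⟨g, hg, hgx⟩ := no_common_fix hΓ (bp 0)
  have hg1 : g ≠ 1 := by
    rintro rfl
    exact hgx (one_smul _ _)
  refine not_all_OP_hyp (hΓ.hyp g hg hg1) (bp 0) hgx ?_
  intro x
  have h := hsm ⟨g, hg⟩
  simp only at h
  rw [h, h, hsq]


end Pool.Agent.SCD
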