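import Mathlib
import Pool.Agent.SCD.Basic
import Pool.Agent.SCD.L_main_OP
import Pool.Agent.SCD.L_not_all_OP
import Pool.Agent.SCD.L_lift_sm
import Pool.Agent.SCD.L_IsComm_trans
import Pool.Agent.SCD.L_IsComm_symm

set_option autoImplicit false

namespace Pool.Agent.SCD

open Filter Topology Set


private theorem main_Bd_rfl0 (x : Bd) : rfl0 (rfl0 x) = x := by
  apply Subtype.ext
  show ((x.1.1, - -x.1.2.1, x.1.2.2) : V) = x.1
  rw [neg_neg]

theorem main_Bd {Γ : Subgroup SL} (hΓ : Good Γ) (f : Bd ≃ₜ Bd) {ε : ℝ} (hε : 0 < ε) :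
    ∃ h : Bd ≃ₜ Bd, IsComm Γ h ∧ ∀ x, dist (h x) (f x) < ε := by
  rcases homeo_OP f with hf | hf
  · exact main_OP hΓ hf hε
  · obtain ⟨r, hr, hrn⟩ := not_all_OP hΓ
    have hC : OP (r.trans rfl0) := (homeo_OP r).resolve_left hrn
    have he : f.trans r = (f.trans rfl0).trans ((rfl0.trans (r.trans rfl0)).trans rfl0) := by
      apply Homeomorph.ext
      intro x
      show r (f x) = rfl0 (rfl0 (r (rfl0 (rfl0 (f x)))))
      rw [main_Bd_rfl0, main_Bd_rfl0]
    have hOP : OP (f.trans r) := by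
      rw [he]
      exact OP_trans hf (OP_conj_rfl hC)
    have hu : UniformContinuous r.symm :=
      CompactSpace.uniformContinuous_of_continuous r.symm.continuous
    obtain ⟨δ, hδ, hδ'⟩ := Metric.uniformContinuous_iff.1 hu ε hε
    obtain ⟨h', hh', hd⟩ := main_OP hΓ hOP hδ
    refine ⟨h'.trans r.symm, IsComm_trans hh' (IsComm_symm hr), ?_⟩
    intro x
    show dist (r.symm (h' x)) (f x) < ε
    have h1 : f x = r.symm (r (f x)) := by simp
    rw [h1]
    exact hδ' (hd x)



end Pool.Agent.SCD
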