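import Mathlib
import Pool.Agent.SCD.Basic
import Pool.Agent.SCD.L_det_hyp
import Pool.Agent.SCD.L_main_Bd

set_option autoImplicit false

namespace Pool.Agent.SCD

open Filter Topology Set


/-- the point of the boundary circle with affine coordinate `t` -/
private noncomputable def nuP (t : ℝ) : Bd :=
  ⟨(t ^ 2 / (t ^ 2 + 1), t / (t ^ 2 + 1), 1 / (t ^ 2 + 1)), by
    have h : t ^ 2 + 1 ≠ 0 := by positivity
    constructor
    · unfold tr; field_simp
    · unfold B; field_simp; ring⟩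

/-- the point at infinity -/
private noncomputable def nuI : Bd := ⟨(1, 0, 0), by constructor <;> simp [tr, B]⟩

/-- the parametrisation of the boundary circle by the projective line -/
private noncomputable def nu0 (x : OnePoint ℝ) : Bd := Option.elim x nuI nuP

private theorem nu0_some (t : ℝ) : nu0 (OnePoint.some t) = nuP t := rfl
private theorem nu0_infty : nu0 OnePoint.infty = nuI := rfl

private theorem nuP_val (t : ℝ) : (nuP t).1 = (t ^ 2 / (t ^ 2 + 1), t / (t ^ 2 + 1), 1 / (t ^ 2 + 1)) := rfl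

open Classical in
/-- the inverse of `nu0` -/
private noncomputable def nuInv (b : Bd) : OnePoint ℝ :=
  if b.1.2.2 = 0 then OnePoint.infty else OnePoint.some (b.1.2.1 / b.1.2.2)

private theorem nuInv_nu0 (x : OnePoint ℝ) : nuInv (nu0 x) = x := by
  induction x using OnePoint.rec with
  | infty => 
    rw [nu0_infty]
    unfold nuInv
    rw [if_pos]
    rfl
  | coe t =>
    rw [nu0_some]
    unfold nuInv
    have h : t ^ 2 + 1 ≠ 0 := by positivity
    rw [if_neg]
    · rw [nuP_val]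
      congr 1
      field_simp
    · rw [nuP_val]
      positivity

private theorem nu0_nuInv (b : Bd) : nu0 (nuInv b) = b := by
  obtain ⟨⟨x, y, z⟩, h1, h2⟩ := b
  unfold tr at h1
  unfold B at h2
  simp only at h1 h2
  unfold nuInv
  by_cases hz : z = 0
  · rw [if_pos hz, nu0_infty]
    apply Bd.ext
    show ((1 : ℝ), (0 : ℝ), (0 : ℝ)) = (x, y, z)
    subst hz
    have hy : y = 0 := by
      have : y * y = 0 := by linarith
      simpa using this
    have hx : x = 1 := by linarith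
    rw [hx, hy]
  · rw [if_neg hz, nu0_some]
    apply Bd.ext
    rw [nuP_val]
    show _ = (x, y, z)
    simp only
    have hx : x = 1 - z := by linarith
    have hy : y ^ 2 = z * (1 - z) := by subst hx; linarith
    have h3 : (y / z) ^ 2 + 1 = 1 / z := by
      field_simp
      linarith
    rw [h3]
    have e1 : (y / z) ^ 2 / (1 / z) = x := by
      field_simp
      rw [hy, hx]
    have e2 : (y / z) / (1 / z) = y := by
      field_simp
    have e3 : 1 / (1 / z) = z := by field_simp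
    rw [e1, e2, e3]

private theorem continuous_nuP : Continuous nuP := by
  apply Continuous.subtype_mk
  have h : ∀ t : ℝ, t ^ 2 + 1 ≠ 0 := fun t => by positivity
  fun_prop (disch := exact h _)

private theorem continuous_nu0 : Continuous nu0 := by
  rw [OnePoint.continuous_iff]
  refine ⟨?_, continuous_nuP⟩
  rw [nu0_infty, coclosedCompact_eq_cocompact]
  have hin : Topology.IsInducing (fun x : Bd => x.1) := Topology.IsInducing.subtypeVal
  rw [hin.tendsto_nhds_iff]
  have hn : Tendsto (fun t : ℝ => ‖t‖) (cocompact ℝ) atTop := tendsto_norm_cocompact_atTop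
  have h0 : Tendsto (fun t : ℝ => ‖t‖⁻¹) (cocompact ℝ) (𝓝 0) := tendsto_inv_atTop_zero.comp hn
  have hb : Tendsto (fun t : ℝ => t / (t ^ 2 + 1)) (cocompact ℝ) (𝓝 0) := by
    apply squeeze_zero_norm' _ h0
    filter_upwards [hn.eventually_gt_atTop 0] with t ht
    rw [norm_div, Real.norm_of_nonneg (by positivity : (0:ℝ) ≤ t ^ 2 + 1), inv_eq_one_div,
      div_le_div_iff₀ (by positivity) ht]
    rw [Real.norm_eq_abs] at *
    nlinarith [sq_abs t]
  have hc : Tendsto (fun t : ℝ => 1 / (t ^ 2 + 1)) (cocompact ℝ) (𝓝 0) := by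
    apply squeeze_zero_norm' _ h0
    filter_upwards [hn.eventually_gt_atTop 0] with t ht
    rw [norm_div, Real.norm_of_nonneg (by positivity : (0:ℝ) ≤ t ^ 2 + 1), inv_eq_one_div, norm_one,
      div_le_div_iff₀ (by positivity) ht]
    rw [Real.norm_eq_abs] at *
    nlinarith [sq_abs t, sq_nonneg (|t| - 1/2)]
  have ha : Tendsto (fun t : ℝ => t ^ 2 / (t ^ 2 + 1)) (cocompact ℝ) (𝓝 1) := by
    have : (fun t : ℝ => t ^ 2 / (t ^ 2 + 1)) = fun t => 1 - 1 / (t ^ 2 + 1) := by
      funext t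
      have h : t ^ 2 + 1 ≠ 0 := by positivity
      field_simp
      ring
    rw [this]
    simpa using hc.const_sub 1
  exact ha.prodMk_nhds (hb.prodMk_nhds hc)

private theorem nuP_smul (g : SL) (t : ℝ) (h : ec g * t + ed g ≠ 0) :
    nuP ((ea g * t + eb g) / (ec g * t + ed g)) = g • nuP t := by
  apply Bd.ext
  rw [smul_val, nuP_val, nuP_val]
  have ht : t ^ 2 + 1 ≠ 0 := by positivity
  have hs : (ea g * t + eb g) ^ 2 + (ec g * t + ed g) ^ 2 ≠ 0 := by positivity
  have e1 : act g (t ^ 2 / (t ^ 2 + 1), t / (t ^ 2 + 1), 1 / (t ^ 2 + 1)) =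
      ((ea g * t + eb g) ^ 2 / (t ^ 2 + 1), (ea g * t + eb g) * (ec g * t + ed g) / (t ^ 2 + 1),
        (ec g * t + ed g) ^ 2 / (t ^ 2 + 1)) := by
    unfold act
    simp only
    refine Prod.ext ?_ (Prod.ext ?_ ?_) <;> simp only <;> field_simp <;> ring
  have e2 : tr ((ea g * t + eb g) ^ 2 / (t ^ 2 + 1),
      (ea g * t + eb g) * (ec g * t + ed g) / (t ^ 2 + 1),
        (ec g * t + ed g) ^ 2 / (t ^ 2 + 1)) =
      ((ea g * t + eb g) ^ 2 + (ec g * t + ed g) ^ 2) / (t ^ 2 + 1) := by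
    unfold tr
    simp only
    ring
  rw [e1, e2]
  have e3 : ((ea g * t + eb g) / (ec g * t + ed g)) ^ 2 + 1 =
      ((ea g * t + eb g) ^ 2 + (ec g * t + ed g) ^ 2) / (ec g * t + ed g) ^ 2 := by
    rw [div_pow, div_add_one (pow_ne_zero 2 h)]
  rw [e3]
  generalize ea g * t + eb g = p at *
  generalize ec g * t + ed g = q at *
  refine Prod.ext ?_ (Prod.ext ?_ ?_)
  · simp only [Prod.smul_fst, smul_eq_mul]
    field_simp
  · simp only [Prod.smul_fst, Prod.smul_snd, smul_eq_mul]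
    field_simp
  · simp only [Prod.smul_fst, Prod.smul_snd, smul_eq_mul]
    field_simp

/-- the homeomorphism between the projective line and the boundary circle -/
private noncomputable def nu : OnePoint ℝ ≃ₜ Bd :=
  Continuous.homeoOfEquivCompactToT2 (f := ⟨nu0, nuInv, nuInv_nu0, nu0_nuInv⟩) continuous_nu0

private theorem nu_some (t : ℝ) : nu (OnePoint.some t) = nuP t := rfl

/-- the frozen statement -/
theorem final :
    ∀ Γ : Subgroup (Matrix.SpecialLinearGroup (Fin 2) ℝ),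
      (∃ ε : ℝ, 0 < ε ∧ ∀ γ ∈ Γ,
        (∀ i j : Fin 2, |(γ : Matrix (Fin 2) (Fin 2) ℝ) i j
            - (1 : Matrix (Fin 2) (Fin 2) ℝ) i j| < ε) → γ = 1) →
      (∀ γ ∈ Γ, ∀ n : ℕ, 0 < n → γ ^ n = 1 → γ = 1) →
      (∃ C : ℝ, ∀ A : Matrix.SpecialLinearGroup (Fin 2) ℝ, ∃ γ ∈ Γ, ∀ i j : Fin 2,
        |((γ⁻¹ * A : Matrix.SpecialLinearGroup (Fin 2) ℝ) : Matrix (Fin 2) (Fin 2) ℝ) i j| ≤ C) →
      ∀ f : OnePoint ℝ ≃ₜ OnePoint ℝ,
        ContinuousMap.mk (⇑f) f.continuous ∈ closure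
          {k : C(OnePoint ℝ, OnePoint ℝ) | ∃ h : OnePoint ℝ ≃ₜ OnePoint ℝ,
            ContinuousMap.mk (⇑h) h.continuous = k ∧
            ∃ H K : Subgroup (Matrix.SpecialLinearGroup (Fin 2) ℝ),
              H ≤ Γ ∧ K ≤ Γ ∧ (H.subgroupOf Γ).index ≠ 0 ∧ (K.subgroupOf Γ).index ≠ 0 ∧
              ∃ φ : H ≃* K, ∀ g : H, ∀ x y : ℝ,
                ((g : Matrix.SpecialLinearGroup (Fin 2) ℝ) : Matrix (Fin 2) (Fin 2) ℝ) 1 0 * x
                  + ((g : Matrix.SpecialLinearGroup (Fin 2) ℝ) : Matrix (Fin 2) (Fin 2) ℝ) 1 1 ≠ 0 →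
                h (OnePoint.some x) = OnePoint.some y →
                (((φ g : K) : Matrix.SpecialLinearGroup (Fin 2) ℝ) : Matrix (Fin 2) (Fin 2) ℝ) 1 0 * y
                  + (((φ g : K) : Matrix.SpecialLinearGroup (Fin 2) ℝ) : Matrix (Fin 2) (Fin 2) ℝ) 1 1 ≠ 0 →
                h (OnePoint.some
                    ((((g : Matrix.SpecialLinearGroup (Fin 2) ℝ) : Matrix (Fin 2) (Fin 2) ℝ) 0 0 * x
                      + ((g : Matrix.SpecialLinearGroup (Fin 2) ℝ) : Matrix (Fin 2) (Fin 2) ℝ) 0 1) /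
                     (((g : Matrix.SpecialLinearGroup (Fin 2) ℝ) : Matrix (Fin 2) (Fin 2) ℝ) 1 0 * x
                      + ((g : Matrix.SpecialLinearGroup (Fin 2) ℝ) : Matrix (Fin 2) (Fin 2) ℝ) 1 1)))
                  = OnePoint.some
                    (((((φ g : K) : Matrix.SpecialLinearGroup (Fin 2) ℝ) : Matrix (Fin 2) (Fin 2) ℝ) 0 0 * y
                      + (((φ g : K) : Matrix.SpecialLinearGroup (Fin 2) ℝ) : Matrix (Fin 2) (Fin 2) ℝ) 0 1) /
                     ((((φ g : K) : Matrix.SpecialLinearGroup (Fin 2) ℝ) : Matrix (Fin 2) (Fin 2) ℝ) 1 0 * y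
                      + (((φ g : K) : Matrix.SpecialLinearGroup (Fin 2) ℝ) : Matrix (Fin 2) (Fin 2) ℝ) 1 1))} := by
  intro Γ h1 h2 h3 f
  have hG := good_of h1 h2 h3
  let f' : Bd ≃ₜ Bd := nu.symm.trans (f.trans nu)
  have hcl : (ContinuousMap.mk (⇑f') f'.continuous : C(Bd, Bd)) ∈
      closure {k : C(Bd, Bd) | ∃ h : Bd ≃ₜ Bd, ContinuousMap.mk (⇑h) h.continuous = k ∧
        IsComm Γ h} := by
    rw [Metric.mem_closure_iff]
    intro ε hε
    obtain ⟨h, hc, hd⟩ := main_Bd hG f' hε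
    refine ⟨ContinuousMap.mk (⇑h) h.continuous, ⟨h, rfl, hc⟩, ?_⟩
    rw [ContinuousMap.dist_lt_iff hε]
    intro x
    rw [dist_comm]
    exact hd x
  let n1 : C(OnePoint ℝ, Bd) := ⟨nu, nu.continuous⟩
  let n2 : C(Bd, OnePoint ℝ) := ⟨nu.symm, nu.symm.continuous⟩
  have hΦ : Continuous (fun k : C(Bd, Bd) => n2.comp (k.comp n1)) :=
    (ContinuousMap.continuous_postcomp n2).comp (ContinuousMap.continuous_precomp n1)
  have hmaps : ∀ k ∈ {k : C(Bd, Bd) | ∃ h : Bd ≃ₜ Bd, ContinuousMap.mk (⇑h) h.continuous = k ∧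
        IsComm Γ h}, n2.comp (k.comp n1) ∈
          {k : C(OnePoint ℝ, OnePoint ℝ) | ∃ h : OnePoint ℝ ≃ₜ OnePoint ℝ,
            ContinuousMap.mk (⇑h) h.continuous = k ∧
            ∃ H K : Subgroup (Matrix.SpecialLinearGroup (Fin 2) ℝ),
              H ≤ Γ ∧ K ≤ Γ ∧ (H.subgroupOf Γ).index ≠ 0 ∧ (K.subgroupOf Γ).index ≠ 0 ∧
              ∃ φ : H ≃* K, ∀ g : H, ∀ x y : ℝ,
                ec (g : SL) * x + ed (g : SL) ≠ 0 →
                h (OnePoint.some x) = OnePoint.some y →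
                ec ((φ g : K) : SL) * y + ed ((φ g : K) : SL) ≠ 0 →
                h (OnePoint.some ((ea (g : SL) * x + eb (g : SL)) / (ec (g : SL) * x + ed (g : SL))))
                  = OnePoint.some ((ea ((φ g : K) : SL) * y + eb ((φ g : K) : SL)) /
                    (ec ((φ g : K) : SL) * y + ed ((φ g : K) : SL)))} := by
    rintro k hk
    obtain ⟨h, rfl, H, K, hH, hK, iH, iK, φ, hφ⟩ := hk
    refine ⟨nu.trans (h.trans nu.symm), ?_, H, K, hH, hK, iH, iK, φ, ?_⟩
    · ext x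
      rfl
    · intro g x y hx hxy hy
      have e1 : h (nuP x) = nuP y := by
        have : nu (nu.symm (h (nu (OnePoint.some x)))) = nu (OnePoint.some y) := by
          rw [← hxy]; rfl
        rw [Homeomorph.apply_symm_apply] at this
        exact this
      show nu.symm (h (nu (OnePoint.some _))) = _
      rw [nu_some, nuP_smul _ _ hx, hφ, e1, ← nuP_smul _ _ hy, ← nu_some,
        Homeomorph.symm_apply_apply]
  have key := map_mem_closure hΦ hcl hmaps
  have e2 : n2.comp ((ContinuousMap.mk (⇑f') f'.continuous : C(Bd, Bd)).comp n1) =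
      ContinuousMap.mk (⇑f) f.continuous := by
    ext x
    show nu.symm (nu (f (nu.symm (nu x)))) = f x
    rw [Homeomorph.symm_apply_apply, Homeomorph.symm_apply_apply]
  rw [← e2]
  exact key



end Pool.Agent.SCD
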